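import Pool.Agent.X259.U.U30

/-!
# More than half of the classes of one degree decide in low degrees
-/

set_option autoImplicit false
set_option linter.unusedSectionVars false
set_option linter.unusedDecidableInType false
set_option linter.unusedFintypeInType false

namespace Pool.Agent.X259.U

open Matrix Finset Module Pool.Agent.H204R3.SP Pool.Agent.H204R3.GP Pool.Agent.W516
  Pool.Agent.X259.T
open scoped ComplexOrder TensorProduct

noncomputable section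

/-- The numerical bound for low degrees. -/
lemma half_deg {d r m : ℕ} (hd : 2 ≤ d) (hr : 1 ≤ r)
    (hm : 8 * d ^ 3 * r ^ 2 * (Nat.log 2 (2 * d * r) + 1) ≤ m) :
    ((m : ℝ) + 1) ^ (d * d) *
      (((m : ℝ) + 1) * ((d : ℝ) - 2 * (1 - Real.cos (Real.pi / (2 * ((2 * r : ℕ) : ℝ))))) ^
        (2 * m)) < (d : ℝ) ^ (2 * m) := by
  have hd0 : (0 : ℝ) < d := by
    have : 0 < d := by omega
    exact_mod_cast this
  have hd2 : (2 : ℝ) ≤ d := by exact_mod_cast hd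
  obtain ⟨N, hN⟩ : ∃ N : ℕ, N = 2 * r := ⟨_, rfl⟩
  rw [← hN]
  have hN2 : 2 ≤ N := by omega
  have hNR : (2 : ℝ) ≤ N := by exact_mod_cast hN2
  have hN0 : (0 : ℝ) < N := by linarith
  have hx0 : 0 ≤ Real.pi / (2 * N) := by positivity
  have hcos1 : 1 / (2 * (N : ℝ) ^ 2) ≤ 1 - Real.cos (Real.pi / (2 * N)) := by
    have h1 := Real.cos_le_one_sub_mul_cos_sq (x := Real.pi / (2 * N)) (by
      rw [abs_of_nonneg hx0, div_le_iff₀ (by positivity)]
      have := Real.pi_pos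
      nlinarith)
    have h2 : 2 / Real.pi ^ 2 * (Real.pi / (2 * N)) ^ 2 = 1 / (2 * (N : ℝ) ^ 2) := by
      have := Real.pi_ne_zero
      field_simp
    rw [h2] at h1
    linarith
  refine half_of_log (by omega) ?_ ?_
  · have h1 : 0 ≤ Real.cos (Real.pi / (2 * N)) := by
      apply Real.cos_nonneg_of_neg_pi_div_two_le_of_le
      · have := Real.pi_pos
        linarith
      · rw [div_le_div_iff₀ (by positivity) (by norm_num)]
        have := Real.pi_pos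
        nlinarith
    linarith
  set L := Nat.log 2 (2 * d * r) + 1 with hL
  have hL2 : 2 ≤ L := by
    have h1 : 1 ≤ Nat.log 2 (2 * d * r) :=
      (Nat.le_log_iff_pow_le (by norm_num) (by positivity)).2 (by nlinarith)
    omega
  have hMN : 8 * d ^ 3 * r ^ 2 * L = 2 * N ^ 2 * d ^ 3 * L := by
    rw [hN]
    ring
  rw [hMN] at hm
  have hM0 : 0 < 2 * N ^ 2 * d ^ 3 * L := by positivity
  have hdL : d * N < 2 ^ L := by
    have h1 : 2 * d * r < 2 ^ L := Nat.lt_pow_succ_log_self (by norm_num) (2 * d * r)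
    rw [hN]
    calc d * (2 * r) = 2 * d * r := by ring
      _ < _ := h1
  have hLL : 2 * L ≤ 2 ^ L := by
    obtain ⟨l, hl⟩ : ∃ l, L = l + 1 := ⟨L - 1, by omega⟩
    have h1 : l < 2 ^ l := Nat.lt_two_pow_self
    rw [hl, pow_succ]
    omega
  have hM16 : 2 * N ^ 2 * d ^ 3 * L + 1 ≤ 2 ^ (4 * L) := by
    have h1 : (d * N) ^ 3 < (2 ^ L) ^ 3 := Nat.pow_lt_pow_left hdL (by norm_num)
    have h0 : N ^ 2 * d ^ 3 ≤ (d * N) ^ 3 := by
      calc N ^ 2 * d ^ 3 = d ^ 3 * N ^ 2 := by ring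
        _ ≤ d ^ 3 * N ^ 3 := Nat.mul_le_mul_left _ (Nat.pow_le_pow_right (by omega) (by norm_num))
        _ = _ := by ring
    have h2 : N ^ 2 * d ^ 3 * (2 * L) < (2 ^ L) ^ 3 * 2 ^ L :=
      lt_of_lt_of_le (Nat.mul_lt_mul_of_pos_right (lt_of_le_of_lt h0 h1) (by omega))
        (Nat.mul_le_mul_left _ hLL)
    have h3 : 2 ^ (4 * L) = (2 ^ L) ^ 3 * 2 ^ L := by
      rw [← pow_succ, ← pow_mul]
      ring
    rw [h3]
    have h4 : 2 * N ^ 2 * d ^ 3 * L = N ^ 2 * d ^ 3 * (2 * L) := by ring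
    rw [h4]
    omega
  have hLR : (2 : ℝ) ≤ L := by exact_mod_cast hL2
  have hlog : Real.log (((2 * N ^ 2 * d ^ 3 * L : ℕ) : ℝ) + 1) < 2.8 * L := by
    have h1 : (((2 * N ^ 2 * d ^ 3 * L : ℕ) : ℝ) + 1) ≤ (2 : ℝ) ^ (4 * L) := by
      exact_mod_cast hM16
    have h2 : Real.log (((2 * N ^ 2 * d ^ 3 * L : ℕ) : ℝ) + 1) ≤ (4 * L) * Real.log 2 := by
      have h3 := Real.log_le_log (by positivity) h1
      rw [Real.log_pow] at h3
      push_cast at h3 ⊢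
      exact h3
    have h5 := Real.log_two_lt_d9
    nlinarith
  have h1 : ((d : ℝ) * d + 1) * Real.log (((2 * N ^ 2 * d ^ 3 * L : ℕ) : ℝ) + 1) <
      (2 / (d * (N : ℝ) ^ 2)) * ((2 * N ^ 2 * d ^ 3 * L : ℕ) : ℝ) := by
    have h2 : (2 / (d * (N : ℝ) ^ 2)) * ((2 * N ^ 2 * d ^ 3 * L : ℕ) : ℝ) =
        (d : ℝ) * d * (4 * L) := by
      push_cast
      field_simp
      ring
    rw [h2]
    have h3 : (d : ℝ) * d + 1 ≤ 1.25 * ((d : ℝ) * d) := by nlinarith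
    have h4 : 0 ≤ Real.log (((2 * N ^ 2 * d ^ 3 * L : ℕ) : ℝ) + 1) := Real.log_nonneg (by
      have : (0 : ℝ) ≤ ((2 * N ^ 2 * d ^ 3 * L : ℕ) : ℝ) := Nat.cast_nonneg _
      linarith)
    calc ((d : ℝ) * d + 1) * Real.log (((2 * N ^ 2 * d ^ 3 * L : ℕ) : ℝ) + 1) ≤
        1.25 * ((d : ℝ) * d) * Real.log (((2 * N ^ 2 * d ^ 3 * L : ℕ) : ℝ) + 1) :=
          mul_le_mul_of_nonneg_right h3 h4
      _ < 1.25 * ((d : ℝ) * d) * (2.8 * L) := mul_lt_mul_of_pos_left hlog (by positivity)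
      _ ≤ (d : ℝ) * d * (4 * L) := by
          have h6 : (0 : ℝ) ≤ (d : ℝ) * d * L := by positivity
          nlinarith
  have h2 := log_mono hM0 (by positivity) h1 hm
  refine lt_of_lt_of_le h2 ?_
  have h3 : 2 * (m : ℝ) * (2 * (1 - Real.cos (Real.pi / (2 * N))) / d) =
      (4 / d) * m * (1 - Real.cos (Real.pi / (2 * N))) := by ring
  have h4 : 2 / (d * (N : ℝ) ^ 2) * m = (4 / d) * m * (1 / (2 * (N : ℝ) ^ 2)) := by
    field_simp
    ring
  rw [h3, h4]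
  exact mul_le_mul_of_nonneg_left hcos1 (by positivity)

section frame

variable {W : Type} [AddCommGroup W] [Module ℚ W] {R : Type} [Fintype R] [DecidableEq R]
  {T : Type} [AddCommGroup T] [Module ℂ T] {Q : Type} [DecidableEq Q]
  {per : W →+ T} {ω₀ : W →ₗ[ℚ] W →ₗ[ℚ] ℚ} {b : Basis R ℚ W} {b' : Basis R ℝ T} {cls : R → Q}
  {inv : R → R} {jj : R → ℂ} {S S' : Matrix R R ℂ} (hf : Frame per ω₀ b b' cls inv jj S S')

include hf in
/-- **More than half decide in low degrees**, in coordinates, for families of rational classes. -/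
theorem low_frame {ι : Type} [Fintype ι] [DecidableEq ι] {β β' : ι → W}
    (hcl : ∀ x y, cls x = cls y) (hβ : ∀ w : W, w = ∑ i, ω₀ w (β' i) • β i)
    {C B : ∀ m : ℕ, Submodule ℚ (RF W m)}
    (hC : Closed ω₀ β β' C) (hstC : StarStable b b' C)
    (hB : Closed ω₀ β β' B) (hstB : StarStable b b' B) (hCB : ∀ m, C m ≤ B m)
    {N : ℕ} (hN : 1 ≤ N) {m : ℕ}
    (hnum : ((m : ℝ) + 1) ^ (Fintype.card R * Fintype.card R) *
      (((m : ℝ) + 1) * ((Fintype.card R : ℝ) - 2 * (1 - Real.cos (Real.pi / (2 * N)))) ^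
        (2 * m)) <
        (Fintype.card R : ℝ) ^ (2 * m))
    (hhalf : (m + 2) * finrank ℚ (B m) ≤ (2 * m + 2) * finrank ℚ (C m)) {m' : ℕ}
    (hm' : 2 * m' ≤ N) : B m' ≤ C m' := by
  intro ψ hψ
  have hCf := fam' hf hcl hβ hC hstC
  have hBf := fam' hf hcl hβ hB hstB
  have hle : ∀ κ : Type, Fm S b C κ ≤ Fm S b B κ := by
    intro κ
    refine Submodule.span_mono ?_
    rintro F ⟨m, e, ψ, hψ, rfl⟩
    exact ⟨m, e, ψ, hCB m hψ, rfl⟩
  have h1 := half_low hf.bas hCf hBf hle (fun n hn F hF => odd_zero hn hF) hN hm' (m := m)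
    (by
      rw [finrank_Fm hf.one' b hB.perm (eqv m), finrank_Fm hf.one' b hC.perm (eqv m)]
      exact hhalf) hnum
  have h2 := ri_mem (S := S) (b := b) (eqv m').symm
    (h1 (gen_mem (S := S) (b := b) (eqv m') hψ))
  rw [ri_ri, Equiv.self_trans_symm] at h2
  exact mem_of_Fm hf hC.perm h2

include hf in
/-- **More than half decide in low degrees**, in coordinates, for abelian varieties. -/
theorem low_frame_ab {ι : Type} [Fintype ι] [DecidableEq ι] {β β' : ι → W}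
    (hcl : ∀ x y, cls x = cls y) (hβ : ∀ w : W, w = ∑ i, ω₀ w (β' i) • β i)
    (hωH : IsHodgeBilinear per ω₀) {C : ∀ m : ℕ, Submodule ℚ (RF W m)}
    (hC : Closed ω₀ β β' C) (hH : ∀ m, ∀ ψ ∈ C m, IsHodgeTensor per ψ)
    {N : ℕ} (hN : 1 ≤ N) {m : ℕ}
    (hnum : ((m : ℝ) + 1) ^ (Fintype.card R * Fintype.card R) *
      (((m : ℝ) + 1) * ((Fintype.card R : ℝ) - 2 * (1 - Real.cos (Real.pi / (2 * N)))) ^
        (2 * m)) < (Fintype.card R : ℝ) ^ (2 * m))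
    (hhalf : (m + 2) * finrank ℚ (Hd per m) ≤ (2 * m + 2) * finrank ℚ (C m)) {m' : ℕ}
    (hm' : 2 * m' ≤ N) (ψ : RF W m') (hψ : IsHodgeTensor per ψ) : ψ ∈ C m' := by
  have hCf := fam hf hcl hβ hC hH
  have hcl' := closed_hd hf hωH hβ
  have hBf := fam hf hcl hβ hcl' (fun m ψ hψ => hψ)
  have hle : ∀ κ : Type, Fm S b C κ ≤ Fm S b (Hd per) κ := by
    intro κ
    refine Submodule.span_mono ?_
    rintro F ⟨m, e, ψ, hψ, rfl⟩
    exact ⟨m, e, ψ, hH m ψ hψ, rfl⟩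
  have h1 := half_low hf.bas hCf hBf hle (fun n hn F hF => odd_zero hn hF) hN hm' (m := m)
    (by
      rw [finrank_Fm hf.one' b hcl'.perm (eqv m), finrank_Fm hf.one' b hC.perm (eqv m)]
      exact hhalf) hnum
  have h2 := ri_mem (S := S) (b := b) (eqv m').symm
    (h1 (gen_mem (S := S) (b := b) (eqv m') hψ))
  rw [ri_ri, Equiv.self_trans_symm] at h2
  exact mem_of_Fm hf hC.perm h2

end frame

section abelian

variable {W T : Type} [AddCommGroup W] [Module ℚ W] [AddCommGroup T] [Module ℂ T]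
  {per : W →+ T} {ω₀ : W →ₗ[ℚ] W →ₗ[ℚ] ℚ}

/-- **More than half decide in low degrees**, for abelian varieties. -/
theorem hodge_low [FiniteDimensional ℚ W] (hper : DR.IsRationalStructure per)
    (hω : ∃ E : T →ₗ[ℝ] T →ₗ[ℝ] ℝ, (∀ x y, E (per x) (per y) = ω₀ x y) ∧
      (∀ z : ℂ, ‖z‖ = 1 → ∀ u v, E (z • u) (z • v) = E u v) ∧ (∀ u, E u u = 0) ∧
      ∀ u, u ≠ 0 → 0 < E (Complex.I • u) u)
    {ι : Type} [Fintype ι] [DecidableEq ι] {β β' : ι → W}
    (hβ : ∀ w : W, w = ∑ i, ω₀ w (β' i) • β i)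
    {C : ∀ m : ℕ, Submodule ℚ (RF W m)} (hC : Closed ω₀ β β' C)
    (hH : ∀ m, ∀ ψ ∈ C m, IsHodgeTensor per ψ) (hd : 2 ≤ finrank ℚ W) {r m : ℕ} (hr : 1 ≤ r)
    (hm : 8 * finrank ℚ W ^ 3 * r ^ 2 * (Nat.log 2 (2 * finrank ℚ W * r) + 1) ≤ m)
    {B : Submodule ℚ (RF W m)} (hB : ∀ ψ : RF W m, ψ ∈ B ↔ IsHodgeTensor per ψ)
    (hhalf : (m + 2) * finrank ℚ B ≤ (2 * m + 2) * finrank ℚ (C m)) {m' : ℕ} (hm' : m' ≤ r)
    (ψ : RF W m') (hψ : IsHodgeTensor per ψ) : ψ ∈ C m' := by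
  have hB' : B = Hd per m := by
    ext ψ
    rw [hB]
    rfl
  rw [hB'] at hhalf
  have hnum := half_deg hd hr hm
  obtain ⟨g, b, b', S, S', hf⟩ := exists_frame per ω₀ hper hω
  have hωH : IsHodgeBilinear per ω₀ := by
    obtain ⟨E, hE, hinv, _⟩ := hω
    exact ⟨E, hE, hinv⟩
  have hd' : finrank ℚ W = Fintype.card (Fin g ⊕ Fin g) := finrank_eq_card_basis b
  rw [hd'] at hnum
  exact low_frame_ab hf (fun _ _ => rfl) hβ hωH hC hH (by omega) hnum hhalf (by omega) ψ hψ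

end abelian

section coordinates

variable {V : Type} [AddCommGroup V] [Module ℚ V] {n : ℕ}
  {e : Basis (Fin n) ℚ V} {Q : V →ₗ[ℚ] V →ₗ[ℚ] ℚ} {ε : Module.End ℚ V}
  {P P' : Matrix (Fin n) (Fin n) ℂ} {k : Fin n → ℤ} (hd : HD e Q ε P P' k)
  {ι : Type} [Fintype ι] [DecidableEq ι] {γ γ' : ι → V}
  (hγ : ∀ v : V, v = ∑ i, Q v (γ' i) • γ i)

include hd hγ in
/-- **More than half decide in low degrees**, in coordinates. -/
theorem low_hd {C : ∀ m : ℕ, Submodule ℚ (RF V m)} (hC : Closed Q γ γ' C)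
    (hCB : ∀ m, C m ≤ Ann e (wt P P' k) m) {N₀ : ℕ} (hN : 1 ≤ N₀) {m : ℕ}
    (hnum : ((m : ℝ) + 1) ^ (2 * n * (2 * n)) *
      (((m : ℝ) + 1) * (((2 * n : ℕ) : ℝ) - 2 * (1 - Real.cos (Real.pi / (2 * N₀)))) ^ (2 * m)) <
        ((2 * n : ℕ) : ℝ) ^ (2 * m))
    (hhalf : (m + 2) * finrank ℚ (Ann e (wt P P' k) m) ≤ (2 * m + 2) * finrank ℚ (C m)) {m' : ℕ}
    (hm' : 2 * m' ≤ N₀) : Ann e (wt P P' k) m' ≤ C m' := by
  obtain ⟨S, S', hf⟩ := exists_frame_hd hd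
  have hfd : FiniteDimensional ℚ V := Module.Finite.of_basis e
  have hβ := dual_dbl hγ hd.nd
  have hB := ann_closed' hd hγ
  have hC2 := lift_closed hC
  have hB2 := lift_closed hB
  have hsC := star_lift hd hγ hC hCB
  have hsB := star_lift hd hγ hB fun m => le_refl _
  have hcard : Fintype.card (Fin n ⊕ Fin n) = 2 * n := by
    rw [Fintype.card_sum, Fintype.card_fin]
    ring
  have h1 := low_frame hf (fun _ _ => rfl) hβ hC2 hsC hB2 hsB
    (fun m F hF t => hCB m (hF t)) hN (m := m) (by rw [hcard]; exact hnum)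
    (by
      rw [finrank_lift, finrank_lift]
      calc (m + 2) * (2 ^ (m * 2) * finrank ℚ (Ann e (wt P P' k) m)) =
          2 ^ (m * 2) * ((m + 2) * finrank ℚ (Ann e (wt P P' k) m)) := by ring
        _ ≤ 2 ^ (m * 2) * ((2 * m + 2) * finrank ℚ (C m)) := Nat.mul_le_mul_left _ hhalf
        _ = _ := by ring) hm'
  intro ψ hψ
  exact mem_of_lift (h1 (lift_fst hψ))

end coordinates

section hodge

variable {V : Type} [AddCommGroup V] [Module ℚ V] [FiniteDimensional ℚ V]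
  {H : ℤ → ℤ → Submodule ℂ (ℂ ⊗[ℚ] V)} {ε : Module.End ℚ V} {Q : LinearMap.BilinForm ℚ V}

/-- **More than half decide in low degrees.** -/
theorem low_hs (hH : HS.IsHodgeStructure H ε) (hQ : HS.IsPolarization H ε Q)
    (hn : 1 ≤ finrank ℚ V)
    {ι : Type} [Fintype ι] [DecidableEq ι] {γ γ' : ι → V}
    (hγ : ∀ v : V, v = ∑ i, Q v (γ' i) • γ i)
    {C : ∀ m : ℕ, Submodule ℚ (RF V m)} (hC : Closed Q γ γ' C)
    (hCH : ∀ (m : ℕ), ∀ ψ ∈ C m, HS.IsHodgeForm H ψ) {r m : ℕ} (hr : 1 ≤ r)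
    (hm : 64 * finrank ℚ V ^ 3 * r ^ 2 * (Nat.log 2 (4 * finrank ℚ V * r) + 1) ≤ m)
    {B : Submodule ℚ (RF V m)} (hB : ∀ ψ : RF V m, ψ ∈ B ↔ HS.IsHodgeForm H ψ)
    (hhalf : (m + 2) * finrank ℚ B ≤ (2 * m + 2) * finrank ℚ (C m)) {m' : ℕ} (hm' : m' ≤ r)
    (ψ : RF V m') (hψ : HS.IsHodgeForm H ψ) : ψ ∈ C m' := by
  obtain ⟨vB, kk, hmem, hr'⟩ := exists_adapted hH.internal
  have hd := hd_of (Module.finBasis ℚ V) hmem hr' hH hQ
  have hA : ∀ (m : ℕ) (ψ : RF V m), HS.IsHodgeForm H ψ ↔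
      ψ ∈ Ann (Module.finBasis ℚ V) (wt (PM (Module.finBasis ℚ V) vB)
        (PM' (Module.finBasis ℚ V) vB) (kd kk)) m := fun m ψ => hodge_iff_ann _ hmem hr' ψ
  have hB' : B = Ann (Module.finBasis ℚ V) (wt (PM (Module.finBasis ℚ V) vB)
      (PM' (Module.finBasis ℚ V) vB) (kd kk)) m := by
    ext ψ
    rw [hB, hA]
  rw [hB'] at hhalf
  have hnum := half_deg (d := 2 * finrank ℚ V) (r := r) (m := m) (by omega) hr (by
    have h1 : 2 * (2 * finrank ℚ V) * r = 4 * finrank ℚ V * r := by ring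
    rw [h1]
    convert hm using 1
    ring)
  exact low_hd hd hγ hC (fun m ψ hψ => (hA m ψ).1 (hCH m ψ hψ)) (by omega) hnum hhalf
    (by omega) ((hA m' ψ).1 hψ)

end hodge

section powers

variable {V : Type} [AddCommGroup V] [Module ℚ V] {H : ℤ → ℤ → Submodule ℂ (ℂ ⊗[ℚ] V)}
  {ε : Module.End ℚ V} {P Q : LinearMap.BilinForm ℚ V} {one point : V}
  {A : ∀ N : ℕ, Submodule ℚ (HS.Cls V N)} (hA : HS.IsCycleFamily H ε P one point A)
  (hP : HS.IsPoincare ε P one point)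

include hA hP in
/-- **More than half of the Hodge classes on one power decide for low powers.** -/
theorem low_powers [FiniteDimensional ℚ V] (hH : HS.IsHodgeStructure H ε)
    (hQ : HS.IsPolarization H ε Q) (hεA : bil (LinearMap.comp P ε) ∈ A 2) (hQA : bil Q ∈ A 2)
    {r m : ℕ} (hr : 1 ≤ r)
    (hm : 64 * finrank ℚ V ^ 3 * r ^ 2 * (Nat.log 2 (4 * finrank ℚ V * r) + 1) ≤ m)
    {B : Submodule ℚ (HS.Cls V (2 * m))} (hB : ∀ ψ, ψ ∈ B ↔ HS.IsHodgeClass H ψ)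
    (hhalf : (m + 2) * finrank ℚ B ≤ (2 * m + 2) * finrank ℚ (A (2 * m))) {N : ℕ}
    (hN : N ≤ 2 * r) : HIn H A N := by
  have hn : 1 ≤ finrank ℚ V := by
    rw [Nat.one_le_iff_ne_zero]
    intro h0
    have h1 : Subsingleton V := Module.finrank_zero_iff.1 h0
    have h2 := hP.point
    rw [Subsingleton.elim one 0, map_zero] at h2
    exact zero_ne_one h2
  obtain ⟨γ, γ', hγ, hC⟩ := closed_of_star hA hP hH hQ hεA hQA
  obtain ⟨vB, kk, hmem, hr'⟩ := exists_adapted hH.internal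
  have hCH : ∀ (m : ℕ), ∀ ψ ∈ CC A m, HS.IsHodgeForm H ψ := fun m ψ hψ =>
    (hform_iff (Module.finBasis ℚ V) hmem hr' ψ).2 (hA.hodge _ _ hψ)
  have hB' : ∀ ψ : RF V m, ψ ∈ B.comap (rein V m).toLinearMap ↔ HS.IsHodgeForm H ψ := fun ψ => by
    rw [hform_iff (Module.finBasis ℚ V) hmem hr' ψ, ← hB]
    rfl
  have hhalf' : (m + 2) * finrank ℚ (B.comap (rein V m).toLinearMap) ≤
      (2 * m + 2) * finrank ℚ (CC A m) := by
    rw [finrank_rein (B := B) (B' := B.comap (rein V m).toLinearMap) fun ψ => Iff.rfl,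
      finrank_rein (B := A (2 * m)) (B' := CC A m) fun ψ => Iff.rfl]
    exact hhalf
  have hall : HIn H A (2 * r) := by
    intro ψ hψ
    have h6 : ((ψ.domDomCongr (eqv r).symm : RF V r).domDomCongr (eqv r) :
        HS.Cls V (2 * r)) = ψ := (rein V r).apply_symm_apply ψ
    have h5 : HS.IsHodgeForm H (ψ.domDomCongr (eqv r).symm : RF V r) := by
      rw [hform_iff (Module.finBasis ℚ V) hmem hr', h6]
      exact hψ
    have h7 : (ψ.domDomCongr (eqv r).symm : RF V r) ∈ CC A r :=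
      low_hs hH hQ hn hγ hC hCH hr hm hB' hhalf' (le_refl r) _ h5
    have h8 : ((ψ.domDomCongr (eqv r).symm : RF V r).domDomCongr (eqv r) :
        HS.Cls V (2 * r)) ∈ A (2 * r) := h7
    rwa [h6] at h8
  exact down_le hA hP hH hN hall

end powers

end

end Pool.Agent.X259.U
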