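import Pool.Agent.X259.U.CDefs

/-!
# Absolute Hodge classes on the powers of a variety

Here `V = H^*(X, ℚ)` for a smooth projective complex variety `X`, and the class `c` on `X ^ N` is
identified with the multilinear form `(v 1, …, v N) ↦ ∫ c ∪ (v 1 × ⋯ × v N)` on `V`.
-/

set_option autoImplicit false

namespace Pool.Agent.X259.HS

open scoped TensorProduct

noncomputable section

section general

variable {K : Type} [CommRing K] [Algebra ℚ K] {V V' : Type} [AddCommGroup V] [Module ℚ V]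
  [AddCommGroup V'] [Module ℚ V']

/-- `Ψ` is the `K`-multilinear extension of the form `ψ`. -/
def IsExtension {N : ℕ} (ψ : Cls V N) (Ψ : MultilinearMap K (fun _ : Fin N => K ⊗[ℚ] V) K) :
    Prop :=
  ∀ v : Fin N → V, Ψ (fun k => 1 ⊗ₜ v k) = algebraMap ℚ K (ψ v)

/-- The map `c : K ⊗ V → K ⊗ V'` is bijective and `σ`-linear. -/
structure IsSemilinear (σ : K ≃+* K) (c : K ⊗[ℚ] V → K ⊗[ℚ] V') : Prop where
  bijective : Function.Bijective c
  add : ∀ x y, c (x + y) = c x + c y
  smul : ∀ (a : K) (x : K ⊗[ℚ] V), c (a • x) = σ a • c x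

/-- The map `c : K ⊗ V → K ⊗ V'` commutes with the operators of parity. -/
def CommutesWith (c : K ⊗[ℚ] V → K ⊗[ℚ] V') (ε : V →ₗ[ℚ] V) (ε' : V' →ₗ[ℚ] V') : Prop :=
  ∀ x, c (ε.baseChange K x) = ε'.baseChange K (c x)

/-- The class `ψ'` is conjugate to the class `ψ`: their `K`-multilinear extensions `Ψ'`, `Ψ` satisfy
`Ψ' (c x 1, …, c x N) = σ (Ψ (x 1, …, x N))`. -/
def AreConjugate (σ : K ≃+* K) (c : K ⊗[ℚ] V → K ⊗[ℚ] V') {N : ℕ} (ψ : Cls V N) (ψ' : Cls V' N) :
    Prop :=
  ∃ (Ψ : MultilinearMap K (fun _ : Fin N => K ⊗[ℚ] V) K)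
    (Ψ' : MultilinearMap K (fun _ : Fin N => K ⊗[ℚ] V') K),
    IsExtension ψ Ψ ∧ IsExtension ψ' Ψ' ∧ ∀ x, Ψ' (fun k => c (x k)) = σ (Ψ x)

end general

/-- A conjugate of `X`, in terms of `V = H^*(X, ℚ)`: `V' = H^*(X', ℚ)` for the conjugate variety `X'`,
with the Hodge decomposition `H'` and the operator of parity `ε'`, and the comparison isomorphism
`c : K ⊗ V → K ⊗ V'`, where `K` is a commutative `ℚ`-algebra with an automorphism `σ`; for
example `K = ℂ` and the comparison by algebraic de Rham cohomology, where `X' = X ^ σ`; or `K` the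
ring of finite adeles, `σ = 1`, and the comparison by étale cohomology; or their product. -/
structure Conjugate (V : Type) [AddCommGroup V] [Module ℚ V] where
  V' : Type
  [group : AddCommGroup V']
  [module : Module ℚ V']
  H' : ℤ → ℤ → Submodule ℂ (ℂ ⊗[ℚ] V')
  ε' : V' →ₗ[ℚ] V'
  K : Type
  [ring : CommRing K]
  [algebra : Algebra ℚ K]
  σ : K ≃+* K
  c : K ⊗[ℚ] V → K ⊗[ℚ] V'

attribute [instance] Conjugate.group Conjugate.module Conjugate.ring Conjugate.algebra

variable {V : Type} [AddCommGroup V] [Module ℚ V]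

/-- The conditions on a conjugate: `K ≠ 0`, `V'` is a Hodge structure of finite dimension, and the
comparison map is bijective, `σ`-linear, and preserves the parity of the degree. -/
structure IsConjugate (ε : V →ₗ[ℚ] V) (X : Conjugate V) : Prop where
  nontrivial : Nontrivial X.K
  finite : FiniteDimensional ℚ X.V'
  hodge : IsHodgeStructure X.H' X.ε'
  semilinear : IsSemilinear X.σ X.c
  parity : CommutesWith X.c ε X.ε'

/-- The class `ψ` on `X ^ N` is absolute Hodge with respect to the conjugates `S i` of `X`: it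
is a Hodge class, and has a conjugate Hodge class on `X' ^ N` for all these conjugates `X'`. -/
def IsAbsoluteHodge (H : ℤ → ℤ → Submodule ℂ (ℂ ⊗[ℚ] V)) {ι : Type} (S : ι → Conjugate V) {N : ℕ}
    (ψ : Cls V N) : Prop :=
  IsHodgeClass H ψ ∧ ∀ i, ∃ ψ' : Cls (S i).V' N, IsHodgeClass (S i).H' ψ' ∧
    AreConjugate (S i).σ (S i).c ψ ψ'

end

end Pool.Agent.X259.HS
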