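import Pool.Agent.X259.U.Defs

/-!
# Families of algebraic classes on the powers of a variety

Here `V = H^*(X, ℚ)` for a smooth projective complex variety `X`, and the class `c` on `X ^ N` is
identified with the multilinear form `(v 1, …, v N) ↦ ∫ c ∪ (v 1 × ⋯ × v N)` on `V`.
-/

set_option autoImplicit false

namespace Pool.Agent.X259.HS

open scoped TensorProduct

noncomputable section

variable {V : Type} [AddCommGroup V] [Module ℚ V]

/-- The rational classes on `X ^ N`: the multilinear forms in `N` variables in `V`. -/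
abbrev Cls (V : Type) [AddCommGroup V] [Module ℚ V] (N : ℕ) : Type :=
  MultilinearMap ℚ (fun _ : Fin N => V) ℚ

/-- The class `ψ` on `X ^ N` is a Hodge class (a sum of Hodge classes of various degrees): its
complexification `Ψ` vanishes on `H (p 1) (q 1) × ⋯ × H (p N) (q N)` unless `∑ p = ∑ q`. -/
def IsHodgeClass (H : ℤ → ℤ → Submodule ℂ (ℂ ⊗[ℚ] V)) {N : ℕ} (ψ : Cls V N) : Prop :=
  ∃ Ψ : MultilinearMap ℂ (fun _ : Fin N => ℂ ⊗[ℚ] V) ℂ,
    (∀ v : Fin N → V, Ψ (fun k => 1 ⊗ₜ v k) = ψ v) ∧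
    ∀ (p q : Fin N → ℤ) (x : Fin N → ℂ ⊗[ℚ] V), (∀ k, x k ∈ H (p k) (q k)) →
      ∑ k, p k ≠ ∑ k, q k → Ψ x = 0

/-- `ψ'` is the inverse image of the class `ψ` on `X ^ (N + 1)` under the exchange of the factors
number `i` and `i + 1`: for `v i` of parity `a` and `v (i + 1)` of parity `b`, the value of `ψ'` at `v`
is `(-1) ^ (a b)` times the value of `ψ` at the vectors with `v i`, `v (i + 1)` exchanged. -/
def IsExchange (ε : V →ₗ[ℚ] V) {N : ℕ} (i : Fin N) (ψ ψ' : Cls V (N + 1)) : Prop :=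
  ∀ (v : Fin (N + 1) → V) (a b : ℕ), ε (v i.castSucc) = (-1 : ℚ) ^ a • v i.castSucc →
    ε (v i.succ) = (-1 : ℚ) ^ b • v i.succ →
    ψ' v = (-1) ^ (a * b) * ψ (fun k => v (Equiv.swap i.castSucc i.succ k))

/-- `ψ''` is the exterior product of `ψ` and `ψ'`. -/
def IsExterior {N M : ℕ} (ψ : Cls V N) (ψ' : Cls V M) (ψ'' : Cls V (N + M)) : Prop :=
  ∀ v, ψ'' v = ψ (fun k => v (Fin.castAdd M k)) * ψ' (fun k => v (Fin.natAdd N k))

/-- `ψ'` is the direct image under `X ^ N × X → X ^ N` of the inverse image under the diagonal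
`X ^ N × X → X ^ N × X × X` of the class `ψ`: the contraction of the last two variables of `ψ`
with the class of the diagonal, which is `∑ a i × b i` for dual families `a`, `b` for the Poincaré
form `P`. -/
def IsDiagonalImage (P : LinearMap.BilinForm ℚ V) {N : ℕ} (ψ : Cls V (N + 2)) (ψ' : Cls V N) :
    Prop :=
  ∃ a b : Fin (Module.finrank ℚ V) → V, (∀ y : V, y = ∑ i, P (b i) y • a i) ∧
    ∀ v : Fin N → V, ψ' v = ∑ i, ψ (Fin.snoc (Fin.snoc v (a i) : Fin (N + 1) → V) (b i))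

/-- The Poincaré form `P (x, y) = ∫ x ∪ y` on `V`, which is nondegenerate and graded-symmetric, and
the elements `one` of `H^0(X, ℚ)` and `point` of `H^(2 d)(X, ℚ)`, the class of a point. -/
structure IsPoincare (ε : V →ₗ[ℚ] V) (P : LinearMap.BilinForm ℚ V) (one point : V) : Prop where
  nondeg : ∀ x : V, (∀ y, P x y = 0) → x = 0
  symm : ∀ x y : V, P x y = P y (ε x)
  point : P point one = 1

/-- The spaces `A N` of classes on `X ^ N` have the formal properties of the spaces of classes of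
algebraic cycles: they consist of Hodge classes; they contain the class of the point on `X ^ 0`,
the fundamental class and the class of a point on `X`, and the class of the diagonal on `X × X`; they
are stable under the exchange of two consecutive factors, exterior products, and the inverse image
under the diagonal followed by the direct image under the projection. -/
structure IsCycleFamily (H : ℤ → ℤ → Submodule ℂ (ℂ ⊗[ℚ] V)) (ε : V →ₗ[ℚ] V)
    (P : LinearMap.BilinForm ℚ V) (one point : V) (A : ∀ N : ℕ, Submodule ℚ (Cls V N)) : Prop where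
  hodge : ∀ (N : ℕ), ∀ ψ ∈ A N, IsHodgeClass H ψ
  unit : ∀ ψ : Cls V 0, (∀ v, ψ v = 1) → ψ ∈ A 0
  fundamental : ∀ ψ : Cls V 1, (∀ v, ψ v = P (v 0) one) → ψ ∈ A 1
  point : ∀ ψ : Cls V 1, (∀ v, ψ v = P point (v 0)) → ψ ∈ A 1
  diagonal : ∀ ψ : Cls V 2, (∀ v, ψ v = P (v 0) (v 1)) → ψ ∈ A 2
  exchange : ∀ (N : ℕ) (i : Fin N), ∀ ψ ∈ A (N + 1), ∀ ψ', IsExchange ε i ψ ψ' → ψ' ∈ A (N + 1)
  exterior : ∀ (N M : ℕ), ∀ ψ ∈ A N, ∀ ψ' ∈ A M, ∀ ψ'', IsExterior ψ ψ' ψ'' → ψ'' ∈ A (N + M)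
  image : ∀ (N : ℕ), ∀ ψ ∈ A (N + 2), ∀ ψ', IsDiagonalImage P ψ ψ' → ψ' ∈ A N

end

end Pool.Agent.X259.HS
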