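import Mathlib

/-!
# Polarized rational Hodge structures and Hodge forms
-/

set_option autoImplicit false

namespace Pool.Agent.X259.HS

open scoped TensorProduct ComplexOrder

noncomputable section

variable {V : Type} [AddCommGroup V] [Module ℚ V]

/-- The complex conjugation of `V_ℂ = ℂ ⊗ V`. -/
def conj (V : Type) [AddCommGroup V] [Module ℚ V] : ℂ ⊗[ℚ] V →ₗ[ℚ] ℂ ⊗[ℚ] V :=
  LinearMap.rTensor V (starRingEnd ℂ).toRatAlgHom.toLinearMap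

/-- `V` is a rational Hodge structure with the Hodge decomposition `V_ℂ = ⨁ H p q` (the weights
`p + q` may vary, as for `V = H^*(X, ℚ)`); `ε` is the operator of parity, `(-1) ^ i` on the part
of weight `i`. -/
structure IsHodgeStructure (H : ℤ → ℤ → Submodule ℂ (ℂ ⊗[ℚ] V)) (ε : V →ₗ[ℚ] V) : Prop where
  internal : DirectSum.IsInternal fun i : ℤ × ℤ => H i.1 i.2
  conj : ∀ p q : ℤ, ∀ x ∈ H p q, conj V x ∈ H q p
  parity : ∀ p q : ℤ, ∀ x ∈ H p q, ε.baseChange ℂ x = (-1 : ℂ) ^ (p + q) • x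

/-- `Q` is a polarization: `Q` is `(-1) ^ i`-symmetric in weight `i`, `H p q` is orthogonal to all
`H r s` with `(r, s) ≠ (q, p)`, and `i ^ (p - q) Q (x, x̄) > 0` for `x ≠ 0` in `H p q`. -/
structure IsPolarization (H : ℤ → ℤ → Submodule ℂ (ℂ ⊗[ℚ] V)) (ε : V →ₗ[ℚ] V)
    (Q : LinearMap.BilinForm ℚ V) : Prop where
  symm : ∀ x y : V, Q x y = Q y (ε x)
  orth : ∀ p q r s : ℤ, (r, s) ≠ (q, p) → ∀ x ∈ H p q, ∀ y ∈ H r s, Q.baseChange ℂ x y = 0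
  pos : ∀ p q : ℤ, ∀ x ∈ H p q, x ≠ 0 →
    0 < Complex.I ^ (p - q) * Q.baseChange ℂ x (HS.conj V x)

/-- The multilinear form `ψ` on `V` is a Hodge form: its complexification `Ψ` vanishes on
`H (p 1) (q 1) × H (p 2) (q 2) × ⋯` unless `∑ p = ∑ q`. -/
def IsHodgeForm (H : ℤ → ℤ → Submodule ℂ (ℂ ⊗[ℚ] V)) {m : ℕ}
    (ψ : MultilinearMap ℚ (fun _ : Fin m × Fin 2 => V) ℚ) : Prop :=
  ∃ Ψ : MultilinearMap ℂ (fun _ : Fin m × Fin 2 => ℂ ⊗[ℚ] V) ℂ,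
    (∀ v : Fin m × Fin 2 → V, Ψ (fun k => 1 ⊗ₜ v k) = ψ v) ∧
    ∀ (p q : Fin m × Fin 2 → ℤ) (x : Fin m × Fin 2 → ℂ ⊗[ℚ] V), (∀ k, x k ∈ H (p k) (q k)) →
      ∑ k, p k ≠ ∑ k, q k → Ψ x = 0

/-- `f` is an endomorphism of the Hodge structure `V`, Tate twists being allowed: `f` maps `H p q`
to the sum of the `H (p + r) (q + r)`. -/
def IsHodgeEndo (H : ℤ → ℤ → Submodule ℂ (ℂ ⊗[ℚ] V)) (f : V →ₗ[ℚ] V) : Prop :=
  ∀ p q : ℤ, ∀ x ∈ H p q, f.baseChange ℂ x ∈ ⨆ r : ℤ, H (p + r) (q + r)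

end

end Pool.Agent.X259.HS
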