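import Pool.Agent.X259.T.T29

/-!
# A tensor on which a rational matrix does not act trivially, general form
-/

set_option autoImplicit false
set_option linter.unusedSectionVars false
set_option linter.unusedDecidableInType false
set_option linter.unusedFintypeInType false

namespace Pool.Agent.X259.U

open Matrix Finset Module Pool.Agent.X259.T

noncomputable section

variable {R : Type} [Fintype R] [DecidableEq R]

/-- The tensor. -/
theorem exists_tensor' {Pq : Matrix R R ℚ} {Q Q' : Matrix R R ℂ} {μ : R → ℂ} (h1 : Q' * Q = 1)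
    (h2 : Q * Q' = 1) (hP : Pq.map (algebraMap ℚ ℂ) = Q * Matrix.diagonal μ * Q')
    (N : Matrix R R ℂ) {D : ℕ} (hD : 1 ≤ D)
    (hN : ∀ e : Matrix R R ℂ, e * e = e → N * e = e * N →
      ∃ δ : ℤ, |δ| ≤ (D : ℤ) ∧ (N * e).trace = Complex.I * δ)
    (hNP : N * Pq.map (algebraMap ℚ ℂ) = Pq.map (algebraMap ℚ ℂ) * N) (hN0 : N.trace = 0)
    (hNP0 : (N * Pq.map (algebraMap ℚ ℂ)).trace = 0) (hP0 : (Pq.map (algebraMap ℚ ℂ)).trace = 0)
    (hPne : Pq.map (algebraMap ℚ ℂ) ≠ 0)
    {K : Type} [Field K] [Algebra ℚ K] [FiniteDimensional ℚ K] (g₀ : K →ₐ[ℚ] ℂ) (X : Finset K)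
    (hX : ∀ g : K →ₐ[ℚ] ℂ, X.image g = Finset.univ.image μ)
    (hXe : ∀ a ∈ X, ∃ e : Matrix R R K, ∀ g : K →ₐ[ℚ] ℂ, e.map g = Ez Q Q' μ (g a))
    (hXc : X.card ≤ Fintype.card R) :
    ∃ (κ : Type) (_ : Fintype κ) (_ : DecidableEq κ) (F : (κ → R) → K),
      Even (Fintype.card κ) ∧
      Fintype.card κ ≤ 4 * (Fintype.card R * D) ^ (Fintype.card R) * Fintype.card R ∧
      (∀ g : K →ₐ[ℚ] ℂ, dk κ N *ᵥ (fun J => g (F J)) = 0) ∧
      dk κ (Pq.map (algebraMap ℚ ℂ)) *ᵥ (fun J => g₀ (F J)) ≠ 0 := by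
  classical
  set Pm := Pq.map (algebraMap ℚ ℂ) with hPm
  -- sums over the eigenvalues
  have hsumg : ∀ (g : K →ₐ[ℚ] ℂ) (G : ℂ → ℂ), ∑ a : X, G (g a.1) =
      ∑ z ∈ Finset.univ.image μ, G z := by
    intro g G
    rw [Finset.sum_coe_sort X fun a => G (g a), ← hX g, Finset.sum_image]
    intro x _ y _ h
    exact g.injective h
  choose e he using fun a : X => hXe a.1 a.2
  have hidem : ∀ a, e a * e a = e a := by
    intro a
    apply map_inj_matrix g₀
    rw [he a g₀]
    have h3 : (e a * e a).map g₀ = (e a).map g₀ * (e a).map g₀ := Matrix.map_mul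
    rw [h3, he a g₀, Ez_mul h1, if_pos rfl]
  choose nn V C hVC hCV using fun a : X => exists_factor (e a) (hidem a)
  -- the factorization after an embedding
  have hVCg : ∀ (g : K →ₐ[ℚ] ℂ) a, Ez Q Q' μ (g a.1) = (V a).map g * (C a).map g := by
    intro g a
    rw [← he a g, hVC a]
    exact Matrix.map_mul
  have hCVg : ∀ (g : K →ₐ[ℚ] ℂ) a, (C a).map g * (V a).map g = 1 := by
    intro g a
    have h3 : (C a).map g * (V a).map g = (C a * V a).map g := Matrix.map_mul.symm
    rw [h3, hCV a]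
    exact Matrix.map_one _ (map_zero g) (map_one g)
  have hntr : ∀ (g : K →ₐ[ℚ] ℂ) a, (Ez Q Q' μ (g a.1)).trace = (nn a : ℂ) := fun g a =>
    trace_factor (hVCg g a) (hCVg g a)
  have hnpos : ∀ a, 1 ≤ nn a := by
    intro a
    have h3 := hntr g₀ a
    rw [Ez_trace h1] at h3
    have h4 : (Finset.univ.filter fun x => μ x = g₀ a.1).card = nn a := by exact_mod_cast h3
    rw [← h4]
    have h5 : g₀ a.1 ∈ Finset.univ.image μ := by
      rw [← hX g₀]
      exact Finset.mem_image_of_mem _ a.2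
    obtain ⟨x, _, hx⟩ := Finset.mem_image.1 h5
    refine Finset.card_pos.2 ⟨x, ?_⟩
    rw [Finset.mem_filter]
    exact ⟨Finset.mem_univ _, hx⟩
  have hnsum : ∑ a : X, nn a = Fintype.card R := by
    have h3 : ∑ a : X, (Ez Q Q' μ (g₀ a.1)).trace = (Fintype.card R : ℂ) := by
      rw [hsumg g₀ fun z => (Ez Q Q' μ z).trace, ← Matrix.trace_sum, Ez_sum h2, Matrix.trace_one]
    simp only [hntr g₀] at h3
    exact_mod_cast h3
  have hPsum : Pm = ∑ z ∈ Finset.univ.image μ, z • Ez Q Q' μ z := by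
    conv_lhs => rw [← mul_one Pm, ← Ez_sum (Q := Q) (Q' := Q') (μ := μ) h2, Finset.mul_sum]
    exact Finset.sum_congr rfl fun z _ => Ez_P h1 h2 hP z
  -- the integers `δ`
  have hδex : ∀ z : ℂ, ∃ δ : ℤ, |δ| ≤ (D : ℤ) ∧
      (N * Ez Q Q' μ z).trace = Complex.I * δ := fun z =>
    hN _ (by rw [Ez_mul h1, if_pos rfl]) (Ez_comm h1 h2 hP N hNP z)
  choose δ hδb hδ using hδex
  have hS1 : ∑ z ∈ Finset.univ.image μ, z * (δ z : ℂ) = 0 := by
    have h3 : Complex.I * ∑ z ∈ Finset.univ.image μ, z * (δ z : ℂ) = 0 := by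
      rw [← hNP0, hPsum, Finset.mul_sum, Finset.mul_sum, Matrix.trace_sum]
      refine Finset.sum_congr rfl fun z _ => ?_
      rw [Matrix.mul_smul, Matrix.trace_smul, hδ, smul_eq_mul]
      ring
    exact (mul_eq_zero.1 h3).resolve_left Complex.I_ne_zero
  have hS0 : ∑ z ∈ Finset.univ.image μ, (δ z : ℂ) = 0 := by
    have h3 : Complex.I * ∑ z ∈ Finset.univ.image μ, (δ z : ℂ) = 0 := by
      rw [← hN0]
      conv_rhs => rw [← mul_one N, ← Ez_sum (Q := Q) (Q' := Q') (μ := μ) h2]
      rw [Finset.mul_sum, Finset.mul_sum, Matrix.trace_sum]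
      exact Finset.sum_congr rfl fun z _ => (hδ z).symm
    exact (mul_eq_zero.1 h3).resolve_left Complex.I_ne_zero
  have hK1 : ∀ g : K →ₐ[ℚ] ℂ, ∑ a : X, a.1 * ((δ (g a.1) : ℤ) : K) = 0 := by
    intro g
    apply g.injective
    change g _ = g 0
    rw [map_zero, map_sum, ← hS1, ← hsumg g fun z => z * (δ z : ℂ)]
    refine Finset.sum_congr rfl fun a _ => ?_
    rw [map_mul, map_intCast]
  have hK0 : ∀ g : K →ₐ[ℚ] ℂ, ∑ a : X, δ (g a.1) = 0 := by
    intro g
    have h3 := hsumg g fun z => (δ z : ℂ)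
    rw [hS0] at h3
    exact_mod_cast h3
  -- the linear map
  let f : (X → ℚ) →ₗ[ℚ] K :=
    { toFun := fun w => ∑ a, algebraMap ℚ K (w a) * ((nn a : K) * a.1)
      map_add' := fun w w' => by
        simp only [Pi.add_apply, map_add, add_mul, Finset.sum_add_distrib]
      map_smul' := fun c w => by
        have h3 : ∀ x : K, c • x = algebraMap ℚ K c * x := fun x => Algebra.smul_def c x
        rw [RingHom.id_apply, h3, Finset.mul_sum]
        refine Finset.sum_congr rfl fun a _ => ?_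
        rw [Pi.smul_apply, smul_eq_mul, map_mul, mul_assoc] }
  have hRne : 1 ≤ Fintype.card R := by
    by_contra hcon
    have h3 : Fintype.card R = 0 := by omega
    have h4 := Fintype.card_eq_zero_iff.1 h3
    exact hPne (by ext x; exact h4.elim x)
  obtain ⟨lam, hlam⟩ : ∃ lam : K →ₗ[ℚ] ℚ, f (fun a => lam a.1) ≠ 0 := by
    by_contra hcon
    push Not at hcon
    let u := Module.finBasis ℚ K
    have h3 : ∑ a : X, (nn a : ℂ) * ((g₀ a.1) * (starRingEnd ℂ) (g₀ a.1)) = 0 := by
      have h4 : ∀ i, ∑ a : X, ((u.coord i a.1 : ℚ) : ℂ) * ((nn a : ℂ) * (g₀ a.1)) = 0 := by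
        intro i
        have h5 := congrArg g₀ (hcon (u.coord i))
        change g₀ (∑ a : X, algebraMap ℚ K (u.coord i a.1) * ((nn a : K) * a.1)) = g₀ 0 at h5
        rw [map_zero, map_sum] at h5
        rw [← h5]
        refine Finset.sum_congr rfl fun a _ => ?_
        rw [map_mul, map_mul, map_natCast, g₀.commutes, eq_ratCast]
      have h6 : ∀ a : X, g₀ a.1 = ∑ i, ((u.coord i a.1 : ℚ) : ℂ) * g₀ (u i) := by
        intro a
        have h7 := congrArg g₀ (u.sum_repr a.1)
        rw [map_sum] at h7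
        rw [← h7]
        refine Finset.sum_congr rfl fun i _ => ?_
        rw [map_smul, Rat.smul_def, Basis.coord_apply]
      calc ∑ a : X, (nn a : ℂ) * ((g₀ a.1) * (starRingEnd ℂ) (g₀ a.1)) =
          ∑ a : X, ∑ i, (starRingEnd ℂ) (g₀ (u i)) *
            (((u.coord i a.1 : ℚ) : ℂ) * ((nn a : ℂ) * (g₀ a.1))) := by
            refine Finset.sum_congr rfl fun a _ => ?_
            have h7 : (starRingEnd ℂ) (g₀ a.1) =
                ∑ i, ((u.coord i a.1 : ℚ) : ℂ) * (starRingEnd ℂ) (g₀ (u i)) := by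
              conv_lhs => rw [h6 a]
              rw [map_sum]
              refine Finset.sum_congr rfl fun i _ => ?_
              rw [map_mul, map_ratCast]
            rw [h7, Finset.mul_sum, Finset.mul_sum]
            refine Finset.sum_congr rfl fun i _ => ?_
            ring
        _ = 0 := by
            rw [Finset.sum_comm]
            refine Finset.sum_eq_zero fun i _ => ?_
            rw [← Finset.mul_sum, h4 i, mul_zero]
    have h8 : ∑ a : X, (nn a : ℝ) * Complex.normSq (g₀ a.1) = 0 := by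
      apply Complex.ofReal_injective
      rw [Complex.ofReal_zero, ← h3, Complex.ofReal_sum]
      refine Finset.sum_congr rfl fun a _ => ?_
      rw [Complex.mul_conj]
      push_cast
      rfl
    have h9 : ∀ a : X, g₀ a.1 = 0 := by
      intro a
      have h10 := (Finset.sum_eq_zero_iff_of_nonneg (fun a _ => mul_nonneg (Nat.cast_nonneg _)
        (Complex.normSq_nonneg _))).1 h8 a (Finset.mem_univ _)
      have h11 : (nn a : ℝ) ≠ 0 := by
        have := hnpos a
        positivity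
      exact Complex.normSq_eq_zero.1 ((mul_eq_zero.1 h10).resolve_left h11)
    apply hPne
    rw [hPsum]
    refine Finset.sum_eq_zero fun z hz => ?_
    rw [← hX g₀] at hz
    obtain ⟨a, ha, rfl⟩ := Finset.mem_image.1 hz
    rw [h9 ⟨a, ha⟩, zero_smul]
  -- the small solution
  obtain ⟨m, hmb, hmeq, hmf⟩ := small_solution (X := X) (G := K →ₐ[ℚ] ℂ)
    (fun g a => δ (g a.1)) D hD (fun g a => hδb _) f (fun a => lam a.1) (by
      intro g
      have h3 := congrArg lam (hK1 g)
      rw [map_zero, map_sum] at h3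
      rw [← h3]
      refine Finset.sum_congr rfl fun a _ => ?_
      have h4 : a.1 * ((δ (g a.1) : ℤ) : K) = algebraMap ℚ K ((δ (g a.1) : ℤ) : ℚ) * a.1 := by
        rw [mul_comm, map_intCast]
      rw [h4, ← Algebra.smul_def, map_smul, smul_eq_mul, mul_comm]) hlam
  have hcX : Fintype.card X ≤ Fintype.card R := by
    rw [Fintype.card_coe]
    exact hXc
  let L : ℕ := (Fintype.card R * D) ^ (Fintype.card R)
  have hmL : ∀ a, |m a| ≤ (L : ℤ) := by
    intro a
    refine (hmb a).trans ?_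
    have h3 : (Fintype.card X * D) ^ (Fintype.card X) ≤ L := by
      calc (Fintype.card X * D) ^ (Fintype.card X) ≤
          (Fintype.card R * D) ^ (Fintype.card X) :=
            Nat.pow_le_pow_left (Nat.mul_le_mul_right _ hcX) _
        _ ≤ (Fintype.card R * D) ^ (Fintype.card R) :=
            Nat.pow_le_pow_right (Nat.mul_pos hRne hD) hcX
    exact_mod_cast h3
  let M : X → ℕ := fun a => (2 * (m a + L)).toNat
  have hM : ∀ a, ((M a : ℕ) : ℤ) = 2 * (m a + L) := by
    intro a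
    refine Int.toNat_of_nonneg ?_
    have := abs_le.1 (hmL a)
    linarith [this.1]
  have hMeven : ∀ a, M a = 2 * (m a + L).toNat := by
    intro a
    have h3 : 0 ≤ m a + L := by
      have := abs_le.1 (hmL a)
      linarith [this.1]
    have h4 := Int.toNat_of_nonneg h3
    have h5 := hM a
    omega
  let s := Σ a : X, Fin (M a)
  let F : ((Σ p : s, Fin (nn p.1)) → R) → K := BT (fun p : s => V p.1)
  have hcard : Fintype.card (Σ p : s, Fin (nn p.1)) = ∑ a : X, M a * nn a := by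
    rw [Fintype.card_sigma, Fintype.sum_sigma]
    refine Finset.sum_congr rfl fun a _ => ?_
    change ∑ _y : Fin (M a), Fintype.card (Fin (nn a)) = _
    rw [Finset.sum_const, Finset.card_univ, Fintype.card_fin, Fintype.card_fin, smul_eq_mul]
  have hweight : ∀ (g : K →ₐ[ℚ] ℂ) (Y : Matrix R R ℂ), Y * Pm = Pm * Y →
      dk (Σ p : s, Fin (nn p.1)) Y *ᵥ (fun J => g (F J)) =
        (∑ a : X, (M a : ℂ) * (Y * Ez Q Q' μ (g a.1)).trace) • (fun J => g (F J)) := by
    intro g Y hY
    have h3 : (fun J => g (F J)) = BT (fun p : s => (V p.1).map g) := by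
      funext J
      exact (BT_map (g : K →+* ℂ) (fun p : s => V p.1) J).symm
    rw [h3, dk_BT _ Y (fun p => (Y * Ez Q Q' μ (g p.1.1)).trace)]
    · congr 1
      rw [Fintype.sum_sigma]
      refine Finset.sum_congr rfl fun a _ => ?_
      change ∑ _y : Fin (M a), (Y * Ez Q Q' μ (g a.1)).trace = _
      rw [Finset.sum_const, Finset.card_univ, Fintype.card_fin, nsmul_eq_mul]
    · intro p
      obtain ⟨h4, h5⟩ := comm_factor (hVCg g p.1) (hCVg g p.1) (Ez_comm h1 h2 hP Y hY (g p.1.1))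
      rw [← h5]
      exact dk_Dt _ _ _ h4
  refine ⟨Σ p : s, Fin (nn p.1), inferInstance, inferInstance, F, ?_, ?_, ?_, ?_⟩
  · rw [hcard]
    refine Finset.even_sum _ fun a _ => ?_
    rw [hMeven a, mul_assoc]
    exact even_two_mul _
  · rw [hcard]
    have h3 : ∀ a : X, M a ≤ 4 * L := by
      intro a
      have h4 := hM a
      have h5 := abs_le.1 (hmL a)
      omega
    calc ∑ a : X, M a * nn a ≤ ∑ a : X, 4 * L * nn a :=
          Finset.sum_le_sum fun a _ => Nat.mul_le_mul_right _ (h3 a)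
      _ = 4 * L * Fintype.card R := by rw [← Finset.mul_sum, hnsum]
  · intro g
    rw [hweight g N hNP]
    have h3 : ∑ a : X, (M a : ℂ) * (N * Ez Q Q' μ (g a.1)).trace = 0 := by
      have h4 : ∑ a : X, (M a : ℂ) * (N * Ez Q Q' μ (g a.1)).trace =
          Complex.I * ((∑ a : X, ((M a : ℕ) : ℤ) * δ (g a.1) : ℤ) : ℂ) := by
        push_cast
        rw [Finset.mul_sum]
        refine Finset.sum_congr rfl fun a _ => ?_
        rw [hδ]
        ring
      have h5 : ∑ a : X, ((M a : ℕ) : ℤ) * δ (g a.1) = 0 := by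
        simp only [hM]
        have h6 : ∑ a : X, 2 * (m a + L) * δ (g a.1) =
            2 * (∑ a : X, m a * δ (g a.1)) + 2 * L * ∑ a : X, δ (g a.1) := by
          rw [Finset.mul_sum, Finset.mul_sum, ← Finset.sum_add_distrib]
          refine Finset.sum_congr rfl fun a _ => ?_
          ring
        rw [h6, hmeq g, hK0 g, mul_zero, mul_zero, add_zero]
      rw [h4, h5, Int.cast_zero, mul_zero]
    rw [h3, zero_smul]
  · have h3 := hweight g₀ Pm rfl
    rw [h3]
    have h4 : ∑ a : X, (M a : ℂ) * (Pm * Ez Q Q' μ (g₀ a.1)).trace =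
        2 * g₀ (f fun a => (m a : ℚ)) := by
      have h5 : ∀ a : X, (Pm * Ez Q Q' μ (g₀ a.1)).trace = g₀ a.1 * nn a := by
        intro a
        rw [Ez_P h1 h2 hP, Matrix.trace_smul, hntr g₀ a, smul_eq_mul]
      have h6 : ∑ a : X, g₀ a.1 * nn a = 0 := by
        rw [← hP0, hPsum, Matrix.trace_sum, ← hsumg g₀ fun z => (z • Ez Q Q' μ z).trace]
        refine Finset.sum_congr rfl fun a _ => ?_
        rw [Matrix.trace_smul, hntr g₀ a, smul_eq_mul]
      have h7 : g₀ (f fun a => (m a : ℚ)) = ∑ a : X, (m a : ℂ) * (g₀ a.1 * nn a) := by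
        change g₀ (∑ a : X, algebraMap ℚ K (m a : ℚ) * ((nn a : K) * a.1)) = _
        rw [map_sum]
        refine Finset.sum_congr rfl fun a _ => ?_
        rw [map_mul, map_mul, map_natCast, g₀.commutes, eq_ratCast]
        push_cast
        ring
      simp only [h5]
      have h8 : ∀ a : X, (M a : ℂ) = 2 * ((m a : ℂ) + L) := by
        intro a
        have h9 := congrArg (fun z : ℤ => (z : ℂ)) (hM a)
        push_cast at h9
        exact h9
      simp only [h8]
      rw [h7]
      have h10 : ∑ a : X, 2 * ((m a : ℂ) + L) * (g₀ a.1 * nn a) =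
          2 * ∑ a : X, (m a : ℂ) * (g₀ a.1 * nn a) + 2 * L * ∑ a : X, g₀ a.1 * nn a := by
        rw [Finset.mul_sum, Finset.mul_sum, ← Finset.sum_add_distrib]
        refine Finset.sum_congr rfl fun a _ => ?_
        ring
      rw [h10, h6, mul_zero, add_zero]
    rw [h4]
    refine smul_ne_zero ?_ ?_
    · refine mul_ne_zero two_ne_zero fun h => hmf ?_
      exact g₀.injective (by
        change g₀ _ = g₀ 0
        rw [h, map_zero])
    · obtain ⟨I, hI⟩ := BT_ne (fun p : s => V p.1) (fun p : s => C p.1) (fun p => hCV p.1)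
      intro h
      apply hI
      exact g₀.injective (by
        change g₀ _ = g₀ 0
        rw [map_zero]
        exact congrFun h I)

/-- The tensor, over the field of the eigenvalues. -/
theorem exists_tensor {Pq : Matrix R R ℚ} {Q Q' : Matrix R R ℂ} {μ : R → ℂ} (h1 : Q' * Q = 1)
    (h2 : Q * Q' = 1) (hP : Pq.map (algebraMap ℚ ℂ) = Q * Matrix.diagonal μ * Q')
    (N : Matrix R R ℂ) {D : ℕ} (hD : 1 ≤ D)
    (hN : ∀ e : Matrix R R ℂ, e * e = e → N * e = e * N →
      ∃ δ : ℤ, |δ| ≤ (D : ℤ) ∧ (N * e).trace = Complex.I * δ)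
    (hNP : N * Pq.map (algebraMap ℚ ℂ) = Pq.map (algebraMap ℚ ℂ) * N) (hN0 : N.trace = 0)
    (hNP0 : (N * Pq.map (algebraMap ℚ ℂ)).trace = 0) (hP0 : (Pq.map (algebraMap ℚ ℂ)).trace = 0)
    (hPne : Pq.map (algebraMap ℚ ℂ) ≠ 0) :
    ∃ (K : Type) (_ : Field K) (_ : Algebra ℚ K) (_ : FiniteDimensional ℚ K) (g₀ : K →ₐ[ℚ] ℂ)
      (κ : Type) (_ : Fintype κ) (_ : DecidableEq κ) (F : (κ → R) → K),
      Even (Fintype.card κ) ∧
      Fintype.card κ ≤ 4 * (Fintype.card R * D) ^ (Fintype.card R) * Fintype.card R ∧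
      (∀ g : K →ₐ[ℚ] ℂ, dk κ N *ᵥ (fun J => g (F J)) = 0) ∧
      dk κ (Pq.map (algebraMap ℚ ℂ)) *ᵥ (fun J => g₀ (F J)) ≠ 0 := by
  classical
  exact ⟨KK μ, inferInstance, inferInstance, ev_fin h1 hP, (KK μ).val,
    @exists_tensor' R _ _ Pq Q Q' μ h1 h2 hP N D hD hN hNP hN0 hNP0 hP0 hPne (KK μ) _ _ (ev_fin h1 hP)
      (KK μ).val (Finset.univ.image (ev μ)) (ev_image h1 hP) (exists_e h1 h2 hP)
      (Finset.card_image_le.trans (by rw [Finset.card_univ]))⟩

end

end Pool.Agent.X259.U
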