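import Pool.Agent.X259.T.T34

/-!
# Families of rational tensors stable under the star operation
-/

set_option autoImplicit false
set_option linter.unusedSectionVars false
set_option linter.unusedDecidableInType false
set_option linter.unusedFintypeInType false

namespace Pool.Agent.X259.U

open Matrix Finset Module Pool.Agent.H204R3.SP Pool.Agent.H204R3.GP Pool.Agent.W516
  Pool.Agent.X259.T

noncomputable section

variable {W : Type} [AddCommGroup W] [Module ℚ W] {R : Type} [Fintype R] [DecidableEq R]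
  {T : Type} [AddCommGroup T] [Module ℂ T] {Q : Type} [DecidableEq Q]
  {per : W →+ T} {ω₀ : W →ₗ[ℚ] W →ₗ[ℚ] ℚ} {b : Basis R ℚ W} {b' : Basis R ℝ T} {cls : R → Q}
  {inv : R → R} {jj : R → ℂ} {S S' : Matrix R R ℂ} (hf : Frame per ω₀ b b' cls inv jj S S')
  {κ : Type} [Fintype κ] [DecidableEq κ]

/-- The family is stable under the complex structure. -/
def StarStable (b : Basis R ℚ W) (b' : Basis R ℝ T) (C : ∀ m : ℕ, Submodule ℚ (RF W m)) : Prop :=
  ∀ m, ∀ ψ ∈ C m, ∃ ψ' ∈ C m,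
    kr (Fin m × Fin 2) (Nz b' (-Complex.I)) *ᵥ gt b ψ = gt b ψ'

include hf in
lemma st_gen' {m : ℕ} {ψ ψ' : RF W m}
    (h1 : kr (Fin m × Fin 2) (Nz b' (-Complex.I)) *ᵥ gt b ψ = gt b ψ') :
    st inv jj (kr (Fin m × Fin 2) S *ᵥ gt b ψ) = kr (Fin m × Fin 2) S *ᵥ gt b ψ' := by
  rw [← h1, Matrix.mulVec_mulVec, ← kr_mul]
  funext I
  change (∏ k, jj (I k)) * star ((kr _ S *ᵥ gt b ψ) (fun k => inv (I k))) = _
  rw [kr_mulVec, kr_mulVec, star_sum, Finset.mul_sum]
  refine Finset.sum_congr rfl fun J _ => ?_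
  rw [star_mul', star_prod, ← mul_assoc, ← Finset.prod_mul_distrib]
  congr 1
  · exact Finset.prod_congr rfl fun k _ => hf.star _ _
  · rw [gt]
    simp

include hf in
lemma st_mem' {κ : Type} [Fintype κ] {C : ∀ m : ℕ, Submodule ℚ (RF W m)}
    (hst : StarStable b b' C)
    {F : (κ → R) → ℂ} (hF : F ∈ Fm S b C κ) : st inv jj F ∈ Fm S b C κ := by
  induction hF using Submodule.span_induction with
  | mem F h =>
    obtain ⟨m, e, ψ, hψ, rfl⟩ := h
    obtain ⟨ψ', hψ', h1⟩ := hst m ψ hψ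
    rw [st_ri, st_gen' hf h1]
    exact gen_mem e hψ'
  | zero =>
    rw [show st inv jj (0 : (κ → R) → ℂ) = 0 from by
      funext I
      change _ * star (0 : ℂ) = 0
      rw [star_zero, mul_zero]]
    exact Submodule.zero_mem _
  | add a c _ _ ha hc => rw [st_add]; exact Submodule.add_mem _ ha hc
  | smul c a _ ha => rw [st_smul]; exact Submodule.smul_mem _ _ ha

include hf in
/-- The family is closed under the operations. -/
theorem fam' {C : ∀ m : ℕ, Submodule ℚ (RF W m)} {ι : Type} [Fintype ι] [DecidableEq ι]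
    {β β' : ι → W} (hcl : ∀ x y, cls x = cls y) (hβ : ∀ w : W, w = ∑ i, ω₀ w (β' i) • β i)
    (hC : Closed ω₀ β β' C) (hst : StarStable b b' C) :
    Fam cls inv jj (Fm S b C) where
  ri := fun e _ hF => ri_mem e hF
  tp := fun hF hF' => tp_mem hC hF hF'
  ct := fun hF => by
    rw [ct_eq hf.bas]
    exact cK_mem hC (ct_matrix hf hβ) hF
  one := by
    let ψ : RF W 0 := MultilinearMap.constOfIsEmpty ℚ _ 1
    have h1 : ψ ∈ C 0 := hC.one ψ fun v => rfl
    have h2 := gen_mem (S := S) (b := b) (Equiv.equivOfIsEmpty (Fin 0 × Fin 2) (Fin 0)) h1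
    convert h2 using 1
    funext I
    change (1 : ℂ) = (kr (Fin 0 × Fin 2) S *ᵥ gt b ψ) _
    rw [kr_mulVec, Fintype.sum_unique, Finset.univ_eq_empty, Finset.prod_empty, one_mul]
    change (1 : ℂ) = ((1 : ℚ) : ℂ)
    rw [Rat.cast_one]
  fm := fun c => by
    by_cases hc : ∀ x, cls x = c
    · let e : Fin 1 × Fin 2 ≃ Fin 2 := Equiv.uniqueProd (Fin 2) (Fin 1)
      let ψ : RF W 1 := MultilinearMap.domDomCongr e.symm (MultilinearMap.mk'
        (fun v : Fin 2 → W => ω₀ (v 0) (v 1)) (by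
          intro v i x y
          fin_cases i <;> simp [Function.update]) (by
          intro v i c x
          fin_cases i <;> simp [Function.update]))
      have hψ : ∀ v, ψ v = ω₀ (v (0, 0)) (v (0, 1)) := fun v => rfl
      have h1 := gen_mem (S := S) (b := b) e (hC.pol ψ hψ)
      convert h1 using 1
      rw [← kr_ri]
      have h2 : ri e (gt b ψ) = mt (Om b ω₀) := by
        funext J
        change gt b ψ _ = _
        rw [gt, hψ]
        rfl
      rw [h2]
      funext I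
      change _ = (kr (Fin 2) S *ᵥ fun J => Om b ω₀ (J 0) (J 1)) I
      rw [kr_two, hf.form, fm, if_pos (hc _)]
      rfl
    · have h1 : fm cls inv jj c = 0 := by
        funext I
        rw [fm, if_neg]
        · rfl
        · intro h
          exact hc fun x => by rw [hcl x (I 0), h]
      rw [h1]
      exact Submodule.zero_mem _
  st := fun hF => st_mem' hf hst hF

include hf in
/-- **One power decides**, in coordinates, for families of rational classes. -/
theorem one_power_frame' {ι : Type} [Fintype ι] [DecidableEq ι] {β β' : ι → W}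
    (hcl : ∀ x y, cls x = cls y) (hβ : ∀ w : W, w = ∑ i, ω₀ w (β' i) • β i)
    {C B : ∀ m : ℕ, Submodule ℚ (RF W m)}
    (hC : Closed ω₀ β β' C) (hstC : StarStable b b' C)
    (hB : Closed ω₀ β β' B) (hstB : StarStable b b' B) (hCB : ∀ m, C m ≤ B m)
    {N : ℕ} (hN : 2 ≤ N) (hdet : LieDet (Fm S b B) N) {m : ℕ} (hNm : N ≤ 2 * m)
    (hnum : ((m : ℝ) + 1) ^ (Fintype.card R * Fintype.card R) *
      ((Fintype.card R : ℝ) - 2 * (1 - Real.cos (2 * Real.pi / N))) ^ (2 * m) <
        (Fintype.card R : ℝ) ^ (2 * m))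
    (heq : B m ≤ C m) (m' : ℕ) : B m' ≤ C m' := by
  intro ψ hψ
  have hCf := fam' hf hcl hβ hC hstC
  have hBf := fam' hf hcl hβ hB hstB
  have hle : ∀ κ : Type, Fm S b C κ ≤ Fm S b B κ := by
    intro κ
    refine Submodule.span_mono ?_
    rintro F ⟨m, e, ψ, hψ, rfl⟩
    exact ⟨m, e, ψ, hCB m hψ, rfl⟩
  have heq' : ∀ F ∈ Fm S b B (Fin (2 * m)), F ∈ Fm S b C (Fin (2 * m)) := by
    intro F hF
    induction hF using Submodule.span_induction with
    | mem F h =>
      obtain ⟨m'', e, ψ, hψ, rfl⟩ := h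
      have hc := Fintype.card_congr e
      rw [Fintype.card_prod, Fintype.card_fin, Fintype.card_fin, Fintype.card_fin] at hc
      obtain rfl : m'' = m := by omega
      exact gen_mem e (heq hψ)
    | zero => exact Submodule.zero_mem _
    | add a c _ _ ha hc => exact Submodule.add_mem _ ha hc
    | smul c a _ ha => exact Submodule.smul_mem _ _ ha
  have h1 := effective hf.bas hCf hBf hle (fun n hn F hF => odd_zero hn hF) hN hdet hNm heq' hnum
    (Fin m' × Fin 2)
  exact mem_of_Fm hf hC.perm (h1 (gen_mem (S := S) (b := b) (Equiv.refl (Fin m' × Fin 2)) hψ))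

/-! ### The Lie algebra of a family which is defined by an operator -/

/-- The Lie algebra which annihilates the family. -/
def LB (B : ∀ m : ℕ, Submodule ℚ (RF W m)) : Submodule ℚ (Module.End ℚ W) where
  carrier := {Z | ∀ m, ∀ ψ ∈ B m, Kills Z ψ}
  add_mem' := by
    intro Z Z' hZ hZ' m ψ hψ v
    have h1 := hZ m ψ hψ v
    have h2 := hZ' m ψ hψ v
    simp only [LinearMap.add_apply, MultilinearMap.map_update_add, Finset.sum_add_distrib]
    rw [h1, h2, add_zero]
  zero_mem' := by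
    intro m ψ hψ v
    refine Finset.sum_eq_zero fun k _ => ?_
    rw [LinearMap.zero_apply]
    exact ψ.map_update_zero v k
  smul_mem' := by
    intro c Z hZ m ψ hψ v
    have h1 := hZ m ψ hψ v
    simp only [LinearMap.smul_apply, MultilinearMap.map_update_smul]
    rw [← Finset.smul_sum, h1, smul_zero]

lemma mem_LB {B : ∀ m : ℕ, Submodule ℚ (RF W m)} {Z : Module.End ℚ W} :
    Z ∈ LB B ↔ ∀ m, ∀ ψ ∈ B m, Kills Z ψ := Iff.rfl

include b in
lemma LB_bracket {B : ∀ m : ℕ, Submodule ℚ (RF W m)} {Z Z' : Module.End ℚ W} (hZ : Z ∈ LB B)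
    (hZ' : Z' ∈ LB B) : Z * Z' - Z' * Z ∈ LB B := by
  intro m ψ hψ
  have h0 : mW b (Z * Z' - Z' * Z) = mW b Z' * mW b Z - mW b Z * mW b Z' := by
    rw [← mW_comp, ← mW_comp]
    ext i j
    simp only [mW, Matrix.sub_apply, LinearMap.sub_apply, map_sub, Finsupp.sub_apply, Rat.cast_sub]
  rw [kills_iff b, h0, dk_bracket, Matrix.sub_mulVec, ← Matrix.mulVec_mulVec,
    ← Matrix.mulVec_mulVec, (kills_iff b Z ψ).1 (hZ m ψ hψ), (kills_iff b Z' ψ).1 (hZ' m ψ hψ),
    Matrix.mulVec_zero, Matrix.mulVec_zero, sub_zero]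

/-- The family `B` consists of the rational forms which are annihilated by the matrix `N`. -/
def DefBy (b : Basis R ℚ W) (B : ∀ m : ℕ, Submodule ℚ (RF W m)) (N : Matrix R R ℂ) : Prop :=
  ∀ m, ∀ ψ : RF W m, ψ ∈ B m ↔ dk (Fin m × Fin 2) N *ᵥ gt b ψ = 0

section defBy

variable {B : ∀ m : ℕ, Submodule ℚ (RF W m)} {N : Matrix R R ℂ} (hBN : DefBy b B N)

include hBN in
lemma cmE_mem_LB (lam : ℂ →ₗ[ℚ] ℚ) : cmE b lam N ∈ LB B := fun m ψ hψ =>
  (dk_iff b N ψ).1 ((hBN m ψ).1 hψ) lam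

include hBN in
lemma mem_B_of_kills {m : ℕ} {ψ : RF W m} (h : ∀ Z ∈ LB B, Kills Z ψ) : ψ ∈ B m :=
  (hBN m ψ).2 ((dk_iff b N ψ).2 fun lam => h _ (cmE_mem_LB hBN lam))

include hf in
lemma conj_mem_LL' {Z : Module.End ℚ W} (hZ : Z ∈ LB B) : S * mW b Z * S' ∈ LL (Fm S b B) := by
  refine mem_LL_of hf fun m ψ hψ => ?_
  have h1 : S' * (S * mW b Z * S') * S = mW b Z := by
    calc _ = (S' * S) * mW b Z * (S' * S) := by simp only [mul_assoc]
      _ = _ := by rw [hf.one', one_mul, mul_one]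
  rw [h1]
  exact (kills_iff b Z ψ).1 (hZ m ψ hψ)

include hf hBN in
lemma hconn' (M : Matrix R R ℂ)
    (hM : ∀ A ∈ LL (Fm S b B), A * M = -(M * Aᵀ)) : mt M ∈ Fm S b B (Fin 2) := by
  let M' : Matrix R R ℂ := S' * M * S'ᵀ
  have hMM : S * M' * Sᵀ = M := by
    have h1 : S'ᵀ * Sᵀ = 1 := by rw [← Matrix.transpose_mul, hf.one, Matrix.transpose_one]
    calc S * (S' * M * S'ᵀ) * Sᵀ = (S * S') * M * (S'ᵀ * Sᵀ) := by simp only [mul_assoc]
      _ = M := by rw [hf.one, h1, one_mul, mul_one]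
  have hmt : mt M = kr (Fin 2) S *ᵥ mt M' := by
    funext I
    change _ = (kr (Fin 2) S *ᵥ fun J => M' (J 0) (J 1)) I
    rw [kr_two, hMM]
    rfl
  let P : Submodule ℂ ((Fin 2 → R) → ℂ) :=
    (Fm S b B (Fin 2)).comap (Matrix.mulVecLin (kr (Fin 2) S))
  have hP : mt M' ∈ P := by
    refine mem_of_comp P _ fun lam => ?_
    change kr (Fin 2) S *ᵥ _ ∈ Fm S b B (Fin 2)
    let e : Fin 1 × Fin 2 ≃ Fin 2 := Equiv.uniqueProd (Fin 2) (Fin 1)
    let ψ : RF W 1 := mkc b (fun J => lam (M' (J (0, 0)) (J (0, 1))))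
    have hgt : ri e (gt b ψ) = fun J => ((lam (mt M' J) : ℚ) : ℂ) := by
      rw [gt_mkc]
      rfl
    have hψ : ψ ∈ B 1 := by
      refine mem_B_of_kills hBN fun Z hZ => ?_
      have h1 := hM _ (conj_mem_LL' hf hZ)
      have h2 : mW b Z * M' = -(M' * (mW b Z)ᵀ) := by
        have h3' : Sᵀ * S'ᵀ = 1 := by rw [← Matrix.transpose_mul, hf.one', Matrix.transpose_one]
        calc mW b Z * (S' * M * S'ᵀ) = (S' * S) * mW b Z * (S' * M * S'ᵀ) := by
              rw [hf.one', one_mul]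
          _ = S' * ((S * mW b Z * S') * M) * S'ᵀ := by simp only [mul_assoc]
          _ = -(S' * M * S'ᵀ * (mW b Z)ᵀ * (Sᵀ * S'ᵀ)) := by
              rw [h1]
              simp only [Matrix.transpose_mul, mul_neg, neg_mul, mul_assoc]
          _ = _ := by rw [h3', mul_one]
      have h4 : dk (Fin 2) (mW b Z) *ᵥ mt M' = 0 := dk_two_zero.2 h2
      rw [kills_iff b]
      have h5 : dk (Fin 2) (mW b Z) *ᵥ ri e (gt b ψ) = 0 := by
        rw [hgt]
        funext J
        rw [lam_dk', h4]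
        simp
      rw [dk_ri] at h5
      funext I
      have h6 := congrFun h5 (fun k => I (e.symm k))
      simp only [ri, Equiv.symm_apply_apply, Pi.zero_apply] at h6
      exact h6
    have h7 := gen_mem (S := S) (b := b) (C := B) e hψ
    rw [← kr_ri, hgt] at h7
    exact h7
  rw [hmt]
  exact hP

/-- The elements of the Lie algebra are skew. -/
lemma LB_skew (hpol : ∀ ψ : RF W 1, (∀ v, ψ v = ω₀ (v (0, 0)) (v (0, 1))) → ψ ∈ B 1)
    {Z : Module.End ℚ W} (hZ : Z ∈ LB B) (u v : W) : ω₀ (Z u) v = -ω₀ u (Z v) := by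
  have h1 := (DR.kills_one2 ω₀ Z).1 (hZ 1 _ (hpol (DR.one2 ω₀) fun v => DR.one2_apply ω₀ v)) u v
  linarith [h1]

end defBy

end

end Pool.Agent.X259.U
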