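import Pool.Agent.X259.U.U9
import Pool.Agent.X259.U.Defs
import Pool.Agent.H204R3.SP.Descent

/-!
# Coordinates for a polarized Hodge structure
-/

set_option autoImplicit false
set_option linter.unusedSectionVars false
set_option linter.unusedDecidableInType false
set_option linter.unusedFintypeInType false

namespace Pool.Agent.X259.U

open Matrix Finset Module Pool.Agent.H204R3.SP Pool.Agent.H204R3.GP Pool.Agent.W516
  Pool.Agent.X259.T
open scoped ComplexOrder TensorProduct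

noncomputable section

variable {V : Type} [AddCommGroup V] [Module ℚ V]

/-! ### The conjugation -/

lemma conj_tmul (a : ℂ) (v : V) : HS.conj V (a ⊗ₜ v) = (starRingEnd ℂ a) ⊗ₜ v := rfl

lemma conj_smul (c : ℂ) (x : ℂ ⊗[ℚ] V) :
    HS.conj V (c • x) = (starRingEnd ℂ c) • HS.conj V x := by
  induction x using TensorProduct.induction_on with
  | zero => simp
  | tmul a v =>
    rw [TensorProduct.smul_tmul', conj_tmul, conj_tmul, TensorProduct.smul_tmul', smul_eq_mul,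
      map_mul, smul_eq_mul]
  | add x y hx hy => rw [smul_add, map_add, map_add, smul_add, hx, hy]

variable {n : ℕ} (e : Basis (Fin n) ℚ V)

lemma conj_repr (x : ℂ ⊗[ℚ] V) (j : Fin n) :
    (e.baseChange ℂ).repr (HS.conj V x) j = star ((e.baseChange ℂ).repr x j) := by
  induction x using TensorProduct.induction_on with
  | zero => simp
  | tmul a v =>
    rw [conj_tmul, Basis.baseChange_repr_tmul, Basis.baseChange_repr_tmul, Rat.smul_def,
      Rat.smul_def, star_mul', Complex.star_def, map_ratCast]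
  | add x y hx hy =>
    rw [map_add, map_add, map_add, Finsupp.add_apply, Finsupp.add_apply, hx, hy, star_add]

lemma Qc_eq (Q : LinearMap.BilinForm ℚ V) (x y : ℂ ⊗[ℚ] V) :
    Q.baseChange ℂ x y = ((fun i => (e.baseChange ℂ).repr x i) ᵥ* Om e Q) ⬝ᵥ
      (fun i => (e.baseChange ℂ).repr y i) := by
  rw [dotProduct]
  simp only [Matrix.vecMul, dotProduct, Finset.sum_mul]
  conv_lhs => rw [← (e.baseChange ℂ).sum_repr x, ← (e.baseChange ℂ).sum_repr y]
  rw [map_sum]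
  refine Finset.sum_congr rfl fun j _ => ?_
  rw [map_smul, map_sum, LinearMap.sum_apply, smul_eq_mul, Finset.mul_sum]
  refine Finset.sum_congr rfl fun i _ => ?_
  rw [map_smul, LinearMap.smul_apply, smul_eq_mul, Basis.baseChange_apply, Basis.baseChange_apply,
    LinearMap.BilinForm.baseChange_tmul, Om, mul_one, Rat.smul_def, mul_one]
  ring

/-! ### Adapted bases -/

variable {H : ℤ → ℤ → Submodule ℂ (ℂ ⊗[ℚ] V)}

lemma exists_adapted [FiniteDimensional ℚ V]
    (h : DirectSum.IsInternal fun i : ℤ × ℤ => H i.1 i.2) :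
    ∃ (vB : Basis (Fin (finrank ℚ V)) ℂ (ℂ ⊗[ℚ] V)) (kk : Fin (finrank ℚ V) → ℤ × ℤ),
      (∀ a, vB a ∈ H (kk a).1 (kk a).2) ∧
      ∀ p q : ℤ, ∀ x ∈ H p q, ∀ a, kk a ≠ (p, q) → vB.repr x a = 0 := by
  let v : ∀ i : ℤ × ℤ, Basis (Fin (finrank ℂ (H i.1 i.2))) ℂ (H i.1 i.2) := fun i =>
    Module.finBasis ℂ (H i.1 i.2)
  let B₀ := h.collectedBasis v
  let _ : Fintype (Σ i : ℤ × ℤ, Fin (finrank ℂ (H i.1 i.2))) :=
    FiniteDimensional.fintypeBasisIndex B₀
  have hc : Fintype.card (Σ i : ℤ × ℤ, Fin (finrank ℂ (H i.1 i.2))) =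
      Fintype.card (Fin (finrank ℚ V)) := by
    rw [Fintype.card_fin, ← Module.finrank_baseChange (R := ℂ) (S := ℚ) (M' := V),
      finrank_eq_card_basis B₀]
  let eq := Fintype.equivOfCardEq hc
  refine ⟨B₀.reindex eq, fun a => (eq.symm a).1, fun a => ?_, fun p q x hx a ha => ?_⟩
  · rw [Basis.reindex_apply]
    exact h.collectedBasis_mem v _
  · rw [Basis.repr_reindex_apply]
    exact h.collectedBasis_repr_of_mem_ne v (i := (p, q)) (j := (eq.symm a).1) (Ne.symm ha)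
      (a := (eq.symm a).2) hx

section adapted

variable (vB : Basis (Fin n) ℂ (ℂ ⊗[ℚ] V)) (kk : Fin n → ℤ × ℤ)

/-- The operator which is multiplication by `f (p, q)` on `H p q`. -/
def opF (f : ℤ × ℤ → ℂ) : (ℂ ⊗[ℚ] V) →ₗ[ℂ] (ℂ ⊗[ℚ] V) :=
  vB.constr ℂ (fun a => f (kk a) • vB a)

variable {vB kk} (hm : ∀ a, vB a ∈ H (kk a).1 (kk a).2)
  (hr : ∀ p q : ℤ, ∀ x ∈ H p q, ∀ a, kk a ≠ (p, q) → vB.repr x a = 0)

lemma opF_basis (f : ℤ × ℤ → ℂ) (a : Fin n) : opF vB kk f (vB a) = f (kk a) • vB a :=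
  vB.constr_basis ℂ _ a

include hr in
lemma opF_mem (f : ℤ × ℤ → ℂ) {p q : ℤ} {x : ℂ ⊗[ℚ] V} (hx : x ∈ H p q) :
    opF vB kk f x = f (p, q) • x := by
  conv_lhs => rw [← vB.sum_repr x]
  conv_rhs => rw [← vB.sum_repr x]
  rw [map_sum, Finset.smul_sum]
  refine Finset.sum_congr rfl fun a _ => ?_
  rw [map_smul, opF_basis]
  by_cases h : kk a = (p, q)
  · rw [h, smul_comm]
  · rw [hr p q x hx a h, zero_smul, zero_smul, smul_zero]

include hm hr in
lemma conj_opF (hcj : ∀ p q : ℤ, ∀ x ∈ H p q, HS.conj V x ∈ H q p) (f : ℤ × ℤ → ℂ)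
    (hf : ∀ p q : ℤ, f (q, p) = starRingEnd ℂ (f (p, q))) (x : ℂ ⊗[ℚ] V) :
    HS.conj V (opF vB kk f x) = opF vB kk f (HS.conj V x) := by
  rw [← vB.sum_repr x]
  simp only [map_sum]
  refine Finset.sum_congr rfl fun a _ => ?_
  rw [map_smul, opF_basis, conj_smul, conj_smul, conj_smul, map_smul,
    opF_mem hr f (hcj _ _ _ (hm a)), hf (kk a).1 (kk a).2]

variable (vB kk)

/-- The matrix of the new basis. -/
def PM : Matrix (Fin n) (Fin n) ℂ := fun i a => vB.repr ((e.baseChange ℂ) i) a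

/-- The matrix of the old basis. -/
def PM' : Matrix (Fin n) (Fin n) ℂ := fun a i => (e.baseChange ℂ).repr (vB a) i

lemma PM_mul : PM' e vB * PM e vB = 1 := by
  ext a b
  rw [Matrix.mul_apply]
  have h1 : ∑ i, PM' e vB a i * PM e vB i b = vB.repr (vB a) b := by
    conv_rhs => rw [← (e.baseChange ℂ).sum_repr (vB a)]
    rw [map_sum, Finset.sum_apply']
    refine Finset.sum_congr rfl fun i _ => ?_
    rw [map_smul, Finsupp.smul_apply, smul_eq_mul]
    rfl
  rw [h1, Basis.repr_self, Finsupp.single_apply, Matrix.one_apply]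

lemma PM_mul' : PM e vB * PM' e vB = 1 := mul_eq_one_comm.1 (PM_mul e vB)

/-- The matrix of an operator. -/
def mC (L : (ℂ ⊗[ℚ] V) →ₗ[ℂ] (ℂ ⊗[ℚ] V)) : Matrix (Fin n) (Fin n) ℂ := fun i j =>
  (e.baseChange ℂ).repr (L ((e.baseChange ℂ) i)) j

lemma mC_opF (f : ℤ × ℤ → ℂ) :
    PM e vB * Matrix.diagonal (fun a => f (kk a)) * PM' e vB = mC e (opF vB kk f) := by
  ext i j
  rw [Matrix.mul_apply, mC]
  conv_rhs => rw [← vB.sum_repr ((e.baseChange ℂ) i)]
  rw [map_sum, map_sum, Finset.sum_apply']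
  refine Finset.sum_congr rfl fun a _ => ?_
  rw [Matrix.mul_diagonal, map_smul, opF_basis, map_smul, map_smul, Finsupp.smul_apply,
    Finsupp.smul_apply, smul_eq_mul, smul_eq_mul, mul_assoc]
  rfl

lemma mC_vecMul (L : (ℂ ⊗[ℚ] V) →ₗ[ℂ] (ℂ ⊗[ℚ] V)) (x : ℂ ⊗[ℚ] V) :
    (fun i => (e.baseChange ℂ).repr x i) ᵥ* mC e L = fun j => (e.baseChange ℂ).repr (L x) j := by
  funext j
  rw [Matrix.vecMul, dotProduct]
  conv_rhs => rw [← (e.baseChange ℂ).sum_repr x]
  rw [map_sum, map_sum, Finset.sum_apply']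
  refine Finset.sum_congr rfl fun i _ => ?_
  rw [map_smul, map_smul, Finsupp.smul_apply, smul_eq_mul]
  rfl

variable {vB kk}

include hm hr in
lemma mC_real (hcj : ∀ p q : ℤ, ∀ x ∈ H p q, HS.conj V x ∈ H q p) (f : ℤ × ℤ → ℂ)
    (hf : ∀ p q : ℤ, f (q, p) = starRingEnd ℂ (f (p, q))) (i j : Fin n) :
    (mC e (opF vB kk f) i j).im = 0 := by
  rw [← Complex.conj_eq_iff_im]
  change star ((e.baseChange ℂ).repr (opF vB kk f ((e.baseChange ℂ) i)) j) = _
  rw [← conj_repr, conj_opF hm hr hcj f hf, Basis.baseChange_apply, conj_tmul, map_one, mC,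
    Basis.baseChange_apply]

end adapted

end

end Pool.Agent.X259.U
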