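import Pool.Agent.X259.U.U10

/-!
# One power decides, for polarized Hodge structures
-/

set_option autoImplicit false
set_option linter.unusedSectionVars false
set_option linter.unusedDecidableInType false
set_option linter.unusedFintypeInType false

namespace Pool.Agent.X259.U

open Matrix Finset Module Pool.Agent.H204R3.SP Pool.Agent.H204R3.GP Pool.Agent.W516
  Pool.Agent.X259.T
open scoped ComplexOrder TensorProduct

noncomputable section

variable {V : Type} [AddCommGroup V] [Module ℚ V] {n : ℕ} (e : Basis (Fin n) ℚ V)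
  {H : ℤ → ℤ → Submodule ℂ (ℂ ⊗[ℚ] V)} {vB : Basis (Fin n) ℂ (ℂ ⊗[ℚ] V)} {kk : Fin n → ℤ × ℤ}
  (hm : ∀ a, vB a ∈ H (kk a).1 (kk a).2)
  (hr : ∀ p q : ℤ, ∀ x ∈ H p q, ∀ a, kk a ≠ (p, q) → vB.repr x a = 0)

/-- The weights. -/
def kd (kk : Fin n → ℤ × ℤ) : Fin n → ℤ := fun a => (kk a).1 - (kk a).2

/-- The eigenvalues of the Weil operator. -/
def fW : ℤ × ℤ → ℂ := fun i => Complex.I ^ (i.1 - i.2)

/-- The eigenvalues of the derivation. -/
def fD : ℤ × ℤ → ℂ := fun i => Complex.I * ((i.1 - i.2 : ℤ) : ℂ)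

lemma we_eq : we (PM e vB) (PM' e vB) (kd kk) = mC e (opF vB kk fW) := (mC_opF e vB kk fW)

lemma wt_eq : wt (PM e vB) (PM' e vB) (kd kk) = mC e (opF vB kk fD) := (mC_opF e vB kk fD)

lemma fW_conj (p q : ℤ) : fW (q, p) = starRingEnd ℂ (fW (p, q)) := by
  rw [fW, fW, map_zpow₀, Complex.conj_I]
  have h1 : (-Complex.I : ℂ) = Complex.I⁻¹ := Complex.inv_I.symm
  rw [h1, _root_.inv_zpow', neg_sub]

lemma fD_conj (p q : ℤ) : fD (q, p) = starRingEnd ℂ (fD (p, q)) := by
  rw [fD, fD, map_mul, Complex.conj_I, map_intCast]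
  push_cast
  ring

lemma fW_sq (i : ℤ × ℤ) : fW i * fW i = (-1 : ℂ) ^ (i.1 + i.2) := by
  rw [fW, ← mul_zpow, Complex.I_mul_I]
  have h1 : i.1 + i.2 = (i.1 - i.2) + 2 * i.2 := by ring
  rw [h1, zpow_add₀ (by norm_num), _root_.zpow_mul]
  norm_num

variable {ε : Module.End ℚ V} {Q : LinearMap.BilinForm ℚ V}

include hm hr in
lemma sq_eq (hpar : ∀ p q : ℤ, ∀ x ∈ H p q, ε.baseChange ℂ x = (-1 : ℂ) ^ (p + q) • x) :
    we (PM e vB) (PM' e vB) (kd kk) * we (PM e vB) (PM' e vB) (kd kk) = mW e ε := by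
  have h1 : opF vB kk (fun i => (-1 : ℂ) ^ (i.1 + i.2)) = ε.baseChange ℂ := by
    refine vB.ext fun a => ?_
    rw [opF_basis, hpar _ _ _ (hm a)]
  have h2 : we (PM e vB) (PM' e vB) (kd kk) * we (PM e vB) (PM' e vB) (kd kk) =
      PM e vB * Matrix.diagonal (fun a => (-1 : ℂ) ^ ((kk a).1 + (kk a).2)) * PM' e vB := by
    have h3 : Matrix.diagonal (fun x => Complex.I ^ (kd kk x)) *
        Matrix.diagonal (fun x => Complex.I ^ (kd kk x)) =
        Matrix.diagonal (fun a => (-1 : ℂ) ^ ((kk a).1 + (kk a).2)) := by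
      rw [Matrix.diagonal_mul_diagonal]
      congr 1
      funext a
      exact fW_sq (kk a)
    rw [← h3, we]
    calc _ = PM e vB * Matrix.diagonal (fun x => Complex.I ^ (kd kk x)) * (PM' e vB * PM e vB) *
          Matrix.diagonal (fun x => Complex.I ^ (kd kk x)) * PM' e vB := by simp only [mul_assoc]
      _ = _ := by rw [PM_mul, mul_one]; simp only [mul_assoc]
  rw [h2]
  have h3 := mC_opF e vB kk (fun i => (-1 : ℂ) ^ (i.1 + i.2))
  rw [h3, h1]
  ext i j
  rw [mC, Basis.baseChange_apply, LinearMap.baseChange_tmul, Basis.baseChange_repr_tmul,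
    Rat.smul_def, mul_one]
  rfl

include hm in
lemma inv_eq (horth : ∀ p q r s : ℤ, (r, s) ≠ (q, p) → ∀ x ∈ H p q, ∀ y ∈ H r s,
    Q.baseChange ℂ x y = 0) :
    wt (PM e vB) (PM' e vB) (kd kk) * Om e Q =
      -(Om e Q * (wt (PM e vB) (PM' e vB) (kd kk))ᵀ) := by
  have hG : ∀ a b, (PM' e vB * Om e Q * (PM' e vB)ᵀ) a b = Q.baseChange ℂ (vB a) (vB b) := by
    intro a b
    rw [Qc_eq e, Matrix.mul_apply, dotProduct]
    refine Finset.sum_congr rfl fun j _ => ?_
    congr 1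
  have hd1 : Matrix.diagonal (fun x => Complex.I * (kd kk x : ℂ)) *
      (PM' e vB * Om e Q * (PM' e vB)ᵀ) =
      -((PM' e vB * Om e Q * (PM' e vB)ᵀ) * Matrix.diagonal (fun x => Complex.I * (kd kk x : ℂ))) := by
    ext a b
    rw [Matrix.diagonal_mul, Matrix.neg_apply, Matrix.mul_diagonal, hG]
    by_cases h : kk b = ((kk a).2, (kk a).1)
    · have h1 : kd kk b = -kd kk a := by
        rw [kd, kd, h]
        ring
      rw [h1]
      push_cast
      ring
    · rw [horth _ _ _ _ (fun h' => h h') _ (hm a) _ (hm b), mul_zero, zero_mul, neg_zero]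
  have hT : (PM' e vB)ᵀ * (PM e vB)ᵀ = 1 := by
    rw [← Matrix.transpose_mul, PM_mul', Matrix.transpose_one]
  calc wt (PM e vB) (PM' e vB) (kd kk) * Om e Q =
      PM e vB * (Matrix.diagonal (fun x => Complex.I * (kd kk x : ℂ)) *
        (PM' e vB * Om e Q * (PM' e vB)ᵀ)) * (PM e vB)ᵀ := by
        rw [wt]
        calc _ = PM e vB * Matrix.diagonal (fun x => Complex.I * (kd kk x : ℂ)) * PM' e vB *
              Om e Q * ((PM' e vB)ᵀ * (PM e vB)ᵀ) := by rw [hT, mul_one]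
          _ = _ := by simp only [mul_assoc]
    _ = -((PM e vB * PM' e vB) * Om e Q * ((PM' e vB)ᵀ *
        Matrix.diagonal (fun x => Complex.I * (kd kk x : ℂ)) * (PM e vB)ᵀ)) := by
        rw [hd1]
        simp only [mul_neg, neg_mul, mul_assoc]
    _ = _ := by
        rw [PM_mul', one_mul, wt, Matrix.transpose_mul, Matrix.transpose_mul,
          Matrix.diagonal_transpose]
        simp only [mul_assoc]

include e hm hr in
lemma trace_eq (hcj : ∀ p q : ℤ, ∀ x ∈ H p q, HS.conj V x ∈ H q p) : ∑ a, kd kk a = 0 := by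
  have h1 : (wt (PM e vB) (PM' e vB) (kd kk)).trace = Complex.I * ((∑ a, kd kk a : ℤ) : ℂ) := by
    rw [wt, Matrix.trace_mul_comm, ← mul_assoc, PM_mul, one_mul, Matrix.trace_diagonal,
      Int.cast_sum, Finset.mul_sum]
  have h2 : (wt (PM e vB) (PM' e vB) (kd kk)).trace.im = 0 := by
    rw [Matrix.trace, Complex.im_sum]
    refine Finset.sum_eq_zero fun i _ => ?_
    rw [Matrix.diag_apply, wt_eq]
    exact mC_real e hm hr hcj fD fD_conj i i
  rw [h1, Complex.I_mul_im, Complex.intCast_re] at h2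
  exact_mod_cast h2

/-- The components. -/
def pj (vB : Basis (Fin n) ℂ (ℂ ⊗[ℚ] V)) (kk : Fin n → ℤ × ℤ) (x : ℂ ⊗[ℚ] V) (i : ℤ × ℤ) :
    ℂ ⊗[ℚ] V := ∑ a ∈ Finset.univ.filter (fun a => kk a = i), vB.repr x a • vB a

include hm in
lemma pj_mem (x : ℂ ⊗[ℚ] V) (i : ℤ × ℤ) : pj vB kk x i ∈ H i.1 i.2 := by
  refine Submodule.sum_mem _ fun a ha => Submodule.smul_mem _ _ ?_
  have h1 := (Finset.mem_filter.1 ha).2
  have h2 := hm a
  rw [h1] at h2
  exact h2

lemma sum_pj (x : ℂ ⊗[ℚ] V) : ∑ i ∈ Finset.univ.image kk, pj vB kk x i = x := by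
  conv_rhs => rw [← vB.sum_repr x]
  exact Finset.sum_fiberwise_of_maps_to (fun a _ => Finset.mem_image_of_mem kk (Finset.mem_univ a))
    (fun a => vB.repr x a • vB a)

include hm hr in
lemma pos_eq (hcj : ∀ p q : ℤ, ∀ x ∈ H p q, HS.conj V x ∈ H q p)
    (horth : ∀ p q r s : ℤ, (r, s) ≠ (q, p) → ∀ x ∈ H p q, ∀ y ∈ H r s, Q.baseChange ℂ x y = 0)
    (hpos : ∀ p q : ℤ, ∀ x ∈ H p q, x ≠ 0 →
      0 < Complex.I ^ (p - q) * Q.baseChange ℂ x (HS.conj V x)) (z : Fin n → ℂ) (hz : z ≠ 0) :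
    0 < (z ᵥ* (we (PM e vB) (PM' e vB) (kd kk) * Om e Q)) ⬝ᵥ star z := by
  let x : ℂ ⊗[ℚ] V := ∑ i, z i • (e.baseChange ℂ) i
  have hx : (fun i => (e.baseChange ℂ).repr x i) = z := by
    funext i
    exact congrFun ((e.baseChange ℂ).repr_sum_self z) i
  have hx0 : x ≠ 0 := by
    intro h
    apply hz
    rw [← hx, h]
    funext i
    simp
  have hcx : (fun i => (e.baseChange ℂ).repr (HS.conj V x) i) = star z := by
    funext i
    rw [conj_repr, ← hx]
    rfl
  have h1 : (z ᵥ* (we (PM e vB) (PM' e vB) (kd kk) * Om e Q)) ⬝ᵥ star z =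
      Q.baseChange ℂ (opF vB kk fW x) (HS.conj V x) := by
    rw [Qc_eq e, hcx, ← mC_vecMul, hx, we_eq, Matrix.vecMul_vecMul]
  have h2 : Q.baseChange ℂ (opF vB kk fW x) (HS.conj V x) =
      ∑ i ∈ Finset.univ.image kk, Complex.I ^ (i.1 - i.2) *
        Q.baseChange ℂ (pj vB kk x i) (HS.conj V (pj vB kk x i)) := by
    conv_lhs => rw [← sum_pj (vB := vB) (kk := kk) x]
    rw [map_sum, map_sum, map_sum, LinearMap.sum_apply]
    refine Finset.sum_congr rfl fun i hi => ?_
    rw [map_sum, Finset.sum_eq_single i]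
    · rw [opF_mem hr fW (pj_mem hm x i), map_smul, LinearMap.smul_apply, smul_eq_mul]
      rfl
    · intro j _ hj
      rw [opF_mem hr fW (pj_mem hm x i), map_smul, LinearMap.smul_apply,
        horth i.1 i.2 j.2 j.1 (fun h => hj (by
          have h3 := congrArg Prod.fst h
          have h4 := congrArg Prod.snd h
          exact Prod.ext h4 h3)) _ (pj_mem hm x i) _ (hcj _ _ _ (pj_mem hm x j)), smul_zero]
    · intro h
      exact absurd hi h
  rw [h1, h2]
  have h3 : ∃ i ∈ Finset.univ.image kk, pj vB kk x i ≠ 0 := by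
    by_contra hcon
    apply hx0
    rw [← sum_pj (vB := vB) (kk := kk) x]
    refine Finset.sum_eq_zero fun i hi => ?_
    by_contra h4
    exact hcon ⟨i, hi, h4⟩
  obtain ⟨i, hi, hi0⟩ := h3
  refine Finset.sum_pos' (fun j _ => ?_) ⟨i, hi, hpos _ _ _ (pj_mem hm x i) hi0⟩
  by_cases h4 : pj vB kk x j = 0
  · rw [h4, map_zero, LinearMap.zero_apply, mul_zero]
  · exact (hpos _ _ _ (pj_mem hm x j) h4).le

include hm hr in
/-- The coordinates of a polarized Hodge structure. -/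
theorem hd_of (hH : HS.IsHodgeStructure H ε) (hQ : HS.IsPolarization H ε Q) :
    HD e Q ε (PM e vB) (PM' e vB) (kd kk) where
  h := PM_mul e vB
  h' := PM_mul' e vB
  real := fun i j => by
    rw [we_eq]
    exact mC_real e hm hr hH.conj fW fW_conj i j
  sq := sq_eq e hm hr hH.parity
  inv := inv_eq e hm hQ.orth
  eps := hQ.symm
  pos := pos_eq e hm hr hH.conj hQ.orth hQ.pos
  trace := trace_eq e hm hr hH.conj

/-! ### Hodge forms -/

lemma ext_basis {m : ℕ} {ψ : RF V m} {Ψ : MultilinearMap ℂ (fun _ : Fin m × Fin 2 => ℂ ⊗[ℚ] V) ℂ}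
    (hΨ : ∀ v : Fin m × Fin 2 → V, Ψ (fun k => 1 ⊗ₜ v k) = ψ v) (a : Fin m × Fin 2 → Fin n) :
    Ψ (fun l => vB (a l)) = (kr (Fin m × Fin 2) (PM' e vB) *ᵥ gt e ψ) a := by
  have h1 : (fun l => vB (a l)) = fun l => ∑ i, PM' e vB (a l) i • (e.baseChange ℂ) i := by
    funext l
    exact ((e.baseChange ℂ).sum_repr (vB (a l))).symm
  rw [h1, MultilinearMap.map_sum, kr_mulVec]
  refine Finset.sum_congr rfl fun J _ => ?_
  rw [MultilinearMap.map_smul_univ, smul_eq_mul]
  congr 1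
  simp only [Basis.baseChange_apply]
  exact hΨ fun l => e (J l)

include hm hr in
/-- Hodge forms in coordinates. -/
theorem hodge_iff_ann {m : ℕ} (ψ : RF V m) :
    HS.IsHodgeForm H ψ ↔ ψ ∈ Ann e (wt (PM e vB) (PM' e vB) (kd kk)) m := by
  rw [mem_Ann, wt, dk_conj_diag (PM_mul e vB) (PM_mul' e vB)]
  constructor
  · rintro ⟨Ψ, hΨ, hz⟩
    have h1 : dk (Fin m × Fin 2) (Matrix.diagonal (fun x => Complex.I * (kd kk x : ℂ))) *ᵥ
        (kr (Fin m × Fin 2) (PM' e vB) *ᵥ gt e ψ) = 0 := by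
      funext a
      rw [dk_diagonal_mulVec, Pi.zero_apply, ← ext_basis e hΨ a]
      by_cases h2 : ∑ l, (kk (a l)).1 = ∑ l, (kk (a l)).2
      · have h3 : ∑ l, Complex.I * (kd kk (a l) : ℂ) = 0 := by
          rw [← Finset.mul_sum, ← Int.cast_sum]
          have h4 : ∑ l, kd kk (a l) = 0 := by
            simp only [kd]
            rw [Finset.sum_sub_distrib, h2, sub_self]
          rw [h4, Int.cast_zero, mul_zero]
        rw [h3, zero_mul]
      · rw [hz (fun l => (kk (a l)).1) (fun l => (kk (a l)).2) _ (fun l => hm (a l)) h2, mul_zero]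
    rw [h1, Matrix.mulVec_zero]
  · intro h
    have h1 := kr_inj (PM_mul e vB) h
    refine ⟨bcm e ψ, fun v => ?_, fun p q x hx hpq => ?_⟩
    · rw [bcm_one]
      exact eq_ratCast _ _
    · have hx' : x = fun l => ∑ a, vB.repr (x l) a • vB a := by
        funext l
        exact (vB.sum_repr (x l)).symm
      rw [hx', MultilinearMap.map_sum]
      refine Finset.sum_eq_zero fun a _ => ?_
      rw [MultilinearMap.map_smul_univ, smul_eq_mul]
      by_cases h2 : ∀ l, kk (a l) = (p l, q l)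
      · have h3 := congrFun h1 a
        rw [dk_diagonal_mulVec, Pi.zero_apply, ← ext_basis e (ψ := ψ) (Ψ := bcm e ψ) (fun v => by
          rw [bcm_one]
          exact eq_ratCast _ _) a] at h3
        rcases mul_eq_zero.1 h3 with h4 | h4
        · exfalso
          rw [← Finset.mul_sum, ← Int.cast_sum] at h4
          rcases mul_eq_zero.1 h4 with h5 | h5
          · exact Complex.I_ne_zero h5
          · have h6 : ∑ l, kd kk (a l) = 0 := by exact_mod_cast h5
            apply hpq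
            simp only [kd, h2] at h6
            rw [Finset.sum_sub_distrib, sub_eq_zero] at h6
            exact h6
        · rw [h4, mul_zero]
      · obtain ⟨l, hl⟩ := not_forall.1 h2
        rw [Finset.prod_eq_zero (Finset.mem_univ l) (hr _ _ _ (hx l) (a l) hl), zero_mul]

end

end Pool.Agent.X259.U
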