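import Pool.Agent.X259.U.U11

/-!
# One power decides, for polarized Hodge structures: the theorem
-/

set_option autoImplicit false
set_option linter.unusedSectionVars false
set_option linter.unusedDecidableInType false
set_option linter.unusedFintypeInType false

namespace Pool.Agent.X259.U

open Matrix Finset Module Pool.Agent.H204R3.SP Pool.Agent.H204R3.GP Pool.Agent.W516
  Pool.Agent.X259.T
open scoped ComplexOrder TensorProduct

noncomputable section

variable {V : Type} [AddCommGroup V] [Module ℚ V] [FiniteDimensional ℚ V]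
  {H : ℤ → ℤ → Submodule ℂ (ℂ ⊗[ℚ] V)} {ε : Module.End ℚ V} {Q : LinearMap.BilinForm ℚ V}

/-- Dual families for the polarization. -/
lemma exists_dual_pol (hH : HS.IsHodgeStructure H ε) (hQ : HS.IsPolarization H ε Q) :
    ∃ γ γ' : Fin (finrank ℚ V) → V, ∀ v : V, v = ∑ i, Q v (γ' i) • γ i := by
  obtain ⟨vB, kk, hm, hr⟩ := exists_adapted hH.internal
  have hd := hd_of (Module.finBasis ℚ V) hm hr hH hQ
  have hinj : Function.Injective Q.flip := by
    rw [← LinearMap.ker_eq_bot, LinearMap.ker_eq_bot']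
    intro v hv
    exact hd.nd v fun u => congrArg (fun f : V →ₗ[ℚ] ℚ => f u) hv
  have hsurj : Function.Surjective Q.flip :=
    (LinearMap.injective_iff_surjective_of_finrank_eq_finrank Subspace.dual_finrank_eq.symm).1 hinj
  let b := Module.finBasis ℚ V
  choose β' hβ' using fun i => hsurj (b.coord i)
  refine ⟨b, β', fun w => ?_⟩
  conv_lhs => rw [← b.sum_repr w]
  refine Finset.sum_congr rfl fun i _ => ?_
  have h1 : Q w (β' i) = b.coord i w := congrArg (fun f : V →ₗ[ℚ] ℚ => f w) (hβ' i)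
  rw [h1, Basis.coord_apply]

/-- **One power decides.** -/
theorem one_power_hs (hH : HS.IsHodgeStructure H ε) (hQ : HS.IsPolarization H ε Q)
    {w : ℕ} (hw1 : 1 ≤ w) (hw : ∀ p q : ℤ, H p q ≠ ⊥ → |p - q| ≤ w) (hn : 1 ≤ finrank ℚ V)
    {ι : Type} [Fintype ι] [DecidableEq ι] {γ γ' : ι → V}
    (hγ : ∀ v : V, v = ∑ i, Q v (γ' i) • γ i)
    {C : ∀ m : ℕ, Submodule ℚ (RF V m)} (hC : Closed Q γ γ' C)
    (hCH : ∀ (m : ℕ), ∀ ψ ∈ C m, HS.IsHodgeForm H ψ) {m : ℕ}
    (hm : (2 * finrank ℚ V * w) ^ (8 * finrank ℚ V + 9) ≤ m)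
    (heq : ∀ ψ : RF V m, HS.IsHodgeForm H ψ → ψ ∈ C m) (m' : ℕ) (ψ : RF V m')
    (hψ : HS.IsHodgeForm H ψ) : ψ ∈ C m' := by
  obtain ⟨vB, kk, hmem, hr⟩ := exists_adapted hH.internal
  have hd := hd_of (Module.finBasis ℚ V) hmem hr hH hQ
  have hA : ∀ (m : ℕ) (ψ : RF V m), HS.IsHodgeForm H ψ ↔
      ψ ∈ Ann (Module.finBasis ℚ V) (wt (PM (Module.finBasis ℚ V) vB)
        (PM' (Module.finBasis ℚ V) vB) (kd kk)) m := fun m ψ => hodge_iff_ann _ hmem hr ψ
  have hwk : ∀ a, |kd kk a| ≤ w := fun a => by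
    refine hw _ _ fun h => ?_
    have h1 := hmem a
    rw [h, Submodule.mem_bot] at h1
    exact vB.ne_zero a h1
  exact one_power_gen hd hγ hC (fun m ψ hψ => (hA m ψ).1 (hCH m ψ hψ)) hn hw1 hwk hm
    (fun ψ hψ => heq ψ ((hA m ψ).2 hψ)) m' ((hA m' ψ).1 hψ)

end

end Pool.Agent.X259.U
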