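import Pool.Agent.X259.U.U12

/-!
# One power decides, if the centre has no skew elements
-/

set_option autoImplicit false
set_option linter.unusedSectionVars false
set_option linter.unusedDecidableInType false
set_option linter.unusedFintypeInType false

namespace Pool.Agent.X259.U

open Matrix Finset Module Pool.Agent.H204R3.SP Pool.Agent.H204R3.GP Pool.Agent.W516
  Pool.Agent.X259.T
open scoped ComplexOrder TensorProduct

noncomputable section

section coordinates

variable {V : Type} [AddCommGroup V] [Module ℚ V] {n : ℕ}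
  {e : Basis (Fin n) ℚ V} {Q : V →ₗ[ℚ] V →ₗ[ℚ] ℚ} {ε : Module.End ℚ V}
  {P P' : Matrix (Fin n) (Fin n) ℂ} {k : Fin n → ℤ} (hd : HD e Q ε P P' k)
  {ι : Type} [Fintype ι] [DecidableEq ι] {γ γ' : ι → V}
  (hγ : ∀ v : V, v = ∑ i, Q v (γ' i) • γ i)

/-- Bilinear forms annihilated by a matrix. -/
lemma one2_mem {X : Matrix (Fin n) (Fin n) ℂ} {B : V →ₗ[ℚ] V →ₗ[ℚ] ℚ} :
    DR.one2 B ∈ Ann e X 1 ↔ X * Om e B = -(Om e B * Xᵀ) := by
  rw [mem_Ann, ← dk_two_zero]
  let e' : Fin 1 × Fin 2 ≃ Fin 2 := Equiv.uniqueProd (Fin 2) (Fin 1)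
  have h2 : ri e' (gt e (DR.one2 B)) = mt (Om e B) := by
    funext J
    change gt e (DR.one2 B) _ = _
    rw [gt, DR.one2_apply]
    rfl
  rw [← h2, dk_ri]
  constructor
  · intro h
    rw [h]
    rfl
  · intro h
    funext I
    have h6 := congrFun h (fun k => I (e'.symm k))
    simp only [ri, Equiv.symm_apply_apply, Pi.zero_apply] at h6
    exact h6

/-- The components of a bilinear form on `V × V`. -/
lemma one2_lift {C : ∀ m : ℕ, Submodule ℚ (RF V m)} {B : V × V →ₗ[ℚ] V × V →ₗ[ℚ] ℚ}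
    (h : ∀ s t : Bool, DR.one2 ((B.comp (inj s)).compl₂ (inj t)) ∈ C 1) :
    DR.one2 B ∈ Lift C 1 := by
  intro t
  have h1 : cpt (DR.one2 B) t = DR.one2 ((B.comp (inj (t (0, 0)))).compl₂ (inj (t (0, 1)))) := by
    ext v
    rw [cpt_apply, DR.one2_apply, DR.one2_apply]
    rfl
  rw [h1]
  exact h _ _

/-- The form of an endomorphism. -/
lemma Om_comp (p : Module.End ℚ V) : Om e (Q.comp p) = mW e p * Om e Q := by
  ext i j
  rw [Matrix.mul_apply]
  have e1 : ((Q (p (e i)) (e j) : ℚ) : ℂ) = ∑ l, mW e p i l * Om e Q l j := by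
    conv_lhs => rw [← e.sum_repr (p (e i))]
    rw [map_sum, LinearMap.sum_apply, Rat.cast_sum]
    refine Finset.sum_congr rfl fun l _ => ?_
    rw [map_smul, LinearMap.smul_apply, smul_eq_mul, Rat.cast_mul]
    rfl
  exact e1

lemma Om_compl (p : Module.End ℚ V) : Om e (Q.compl₂ p) = Om e Q * (mW e p)ᵀ := by
  ext i j
  rw [Matrix.mul_apply]
  have e1 : ((Q (e i) (p (e j)) : ℚ) : ℂ) = ∑ l, Om e Q i l * (mW e p)ᵀ l j := by
    conv_lhs => rw [← e.sum_repr (p (e j))]
    rw [map_sum, Rat.cast_sum]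
    refine Finset.sum_congr rfl fun l _ => ?_
    rw [map_smul, smul_eq_mul, Rat.cast_mul, mul_comm]
    rfl
  exact e1

lemma Om_neg (B : V →ₗ[ℚ] V →ₗ[ℚ] ℚ) : Om e (-B) = -Om e B := by
  ext i j
  simp [Om]

lemma Om_flip (B : V →ₗ[ℚ] V →ₗ[ℚ] ℚ) : Om e B.flip = (Om e B)ᵀ := rfl

lemma one2_zero {C : ∀ m : ℕ, Submodule ℚ (RF V m)} : DR.one2 (0 : V →ₗ[ℚ] V →ₗ[ℚ] ℚ) ∈ C 1 := by
  have h1 : DR.one2 (0 : V →ₗ[ℚ] V →ₗ[ℚ] ℚ) = 0 := by
    ext v
    rw [DR.one2_apply]
    rfl
  rw [h1]
  exact Submodule.zero_mem _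

section comm

variable {p : Module.End ℚ V} (hp : wt P P' k * mW e p = mW e p * wt P P' k)

include hd hp in
lemma comp_mem : DR.one2 (Q.comp p) ∈ Ann e (wt P P' k) 1 := by
  rw [one2_mem, Om_comp, ← mul_assoc, hp, mul_assoc, hd.inv, mul_neg, mul_assoc]

include hd hp in
lemma compl_mem : DR.one2 (Q.compl₂ p) ∈ Ann e (wt P P' k) 1 := by
  rw [one2_mem, Om_compl, ← mul_assoc, hd.inv, neg_mul, mul_assoc, mul_assoc,
    ← Matrix.transpose_mul, ← Matrix.transpose_mul, hp]

/-- The endomorphism `p ⊕ p`. -/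
def dg (p : Module.End ℚ V) : Module.End ℚ (V × V) := LinearMap.prodMap p p

lemma one2_neg_mem {C : ∀ m : ℕ, Submodule ℚ (RF V m)} {B : V →ₗ[ℚ] V →ₗ[ℚ] ℚ}
    (h : DR.one2 B ∈ C 1) : DR.one2 (-B) ∈ C 1 := by
  have h1 : DR.one2 (-B) = -DR.one2 B := by
    ext v
    rw [DR.one2_apply]
    change -(B (v (0, 0)) (v (0, 1))) = -(DR.one2 B v)
    rw [DR.one2_apply]
  rw [h1]
  exact Submodule.neg_mem _ h

lemma one2_flip_mem {C : ∀ m : ℕ, Submodule ℚ (RF V m)} (hC : Closed Q γ γ' C)
    {B : V →ₗ[ℚ] V →ₗ[ℚ] ℚ} (h : DR.one2 B ∈ C 1) : DR.one2 B.flip ∈ C 1 := by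
  have h1 : DR.one2 B.flip = (DR.one2 B).domDomCongr (Equiv.swap (0, 0) (0, 1)) := by
    ext v
    rw [DR.one2_apply, MultilinearMap.domDomCongr_apply, DR.one2_apply,
      Equiv.swap_apply_left, Equiv.swap_apply_right]
    rfl
  rw [h1]
  exact hC.perm 1 _ _ h

include hd hγ hp in
lemma dg_incomm : InComm (Lift (Ann e (wt P P' k))) (dg p) := by
  refine incomm_of_form hd hγ _ (one2_lift fun s t => ?_)
  have hcl := ann_closed' hd hγ
  rcases s with _ | _ <;> rcases t with _ | _
  · have h1 : (((dbl Q).comp (dg p)).comp (inj false)).compl₂ (inj false) = 0 := by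
      ext u v
      change Q (p u) 0 - Q v (p 0) = 0
      rw [map_zero, map_zero, map_zero, sub_zero]
    rw [h1]
    exact one2_zero
  · have h1 : (((dbl Q).comp (dg p)).comp (inj false)).compl₂ (inj true) = Q.comp p := by
      ext u v
      change Q (p u) v - Q 0 (p 0) = Q (p u) v
      rw [map_zero, map_zero, LinearMap.zero_apply, sub_zero]
    rw [h1]
    exact comp_mem hd hp
  · have h1 : (((dbl Q).comp (dg p)).comp (inj true)).compl₂ (inj false) = -(Q.compl₂ p).flip := by
      ext u v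
      change Q (p 0) 0 - Q v (p u) = -Q v (p u)
      rw [map_zero, zero_sub]
    rw [h1]
    exact one2_neg_mem (one2_flip_mem hcl (compl_mem hd hp))
  · have h1 : (((dbl Q).comp (dg p)).comp (inj true)).compl₂ (inj true) = 0 := by
      ext u v
      change Q (p 0) v - Q 0 (p u) = 0
      rw [map_zero, map_zero, LinearMap.zero_apply, LinearMap.zero_apply, sub_zero]
    rw [h1]
    exact one2_zero

end comm

/-- The projector on the first factor. -/
def p1 : Module.End ℚ (V × V) := (LinearMap.inl ℚ V V).comp (LinearMap.fst ℚ V V)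

/-- The swap. -/
def sw : Module.End ℚ (V × V) := LinearMap.prod (LinearMap.snd ℚ V V) (LinearMap.fst ℚ V V)

include hd hγ in
lemma p1_incomm : InComm (Lift (Ann e (wt P P' k))) (p1 : Module.End ℚ (V × V)) := by
  refine incomm_of_form hd hγ _ (one2_lift fun s t => ?_)
  have hcl := ann_closed' hd hγ
  have hQ : DR.one2 Q ∈ Ann e (wt P P' k) 1 := hcl.pol _ fun v => DR.one2_apply Q v
  rcases s with _ | _ <;> rcases t with _ | _
  · have h1 : (((dbl Q).comp p1).comp (inj false)).compl₂ (inj false) = 0 := by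
      ext u v
      change Q u 0 - Q v 0 = 0
      rw [map_zero, map_zero, sub_zero]
    rw [h1]
    exact one2_zero
  · have h1 : (((dbl Q).comp p1).comp (inj false)).compl₂ (inj true) = Q := by
      ext u v
      change Q u v - Q 0 0 = Q u v
      rw [map_zero, sub_zero]
    rw [h1]
    exact hQ
  · have h1 : (((dbl Q).comp p1).comp (inj true)).compl₂ (inj false) = 0 := by
      ext u v
      change Q 0 0 - Q v 0 = 0
      rw [map_zero, map_zero, sub_zero]
    rw [h1]
    exact one2_zero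
  · have h1 : (((dbl Q).comp p1).comp (inj true)).compl₂ (inj true) = 0 := by
      ext u v
      change Q 0 v - Q 0 0 = 0
      rw [map_zero, map_zero, LinearMap.zero_apply, sub_zero]
    rw [h1]
    exact one2_zero

include hd hγ in
lemma sw_incomm : InComm (Lift (Ann e (wt P P' k))) (sw : Module.End ℚ (V × V)) := by
  refine incomm_of_form hd hγ _ (one2_lift fun s t => ?_)
  have hcl := ann_closed' hd hγ
  have hQ : DR.one2 Q ∈ Ann e (wt P P' k) 1 := hcl.pol _ fun v => DR.one2_apply Q v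
  rcases s with _ | _ <;> rcases t with _ | _
  · have h1 : (((dbl Q).comp sw).comp (inj false)).compl₂ (inj false) = -Q.flip := by
      ext u v
      change Q 0 0 - Q v u = -Q v u
      rw [map_zero, zero_sub]
    rw [h1]
    exact one2_neg_mem (one2_flip_mem hcl hQ)
  · have h1 : (((dbl Q).comp sw).comp (inj false)).compl₂ (inj true) = 0 := by
      ext u v
      change Q 0 v - Q 0 u = 0
      rw [map_zero, LinearMap.zero_apply, LinearMap.zero_apply, sub_zero]
    rw [h1]
    exact one2_zero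
  · have h1 : (((dbl Q).comp sw).comp (inj true)).compl₂ (inj false) = 0 := by
      ext u v
      change Q u 0 - Q v 0 = 0
      rw [map_zero, map_zero, sub_zero]
    rw [h1]
    exact one2_zero
  · have h1 : (((dbl Q).comp sw).comp (inj true)).compl₂ (inj true) = Q := by
      ext u v
      change Q u v - Q 0 0 = Q u v
      rw [map_zero, sub_zero]
    rw [h1]
    exact hQ

/-- There are no skew elements in the centre. -/
def NoSkew (e : Basis (Fin n) ℚ V) (Q : V →ₗ[ℚ] V →ₗ[ℚ] ℚ) (N : Matrix (Fin n) (Fin n) ℂ) : Prop :=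
  ∀ p : Module.End ℚ V, N * mW e p = mW e p * N →
    (∀ p' : Module.End ℚ V, N * mW e p' = mW e p' * N → p * p' = p' * p) →
    (∀ u v, Q (p u) v = -Q u (p v)) → p = 0

include hd hγ in
/-- The skew elements of the centre of the commutant vanish. -/
lemma center_noskew (hns : NoSkew e Q (wt P P' k)) {X : Module.End ℚ (V × V)}
    (hX : InComm (Lift (Ann e (wt P P' k))) X)
    (hXz : ∀ Y, InComm (Lift (Ann e (wt P P' k))) Y → X * Y = Y * X)
    (hsk : ∀ u v, dbl Q (X u) v = -dbl Q u (X v)) : X = 0 := by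
  let p : Module.End ℚ V := (LinearMap.fst ℚ V V).comp (X.comp (LinearMap.inl ℚ V V))
  have h1 : ∀ u, X (u, 0) = (p u, 0) := by
    intro u
    have h2 := congrArg (fun f : Module.End ℚ (V × V) => f (u, 0)) (hXz _ (p1_incomm hd hγ))
    have h3 : X (u, 0) = p1 (X (u, 0)) := h2
    rw [h3]
    rfl
  have h2 : ∀ u, X (0, u) = (0, p u) := by
    intro u
    have h3 := congrArg (fun f : Module.End ℚ (V × V) => f (u, 0)) (hXz _ (sw_incomm hd hγ))
    have h4 : X (0, u) = sw (X (u, 0)) := h3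
    rw [h4, h1]
    rfl
  have h3 : X = dg p := by
    refine LinearMap.ext fun x => ?_
    have h4 : x = (x.1, 0) + (0, x.2) := by simp
    conv_lhs => rw [h4]
    rw [map_add, h1, h2]
    simp [dg]
  have h4 : p = 0 := by
    refine hns p ?_ ?_ ?_
    · have h5 : bd (wt P P' k) * mW (e2 e) X = mW (e2 e) X * bd (wt P P' k) :=
        (comm_iff (e2 e) _ X).2 fun lam =>
          (hX _ (cmE_mem_LB (defBy_lift e (wt P P' k)) lam)).symm
      have h6 : mW (e2 e) X = bd (mW e p) := by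
        ext i j
        rw [mW, h3]
        rcases i with i | i
        · rw [e2_inl]
          rcases j with j | j
          · simp [e2, dg, mW]
          · simp [e2, dg]
        · rw [e2_inr]
          rcases j with j | j
          · simp [e2, dg]
          · simp [e2, dg, mW]
      rw [h6, bd_mul, bd_mul] at h5
      exact (Matrix.fromBlocks_inj.1 h5).1
    · intro p' hp'
      have h5 := hXz _ (dg_incomm hd hγ hp')
      refine LinearMap.ext fun u => ?_
      have h6 := congrArg (fun f : Module.End ℚ (V × V) => (f (u, 0)).1) h5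
      have h7 : (X (p' u, p' 0)).1 = p' (X (u, 0)).1 := h6
      rw [map_zero, h1, h1] at h7
      exact h7
    · intro u v
      have h5 := hsk (u, 0) (0, v)
      rw [h1, h2, dbl_apply, dbl_apply] at h5
      simpa using h5
  rw [h3, h4]
  ext <;> simp [dg]

include hd hγ in
/-- **One power decides**, without skew elements in the centre. -/
theorem one_power_noskew (hns : NoSkew e Q (wt P P' k))
    {C : ∀ m : ℕ, Submodule ℚ (RF V m)} (hC : Closed Q γ γ' C)
    (hCB : ∀ m, C m ≤ Ann e (wt P P' k) m) (hn : 1 ≤ n) {m : ℕ}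
    (hm : 8 * n ^ 3 * (Nat.log 2 (2 * n) + 1) ≤ m)
    (heq : Ann e (wt P P' k) m ≤ C m) (m' : ℕ) : Ann e (wt P P' k) m' ≤ C m' := by
  refine one_power_hd hd hγ hC hCB (le_refl 4) (fun X hX hXz hsk _ => ?_) ?_
    (num_four (by omega) (by convert hm using 1; ring)) heq m'
  · rw [center_noskew hd hγ hns hX hXz hsk]
    exact Submodule.zero_mem _
  · have h1 : 1 ≤ n ^ 3 := Nat.one_le_pow _ _ hn
    nlinarith [Nat.zero_le (Nat.log 2 (2 * n))]

end coordinates

section hodge

variable {V : Type} [AddCommGroup V] [Module ℚ V] {n : ℕ} (e : Basis (Fin n) ℚ V)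
  {H : ℤ → ℤ → Submodule ℂ (ℂ ⊗[ℚ] V)} {vB : Basis (Fin n) ℂ (ℂ ⊗[ℚ] V)} {kk : Fin n → ℤ × ℤ}
  (hm : ∀ a, vB a ∈ H (kk a).1 (kk a).2)
  (hr : ∀ p q : ℤ, ∀ x ∈ H p q, ∀ a, kk a ≠ (p, q) → vB.repr x a = 0)

lemma mC_base (f : Module.End ℚ V) : mC e (f.baseChange ℂ) = mW e f := by
  ext i j
  rw [mC, Basis.baseChange_apply, LinearMap.baseChange_tmul, Basis.baseChange_repr_tmul,
    Rat.smul_def, mul_one]
  rfl

lemma mC_comp (L L' : (ℂ ⊗[ℚ] V) →ₗ[ℂ] (ℂ ⊗[ℚ] V)) : mC e (L.comp L') = mC e L' * mC e L := by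
  ext i j
  have h1 := congrFun (mC_vecMul e L (L' ((e.baseChange ℂ) i))) j
  rw [Matrix.mul_apply]
  exact h1.symm

lemma mC_inj {L L' : (ℂ ⊗[ℚ] V) →ₗ[ℂ] (ℂ ⊗[ℚ] V)} (h : mC e L = mC e L') : L = L' := by
  refine (e.baseChange ℂ).ext fun i => ?_
  apply (e.baseChange ℂ).repr.injective
  ext j
  exact congrFun (congrFun h i) j

include hm hr in
lemma endo_iff (f : Module.End ℚ V) : HS.IsHodgeEndo H f ↔
    wt (PM e vB) (PM' e vB) (kd kk) * mW e f = mW e f * wt (PM e vB) (PM' e vB) (kd kk) := by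
  rw [wt_eq, ← mC_base, ← mC_comp, ← mC_comp]
  constructor
  · intro h
    congr 1
    refine vB.ext fun a => ?_
    rw [LinearMap.comp_apply, LinearMap.comp_apply, opF_basis, map_smul]
    have h1 : ∀ y ∈ ⨆ r : ℤ, H ((kk a).1 + r) ((kk a).2 + r),
        opF vB kk fD y = fD (kk a) • y := by
      intro y hy
      induction hy using Submodule.iSup_induction' with
      | mem r y hy =>
        rw [opF_mem hr fD hy]
        congr 1
        rw [fD, fD]
        push_cast
        ring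
      | zero => rw [map_zero, smul_zero]
      | add x y _ _ hx hy => rw [map_add, hx, hy, smul_add]
    exact (h1 _ (h _ _ _ (hm a))).symm
  · intro h p q x hx
    have h1 : opF vB kk fD (f.baseChange ℂ x) = fD (p, q) • f.baseChange ℂ x := by
      have h2 := congrArg (fun L : (ℂ ⊗[ℚ] V) →ₗ[ℂ] (ℂ ⊗[ℚ] V) => L x) (mC_inj e h)
      simp only [LinearMap.comp_apply] at h2
      rw [← h2, opF_mem hr fD hx, map_smul]
    rw [← vB.sum_repr (f.baseChange ℂ x)]
    refine Submodule.sum_mem _ fun a _ => ?_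
    by_cases h3 : vB.repr (f.baseChange ℂ x) a = 0
    · rw [h3, zero_smul]
      exact Submodule.zero_mem _
    · have h4 : vB.repr (opF vB kk fD (f.baseChange ℂ x)) a =
          fD (kk a) * vB.repr (f.baseChange ℂ x) a := by
        conv_lhs => rw [← vB.sum_repr (f.baseChange ℂ x)]
        rw [map_sum, map_sum, Finset.sum_apply', Finset.sum_eq_single a]
        · rw [map_smul, opF_basis, map_smul, map_smul, Finsupp.smul_apply, Finsupp.smul_apply,
            Basis.repr_self, Finsupp.single_eq_same, smul_eq_mul, smul_eq_mul, mul_one, mul_comm]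
        · intro c _ hc
          rw [map_smul, opF_basis, map_smul, map_smul, Finsupp.smul_apply, Finsupp.smul_apply,
            Basis.repr_self, Finsupp.single_eq_of_ne (Ne.symm hc), smul_zero, smul_zero]
        · intro h
          exact absurd (Finset.mem_univ _) h
      rw [h1, map_smul, Finsupp.smul_apply, smul_eq_mul] at h4
      have h5 := mul_right_cancel₀ h3 h4
      have h6 : p - q = (kk a).1 - (kk a).2 := by
        rw [fD, fD] at h5
        have h7 := mul_left_cancel₀ Complex.I_ne_zero h5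
        exact_mod_cast h7
      have h7 : vB a ∈ H (p + ((kk a).1 - p)) (q + ((kk a).1 - p)) := by
        have e1 : p + ((kk a).1 - p) = (kk a).1 := by ring
        have e2 : q + ((kk a).1 - p) = (kk a).2 := by linarith
        rw [e1, e2]
        exact hm a
      exact Submodule.smul_mem _ _
        (Submodule.mem_iSup_of_mem (p := fun r : ℤ => H (p + r) (q + r)) ((kk a).1 - p) h7)

variable [FiniteDimensional ℚ V] {ε : Module.End ℚ V} {Q : LinearMap.BilinForm ℚ V}

/-- **One power decides**, without skew elements in the centre. -/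
theorem one_power_hs_noskew (hH : HS.IsHodgeStructure H ε) (hQ : HS.IsPolarization H ε Q)
    (hns : ∀ f : Module.End ℚ V, HS.IsHodgeEndo H f → (∀ f' : Module.End ℚ V, HS.IsHodgeEndo H f' → f * f' = f' * f) →
      (∀ u v, Q (f u) v = -Q u (f v)) → f = 0)
    (hn : 1 ≤ finrank ℚ V) {ι : Type} [Fintype ι] [DecidableEq ι] {γ γ' : ι → V}
    (hγ : ∀ v : V, v = ∑ i, Q v (γ' i) • γ i)
    {C : ∀ m : ℕ, Submodule ℚ (RF V m)} (hC : Closed Q γ γ' C)
    (hCH : ∀ (m : ℕ), ∀ ψ ∈ C m, HS.IsHodgeForm H ψ) {m : ℕ}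
    (hm : 8 * finrank ℚ V ^ 3 * (Nat.log 2 (2 * finrank ℚ V) + 1) ≤ m)
    (heq : ∀ ψ : RF V m, HS.IsHodgeForm H ψ → ψ ∈ C m) (m' : ℕ) (ψ : RF V m')
    (hψ : HS.IsHodgeForm H ψ) : ψ ∈ C m' := by
  obtain ⟨vB, kk, hmem, hr⟩ := exists_adapted hH.internal
  have hd := hd_of (Module.finBasis ℚ V) hmem hr hH hQ
  have hA : ∀ (m : ℕ) (ψ : RF V m), HS.IsHodgeForm H ψ ↔
      ψ ∈ Ann (Module.finBasis ℚ V) (wt (PM (Module.finBasis ℚ V) vB)
        (PM' (Module.finBasis ℚ V) vB) (kd kk)) m := fun m ψ => hodge_iff_ann _ hmem hr ψ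
  have hns' : NoSkew (Module.finBasis ℚ V) Q (wt (PM (Module.finBasis ℚ V) vB)
      (PM' (Module.finBasis ℚ V) vB) (kd kk)) := fun p hp hpz hsk =>
    hns p ((endo_iff _ hmem hr p).2 hp) (fun f' hf' => hpz f' ((endo_iff _ hmem hr f').1 hf')) hsk
  exact one_power_noskew hd hγ hns' hC (fun m ψ hψ => (hA m ψ).1 (hCH m ψ hψ)) hn hm
    (fun ψ hψ => heq ψ ((hA m ψ).2 hψ)) m' ((hA m' ψ).1 hψ)

end hodge

end

end Pool.Agent.X259.U
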