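import Pool.Agent.X259.U.U13
import Pool.Agent.X259.U.CDefs

/-!
# Hodge classes on powers, in coordinates
-/

set_option autoImplicit false
set_option linter.unusedSectionVars false
set_option linter.unusedDecidableInType false
set_option linter.unusedFintypeInType false

namespace Pool.Agent.X259.U

open Matrix Finset Module Pool.Agent.H204R3.SP Pool.Agent.H204R3.GP Pool.Agent.W516
  Pool.Agent.X259.T
open scoped ComplexOrder TensorProduct

noncomputable section

variable {V : Type} [AddCommGroup V] [Module ℚ V] {n : ℕ} (e : Basis (Fin n) ℚ V)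
  {H : ℤ → ℤ → Submodule ℂ (ℂ ⊗[ℚ] V)} {vB : Basis (Fin n) ℂ (ℂ ⊗[ℚ] V)} {kk : Fin n → ℤ × ℤ}
  (hm : ∀ a, vB a ∈ H (kk a).1 (kk a).2)
  (hr : ∀ p q : ℤ, ∀ x ∈ H p q, ∀ a, kk a ≠ (p, q) → vB.repr x a = 0)

lemma ext_basis' {N : ℕ} {ψ : HS.Cls V N} {Ψ : MultilinearMap ℂ (fun _ : Fin N => ℂ ⊗[ℚ] V) ℂ}
    (hΨ : ∀ v : Fin N → V, Ψ (fun k => 1 ⊗ₜ v k) = ψ v) (a : Fin N → Fin n) :
    Ψ (fun l => vB (a l)) = (kr (Fin N) (PM' e vB) *ᵥ gt e ψ) a := by
  have h1 : (fun l => vB (a l)) = fun l => ∑ i, PM' e vB (a l) i • (e.baseChange ℂ) i := by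
    funext l
    exact ((e.baseChange ℂ).sum_repr (vB (a l))).symm
  rw [h1, MultilinearMap.map_sum, kr_mulVec]
  refine Finset.sum_congr rfl fun J _ => ?_
  rw [MultilinearMap.map_smul_univ, smul_eq_mul]
  congr 1
  simp only [Basis.baseChange_apply]
  exact hΨ fun l => e (J l)

include hm hr in
/-- Hodge classes in coordinates. -/
theorem hclass_iff {N : ℕ} (ψ : HS.Cls V N) :
    HS.IsHodgeClass H ψ ↔ dk (Fin N) (wt (PM e vB) (PM' e vB) (kd kk)) *ᵥ gt e ψ = 0 := by
  rw [wt, dk_conj_diag (PM_mul e vB) (PM_mul' e vB)]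
  constructor
  · rintro ⟨Ψ, hΨ, hz⟩
    have h1 : dk (Fin N) (Matrix.diagonal (fun x => Complex.I * (kd kk x : ℂ))) *ᵥ
        (kr (Fin N) (PM' e vB) *ᵥ gt e ψ) = 0 := by
      funext a
      rw [dk_diagonal_mulVec, Pi.zero_apply, ← ext_basis' e hΨ a]
      by_cases h2 : ∑ l, (kk (a l)).1 = ∑ l, (kk (a l)).2
      · have h3 : ∑ l, Complex.I * (kd kk (a l) : ℂ) = 0 := by
          rw [← Finset.mul_sum, ← Int.cast_sum]
          have h4 : ∑ l, kd kk (a l) = 0 := by
            simp only [kd]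
            rw [Finset.sum_sub_distrib, h2, sub_self]
          rw [h4, Int.cast_zero, mul_zero]
        rw [h3, zero_mul]
      · rw [hz (fun l => (kk (a l)).1) (fun l => (kk (a l)).2) _ (fun l => hm (a l)) h2, mul_zero]
    rw [h1, Matrix.mulVec_zero]
  · intro h
    have h1 := kr_inj (PM_mul e vB) h
    refine ⟨bcm e ψ, fun v => ?_, fun p q x hx hpq => ?_⟩
    · rw [bcm_one]
      exact eq_ratCast _ _
    · have hx' : x = fun l => ∑ a, vB.repr (x l) a • vB a := by
        funext l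
        exact (vB.sum_repr (x l)).symm
      rw [hx', MultilinearMap.map_sum]
      refine Finset.sum_eq_zero fun a _ => ?_
      rw [MultilinearMap.map_smul_univ, smul_eq_mul]
      by_cases h2 : ∀ l, kk (a l) = (p l, q l)
      · have h3 := congrFun h1 a
        rw [dk_diagonal_mulVec, Pi.zero_apply, ← ext_basis' e (ψ := ψ) (Ψ := bcm e ψ) (fun v => by
          rw [bcm_one]
          exact eq_ratCast _ _) a] at h3
        rcases mul_eq_zero.1 h3 with h4 | h4
        · exfalso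
          rw [← Finset.mul_sum, ← Int.cast_sum] at h4
          rcases mul_eq_zero.1 h4 with h5 | h5
          · exact Complex.I_ne_zero h5
          · have h6 : ∑ l, kd kk (a l) = 0 := by exact_mod_cast h5
            apply hpq
            simp only [kd, h2] at h6
            rw [Finset.sum_sub_distrib, sub_eq_zero] at h6
            exact h6
        · rw [h4, mul_zero]
      · obtain ⟨l, hl⟩ := not_forall.1 h2
        rw [Finset.prod_eq_zero (Finset.mem_univ l) (hr _ _ _ (hx l) (a l) hl), zero_mul]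

/-- The pairs of variables. -/
def eqv (m : ℕ) : Fin m × Fin 2 ≃ Fin (2 * m) :=
  finProdFinEquiv.trans (finCongr (Nat.mul_comm m 2))

lemma eqv_val (m : ℕ) (j : Fin m) (c : Fin 2) : ((eqv m (j, c) : Fin (2 * m)) : ℕ) = 2 * j + c := by
  simp [eqv, finProdFinEquiv]
  ring

include e hm hr in
/-- Hodge forms in `2 m` variables are Hodge classes. -/
lemma hform_iff [FiniteDimensional ℚ V] {m : ℕ} (ψ : RF V m) :
    HS.IsHodgeForm H ψ ↔ HS.IsHodgeClass H (ψ.domDomCongr (eqv m) : HS.Cls V (2 * m)) := by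
  rw [hodge_iff_ann e hm hr, hclass_iff e hm hr, mem_Ann, gt_dom, dk_ri]
  constructor
  · intro h
    rw [h]
    rfl
  · intro h
    funext I
    have h6 := congrFun h (fun k => I ((eqv m).symm k))
    simp only [ri, Equiv.symm_apply_apply, Pi.zero_apply] at h6
    exact h6

/-- Exterior products of Hodge classes. -/
lemma gt_ext {N M : ℕ} {ψ : HS.Cls V N} {ψ' : HS.Cls V M} {ψ'' : HS.Cls V (N + M)}
    (h : HS.IsExterior ψ ψ' ψ'') : gt e ψ'' = ri finSumFinEquiv (tp (gt e ψ) (gt e ψ')) := by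
  funext J
  rw [gt, h, Rat.cast_mul]
  change _ = gt e ψ _ * gt e ψ' _
  simp only [gt, finSumFinEquiv_apply_left, finSumFinEquiv_apply_right]

include e hm hr in
lemma ext_hodge {N M : ℕ} {ψ : HS.Cls V N} {ψ' : HS.Cls V M} {ψ'' : HS.Cls V (N + M)}
    (h : HS.IsExterior ψ ψ' ψ'') (hψ : HS.IsHodgeClass H ψ) (hψ' : HS.IsHodgeClass H ψ') :
    HS.IsHodgeClass H ψ'' := by
  rw [hclass_iff e hm hr] at hψ hψ' ⊢
  refine dk_of_kr (PM_mul e vB) (PM_mul' e vB) _ ?_
  rw [gt_ext e h, kr_ri, kr_tp, kr_of_dk' (PM_mul e vB) (PM_mul' e vB) _ two_ne_zero hψ,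
    kr_of_dk' (PM_mul e vB) (PM_mul' e vB) _ two_ne_zero hψ']

end

end Pool.Agent.X259.U
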