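import Pool.Agent.X259.U.U14

/-!
# Families of classes on powers: formal consequences of the axioms
-/

set_option autoImplicit false
set_option linter.unusedSectionVars false
set_option linter.unusedDecidableInType false
set_option linter.unusedFintypeInType false

namespace Pool.Agent.X259.U

open Matrix Finset Module Pool.Agent.H204R3.SP Pool.Agent.H204R3.GP Pool.Agent.W516
  Pool.Agent.X259.T
open scoped ComplexOrder TensorProduct

noncomputable section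

section ops

variable {V : Type} [AddCommGroup V] [Module ℚ V]

/-- An operator in one variable. -/
def ap {N : ℕ} (i : Fin N) (L : Module.End ℚ V) (ψ : HS.Cls V N) : HS.Cls V N :=
  ψ.compLinearMap (Function.update (fun _ => LinearMap.id) i L)

lemma ap_apply {N : ℕ} (i : Fin N) (L : Module.End ℚ V) (ψ : HS.Cls V N) (v : Fin N → V) :
    ap i L ψ v = ψ (Function.update v i (L (v i))) := by
  rw [ap, MultilinearMap.compLinearMap_apply]
  congr 1
  funext k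
  by_cases h : k = i
  · subst h
    simp
  · simp [h]

/-- The unsigned exchange. -/
def tr {N : ℕ} (i : Fin N) (ψ : HS.Cls V (N + 1)) : HS.Cls V (N + 1) :=
  ψ.domDomCongr (Equiv.swap i.castSucc i.succ)

lemma tr_apply {N : ℕ} (i : Fin N) (ψ : HS.Cls V (N + 1)) (v : Fin (N + 1) → V) :
    tr i ψ v = ψ (fun k => v (Equiv.swap i.castSucc i.succ k)) := rfl

/-- The sign. -/
def fo (ε : Module.End ℚ V) {N : ℕ} (i : Fin N) (ψ : HS.Cls V (N + 1)) : HS.Cls V (N + 1) :=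
  (1 / 2 : ℚ) • (ψ + ap i.castSucc ε ψ + ap i.succ ε ψ - ap i.castSucc ε (ap i.succ ε ψ))

lemma fo_apply (ε : Module.End ℚ V) {N : ℕ} (i : Fin N) (ψ : HS.Cls V (N + 1))
    (v : Fin (N + 1) → V) :
    fo ε i ψ v = (1 / 2 : ℚ) * (ψ v + ap i.castSucc ε ψ v + ap i.succ ε ψ v -
      ap i.castSucc ε (ap i.succ ε ψ) v) := rfl

lemma cs_ne {N : ℕ} (i : Fin N) : i.castSucc ≠ i.succ := (Fin.castSucc_lt_succ).ne

lemma ap_add {N : ℕ} (i : Fin N) (L : Module.End ℚ V) (ψ ψ' : HS.Cls V N) :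
    ap i L (ψ + ψ') = ap i L ψ + ap i L ψ' := rfl

lemma ap_sub {N : ℕ} (i : Fin N) (L : Module.End ℚ V) (ψ ψ' : HS.Cls V N) :
    ap i L (ψ - ψ') = ap i L ψ - ap i L ψ' := rfl

lemma ap_smul {N : ℕ} (i : Fin N) (L : Module.End ℚ V) (c : ℚ) (ψ : HS.Cls V N) :
    ap i L (c • ψ) = c • ap i L ψ := rfl

lemma ap_ap {N : ℕ} (i : Fin N) (L L' : Module.End ℚ V) (ψ : HS.Cls V N) :
    ap i L (ap i L' ψ) = ap i (L' * L) ψ := by
  ext v
  rw [ap_apply, ap_apply, ap_apply]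
  simp

lemma ap_one {N : ℕ} (i : Fin N) (ψ : HS.Cls V N) : ap i 1 ψ = ψ := by
  ext v
  rw [ap_apply]
  simp

lemma ap_comm {N : ℕ} {i j : Fin N} (h : i ≠ j) (L L' : Module.End ℚ V) (ψ : HS.Cls V N) :
    ap i L (ap j L' ψ) = ap j L' (ap i L ψ) := by
  ext v
  simp only [ap_apply]
  rw [Function.update_of_ne h.symm, Function.update_of_ne h, Function.update_comm h]

lemma tr_tr {N : ℕ} (i : Fin N) (ψ : HS.Cls V (N + 1)) : tr i (tr i ψ) = ψ := by
  refine MultilinearMap.ext fun (v : Fin (N + 1) → V) => ?_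
  simp only [tr_apply, ← Equiv.Perm.mul_apply, Equiv.swap_mul_self, Equiv.Perm.one_apply]

lemma tr_ap {N : ℕ} (i : Fin N) (L : Module.End ℚ V) (ψ : HS.Cls V (N + 1)) :
    tr i (ap i.succ L ψ) = ap i.castSucc L (tr i ψ) := by
  refine MultilinearMap.ext fun (v : Fin (N + 1) → V) => ?_
  simp only [tr_apply, ap_apply]
  congr 1
  funext k
  by_cases h : k = i.succ
  · subst h
    rw [Function.update_self, Equiv.swap_apply_right, Function.update_self]
  · rw [Function.update_of_ne h]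
    by_cases h2 : Equiv.swap i.castSucc i.succ k = i.castSucc
    · exfalso
      apply h
      rw [Equiv.swap_apply_eq_iff, Equiv.swap_apply_left] at h2
      exact h2
    · rw [Function.update_of_ne h2]

lemma tr_ap' {N : ℕ} (i : Fin N) (L : Module.End ℚ V) (ψ : HS.Cls V (N + 1)) :
    tr i (ap i.castSucc L ψ) = ap i.succ L (tr i ψ) := by
  rw [← tr_tr i (ap i.succ L (tr i ψ)), tr_ap, tr_tr]

lemma tr_fo (ε : Module.End ℚ V) {N : ℕ} (i : Fin N) (ψ : HS.Cls V (N + 1)) :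
    tr i (fo ε i ψ) = fo ε i (tr i ψ) := by
  have h1 : tr i (fo ε i ψ) = (1 / 2 : ℚ) • (tr i ψ + tr i (ap i.castSucc ε ψ) +
    tr i (ap i.succ ε ψ) - tr i (ap i.castSucc ε (ap i.succ ε ψ))) := rfl
  rw [h1, tr_ap', tr_ap, tr_ap', tr_ap, fo, ap_comm (cs_ne i).symm]
  congr 1
  abel

variable {ε : Module.End ℚ V} (hε : ε * ε = 1)

include hε in
lemma ap_eps {N : ℕ} (i : Fin N) (ψ : HS.Cls V N) : ap i ε (ap i ε ψ) = ψ := by
  rw [ap_ap, hε, ap_one]

include hε in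
lemma fo_fo {N : ℕ} (i : Fin N) (ψ : HS.Cls V (N + 1)) : fo ε i (fo ε i ψ) = ψ := by
  have h1 : ∀ χ : HS.Cls V (N + 1), ap i.succ ε (ap i.castSucc ε χ) =
    ap i.castSucc ε (ap i.succ ε χ) := fun χ => ap_comm (cs_ne i).symm _ _ _
  simp only [fo, ap_smul, ap_add, ap_sub, h1, ap_eps hε]
  module

include hε in
lemma fo_ap {N : ℕ} (i : Fin N) (ψ : HS.Cls V (N + 1)) :
    fo ε i (ap i.castSucc ε ψ) = ap i.castSucc ε (fo ε i ψ) := by
  have h1 : ∀ χ : HS.Cls V (N + 1), ap i.succ ε (ap i.castSucc ε χ) =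
    ap i.castSucc ε (ap i.succ ε χ) := fun χ => ap_comm (cs_ne i).symm _ _ _
  simp only [fo, ap_smul, ap_add, ap_sub, h1]

/-- The signed exchange. -/
lemma sg_exchange {N : ℕ} (i : Fin N) (ψ : HS.Cls V (N + 1)) :
    HS.IsExchange ε i ψ (fo ε i (tr i ψ)) := by
  intro v a b ha hb
  have h1 : ∀ (χ : HS.Cls V (N + 1)), ap i.castSucc ε χ v = (-1 : ℚ) ^ a * χ v := by
    intro χ
    rw [ap_apply, ha, MultilinearMap.map_update_smul, Function.update_eq_self, smul_eq_mul]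
  have h2 : ∀ (χ : HS.Cls V (N + 1)), ap i.succ ε χ v = (-1 : ℚ) ^ b * χ v := by
    intro χ
    rw [ap_apply, hb, MultilinearMap.map_update_smul, Function.update_eq_self, smul_eq_mul]
  rw [fo_apply, h1, h2, h1, h2]
  change _ = (-1) ^ (a * b) * tr i ψ v
  rcases Nat.even_or_odd a with h3 | h3
  · rcases Nat.even_or_odd b with h4 | h4
    · rw [h3.neg_one_pow, h4.neg_one_pow, (h3.mul_right b).neg_one_pow]
      ring
    · rw [h3.neg_one_pow, h4.neg_one_pow, (h3.mul_right b).neg_one_pow]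
      ring
  · rcases Nat.even_or_odd b with h4 | h4
    · rw [h3.neg_one_pow, h4.neg_one_pow, (h4.mul_left a).neg_one_pow]
      ring
    · rw [h3.neg_one_pow, h4.neg_one_pow, (h3.mul h4).neg_one_pow]
      ring

/-- The exterior product. -/
def extp {N M : ℕ} (ψ : HS.Cls V N) (ψ' : HS.Cls V M) : HS.Cls V (N + M) :=
  ((LinearMap.mul' ℚ ℚ).compMultilinearMap (ψ.domCoprod ψ')).domDomCongr finSumFinEquiv

lemma extp_ext {N M : ℕ} (ψ : HS.Cls V N) (ψ' : HS.Cls V M) : HS.IsExterior ψ ψ' (extp ψ ψ') := by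
  intro v
  rw [extp, MultilinearMap.domDomCongr_apply, LinearMap.compMultilinearMap_apply,
    MultilinearMap.domCoprod_apply, LinearMap.mul'_apply]
  simp only [finSumFinEquiv_apply_left, finSumFinEquiv_apply_right]

/-- The last two variables are fixed. -/
def cr {N : ℕ} (x y : V) (ψ : HS.Cls V (N + 2)) : HS.Cls V N :=
  (LinearMap.applyₗ (R := ℚ) (M := V) (M₂ := ℚ) x).compMultilinearMap
    ((LinearMap.applyₗ (R := ℚ) (M := V) (M₂ := ℚ) y).compMultilinearMap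
      (MultilinearMap.curryRight (n := N + 1) (M := fun _ => V) ψ)).curryRight

lemma cr_apply {N : ℕ} (x y : V) (ψ : HS.Cls V (N + 2)) (v : Fin N → V) :
    cr x y ψ v = ψ (Fin.snoc (Fin.snoc v x : Fin (N + 1) → V) y) := rfl

lemma extp_snoc1 {N : ℕ} (ψ : HS.Cls V N) (ψ' : HS.Cls V 1) (v : Fin N → V) (x : V) :
    extp ψ ψ' (Fin.snoc v x : Fin (N + 1) → V) = ψ v * ψ' (fun _ => x) := by
  rw [extp_ext ψ ψ']
  congr 2
  · funext k
    exact Fin.snoc_castSucc (α := fun _ => V) x v k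
  · funext k
    have h1 : Fin.natAdd N k = Fin.last N := by
      ext
      simp
    rw [h1, Fin.snoc_last]

lemma extp_snoc2 {N : ℕ} (ψ : HS.Cls V N) (ψ' : HS.Cls V 2) (v : Fin N → V) (x y : V) :
    extp ψ ψ' (Fin.snoc (Fin.snoc v x : Fin (N + 1) → V) y : Fin (N + 2) → V) =
      ψ v * ψ' ![x, y] := by
  rw [extp_ext ψ ψ']
  congr 2
  · funext k
    have h1 : Fin.castAdd 2 k = k.castSucc.castSucc := rfl
    rw [h1, Fin.snoc_castSucc, Fin.snoc_castSucc]
  · funext k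
    fin_cases k
    · have h1 : Fin.natAdd N (0 : Fin 2) = (Fin.last N).castSucc := by
        ext
        simp
      simp only [Fin.zero_eta, h1, Fin.snoc_castSucc, Fin.snoc_last]
      rfl
    · have h1 : Fin.natAdd N (1 : Fin 2) = Fin.last (N + 1) := by
        ext
        simp
      simp only [Fin.mk_one, h1, Fin.snoc_last]
      rfl

end ops

section family

variable {V : Type} [AddCommGroup V] [Module ℚ V] {H : ℤ → ℤ → Submodule ℂ (ℂ ⊗[ℚ] V)}
  {ε : V →ₗ[ℚ] V} {P : LinearMap.BilinForm ℚ V} {one point : V}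
  {A : ∀ N : ℕ, Submodule ℚ (HS.Cls V N)} (hA : HS.IsCycleFamily H ε P one point A)
  (hP : HS.IsPoincare ε P one point) {a b : Fin (finrank ℚ V) → V}
  (hab : ∀ y : V, y = ∑ i, P (b i) y • a i)

include hA in
lemma extp_mem {N M : ℕ} {ψ : HS.Cls V N} {ψ' : HS.Cls V M} (h : ψ ∈ A N) (h' : ψ' ∈ A M) :
    extp ψ ψ' ∈ A (N + M) := hA.exterior N M ψ h ψ' h' _ (extp_ext ψ ψ')

include hA hab in
lemma image_mem {N : ℕ} {ψ : HS.Cls V (N + 2)} (h : ψ ∈ A (N + 2)) {ψ' : HS.Cls V N}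
    (h' : ∀ v : Fin N → V, ψ' v = ∑ i, cr (a i) (b i) ψ v) : ψ' ∈ A N :=
  hA.image N ψ h ψ' ⟨a, b, hab, h'⟩

include hA in
lemma sg_mem {N : ℕ} (i : Fin N) {ψ : HS.Cls V (N + 1)} (h : ψ ∈ A (N + 1)) :
    fo ε i (tr i ψ) ∈ A (N + 1) := hA.exchange N i ψ h _ (sg_exchange i ψ)

/-- Linear forms as classes. -/
def lin1 (f : V →ₗ[ℚ] ℚ) : HS.Cls V 1 := MultilinearMap.ofSubsingleton ℚ V ℚ (0 : Fin 1) f

lemma lin1_apply (f : V →ₗ[ℚ] ℚ) (v : Fin 1 → V) : lin1 f v = f (v 0) := rfl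

/-- Bilinear forms as classes. -/
def bil (B : V →ₗ[ℚ] V →ₗ[ℚ] ℚ) : HS.Cls V 2 :=
  LinearMap.uncurryLeft ((MultilinearMap.ofSubsingletonₗ ℚ ℚ V ℚ (0 : Fin 1)).toLinearMap ∘ₗ B)

lemma bil_apply (B : V →ₗ[ℚ] V →ₗ[ℚ] ℚ) (v : Fin 2 → V) : bil B v = B (v 0) (v 1) := rfl

end family

end

end Pool.Agent.X259.U
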