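import Pool.Agent.X259.U.U15

/-!
# Families of classes on powers: permutations and operators
-/

set_option autoImplicit false
set_option linter.unusedSectionVars false
set_option linter.unusedDecidableInType false
set_option linter.unusedFintypeInType false

namespace Pool.Agent.X259.U

open Matrix Finset Module Pool.Agent.H204R3.SP Pool.Agent.H204R3.GP Pool.Agent.W516
  Pool.Agent.X259.T
open scoped ComplexOrder TensorProduct

noncomputable section

variable {V : Type} [AddCommGroup V] [Module ℚ V] {H : ℤ → ℤ → Submodule ℂ (ℂ ⊗[ℚ] V)}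
  {ε : Module.End ℚ V} {P : LinearMap.BilinForm ℚ V} {one point : V}
  {A : ∀ N : ℕ, Submodule ℚ (HS.Cls V N)} (hA : HS.IsCycleFamily H ε P one point A)
  (hP : HS.IsPoincare ε P one point) {a b : Fin (finrank ℚ V) → V}
  (hab : ∀ y : V, y = ∑ i, P (b i) y • a i)

include hA hP hab in
/-- Restriction to a fibre. -/
theorem down {n : ℕ} (e : Basis (Fin n) ℚ V) {vB : Basis (Fin n) ℂ (ℂ ⊗[ℚ] V)}
    {kk : Fin n → ℤ × ℤ} (hm : ∀ a, vB a ∈ H (kk a).1 (kk a).2)
    (hr : ∀ p q : ℤ, ∀ x ∈ H p q, ∀ a, kk a ≠ (p, q) → vB.repr x a = 0) {N : ℕ}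
    (h : ∀ ψ : HS.Cls V (N + 1), HS.IsHodgeClass H ψ → ψ ∈ A (N + 1)) (ψ : HS.Cls V N)
    (hψ : HS.IsHodgeClass H ψ) : ψ ∈ A N := by
  have h1 : lin1 (P point) ∈ A 1 := hA.point _ fun v => rfl
  have h2 : lin1 (LinearMap.flip P one) ∈ A 1 := hA.fundamental _ fun v => rfl
  have h3 : extp ψ (lin1 (P point)) ∈ A (N + 1) :=
    h _ (ext_hodge e hm hr (extp_ext _ _) hψ (hA.hodge 1 _ h1))
  have h0 : extp (extp ψ (lin1 (P point))) (lin1 (LinearMap.flip P one)) ∈ A (N + 1 + 1) :=
    extp_mem hA h3 h2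
  refine image_mem hA hab h0 fun v => ?_
  have h4 : ∀ i, cr (a i) (b i) (extp (M := 1) (extp ψ (lin1 (P point))) (lin1 (LinearMap.flip P one))) v =
      ψ v * (P (b i) one * P point (a i)) := by
    intro i
    rw [cr_apply, extp_snoc1, extp_snoc1, lin1_apply, lin1_apply, LinearMap.flip_apply]
    ring
  rw [Finset.sum_congr rfl fun i _ => h4 i, ← Finset.mul_sum]
  have h5 : ∑ i, P (b i) one * P point (a i) = 1 := by
    have h6 := congrArg (P point) (hab one)
    rw [hP.point, map_sum] at h6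
    rw [h6]
    refine Finset.sum_congr rfl fun i _ => ?_
    rw [map_smul, smul_eq_mul]
  rw [h5, mul_one]

variable (hε : ε * ε = 1)

lemma swap_snoc {N : ℕ} (u : Fin (N + 1) → V) (x z : V) :
    (fun k => (Fin.snoc (Fin.snoc u x : Fin (N + 2) → V) z : Fin (N + 3) → V)
      (Equiv.swap (Fin.last N).castSucc.castSucc (Fin.last N).castSucc.succ k)) =
    Fin.snoc (Fin.snoc (Function.update u (Fin.last N) x) (u (Fin.last N)) : Fin (N + 2) → V) z := by
  funext k
  refine Fin.lastCases ?_ (fun k => ?_) k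
  · rw [Equiv.swap_apply_of_ne_of_ne]
    · rw [Fin.snoc_last, Fin.snoc_last]
    · intro h
      have := congrArg Fin.val h
      simp at this
    · intro h
      have := congrArg Fin.val h
      simp at this
  refine Fin.lastCases ?_ (fun k => ?_) k
  · have h1 : (Fin.last (N + 1)).castSucc = (Fin.last N).castSucc.succ := by
      ext
      simp
    rw [h1, Equiv.swap_apply_right, Fin.snoc_castSucc, Fin.snoc_castSucc, ← h1, Fin.snoc_castSucc,
      Fin.snoc_last]
  refine Fin.lastCases ?_ (fun k => ?_) k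
  · have h1 : (Fin.last N).castSucc.succ = (Fin.last (N + 1)).castSucc := by
      ext
      simp
    rw [Equiv.swap_apply_left, h1, Fin.snoc_castSucc, Fin.snoc_last, Fin.snoc_castSucc,
      Fin.snoc_castSucc, Function.update_self]
  · rw [Equiv.swap_apply_of_ne_of_ne]
    · rw [Fin.snoc_castSucc, Fin.snoc_castSucc, Fin.snoc_castSucc, Fin.snoc_castSucc,
        Function.update_of_ne (Fin.castSucc_lt_last k).ne]
    · intro h
      have := congrArg Fin.val h
      simp at this
      omega
    · intro h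
      have := congrArg Fin.val h
      simp at this
      omega

/-- The value of the signed exchange of the two variables before the last. -/
lemma sg_snoc {N : ℕ} (Ψ : HS.Cls V (N + 3)) (u : Fin (N + 1) → V) (x z : V) :
    fo ε (Fin.last N).castSucc (tr (Fin.last N).castSucc Ψ)
      (Fin.snoc (Fin.snoc u x : Fin (N + 2) → V) z : Fin (N + 3) → V) = (1 / 2 : ℚ) *
      (Ψ (Fin.snoc (Fin.snoc (Function.update u (Fin.last N) x) (u (Fin.last N)) :
          Fin (N + 2) → V) z) +
        Ψ (Fin.snoc (Fin.snoc (Function.update u (Fin.last N) x) (ε (u (Fin.last N))) :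
          Fin (N + 2) → V) z) +
        Ψ (Fin.snoc (Fin.snoc (Function.update u (Fin.last N) (ε x)) (u (Fin.last N)) :
          Fin (N + 2) → V) z) -
        Ψ (Fin.snoc (Fin.snoc (Function.update u (Fin.last N) (ε x)) (ε (u (Fin.last N))) :
          Fin (N + 2) → V) z)) := by
  have h1 : ∀ (u : Fin (N + 1) → V) (x : V), tr (Fin.last N).castSucc Ψ
      (Fin.snoc (Fin.snoc u x : Fin (N + 2) → V) z : Fin (N + 3) → V) =
      Ψ (Fin.snoc (Fin.snoc (Function.update u (Fin.last N) x) (u (Fin.last N)) :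
          Fin (N + 2) → V) z) := by
    intro u x
    rw [tr_apply, swap_snoc]
  have h2 : ∀ (χ : HS.Cls V (N + 3)) (u : Fin (N + 1) → V) (x : V),
      ap (Fin.last N).castSucc.castSucc ε χ
        (Fin.snoc (Fin.snoc u x : Fin (N + 2) → V) z : Fin (N + 3) → V) =
      χ (Fin.snoc (Fin.snoc (Function.update u (Fin.last N) (ε (u (Fin.last N)))) x :
        Fin (N + 2) → V) z) := by
    intro χ u x
    rw [ap_apply, Fin.snoc_castSucc, Fin.snoc_castSucc, ← Fin.snoc_update, ← Fin.snoc_update]
  have h3 : ∀ (χ : HS.Cls V (N + 3)) (u : Fin (N + 1) → V) (x : V),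
      ap (Fin.last N).castSucc.succ ε χ
        (Fin.snoc (Fin.snoc u x : Fin (N + 2) → V) z : Fin (N + 3) → V) =
      χ (Fin.snoc (Fin.snoc u (ε x) : Fin (N + 2) → V) z) := by
    intro χ u x
    have h4 : (Fin.last N).castSucc.succ = (Fin.last (N + 1)).castSucc := by
      ext
      simp
    rw [ap_apply, h4, Fin.snoc_castSucc, Fin.snoc_last, ← Fin.snoc_update, Fin.update_snoc_last]
  rw [fo_apply, h2, h3, h2, h3, h1, h1, h1, h1]
  simp only [Function.update_self, Function.update_idem]

include hA hab hε in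
/-- An algebraic correspondence in the last variable. -/
lemma last_op {L : Module.End ℚ V} (hL : ε * L = L * ε)
    (hφ : bil (LinearMap.comp (LinearMap.flip P) L) ∈ A 2) {N : ℕ} {ψ : HS.Cls V (N + 1)} (hψ : ψ ∈ A (N + 1)) :
    ap (Fin.last N) (ε * L) ψ ∈ A (N + 1) := by
  have h1 : extp ψ (bil (LinearMap.comp (LinearMap.flip P) L)) ∈ A (N + 1 + 2) := extp_mem hA hψ hφ
  have h2 := sg_mem hA (Fin.last N).castSucc h1
  refine image_mem hA hab h2 fun u => ?_
  let f : V →ₗ[ℚ] ℚ := ψ.toLinearMap u (Fin.last N)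
  have hf : ∀ x, ψ (Function.update u (Fin.last N) x) = f x := fun x => rfl
  have h3 : ∀ i, cr (a i) (b i) (fo ε (Fin.last N).castSucc (tr (Fin.last N).castSucc
      (extp (M := 2) ψ (bil (LinearMap.comp (LinearMap.flip P) L))))) u = (1 / 2 : ℚ) *
      (f (P (b i) (L (u (Fin.last N))) • a i) + f (P (b i) (L (ε (u (Fin.last N)))) • a i) +
        f (ε (P (b i) (L (u (Fin.last N))) • a i)) -
          f (ε (P (b i) (L (ε (u (Fin.last N)))) • a i))) := by
    intro i
    rw [cr_apply, sg_snoc]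
    simp only [extp_snoc2, hf, bil_apply, map_smul, smul_eq_mul]
    simp only [Matrix.cons_val_zero, Matrix.cons_val_one, LinearMap.comp_apply,
      LinearMap.flip_apply]
    ring
  rw [Finset.sum_congr rfl fun i _ => h3 i, ← Finset.mul_sum]
  simp only [Finset.sum_sub_distrib, Finset.sum_add_distrib, ← map_sum, ← hab]
  rw [ap_apply, hf]
  have h4 : ∀ x, L (ε x) = ε (L x) := fun x =>
    (congrArg (fun g : Module.End ℚ V => g x) hL).symm
  have h5 : ∀ x, ε (ε x) = x := fun x => congrArg (fun g : Module.End ℚ V => g x) hε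
  rw [h4, h5]
  change f (ε (L _)) = _
  ring

end

end Pool.Agent.X259.U
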