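import Pool.Agent.X259.U.U16

/-!
# Families of classes on powers: all permutations
-/

set_option autoImplicit false
set_option linter.unusedSectionVars false
set_option linter.unusedDecidableInType false
set_option linter.unusedFintypeInType false

namespace Pool.Agent.X259.U

open Matrix Finset Module Pool.Agent.H204R3.SP Pool.Agent.H204R3.GP Pool.Agent.W516
  Pool.Agent.X259.T
open scoped ComplexOrder TensorProduct

noncomputable section

variable {V : Type} [AddCommGroup V] [Module ℚ V] {H : ℤ → ℤ → Submodule ℂ (ℂ ⊗[ℚ] V)}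
  {ε : Module.End ℚ V} {P : LinearMap.BilinForm ℚ V} {one point : V}
  {A : ∀ N : ℕ, Submodule ℚ (HS.Cls V N)} (hA : HS.IsCycleFamily H ε P one point A)
  {a b : Fin (finrank ℚ V) → V}
  (hab : ∀ y : V, y = ∑ i, P (b i) y • a i) (hε : ε * ε = 1)

include hA hab hε in
/-- The operator of parity in the last variable. -/
lemma last_eps (hφ : bil (LinearMap.flip P) ∈ A 2) {N : ℕ} {ψ : HS.Cls V (N + 1)}
    (hψ : ψ ∈ A (N + 1)) : ap (Fin.last N) ε ψ ∈ A (N + 1) := by
  have h1 := last_op hA hab hε (L := 1) (by rw [mul_one, one_mul]) hφ hψ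
  rwa [mul_one] at h1

include hA hab hε in
/-- The operator of parity in each variable. -/
lemma any_eps (hφ : bil (LinearMap.flip P) ∈ A 2) {N : ℕ} (k : Fin (N + 1)) :
    ∀ ψ ∈ A (N + 1), ap k ε ψ ∈ A (N + 1) := by
  induction k using Fin.reverseInduction with
  | last => exact fun ψ hψ => last_eps hA hab hε hφ hψ
  | cast i ih =>
    intro ψ hψ
    have h1 := sg_mem hA i (ih _ (sg_mem hA i hψ))
    rw [tr_ap, tr_fo, tr_tr, ← fo_ap hε, fo_fo hε] at h1
    exact h1

include hA hab hε in
/-- The unsigned exchange of two consecutive variables. -/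
lemma tr_mem (hφ : bil (LinearMap.flip P) ∈ A 2) {N : ℕ} (i : Fin N) {ψ : HS.Cls V (N + 1)}
    (hψ : ψ ∈ A (N + 1)) : tr i ψ ∈ A (N + 1) := by
  have h1 := sg_mem hA i hψ
  have h2 : fo ε i (fo ε i (tr i ψ)) ∈ A (N + 1) := by
    have h3 := any_eps hA hab hε hφ i.castSucc _ h1
    have h4 := any_eps hA hab hε hφ i.succ _ h1
    have h5 := any_eps hA hab hε hφ i.castSucc _ h4
    exact Submodule.smul_mem _ _ (Submodule.sub_mem _ (Submodule.add_mem _
      (Submodule.add_mem _ h1 h3) h4) h5)
  rwa [fo_fo hε] at h2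

include hA hab hε in
/-- All permutations. -/
lemma perm_mem (hφ : bil (LinearMap.flip P) ∈ A 2) {N : ℕ} (σ : Equiv.Perm (Fin N))
    {ψ : HS.Cls V N} (hψ : ψ ∈ A N) : ψ.domDomCongr σ ∈ A N := by
  rcases N with _ | N
  · have h1 : ψ.domDomCongr σ = ψ := by
      ext v
      rw [MultilinearMap.domDomCongr_apply]
      congr 1
      funext k
      exact k.elim0
    rwa [h1]
  · have h1 : σ ∈ Submonoid.closure (Set.range fun i : Fin N => Equiv.swap i.castSucc i.succ) := by
      rw [Equiv.Perm.mclosure_swap_castSucc_succ]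
      exact Submonoid.mem_top _
    revert ψ
    induction h1 using Submonoid.closure_induction with
    | mem σ h =>
      obtain ⟨i, rfl⟩ := h
      exact fun hψ => tr_mem hA hab hε hφ i hψ
    | one =>
      intro ψ hψ
      exact hψ
    | mul σ τ _ _ h1 h2 =>
      intro ψ hψ
      exact h1 (h2 hψ)

include hA hab hε in
/-- Operators in the last variable. -/
lemma last_op' {L : Module.End ℚ V} (hL : ε * L = L * ε) (hφ : bil (LinearMap.flip P) ∈ A 2)
    (hφL : bil (LinearMap.comp (LinearMap.flip P) L) ∈ A 2) {N : ℕ} {ψ : HS.Cls V (N + 1)}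
    (hψ : ψ ∈ A (N + 1)) : ap (Fin.last N) L ψ ∈ A (N + 1) := by
  have h1 := last_eps hA hab hε hφ (last_op hA hab hε hL hφL hψ)
  rw [ap_ap, mul_assoc, ← hL, ← mul_assoc, hε, one_mul] at h1
  exact h1

end

end Pool.Agent.X259.U
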