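import Pool.Agent.X259.U.U17

/-!
# Families of classes on powers: the closed family
-/

set_option autoImplicit false
set_option linter.unusedSectionVars false
set_option linter.unusedDecidableInType false
set_option linter.unusedFintypeInType false

namespace Pool.Agent.X259.U

open Matrix Finset Module Pool.Agent.H204R3.SP Pool.Agent.H204R3.GP Pool.Agent.W516
  Pool.Agent.X259.T
open scoped ComplexOrder TensorProduct

noncomputable section

section coordinates

variable {V : Type} [AddCommGroup V] [Module ℚ V] {n : ℕ}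
  {e : Basis (Fin n) ℚ V} {Q : V →ₗ[ℚ] V →ₗ[ℚ] ℚ} {ε : Module.End ℚ V}
  {P P' : Matrix (Fin n) (Fin n) ℂ} {k : Fin n → ℤ} (hd : HD e Q ε P P' k)

include hd in
lemma HD.om_cancel {M : Matrix (Fin n) (Fin n) ℂ} (h : Om e Q * M = 0) : M = 0 := by
  have h1 : IsUnit (we P P' k * Om e Q) := by
    rw [← Matrix.vecMul_injective_iff_isUnit]
    intro x y hxy
    by_contra hne
    have h2 := hd.pos (x - y) (sub_ne_zero.2 hne)
    have h3 : (x - y) ᵥ* (we P P' k * Om e Q) = 0 := by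
      rw [Matrix.sub_vecMul]
      exact sub_eq_zero.2 hxy
    rw [h3, zero_dotProduct] at h2
    exact lt_irrefl _ h2
  have h2 : (we P P' k * Om e Q) * M = 0 := by rw [mul_assoc, h, mul_zero]
  exact (h1.mul_right_eq_zero).1 h2

include hd in
/-- The operator of a bilinear form. -/
lemma exists_adj [FiniteDimensional ℚ V] (B : V →ₗ[ℚ] V →ₗ[ℚ] ℚ) :
    ∃ T : Module.End ℚ V, ∀ x y, Q x (T y) = B x y := by
  have hinj : Function.Injective (LinearMap.flip Q) := by
    rw [← LinearMap.ker_eq_bot, LinearMap.ker_eq_bot']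
    intro v hv
    exact hd.nd v fun u => congrArg (fun f : V →ₗ[ℚ] ℚ => f u) hv
  let E := LinearMap.linearEquivOfInjective (LinearMap.flip Q) hinj Subspace.dual_finrank_eq.symm
  refine ⟨E.symm.toLinearMap ∘ₗ LinearMap.flip B, fun x y => ?_⟩
  have h1 : E (E.symm (LinearMap.flip B y)) = LinearMap.flip B y := E.apply_symm_apply _
  exact congrArg (fun f : V →ₗ[ℚ] ℚ => f x) h1

include hd in
/-- The operator of a Hodge form commutes with the weights. -/
lemma adj_comm {B : V →ₗ[ℚ] V →ₗ[ℚ] ℚ} (hB : wt P P' k * Om e B = -(Om e B * (wt P P' k)ᵀ))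
    {T : Module.End ℚ V} (hT : ∀ x y, Q x (T y) = B x y) :
    wt P P' k * mW e T = mW e T * wt P P' k := by
  have h1 : B = Q.compl₂ T := by
    ext x y
    exact (hT x y).symm
  have h2 : Om e B = Om e Q * (mW e T)ᵀ := by
    rw [h1, Om_compl]
  have h3 : Om e Q * ((wt P P' k)ᵀ * (mW e T)ᵀ - (mW e T)ᵀ * (wt P P' k)ᵀ) = 0 := by
    rw [h2, ← mul_assoc, hd.inv, neg_mul, neg_inj] at hB
    rw [mul_sub, ← mul_assoc, ← mul_assoc, hB, sub_self]
  have h4 := hd.om_cancel h3
  rw [sub_eq_zero, ← Matrix.transpose_mul, ← Matrix.transpose_mul] at h4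
  exact (Matrix.transpose_injective h4).symm

include hd in
/-- The operator of a form with the same symmetry commutes with the parity. -/
lemma adj_eps {B : V →ₗ[ℚ] V →ₗ[ℚ] ℚ} (hB : ∀ x y, B x y = B y (ε x))
    {T : Module.End ℚ V} (hT : ∀ x y, Q x (T y) = B x y) : ε * T = T * ε := by
  refine LinearMap.ext fun y => ?_
  rw [← sub_eq_zero]
  refine hd.nd _ fun x => ?_
  rw [map_sub, Module.End.mul_apply, Module.End.mul_apply, hT]
  have h1 : ∀ x y, Q (ε x) (ε y) = Q x y := fun x y => by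
    rw [← hd.eps y (ε x), ← hd.eps x y]
  have h2 : ∀ x y, B (ε x) (ε y) = B x y := fun x y => by
    rw [← hB y (ε x), ← hB x y]
  have h3 : Q x (ε (T y)) = Q (ε x) (T y) := by
    rw [← h1 (ε x) (T y), hd.eps2]
  rw [h3, hT, ← h2 (ε x) y, hd.eps2, sub_self]

variable {H : ℤ → ℤ → Submodule ℂ (ℂ ⊗[ℚ] V)} {vB : Basis (Fin n) ℂ (ℂ ⊗[ℚ] V)}
  {kk : Fin n → ℤ × ℤ} (hm : ∀ a, vB a ∈ H (kk a).1 (kk a).2)
  (hr : ∀ p q : ℤ, ∀ x ∈ H p q, ∀ a, kk a ≠ (p, q) → vB.repr x a = 0)

include hm hr in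
/-- Bilinear Hodge classes. -/
lemma bil_hodge {B : V →ₗ[ℚ] V →ₗ[ℚ] ℚ} : HS.IsHodgeClass H (bil B) ↔
    wt (PM e vB) (PM' e vB) (kd kk) * Om e B =
      -(Om e B * (wt (PM e vB) (PM' e vB) (kd kk))ᵀ) := by
  rw [hclass_iff e hm hr, ← dk_two_zero]
  rfl

lemma conj_hodge {X M O : Matrix (Fin n) (Fin n) ℂ} (hO : X * O = -(O * Xᵀ)) (hM : X * M = M * X) :
    X * (M * Oᵀ) = -(M * Oᵀ * Xᵀ) := by
  have h1 : X * Oᵀ = -(Oᵀ * Xᵀ) := by
    have h2 := congrArg Matrix.transpose hO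
    rw [Matrix.transpose_mul, Matrix.transpose_neg, Matrix.transpose_mul,
      Matrix.transpose_transpose] at h2
    rw [h2, neg_neg]
  rw [← mul_assoc, hM, mul_assoc, h1, mul_neg, mul_assoc]

end coordinates

section family

variable {V : Type} [AddCommGroup V] [Module ℚ V]

/-- The family of forms in pairs of variables. -/
def CC (A : ∀ N : ℕ, Submodule ℚ (HS.Cls V N)) (m : ℕ) : Submodule ℚ (RF V m) where
  carrier := {ψ | (ψ.domDomCongr (eqv m) : HS.Cls V (2 * m)) ∈ A (2 * m)}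
  add_mem' h h' := Submodule.add_mem _ h h'
  zero_mem' := Submodule.zero_mem _
  smul_mem' c _ h := Submodule.smul_mem _ c h

lemma cast_mem {A : ∀ N : ℕ, Submodule ℚ (HS.Cls V N)} {N N' : ℕ} (h : N = N') {ψ : HS.Cls V N}
    (hψ : (ψ.domDomCongr (finCongr h) : HS.Cls V N') ∈ A N') : ψ ∈ A N := by
  subst h
  exact hψ

lemma eqv_cast {m m' : ℕ} (h : 2 * (m + m') = 2 * m + 2 * m') (p : Fin m × Fin 2) :
    finCongr h (eqv (m + m') (Fin.castAdd m' p.1, p.2)) = Fin.castAdd (2 * m') (eqv m p) := by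
  ext
  rw [finCongr_apply, Fin.val_cast, eqv_val, Fin.val_castAdd, Fin.val_castAdd, eqv_val]

lemma eqv_nat {m m' : ℕ} (h : 2 * (m + m') = 2 * m + 2 * m') (p : Fin m' × Fin 2) :
    finCongr h (eqv (m + m') (Fin.natAdd m p.1, p.2)) = Fin.natAdd (2 * m) (eqv m' p) := by
  ext
  rw [finCongr_apply, Fin.val_cast, eqv_val, Fin.val_natAdd, Fin.val_natAdd, eqv_val]
  ring

lemma snoc_ext2 {m : ℕ} (v : Fin (2 * m) → V) (x y : V) :
    (fun p => (Fin.snoc (Fin.snoc v x : Fin (2 * m + 1) → V) y : Fin (2 * m + 2) → V)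
      (eqv (m + 1) p)) = ext2 (fun p => v (eqv m p)) x y := by
  funext p
  obtain ⟨j, c⟩ := p
  refine Fin.lastCases ?_ (fun j => ?_) j
  · fin_cases c
    · have h1 : (eqv (m + 1) (Fin.last m, 0) : Fin (2 * m + 2)) = (Fin.last (2 * m)).castSucc := by
        ext
        rw [eqv_val]
        simp
      simp only [Fin.zero_eta, h1, Fin.snoc_castSucc, Fin.snoc_last, ext2, Fin.lastCases_last]
      rfl
    · have h1 : (eqv (m + 1) (Fin.last m, 1) : Fin (2 * m + 2)) = Fin.last (2 * m + 1) := by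
        ext
        rw [eqv_val]
        simp
      simp only [Fin.mk_one, h1, Fin.snoc_last, ext2, Fin.lastCases_last]
      rfl
  · have h1 : (eqv (m + 1) (j.castSucc, c) : Fin (2 * m + 2)) = (eqv m (j, c)).castSucc.castSucc := by
      ext
      rw [eqv_val]
      simp [eqv_val]
    simp only [h1, Fin.snoc_castSucc, ext2, Fin.lastCases_castSucc]

end family

end

end Pool.Agent.X259.U
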