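import Pool.Agent.X259.U.U18

/-!
# One power of a variety decides for all powers
-/

set_option autoImplicit false
set_option linter.unusedSectionVars false
set_option linter.unusedDecidableInType false
set_option linter.unusedFintypeInType false

namespace Pool.Agent.X259.U

open Matrix Finset Module Pool.Agent.H204R3.SP Pool.Agent.H204R3.GP Pool.Agent.W516
  Pool.Agent.X259.T
open scoped ComplexOrder TensorProduct

noncomputable section

variable {V : Type} [AddCommGroup V] [Module ℚ V] {H : ℤ → ℤ → Submodule ℂ (ℂ ⊗[ℚ] V)}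
  {ε : Module.End ℚ V} {P Q : LinearMap.BilinForm ℚ V} {one point : V}
  {A : ∀ N : ℕ, Submodule ℚ (HS.Cls V N)} (hA : HS.IsCycleFamily H ε P one point A)
  (hP : HS.IsPoincare ε P one point)

include hA in
/-- The family in pairs of variables is closed. -/
theorem closed_of {a b : Fin (finrank ℚ V) → V} (hab : ∀ y : V, y = ∑ i, P (b i) y • a i)
    (hε : ε * ε = 1) {T : Module.End ℚ V} (hT : ε * T = T * ε)
    (hφ : bil (LinearMap.flip P) ∈ A 2) (hφT : bil (LinearMap.comp (LinearMap.flip P) T) ∈ A 2)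
    (hQ : bil Q ∈ A 2) : Closed Q a (fun i => T (b i)) (CC A) where
  one ψ h := hA.unit (ψ.domDomCongr (eqv 0) : HS.Cls V 0) fun v => h _
  pol ψ h := by
    have h1 : (ψ.domDomCongr (eqv 1) : HS.Cls V 2) = bil Q := by
      refine MultilinearMap.ext fun (v : Fin 2 → V) => ?_
      rw [MultilinearMap.domDomCongr_apply, h, bil_apply]
      rfl
    change (ψ.domDomCongr (eqv 1) : HS.Cls V 2) ∈ A 2
    rw [h1]
    exact hQ
  perm m σ ψ h := by
    have h1 : ((ψ.domDomCongr σ).domDomCongr (eqv m) : HS.Cls V (2 * m)) =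
        (ψ.domDomCongr (eqv m)).domDomCongr ((eqv m).symm.trans (σ.trans (eqv m))) := by
      refine MultilinearMap.ext fun (v : Fin (2 * m) → V) => ?_
      simp only [MultilinearMap.domDomCongr_apply, Equiv.trans_apply, Equiv.symm_apply_apply]
    change ((ψ.domDomCongr σ).domDomCongr (eqv m) : HS.Cls V (2 * m)) ∈ A (2 * m)
    rw [h1]
    exact perm_mem hA hab hε hφ _ h
  prod m m' ψ h ψ' h' ψ'' h'' := by
    have h1 : 2 * (m + m') = 2 * m + 2 * m' := by ring
    refine cast_mem h1 (hA.exterior (2 * m) (2 * m') _ h _ h' _ fun v => ?_)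
    rw [MultilinearMap.domDomCongr_apply, MultilinearMap.domDomCongr_apply, h'']
    simp only [eqv_cast h1, eqv_nat h1]
    rfl
  contr m ψ h ψ' h' := by
    have h1 : (ψ.domDomCongr (eqv (m + 1)) : HS.Cls V (2 * m + 1 + 1)) ∈ A (2 * m + 1 + 1) := h
    have h2 := last_op' hA hab hε hT hφ hφT h1
    refine image_mem hA hab h2 fun v => ?_
    rw [MultilinearMap.domDomCongr_apply, h']
    refine Finset.sum_congr rfl fun i _ => ?_
    rw [cr_apply, ap_apply, Fin.snoc_last, Fin.update_snoc_last, MultilinearMap.domDomCongr_apply]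
    congr 1
    exact (snoc_ext2 v (a i) (T (b i))).symm

/-- All Hodge classes on the power number `N` are in the family. -/
def HIn (H : ℤ → ℤ → Submodule ℂ (ℂ ⊗[ℚ] V)) (A : ∀ N : ℕ, Submodule ℚ (HS.Cls V N)) (N : ℕ) :
    Prop := ∀ ψ : HS.Cls V N, HS.IsHodgeClass H ψ → ψ ∈ A N

/-- Dual families for the Poincaré form. -/
lemma exists_dual_poincare [FiniteDimensional ℚ V] (hP : HS.IsPoincare ε P one point) :
    ∃ a b : Fin (finrank ℚ V) → V, ∀ y : V, y = ∑ i, P (b i) y • a i := by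
  have hinj : Function.Injective P := by
    rw [← LinearMap.ker_eq_bot, LinearMap.ker_eq_bot']
    intro v hv
    exact hP.nondeg v fun u => congrArg (fun f : V →ₗ[ℚ] ℚ => f u) hv
  have hsurj : Function.Surjective P :=
    (LinearMap.injective_iff_surjective_of_finrank_eq_finrank Subspace.dual_finrank_eq.symm).1 hinj
  let e := Module.finBasis ℚ V
  choose b hb using fun i => hsurj (e.coord i)
  refine ⟨e, b, fun w => ?_⟩
  conv_lhs => rw [← e.sum_repr w]
  refine Finset.sum_congr rfl fun i _ => ?_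
  have h1 : P (b i) w = e.coord i w := congrArg (fun f : V →ₗ[ℚ] ℚ => f w) (hb i)
  rw [h1, Basis.coord_apply]

include hA hP in
/-- Restriction to fibres. -/
theorem down_le [FiniteDimensional ℚ V] (hH : HS.IsHodgeStructure H ε) {N M : ℕ} (h : N ≤ M)
    (hM : HIn H A M) : HIn H A N := by
  obtain ⟨a, b, hab⟩ := exists_dual_poincare hP
  obtain ⟨vB, kk, hmem, hr⟩ := exists_adapted hH.internal
  induction M, h using Nat.le_induction with
  | base => exact hM
  | succ M _ ih =>
    exact ih fun ψ hψ => down hA hP hab (Module.finBasis ℚ V) hmem hr hM ψ hψ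

include hA hP in
/-- The closed family. -/
theorem exists_closed [FiniteDimensional ℚ V] (hH : HS.IsHodgeStructure H ε)
    (hQ : HS.IsPolarization H ε Q) (h2 : HIn H A 2) :
    ∃ γ γ' : Fin (finrank ℚ V) → V, (∀ v : V, v = ∑ i, Q v (γ' i) • γ i) ∧
      Closed Q γ γ' (CC A) := by
  obtain ⟨a, b, hab⟩ := exists_dual_poincare hP
  obtain ⟨vB, kk, hmem, hr⟩ := exists_adapted hH.internal
  have hd := hd_of (Module.finBasis ℚ V) hmem hr hH hQ
  have hε : ε * ε = 1 := LinearMap.ext hd.eps2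
  have hPH := (bil_hodge (e := Module.finBasis ℚ V) hmem hr).1
    (hA.hodge 2 _ (hA.diagonal (bil P) fun v => rfl))
  obtain ⟨T, hT⟩ := exists_adj hd P
  have hTX := adj_comm hd hPH hT
  have hTε := adj_eps hd hP.symm hT
  have heX : wt (PM (Module.finBasis ℚ V) vB) (PM' (Module.finBasis ℚ V) vB) (kd kk) *
      mW (Module.finBasis ℚ V) ε = mW (Module.finBasis ℚ V) ε *
        wt (PM (Module.finBasis ℚ V) vB) (PM' (Module.finBasis ℚ V) vB) (kd kk) := by
    rw [← hd.sq]
    have h1 := we_comm hd.h hd.h' (k := kd kk) (A := wt (PM (Module.finBasis ℚ V) vB)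
      (PM' (Module.finBasis ℚ V) vB) (kd kk)) rfl
    rw [← mul_assoc, ← h1, mul_assoc, ← h1, mul_assoc]
  have hL : wt (PM (Module.finBasis ℚ V) vB) (PM' (Module.finBasis ℚ V) vB) (kd kk) *
      mW (Module.finBasis ℚ V) (T * ε) = mW (Module.finBasis ℚ V) (T * ε) *
        wt (PM (Module.finBasis ℚ V) vB) (PM' (Module.finBasis ℚ V) vB) (kd kk) := by
    rw [mW_comp, ← mul_assoc, heX, mul_assoc, hTX, mul_assoc]
  refine ⟨a, fun i => (T * ε) (b i), fun v => ?_, closed_of hA hab hε (T := T * ε) ?_ ?_ ?_ ?_⟩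
  · have h1 : ∀ i, Q v ((T * ε) (b i)) = P (b i) v := by
      intro i
      rw [Module.End.mul_apply, hT, ← hP.symm]
    rw [Finset.sum_congr rfl fun i _ => by rw [h1 i]]
    exact hab v
  · rw [← mul_assoc, hTε]
  · refine h2 _ ((bil_hodge (e := Module.finBasis ℚ V) hmem hr).2 ?_)
    have h1 := conj_hodge hPH (M := 1) (by rw [mul_one, one_mul])
    rw [one_mul] at h1
    exact h1
  · refine h2 _ ((bil_hodge (e := Module.finBasis ℚ V) hmem hr).2 ?_)
    rw [Om_comp]
    exact conj_hodge hPH hL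
  · exact h2 _ ((bil_hodge (e := Module.finBasis ℚ V) hmem hr).2 hd.inv)

include hA hP in
/-- **One power decides for all powers.** -/
theorem all_powers [FiniteDimensional ℚ V] (hH : HS.IsHodgeStructure H ε)
    (hQ : HS.IsPolarization H ε Q) {w : ℕ} (hw1 : 1 ≤ w)
    (hw : ∀ p q : ℤ, H p q ≠ ⊥ → |p - q| ≤ w) {M : ℕ}
    (hM : 2 * (2 * finrank ℚ V * w) ^ (8 * finrank ℚ V + 9) ≤ M ∨
      (∀ f : Module.End ℚ V, HS.IsHodgeEndo H f →
        (∀ f' : Module.End ℚ V, HS.IsHodgeEndo H f' → f * f' = f' * f) →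
        (∀ u v, Q (f u) v = -Q u (f v)) → f = 0) ∧
      16 * finrank ℚ V ^ 3 * (Nat.log 2 (2 * finrank ℚ V) + 1) ≤ M)
    (h : HIn H A M) (N : ℕ) : HIn H A N := by
  have hn : 1 ≤ finrank ℚ V := by
    rw [Nat.one_le_iff_ne_zero]
    intro h0
    have h1 : Subsingleton V := Module.finrank_zero_iff.1 h0
    have h2 := hP.point
    rw [Subsingleton.elim one 0, map_zero] at h2
    exact zero_ne_one h2
  obtain ⟨m, hm, hmM⟩ : ∃ m : ℕ, ((2 * finrank ℚ V * w) ^ (8 * finrank ℚ V + 9) ≤ m ∨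
      (∀ f : Module.End ℚ V, HS.IsHodgeEndo H f →
        (∀ f' : Module.End ℚ V, HS.IsHodgeEndo H f' → f * f' = f' * f) →
        (∀ u v, Q (f u) v = -Q u (f v)) → f = 0) ∧
      8 * finrank ℚ V ^ 3 * (Nat.log 2 (2 * finrank ℚ V) + 1) ≤ m) ∧ 2 * m ≤ M := by
    rcases hM with hM | ⟨h4, hM⟩
    · exact ⟨_, Or.inl le_rfl, hM⟩
    · refine ⟨_, Or.inr ⟨h4, le_rfl⟩, le_trans (le_of_eq ?_) hM⟩
      ring
  have hm1 : 1 ≤ m := by
    rcases hm with hm | ⟨_, hm⟩
    · exact le_trans (Nat.one_le_pow _ _ (by positivity)) hm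
    · exact le_trans (Nat.mul_pos (Nat.mul_pos (by norm_num) (Nat.pow_pos hn))
        (Nat.succ_pos _)) hm
  have h2 : HIn H A 2 := down_le hA hP hH (by omega) h
  have h2m : HIn H A (2 * m) := down_le hA hP hH hmM h
  obtain ⟨γ, γ', hγ, hC⟩ := exists_closed hA hP hH hQ h2
  obtain ⟨vB, kk, hmem, hr⟩ := exists_adapted hH.internal
  have hCH : ∀ (m : ℕ), ∀ ψ ∈ CC A m, HS.IsHodgeForm H ψ := fun m ψ hψ =>
    (hform_iff (Module.finBasis ℚ V) hmem hr ψ).2 (hA.hodge _ _ hψ)
  have heq : ∀ ψ : RF V m, HS.IsHodgeForm H ψ → ψ ∈ CC A m := fun ψ hψ =>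
    h2m _ ((hform_iff (Module.finBasis ℚ V) hmem hr ψ).1 hψ)
  have hall : ∀ m' : ℕ, HIn H A (2 * m') := by
    intro m' ψ hψ
    have h5 : HS.IsHodgeForm H (ψ.domDomCongr (eqv m').symm : RF V m') := by
      rw [hform_iff (Module.finBasis ℚ V) hmem hr]
      have h6 : ((ψ.domDomCongr (eqv m').symm : RF V m').domDomCongr (eqv m') :
          HS.Cls V (2 * m')) = ψ := by
        refine MultilinearMap.ext fun (v : Fin (2 * m') → V) => ?_
        simp only [MultilinearMap.domDomCongr_apply, Equiv.apply_symm_apply]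
      rw [h6]
      exact hψ
    have h7 : (ψ.domDomCongr (eqv m').symm : RF V m') ∈ CC A m' := by
      rcases hm with hm | ⟨h4, hm⟩
      · exact one_power_hs hH hQ hw1 hw hn hγ hC hCH hm heq m' _ h5
      · exact one_power_hs_noskew hH hQ h4 hn hγ hC hCH hm heq m' _ h5
    have h8 : ((ψ.domDomCongr (eqv m').symm : RF V m').domDomCongr (eqv m') :
        HS.Cls V (2 * m')) ∈ A (2 * m') := h7
    have h6 : ((ψ.domDomCongr (eqv m').symm : RF V m').domDomCongr (eqv m') :
        HS.Cls V (2 * m')) = ψ := by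
      refine MultilinearMap.ext fun (v : Fin (2 * m') → V) => ?_
      simp only [MultilinearMap.domDomCongr_apply, Equiv.apply_symm_apply]
    rwa [h6] at h8
  exact down_le hA hP hH (by omega : N ≤ 2 * N) (hall N)

end

end Pool.Agent.X259.U
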