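import Pool.Agent.X259.U.U1
import Pool.Agent.X259.U.U0

/-!
# The Lie algebra of a family is determined in bounded degree
-/

set_option autoImplicit false
set_option linter.unusedSectionVars false
set_option linter.unusedDecidableInType false
set_option linter.unusedFintypeInType false

namespace Pool.Agent.X259.U

open Matrix Finset Module Pool.Agent.H204R3.SP Pool.Agent.H204R3.GP Pool.Agent.W516
  Pool.Agent.X259.T
open scoped ComplexOrder

noncomputable section

variable {W : Type} [AddCommGroup W] [Module ℚ W] {R : Type} [Fintype R] [DecidableEq R]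
  {T : Type} [AddCommGroup T] [Module ℂ T] {Q : Type} [DecidableEq Q]
  {per : W →+ T} {ω₀ : W →ₗ[ℚ] W →ₗ[ℚ] ℚ} {b : Basis R ℚ W} {b' : Basis R ℝ T} {cls : R → Q}
  {inv : R → R} {jj : R → ℂ} {S S' : Matrix R R ℂ} (hf : Frame per ω₀ b b' cls inv jj S S')
  {B : ∀ m : ℕ, Submodule ℚ (RF W m)} {N : Matrix R R ℂ} (hBN : DefBy b B N)

/-- The commutant of the Lie algebra. -/
def InComm (B : ∀ m : ℕ, Submodule ℚ (RF W m)) (P : Module.End ℚ W) : Prop :=
  ∀ Z ∈ LB B, Z * P = P * Z

include hf hBN in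
/-- The Lie algebra is determined in degree `N₀`. -/
theorem lieDet' (hBf : Fam cls inv jj (Fm S b B)) {N₀ : ℕ} (hN : 4 ≤ N₀)
    (hZ : ∀ P : Module.End ℚ W, InComm B P → (∀ P', InComm B P' → P * P' = P' * P) →
      (∀ u v, ω₀ (P u) v = -ω₀ u (P v)) →
      (∀ m, 2 * m ≤ N₀ → ∀ ψ ∈ B m, Kills P ψ) → P ∈ LB B) :
    LieDet (Fm S b B) N₀ := by
  refine lieDet_center hf.bas hBf hN (hconn' hf hBN) fun c hsk hcomm hbi hlow => ?_
  refine mem_LL_of hf fun m ψ hψ => ?_
  refine (dk_iff b _ _).2 fun lam => ?_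
  have hSS : ∀ X : Matrix R R ℂ, S' * (S * X * S') * S = X := by
    intro X
    calc _ = (S' * S) * X * (S' * S) := by simp only [mul_assoc]
      _ = _ := by rw [hf.one', one_mul, mul_one]
  have hconj : ∀ X Y : Matrix R R ℂ, X * (S * Y * S') = (S * Y * S') * X →
      (S' * X * S) * Y = Y * (S' * X * S) := by
    intro X Y h
    calc (S' * X * S) * Y = S' * X * S * Y * (S' * S) := by rw [hf.one', mul_one]
      _ = S' * (X * (S * Y * S')) * S := by simp only [mul_assoc]
      _ = S' * ((S * Y * S') * X) * S := by rw [h]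
      _ = (S' * S) * Y * (S' * X * S) := by simp only [mul_assoc]
      _ = _ := by rw [hf.one', one_mul]
  refine hZ (cmE b lam (S' * c * S)) ?_ ?_ ?_ ?_ m ψ hψ
  · intro Z hZ'
    refine (comm_iff b _ Z).1 ?_ lam
    exact hconj c (mW b Z) (hcomm _ (conj_mem_LL' hf hZ')).symm
  · intro P' hP'
    symm
    refine (comm_iff b _ P').1 ?_ lam
    refine hconj c (mW b P') (hbi _ fun A hA => ?_)
    have h1 : (S' * A * S) * mW b P' = mW b P' * (S' * A * S) := by
      refine (comm_iff b _ P').2 fun mu => ?_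
      symm
      exact hP' _ fun m' ψ' hψ' => kills_of_LL hf hBf hA mu m' ψ' hψ'
    calc A * (S * mW b P' * S') = (S * S') * A * (S * mW b P' * S') := by
          rw [hf.one, one_mul]
      _ = S * ((S' * A * S) * mW b P') * S' := by simp only [mul_assoc]
      _ = S * (mW b P' * (S' * A * S)) * S' := by rw [h1]
      _ = (S * mW b P' * S') * A * (S * S') := by simp only [mul_assoc]
      _ = _ := by rw [hf.one, mul_one]
  · exact comps_skew hf hsk lam
  · intro m' hm' ψ' hψ'
    refine (dk_gen hf c ψ').1 ?_ lam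
    have h2 := hlow (m' * 2) (by omega) _ (gen_mem (S := S) (b := b) (C := B)
      (finProdFinEquiv : Fin m' × Fin 2 ≃ Fin (m' * 2)) hψ')
    rw [dk_ri] at h2
    funext I
    have h3 := congrFun h2
      (fun k => I ((finProdFinEquiv : Fin m' × Fin 2 ≃ Fin (m' * 2)).symm k))
    simp only [ri, Equiv.symm_apply_apply, Pi.zero_apply] at h3
    exact h3

include hf in
/-- Rational skew matrices that commute with the complex structure are skew-Hermitian. -/
lemma skewHerm' {P : Module.End ℚ W}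
    (hP : Nz b' (-Complex.I) * mW b P = mW b P * Nz b' (-Complex.I))
    (hsk : ∀ u v, ω₀ (P u) v = -ω₀ u (P v)) :
    (S * mW b P * S')ᴴ = -(S * mW b P * S') := by
  let bar : Matrix R R ℂ → Matrix R R ℂ := fun M => M.map (starRingEnd ℂ)
  have hbar : ∀ M N : Matrix R R ℂ, bar (M * N) = bar M * bar N := fun M N =>
    Matrix.map_mul
  have h1 : Jm inv jj * bar S = S * Nz b' (-Complex.I) := by
    ext x j
    rw [← hf.star x j, Matrix.mul_apply, Finset.sum_eq_single (inv x)]
    · have e : Jm inv jj x (inv x) = jj x := by simp [Jm, JJ]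
      rw [e]
      rfl
    · intro y _ hy
      have e : Jm inv jj x y = 0 := by simp [Jm, JJ, hy]
      rw [e, zero_mul]
    · intro h
      exact absurd (Finset.mem_univ _) h
  have h2 : bar (mW b P) = mW b P := by
    ext i j
    change (starRingEnd ℂ) ((b.repr (P (b i)) j : ℚ) : ℂ) = _
    rw [map_ratCast]
    rfl
  have h3 : bar S * bar S' = 1 := by
    rw [← hbar, hf.one]
    exact Matrix.map_one _ (map_zero _) (map_one _)
  have h4 : Nz b' (-Complex.I) * bar S' = S' * Jm inv jj := by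
    calc Nz b' (-Complex.I) * bar S' = (S' * S) * Nz b' (-Complex.I) * bar S' := by
          rw [hf.one', one_mul]
      _ = S' * (S * Nz b' (-Complex.I)) * bar S' := by simp only [mul_assoc]
      _ = S' * (Jm inv jj * bar S) * bar S' := by rw [h1]
      _ = S' * Jm inv jj * (bar S * bar S') := by simp only [mul_assoc]
      _ = _ := by rw [h3, mul_one]
  have h5 : Jm inv jj * bar (S * mW b P * S') = (S * mW b P * S') * Jm inv jj := by
    calc Jm inv jj * bar (S * mW b P * S') = (Jm inv jj * bar S) * mW b P * bar S' := by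
          rw [hbar, hbar, h2]
          simp only [mul_assoc]
      _ = S * (Nz b' (-Complex.I) * mW b P) * bar S' := by
          rw [h1]
          simp only [mul_assoc]
      _ = S * mW b P * (Nz b' (-Complex.I) * bar S') := by
          rw [hP]
          simp only [mul_assoc]
      _ = _ := by rw [h4]; simp only [mul_assoc]
  have h6 : (S * mW b P * S') * Jm inv jj = -(Jm inv jj * (S * mW b P * S')ᵀ) := by
    have h7 : mW b P * Om b ω₀ = -(Om b ω₀ * (mW b P)ᵀ) := by
      ext i j
      rw [Matrix.neg_apply, Matrix.mul_apply, Matrix.mul_apply]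
      have e1 : ((ω₀ (P (b i)) (b j) : ℚ) : ℂ) = ∑ k, mW b P i k * Om b ω₀ k j := by
        conv_lhs => rw [← b.sum_repr (P (b i))]
        rw [map_sum, LinearMap.sum_apply, Rat.cast_sum]
        refine Finset.sum_congr rfl fun k _ => ?_
        rw [map_smul, LinearMap.smul_apply, smul_eq_mul, Rat.cast_mul]
        rfl
      have e2 : ((ω₀ (b i) (P (b j)) : ℚ) : ℂ) = ∑ k, Om b ω₀ i k * (mW b P)ᵀ k j := by
        conv_lhs => rw [← b.sum_repr (P (b j))]
        rw [map_sum, Rat.cast_sum]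
        refine Finset.sum_congr rfl fun k _ => ?_
        rw [map_smul, smul_eq_mul, Rat.cast_mul, Matrix.transpose_apply, mul_comm]
        rfl
      rw [← e1, ← e2, hsk, Rat.cast_neg]
    have h8 : Om b ω₀ * Sᵀ = S' * Jm inv jj := by
      calc Om b ω₀ * Sᵀ = (S' * S) * Om b ω₀ * Sᵀ := by rw [hf.one', one_mul]
        _ = S' * (S * Om b ω₀ * Sᵀ) := by simp only [mul_assoc]
        _ = _ := by rw [hf.form]
    calc (S * mW b P * S') * Jm inv jj = S * (mW b P * Om b ω₀) * Sᵀ := by
          rw [mul_assoc (S * mW b P), ← h8]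
          simp only [mul_assoc]
      _ = -(S * Om b ω₀ * ((Sᵀ * S'ᵀ) * ((mW b P)ᵀ * Sᵀ))) := by
          rw [h7, ← Matrix.transpose_mul S' S, hf.one', Matrix.transpose_one, one_mul]
          simp only [mul_neg, neg_mul, mul_assoc]
      _ = -((S * Om b ω₀ * Sᵀ) * (S * mW b P * S')ᵀ) := by
          rw [Matrix.transpose_mul, Matrix.transpose_mul]
          simp only [mul_assoc]
      _ = _ := by rw [hf.form]
  have h7 : bar (S * mW b P * S') = -(S * mW b P * S')ᵀ := by
    have h8 : Jm inv jj * bar (S * mW b P * S') = Jm inv jj * -(S * mW b P * S')ᵀ := by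
      rw [h5, h6, mul_neg]
    have h9 : Jm inv jj * (Jm inv jj * bar (S * mW b P * S')) =
        Jm inv jj * (Jm inv jj * -(S * mW b P * S')ᵀ) := by rw [h8]
    rw [← mul_assoc, ← mul_assoc, Jm_sq hf.bas, neg_one_mul, neg_one_mul] at h9
    exact neg_injective h9
  have h8 : (S * mW b P * S')ᴴ = (bar (S * mW b P * S'))ᵀ := rfl
  rw [h8, h7, Matrix.transpose_neg, Matrix.transpose_transpose]

include hf in
lemma trace_skew' {P : Module.End ℚ W}
    (hP : Nz b' (-Complex.I) * mW b P = mW b P * Nz b' (-Complex.I))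
    (hsk : ∀ u v, ω₀ (P u) v = -ω₀ u (P v)) : (mW b P).trace = 0 := by
  have h1 : (S * mW b P * S').trace = (mW b P).trace := by
    rw [Matrix.trace_mul_comm, ← mul_assoc, hf.one', one_mul]
  have h2 := congrArg Matrix.trace (skewHerm' hf hP hsk)
  rw [Matrix.trace_conjTranspose, Matrix.trace_neg, h1, trace_mW] at h2
  rw [trace_mW]
  have h3 : star ((LinearMap.trace ℚ W P : ℚ) : ℂ) = ((LinearMap.trace ℚ W P : ℚ) : ℂ) :=
    map_ratCast (starRingEnd ℂ) _
  rw [h3] at h2
  exact self_eq_neg.1 h2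

/-- The traces of the matrix with idempotents are integral multiples of `i`, bounded by `D`. -/
def SpecBound (N : Matrix R R ℂ) (D : ℕ) : Prop :=
  ∀ e : Matrix R R ℂ, e * e = e → N * e = e * N →
    ∃ δ : ℤ, |δ| ≤ (D : ℤ) ∧ (N * e).trace = Complex.I * δ

include hf hBN in
/-- Skew elements of the commutant which are orthogonal to the Lie algebra and annihilate the
family in bounded degree are zero. -/
theorem center_zero' {D : ℕ} (hD : 1 ≤ D) (hN : SpecBound N D) (hN0 : N.trace = 0)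
    (P : Module.End ℚ W) (hPc : InComm B P)
    (hPI : Nz b' (-Complex.I) * mW b P = mW b P * Nz b' (-Complex.I))
    (hsk : ∀ u v, ω₀ (P u) v = -ω₀ u (P v))
    (horth : ∀ Z ∈ LB B, LinearMap.trace ℚ W (Z * P) = 0)
    (hkill : ∀ m, 2 * m ≤ 4 * (Fintype.card R * D) ^ (Fintype.card R) *
      Fintype.card R → ∀ ψ ∈ B m, Kills P ψ) : P = 0 := by
  by_contra hne
  let Pq : Matrix R R ℚ := fun i j => b.repr (P (b i)) j
  have hPq : Pq.map (algebraMap ℚ ℂ) = mW b P := by
    ext i j
    change algebraMap ℚ ℂ (b.repr (P (b i)) j) = _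
    rw [eq_ratCast]
    rfl
  obtain ⟨U, U', μ, hU1, hU2, hH⟩ := exists_diag_skew (skewHerm' hf hPI hsk)
  have hQ1 : (U' * S) * (S' * U) = 1 := by
    calc (U' * S) * (S' * U) = U' * (S * S') * U := by simp only [mul_assoc]
      _ = 1 := by rw [hf.one, mul_one, hU1]
  have hQ2 : (S' * U) * (U' * S) = 1 := by
    calc (S' * U) * (U' * S) = S' * (U * U') * S := by simp only [mul_assoc]
      _ = 1 := by rw [hU2, mul_one, hf.one']
  have hQ3 : Pq.map (algebraMap ℚ ℂ) = (S' * U) * Matrix.diagonal μ * (U' * S) := by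
    rw [hPq]
    calc mW b P = (S' * S) * mW b P * (S' * S) := by rw [hf.one', one_mul, mul_one]
      _ = S' * (S * mW b P * S') * S := by simp only [mul_assoc]
      _ = S' * (U * Matrix.diagonal μ * U') * S := by rw [← hH]
      _ = _ := by simp only [mul_assoc]
  have hNP : N * mW b P = mW b P * N :=
    (comm_iff b N P).2 fun lam => (hPc _ (cmE_mem_LB hBN lam)).symm
  have htr : (N * mW b P).trace = 0 := by
    rw [Matrix.trace_mul_comm]
    refine eq_zero_of_comp fun lam => ?_
    rw [lam_trace]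
    exact horth _ (cmE_mem_LB hBN lam)
  obtain ⟨K, _, _, _, g₀, κ, _, _, F, heven, hcard, hN', hPF⟩ := exists_tensor hQ1 hQ2 hQ3
    N hD hN (by rw [hPq]; exact hNP) hN0 (by rw [hPq]; exact htr)
    (by rw [hPq]; exact trace_skew' hf hPI hsk)
    (by
      rw [hPq]
      intro h0
      apply hne
      apply mW_inj b
      rw [h0]
      ext i j
      simp [mW])
  apply hPF
  rw [hPq]
  obtain ⟨m, hm⟩ := heven
  have hcard2 : Fintype.card κ = Fintype.card (Fin m × Fin 2) := by
    rw [hm, Fintype.card_prod, Fintype.card_fin, Fintype.card_fin]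
    ring
  let e : κ ≃ Fin m × Fin 2 := Fintype.equivOfCardEq hcard2
  funext J
  refine eq_zero_of_comp fun lam => ?_
  apply Rat.cast_injective (α := ℂ)
  rw [← lam_dk' lam P (fun J => g₀ (F J)) J]
  -- the rational components
  let G : (κ → R) → ℚ := fun J => lam (g₀ (F J))
  have hG : gt b (mkc b G) = fun J => ((lam (g₀ (F J)) : ℚ) : ℂ) := gt_mkc b G
  have hGN : dk κ N *ᵥ gt b (mkc b G) = 0 := by
    let φ : K →ₗ[ℚ] ℂ := (Algebra.linearMap ℚ ℂ) ∘ₗ lam ∘ₗ g₀.toLinearMap
    obtain ⟨c, hc⟩ := emb_span φ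
    have h1 : gt b (mkc b G) = ∑ g : K →ₐ[ℚ] ℂ, c g • fun J => g (F J) := by
      rw [hG]
      funext J
      have h2 := hc (F J)
      change algebraMap ℚ ℂ (lam (g₀ (F J))) = _ at h2
      rw [eq_ratCast] at h2
      rw [h2, Finset.sum_apply]
      rfl
    rw [h1, Matrix.mulVec_sum]
    refine Finset.sum_eq_zero fun g _ => ?_
    rw [Matrix.mulVec_smul, hN' g, smul_zero]
  have h3 : ((mkc b G).domDomCongr e : RF W m) ∈ B m := by
    rw [hBN, gt_dom, dk_ri, hGN]
    rfl
  have h4 := (kills_iff b P _).1 (hkill m (by omega) _ h3)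
  rw [gt_dom, dk_ri, hG] at h4
  have h5 := congrFun h4 (fun k => J (e.symm k))
  simp only [ri, Equiv.symm_apply_apply, Pi.zero_apply] at h5
  rw [Rat.cast_zero]
  exact h5

include hf in
lemma LB_nondeg (hBf : Fam cls inv jj (Fm S b B)) {X : Module.End ℚ W} (hX : X ∈ LB B)
    (h : ∀ Z ∈ LB B, LinearMap.trace ℚ W (Z * X) = 0) : X = 0 := by
  have h1 := conj_mem_LL' hf hX
  have h2 := LL_star hf.bas hBf h1
  set A := S * mW b X * S' with hA
  have h3 : (mW b X * (S' * Aᴴ * S)).trace = 0 := by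
    refine eq_zero_of_comp fun lam => ?_
    rw [lam_trace]
    exact h _ fun m ψ hψ => kills_of_LL hf hBf h2 lam m ψ hψ
  have h4 : (A * Aᴴ).trace = 0 := by
    rw [← h3]
    calc (A * Aᴴ).trace = (S * (mW b X * S' * Aᴴ)).trace := by
          rw [hA]
          simp only [mul_assoc]
      _ = ((mW b X * S' * Aᴴ) * S).trace := Matrix.trace_mul_comm _ _
      _ = _ := by simp only [mul_assoc]
  have h5 : A = 0 := Matrix.trace_mul_conjTranspose_self_eq_zero_iff.1 h4
  apply mW_inj b
  have h6 : mW b (0 : Module.End ℚ W) = 0 := by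
    ext i j
    simp [mW]
  rw [h6]
  calc mW b X = (S' * S) * mW b X * (S' * S) := by rw [hf.one', one_mul, mul_one]
    _ = S' * A * S := by rw [hA]; simp only [mul_assoc]
    _ = 0 := by rw [h5, mul_zero, zero_mul]

include hf hBN in
/-- **The centre.** -/
theorem center_all'' (hBf : Fam cls inv jj (Fm S b B))
    (hpol : ∀ ψ : RF W 1, (∀ v, ψ v = ω₀ (v (0, 0)) (v (0, 1))) → ψ ∈ B 1)
    (hI : ∀ P : Module.End ℚ W, InComm B P → (∀ P', InComm B P' → P * P' = P' * P) →
      Nz b' (-Complex.I) * mW b P = mW b P * Nz b' (-Complex.I))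
    {D : ℕ} (hD : 1 ≤ D) (hN : SpecBound N D) (hN0 : N.trace = 0)
    (P : Module.End ℚ W) (hPc : InComm B P) (hPz : ∀ P', InComm B P' → P * P' = P' * P)
    (hsk : ∀ u v, ω₀ (P u) v = -ω₀ u (P v))
    (hkill : ∀ m, 2 * m ≤ 4 * (Fintype.card R * D) ^ (Fintype.card R) *
      Fintype.card R → ∀ ψ ∈ B m, Kills P ψ) : P ∈ LB B := by
  have hfd : FiniteDimensional ℚ W := Module.Finite.of_basis b
  let tf : Module.End ℚ W →ₗ[ℚ] Module.End ℚ W →ₗ[ℚ] ℚ :=
    (LinearMap.mul ℚ (Module.End ℚ W)).compr₂ (LinearMap.trace ℚ W)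
  let Bf : LB B →ₗ[ℚ] Module.Dual ℚ (LB B) := tf.domRestrict₁₂ (LB B) (LB B)
  have hB : ∀ X Y, Bf X Y = LinearMap.trace ℚ W (X.1 * Y.1) := fun X Y => rfl
  have hinj : Function.Injective Bf := by
    rw [← LinearMap.ker_eq_bot, LinearMap.ker_eq_bot']
    intro X hX
    apply Subtype.ext
    refine LB_nondeg hf hBf X.2 fun Z hZ => ?_
    rw [LinearMap.trace_mul_comm, ← hB X ⟨Z, hZ⟩, hX]
    rfl
  have hsurj : Function.Surjective Bf :=
    (LinearMap.injective_iff_surjective_of_finrank_eq_finrank Subspace.dual_finrank_eq.symm).1 hinj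
  obtain ⟨P₀, hP₀⟩ := hsurj ((tf P).domRestrict (LB B))
  have h1 : ∀ Z ∈ LB B, LinearMap.trace ℚ W (P₀.1 * Z) = LinearMap.trace ℚ W (P * Z) := by
    intro Z hZ
    have h2 := congrArg (fun f : Module.Dual ℚ (LB B) => f ⟨Z, hZ⟩) hP₀
    exact h2
  -- the projection is central
  have h2 : InComm B P₀.1 := by
    intro Z hZ
    have h3 : Z * P₀.1 - P₀.1 * Z ∈ LB B := LB_bracket (b := b) hZ P₀.2
    have h4 : Z * P₀.1 - P₀.1 * Z = 0 := by
      refine LB_nondeg hf hBf h3 fun Z' hZ' => ?_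
      have e1 : LinearMap.trace ℚ W (Z' * (Z * P₀.1)) =
          LinearMap.trace ℚ W (P₀.1 * (Z' * Z)) := by
        rw [← mul_assoc, LinearMap.trace_mul_comm]
      have e2 : LinearMap.trace ℚ W (Z' * (P₀.1 * Z)) =
          LinearMap.trace ℚ W (P₀.1 * (Z * Z')) := by
        rw [LinearMap.trace_mul_comm, mul_assoc]
      have h5 : LinearMap.trace ℚ W (Z' * (Z * P₀.1 - P₀.1 * Z)) =
          LinearMap.trace ℚ W (P₀.1 * (Z' * Z - Z * Z')) := by
        rw [mul_sub, mul_sub, map_sub, map_sub, e1, e2]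
      have e3 : LinearMap.trace ℚ W (P * (Z' * Z)) = LinearMap.trace ℚ W (P * (Z * Z')) := by
        calc LinearMap.trace ℚ W (P * (Z' * Z)) = LinearMap.trace ℚ W (Z' * (P * Z)) := by
              rw [← mul_assoc, ← hPc Z' hZ', mul_assoc]
          _ = LinearMap.trace ℚ W ((P * Z) * Z') := LinearMap.trace_mul_comm _ _ _
          _ = _ := by rw [mul_assoc]
      rw [h5, h1 _ (LB_bracket (b := b) hZ' hZ), mul_sub, map_sub, e3, sub_self]
    exact sub_eq_zero.1 h4
  have h2' : ∀ P', InComm B P' → P₀.1 * P' = P' * P₀.1 := fun P' hP' => hP' _ P₀.2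
  have hsk₀ : ∀ u v, ω₀ (P₀.1 u) v = -ω₀ u (P₀.1 v) := LB_skew hpol P₀.2
  have hc : InComm B (P - P₀.1) := fun Z hZ => by
    rw [mul_sub, sub_mul, hPc Z hZ, h2 Z hZ]
  have hz : ∀ P', InComm B P' → (P - P₀.1) * P' = P' * (P - P₀.1) := fun P' hP' => by
    rw [mul_sub, sub_mul, hPz P' hP', h2' P' hP']
  have h3 : P - P₀.1 = 0 := by
    refine center_zero' hf hBN hD hN hN0 (P - P₀.1) hc (hI _ hc hz) ?_ ?_ ?_
    · intro u v
      rw [LinearMap.sub_apply, LinearMap.sub_apply, map_sub, map_sub, LinearMap.sub_apply, hsk,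
        hsk₀]
      ring
    · intro Z hZ
      rw [mul_sub, map_sub, LinearMap.trace_mul_comm ℚ Z P, LinearMap.trace_mul_comm ℚ Z P₀.1,
        h1 Z hZ, sub_self]
    · intro m hm ψ hψ v
      have h4 := hkill m hm ψ hψ v
      have h5 := P₀.2 m ψ hψ v
      simp only [LinearMap.sub_apply, MultilinearMap.map_update_sub, Finset.sum_sub_distrib]
      rw [h4, h5, sub_zero]
  rw [sub_eq_zero.1 h3]
  exact P₀.2

end

end Pool.Agent.X259.U
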