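import Pool.Agent.X259.U.U19

/-!
# Cosets far from one
-/

set_option autoImplicit false
set_option linter.unusedSectionVars false
set_option linter.unusedDecidableInType false
set_option linter.unusedFintypeInType false

namespace Pool.Agent.X259.U

open Matrix Finset Module MeasureTheory Pool.Agent.H204R3.SP Pool.Agent.H204R3.GP
  Pool.Agent.W516 Pool.Agent.X259.T
open scoped ComplexOrder

noncomputable section

section diag

variable {R : Type} [Fintype R] [DecidableEq R]

lemma kr_diagonal {κ : Type} [Fintype κ] [DecidableEq κ] (a : R → ℂ) :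
    kr κ (Matrix.diagonal a) = Matrix.diagonal fun I : κ → R => ∏ k, a (I k) := by
  ext I J
  rw [kr_apply, Matrix.diagonal_apply]
  split_ifs with h
  · subst h
    simp
  · obtain ⟨k, hk⟩ := Function.ne_iff.1 h
    exact Finset.prod_eq_zero (Finset.mem_univ k) (Matrix.diagonal_apply_ne _ hk)

/-- A hermitian matrix similar to a positive diagonal matrix is positive. -/
lemma posDef_of_diag {X : Type} [Fintype X] [DecidableEq X] {H P P' : Matrix X X ℂ} {a : X → ℝ}
    (hH : H.IsHermitian) (h1 : P' * P = 1) (hHP : H = P * Matrix.diagonal (fun x => (a x : ℂ)) * P')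
    (ha : ∀ x, 0 < a x) : H.PosDef := by
  rw [hH.posDef_iff_eigenvalues_pos]
  intro i
  have h2 := hH.mulVec_eigenvectorBasis i
  set v : X → ℂ := ⇑(hH.eigenvectorBasis i) with hv
  have hv0 : v ≠ 0 := by
    intro h
    have h3 : hH.eigenvectorBasis i = 0 := by
      ext x
      exact congrFun h x
    exact hH.eigenvectorBasis.orthonormal.ne_zero i h3
  have h3 : Matrix.diagonal (fun x => (a x : ℂ)) *ᵥ (P' *ᵥ v) = hH.eigenvalues i • (P' *ᵥ v) := by
    have h4 := congrArg (fun u => P' *ᵥ u) h2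
    simp only at h4
    rw [← Matrix.mulVec_smul, ← h4, Matrix.mulVec_mulVec, Matrix.mulVec_mulVec]
    congr 1
    rw [hHP, ← mul_assoc, ← mul_assoc, h1, one_mul]
  have h4 : P' *ᵥ v ≠ 0 := by
    intro h
    have h5 : H *ᵥ v = 0 := by
      rw [hHP, ← Matrix.mulVec_mulVec, h, Matrix.mulVec_zero]
    have h6 : P * P' = 1 := mul_eq_one_comm.1 h1
    apply hv0
    calc v = (P * P') *ᵥ v := by rw [h6, Matrix.one_mulVec]
      _ = 0 := by rw [← Matrix.mulVec_mulVec, h, Matrix.mulVec_zero]
  obtain ⟨x, hx⟩ := Function.ne_iff.1 h4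
  have h5 := congrFun h3 x
  rw [Matrix.mulVec_diagonal, Pi.smul_apply, Complex.real_smul] at h5
  have h6 : (a x : ℂ) = (hH.eigenvalues i : ℂ) := mul_right_cancel₀ hx h5
  have h7 : a x = hH.eigenvalues i := by exact_mod_cast h6
  rw [← h7]
  exact ha x

/-- If the value of the tensor power at a vector is far from the vector then an eigenvalue is far
from one. -/
lemma exists_arg {N n : ℕ} (hN : 1 ≤ N) (hn : n ≤ N) {h P P' : Matrix R R ℂ} {μ : R → ℂ}
    (hu : h * hᴴ = 1) (h1 : P' * P = 1) (h2 : P * P' = 1) (hP : h = P * Matrix.diagonal μ * P')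
    (hμ : ∀ x, ‖μ x‖ = 1) {F : (Fin n → R) → ℂ} (hF : F ≠ 0)
    (hre : (ip (kr (Fin n) h *ᵥ F) F).re ≤ 0) : ∃ x, Real.pi / (2 * N) ≤ |(μ x).arg| := by
  by_contra hcon
  push Not at hcon
  have hμs : ∀ x, μ x * star (μ x) = 1 := by
    intro x
    have := Complex.mul_conj (μ x)
    rw [Complex.normSq_eq_norm_sq, hμ] at this
    simpa using this
  have hadj : hᴴ = P * Matrix.diagonal (fun x => star (μ x)) * P' := by
    have h3 : h * (P * Matrix.diagonal (fun x => star (μ x)) * P') = 1 := by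
      calc _ = P * (Matrix.diagonal μ * (P' * P) * Matrix.diagonal (fun x => star (μ x))) * P' := by
            rw [hP]
            simp only [mul_assoc]
        _ = 1 := by
            rw [h1, mul_one, Matrix.diagonal_mul_diagonal]
            simp only [hμs]
            rw [Matrix.diagonal_one, mul_one, h2]
    have h4 : hᴴ * h = 1 := mul_eq_one_comm.1 hu
    calc hᴴ = hᴴ * (h * (P * Matrix.diagonal (fun x => star (μ x)) * P')) := by rw [h3, mul_one]
      _ = _ := by rw [← mul_assoc, h4, one_mul]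
  let a : (Fin n → R) → ℝ := fun I => 2 * Real.cos (∑ k, (μ (I k)).arg)
  have ha : ∀ I, 0 < a I := by
    intro I
    have h5 : |∑ k, (μ (I k)).arg| < Real.pi / 2 := by
      rcases Nat.eq_zero_or_pos n with h0 | h0
      · subst h0
        rw [Finset.univ_eq_empty, Finset.sum_empty, abs_zero]
        positivity
      · have h12 : (∑ k : Fin n, |(μ (I k)).arg|) < ∑ _k : Fin n, Real.pi / (2 * N) :=
          Finset.sum_lt_sum_of_nonempty ⟨⟨0, h0⟩, Finset.mem_univ _⟩ fun k _ => hcon _
        rw [Finset.sum_const, Finset.card_univ, Fintype.card_fin, nsmul_eq_mul] at h12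
        refine (Finset.abs_sum_le_sum_abs _ _).trans_lt (h12.trans_le ?_)
        have hN' : (0 : ℝ) < N := by exact_mod_cast hN
        have hn' : (n : ℝ) ≤ N := by exact_mod_cast hn
        rw [mul_div_assoc', div_le_div_iff₀ (by positivity) (by norm_num)]
        have := Real.pi_pos
        nlinarith
    have h6 := Real.cos_pos_of_mem_Ioo (x := ∑ k, (μ (I k)).arg) ⟨by
      linarith [(abs_lt.1 h5).1], (abs_lt.1 h5).2⟩
    change 0 < 2 * Real.cos _
    linarith
  have hprod : ∀ I : Fin n → R, ∏ k, μ (I k) =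
      Complex.exp (((∑ k, (μ (I k)).arg : ℝ) : ℂ) * Complex.I) := by
    intro I
    push_cast
    rw [Finset.sum_mul, Complex.exp_sum]
    exact Finset.prod_congr rfl fun k _ => (exp_arg (hμ _)).symm
  have hsum : kr (Fin n) h + kr (Fin n) hᴴ =
      kr (Fin n) P * Matrix.diagonal (fun I => (a I : ℂ)) * kr (Fin n) P' := by
    have e1 : kr (Fin n) h = kr (Fin n) P * Matrix.diagonal (fun I => ∏ k, μ (I k)) *
        kr (Fin n) P' := by
      rw [hP, kr_mul, kr_mul, kr_diagonal]
    have e2 : kr (Fin n) hᴴ = kr (Fin n) P * Matrix.diagonal (fun I => ∏ k, star (μ (I k))) *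
        kr (Fin n) P' := by
      rw [hadj, kr_mul, kr_mul, kr_diagonal]
    rw [e1, e2, ← add_mul, ← mul_add, Matrix.diagonal_add]
    congr 3
    funext I
    have e3 : ∏ k, star (μ (I k)) = star (∏ k, μ (I k)) := by
      rw [← starRingEnd_apply, map_prod]
      rfl
    rw [e3, hprod]
    change Complex.exp _ + starRingEnd ℂ (Complex.exp _) = ((2 * Real.cos _ : ℝ) : ℂ)
    rw [Complex.add_conj, Complex.exp_ofReal_mul_I_re]
  have hherm : (kr (Fin n) h + kr (Fin n) hᴴ).IsHermitian := by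
    rw [Matrix.IsHermitian, Matrix.conjTranspose_add, kr_conjTranspose,
      Matrix.conjTranspose_conjTranspose, add_comm]
  have hpos := posDef_of_diag hherm (P := kr (Fin n) P) (P' := kr (Fin n) P') (by
    rw [← kr_mul, h1, kr_one]) hsum ha
  have h3 := hpos.dotProduct_mulVec_pos hF
  have h4 : star F ⬝ᵥ ((kr (Fin n) h + kr (Fin n) hᴴ) *ᵥ F) =
      ip (kr (Fin n) h *ᵥ F) F + star (ip (kr (Fin n) h *ᵥ F) F) := by
    rw [ip_star, ip_kr (g := h), Matrix.add_mulVec, dotProduct_add]
    congr 1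
    · rw [← ip_kr, ip, dotProduct]
      exact Finset.sum_congr rfl fun I _ => mul_comm _ _
    · have h7 := ip_kr (κ := Fin n) (g := hᴴ) F F
      rw [Matrix.conjTranspose_conjTranspose] at h7
      rw [← h7, ip, dotProduct]
      exact Finset.sum_congr rfl fun I _ => mul_comm _ _
  rw [h4] at h3
  have h5 := (Complex.pos_iff.1 h3).1
  rw [Complex.add_re] at h5
  have h6 : (star (ip (kr (Fin n) h *ᵥ F) F)).re = (ip (kr (Fin n) h *ᵥ F) F).re := rfl
  rw [h6] at h5
  linarith

end diag

section group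

variable {R : Type} [Fintype R] [DecidableEq R] {Q : Type} [DecidableEq Q]
  {cls : R → Q} {inv : R → R} {jj : R → ℂ} {B C : ∀ κ : Type, Submodule ℂ ((κ → R) → ℂ)}

/-- The bound for the trace. -/
lemma trace_le (hB : Bas cls inv jj) {g : Matrix.unitaryGroup R ℂ}
    (hgf : g ∈ stabG (forms cls inv jj)) {P P' : Matrix R R ℂ} {μ : R → ℂ}
    (h1 : P' * P = 1) (h2 : P * P' = 1) (hgP : (g : Matrix R R ℂ) = P * Matrix.diagonal μ * P')
    (hμ : ∀ x, ‖μ x‖ = 1) {θ : ℝ} (hθ : 0 ≤ θ) {x : R} (hx : θ ≤ |(μ x).arg|) :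
    ((g : Matrix R R ℂ).trace).re ≤ Fintype.card R - 2 * (1 - Real.cos θ) := by
  obtain ⟨x', hx', hxx'⟩ := exists_conj hB hgf h1 h2 hgP hμ x
  have h4 : (g : Matrix R R ℂ).trace = ∑ x, μ x := by
    rw [hgP, Matrix.trace_mul_comm, ← mul_assoc, h1, one_mul, Matrix.trace_diagonal]
  rw [h4, Complex.re_sum, ← Finset.add_sum_erase _ _ (Finset.mem_univ x),
    ← Finset.add_sum_erase _ _ (Finset.mem_erase.2 ⟨hx', Finset.mem_univ x'⟩)]
  have h5 : ∀ y, (μ y).re ≤ 1 := fun y => (Complex.re_le_norm _).trans (hμ y).le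
  have h6 : ∑ y ∈ (Finset.univ.erase x).erase x', (μ y).re ≤ Fintype.card R - 2 := by
    refine (Finset.sum_le_sum fun y _ => h5 y).trans ?_
    have hc : 2 ≤ Fintype.card R := by
      have : ({x, x'} : Finset R).card = 2 := Finset.card_pair (Ne.symm hx')
      rw [← this]
      exact Finset.card_le_univ _
    rw [Finset.sum_const, Finset.card_erase_of_mem (Finset.mem_erase.2 ⟨hx', Finset.mem_univ x'⟩),
      Finset.card_erase_of_mem (Finset.mem_univ x), Finset.card_univ, nsmul_eq_mul, mul_one,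
      Nat.sub_sub, Nat.cast_sub hc]
    norm_num
  have h7 : (μ x).re ≤ Real.cos θ := by
    have h8 : (μ x).re = Real.cos (μ x).arg := by
      have h9 : μ x ≠ 0 := by
        intro h
        have := hμ x
        rw [h, norm_zero] at this
        exact zero_ne_one this
      rw [Complex.cos_arg h9, hμ, div_one]
    rw [h8, ← Real.cos_abs (μ x).arg]
    exact Real.cos_le_cos_of_nonneg_of_le_pi hθ (Complex.abs_arg_le_pi _) hx
  have h8 : (μ x').re = (μ x).re := by
    rw [hxx']
    rfl
  linarith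

/-- A tensor of the larger family orthogonal to the smaller family. -/
lemma exists_orth (hle : ∀ κ : Type, C κ ≤ B κ) {n : ℕ} {F₀ : (Fin n → R) → ℂ}
    (hF₀ : F₀ ∈ B (Fin n)) (hF₀' : F₀ ∉ C (Fin n)) :
    ∃ F ∈ B (Fin n), F ≠ 0 ∧ ∀ a ∈ C (Fin n), ip F a = 0 := by
  obtain ⟨F', hF', horth⟩ := exists_proj (C (Fin n)) F₀
  refine ⟨F₀ - F', Submodule.sub_mem _ hF₀ (hle _ hF'), ?_, fun a ha => ?_⟩
  · intro h
    rw [sub_eq_zero] at h
    exact hF₀' (h ▸ hF')
  · rw [← ip_star, horth a ha, star_zero]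

variable {G : Type} [Group G] [TopologicalSpace G] [IsTopologicalGroup G] [CompactSpace G]
  [MeasurableSpace G] [BorelSpace G] {r : G →* Matrix R R ℂ} (hr : Continuous r)

include hr in
lemma ip_cont {n : ℕ} (F F' : (Fin n → R) → ℂ) :
    Continuous fun g => ip (kr (Fin n) (r g) *ᵥ F) F' := by
  change Continuous fun g => ∑ I, (kr (Fin n) (r g) *ᵥ F) I * star (F' I)
  exact continuous_finsetSum _ fun I _ => (krmv_cont hr F I).mul continuous_const

include hr in
lemma ip_av_int {n : ℕ} (F F' : (Fin n → R) → ℂ) :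
    ip (av (Fin n) r *ᵥ F) F' = ∫ g, ip (kr (Fin n) (r g) *ᵥ F) F' ∂(hm G) := by
  simp only [ip]
  rw [integral_finsetSum]
  · refine Finset.sum_congr rfl fun I _ => ?_
    rw [av_mulVec hr, integral_mul_const]
  · exact fun I _ => (integrable_of_continuous (krmv_cont hr F I)).mul_const _

include hr in
/-- An element which moves a vector of average zero far. -/
lemma exists_far {n : ℕ} {F : (Fin n → R) → ℂ} (hF : av (Fin n) r *ᵥ F = 0) :
    ∃ q : G, (ip (kr (Fin n) (r q) *ᵥ F) F).re ≤ 0 := by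
  obtain ⟨q, -, hq⟩ := isCompact_univ.exists_isMinOn (Set.univ_nonempty (α := G))
    ((Complex.continuous_re.comp (ip_cont hr F F)).continuousOn)
  refine ⟨q, ?_⟩
  have h1 : ∫ g, (ip (kr (Fin n) (r g) *ᵥ F) F).re ∂(hm G) = 0 := by
    have h2 := ip_av_int hr F F
    rw [hF] at h2
    have h3 : ip (0 : (Fin n → R) → ℂ) F = 0 := by
      rw [ip]
      exact Finset.sum_eq_zero fun I _ => zero_mul _
    rw [h3] at h2
    have h4 := integral_re (μ := hm G) (𝕜 := ℂ) (integrable_of_continuous (ip_cont hr F F))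
    have h5 : ∫ g, (ip (kr (Fin n) (r g) *ᵥ F) F).re ∂(hm G) =
        (∫ g, ip (kr (Fin n) (r g) *ᵥ F) F ∂(hm G)).re := h4
    rw [h5, ← h2, Complex.zero_re]
  have h2 : (ip (kr (Fin n) (r q) *ᵥ F) F).re ≤ ∫ g, (ip (kr (Fin n) (r g) *ᵥ F) F).re ∂(hm G) := by
    have h3 : ∫ _g : G, (ip (kr (Fin n) (r q) *ᵥ F) F).re ∂(hm G) =
        (ip (kr (Fin n) (r q) *ᵥ F) F).re := by
      rw [integral_const]
      simp
    rw [← h3]
    refine integral_mono (integrable_const _) ?_ fun g => hq (Set.mem_univ g)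
    exact (integrable_of_continuous (ip_cont hr F F)).re
  rw [h1] at h2
  exact h2

end group

end

end Pool.Agent.X259.U
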