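import Pool.Agent.X259.U.U20

/-!
# More than half of the tensors decide
-/

set_option autoImplicit false
set_option linter.unusedSectionVars false
set_option linter.unusedDecidableInType false
set_option linter.unusedFintypeInType false

namespace Pool.Agent.X259.U

open Matrix Finset Module MeasureTheory Pool.Agent.H204R3.SP Pool.Agent.H204R3.GP
  Pool.Agent.W516 Pool.Agent.X259.T
open scoped ComplexOrder

noncomputable section

variable {R : Type} [Fintype R] [DecidableEq R] {Q : Type} [DecidableEq Q]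
  {cls : R → Q} {inv : R → R} {jj : R → ℂ} {B C : ∀ κ : Type, Submodule ℂ ((κ → R) → ℂ)}

lemma neg_one_mem (hodd : ∀ n, Odd n → ∀ F ∈ B (Fin n), F = 0) :
    (-1 : Matrix.unitaryGroup R ℂ) ∈ stabG (tens B) := by
  intro s hs
  have h5 : ((-1 : Matrix.unitaryGroup R ℂ) : Matrix R R ℂ) = Matrix.diagonal fun _ => -1 := by
    change (-1 : Matrix R R ℂ) = _
    ext i j
    by_cases hij : i = j
    · subst hij
      simp
    · simp [Matrix.one_apply_ne hij, Matrix.diagonal_apply_ne _ hij]
  rcases Nat.even_or_odd s.1 with he | ho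
  · funext I
    rw [h5, kr_diagonal_mulVec, Finset.prod_const, Finset.card_univ, Fintype.card_fin,
      he.neg_one_pow, one_mul]
  · rw [hodd s.1 ho s.2 hs, Matrix.mulVec_zero]

/-- A coset far from one. -/
theorem exists_coset (hB : Bas cls inv jj) (hC : Fam cls inv jj C) (hBf : Fam cls inv jj B)
    (hle : ∀ κ : Type, C κ ≤ B κ) (hodd : ∀ n, Odd n → ∀ F ∈ B (Fin n), F = 0) {N : ℕ}
    (hN : 2 ≤ N) (hL : LieDet B N) (hne : ¬stabG (tens C) ≤ stabG (tens B)) :
    ∃ q ∈ stabG (tens C), ∀ g ∈ stabG (tens B),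
      ‖((q * g : Matrix.unitaryGroup R ℂ) : Matrix R R ℂ).trace‖ ≤
        Fintype.card R - 2 * (1 - Real.cos (Real.pi / (2 * N))) := by
  have hsub : stabG (tens B) ≤ stabG (tens C) := fun g hg s hs => hg s (hle _ hs)
  have hm1 := neg_one_mem hodd
  set c : ℝ := Fintype.card R - 2 * (1 - Real.cos (Real.pi / (2 * N))) with hc
  have hN' : (0 : ℝ) < N := by
    have : 0 < N := by omega
    exact_mod_cast this
  -- it is enough to bound the real part
  have key : ∀ q ∈ stabG (tens C), (∀ g ∈ stabG (tens B),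
      (((q * g : Matrix.unitaryGroup R ℂ) : Matrix R R ℂ).trace).re ≤ c) →
      ∀ g ∈ stabG (tens B), ‖((q * g : Matrix.unitaryGroup R ℂ) : Matrix R R ℂ).trace‖ ≤ c := by
    intro q hq h g hg
    have h1 := h g hg
    have h2 := h (g * -1) ((stabG (tens B)).mul_mem hg hm1)
    have h3 : ((q * (g * -1) : Matrix.unitaryGroup R ℂ) : Matrix R R ℂ).trace =
        -((q * g : Matrix.unitaryGroup R ℂ) : Matrix R R ℂ).trace := by
      change ((q : Matrix R R ℂ) * ((g : Matrix R R ℂ) * (-1 : Matrix R R ℂ))).trace =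
        -((q : Matrix R R ℂ) * (g : Matrix R R ℂ)).trace
      rw [mul_neg, mul_one, mul_neg, Matrix.trace_neg]
    rw [h3, Complex.neg_re] at h2
    have hmem : q * g ∈ stabG (tens C) := (stabG (tens C)).mul_mem hq (hsub hg)
    rw [← trace_real hB (stab_le hC hmem), Complex.norm_real, Real.norm_eq_abs, abs_le]
    constructor <;> linarith
  by_cases hlow : ∀ n ≤ N, ∀ F ∈ B (Fin n), F ∈ C (Fin n)
  · obtain ⟨q, hq, hqB⟩ : ∃ q ∈ stabG (tens C), q ∉ stabG (tens B) := by
      by_contra hcon
      push Not at hcon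
      exact hne hcon
    refine ⟨q, hq, key q hq fun g hg => ?_⟩
    have hmem : q * g ∈ stabG (tens C) := (stabG (tens C)).mul_mem hq (hsub hg)
    have h1 := gap hB hN hL (q * g) (stab_le hC hmem)
      (fun n hn F hF => hmem ⟨n, F⟩ (hlow n hn F hF)) (fun h => hqB (by
        have h2 := (stabG (tens B)).mul_mem h ((stabG (tens B)).inv_mem hg)
        rwa [mul_inv_cancel_right] at h2))
    refine h1.trans ?_
    have h2 : Real.cos (2 * Real.pi / N) ≤ Real.cos (Real.pi / (2 * N)) := by
      refine Real.cos_le_cos_of_nonneg_of_le_pi (by positivity) ?_ ?_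
      · rw [div_le_iff₀ hN']
        have h3 : (2 : ℝ) ≤ N := by exact_mod_cast hN
        nlinarith [Real.pi_pos]
      · rw [div_le_div_iff₀ (by positivity) hN']
        nlinarith [Real.pi_pos]
    rw [hc]
    linarith
  · push Not at hlow
    obtain ⟨n, hn, F₀, hF₀, hF₀'⟩ := hlow
    obtain ⟨F, hF, hF0, horth⟩ := exists_orth hle hF₀ hF₀'
    let _ : MeasurableSpace (stabG (tens C)) := borel _
    have _ : BorelSpace (stabG (tens C)) := ⟨rfl⟩
    let r := inc (stabG (tens C))
    have hr : Continuous r := inc_cont _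
    have havC : av (Fin n) r *ᵥ F ∈ C (Fin n) := by
      refine tannaka hB hC _ fun g hg => ?_
      exact av_mem hr F ⟨g, hg⟩
    have hu : ∀ g, r g * (r g)ᴴ = 1 := fun g => Matrix.mem_unitaryGroup_iff.1 g.1.2
    have hav0 : av (Fin n) r *ᵥ F = 0 := by
      apply ip_self
      rw [ip_av hr hu F _ fun g => av_mem hr F g]
      exact horth _ havC
    obtain ⟨q, hq⟩ := exists_far hr hav0
    refine ⟨q, q.2, key q q.2 fun g hg => ?_⟩
    have hmem : (q : Matrix.unitaryGroup R ℂ) * g ∈ stabG (tens C) :=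
      (stabG (tens C)).mul_mem q.2 (hsub hg)
    obtain ⟨P, P', μ, h1, h2, hgP, hμ⟩ := exists_diag ((q : Matrix.unitaryGroup R ℂ) * g)
    have h3 : kr (Fin n) (((q : Matrix.unitaryGroup R ℂ) * g : Matrix.unitaryGroup R ℂ) :
        Matrix R R ℂ) *ᵥ F = kr (Fin n) (r q) *ᵥ F := by
      have h4 : kr (Fin n) (g : Matrix R R ℂ) *ᵥ F = F := hg ⟨n, F⟩ hF
      have h5 : (((q : Matrix.unitaryGroup R ℂ) * g : Matrix.unitaryGroup R ℂ) :
          Matrix R R ℂ) = r q * (g : Matrix R R ℂ) := rfl
      rw [h5, kr_mul, ← Matrix.mulVec_mulVec, h4]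
    obtain ⟨x, hx⟩ := exists_arg (by omega : 1 ≤ N) hn
      (Matrix.mem_unitaryGroup_iff.1 ((q : Matrix.unitaryGroup R ℂ) * g).2) h1 h2 hgP hμ hF0
      (by rw [h3]; exact hq)
    exact trace_le hB (stab_le hC hmem) h1 h2 hgP hμ (by positivity) hx

/-- The squared norm. -/
lemma ip_self_re {κ : Type} [Fintype κ] [DecidableEq κ] (F : (κ → R) → ℂ) :
    0 ≤ (ip F F).re := by
  rw [ip, Complex.re_sum]
  refine Finset.sum_nonneg fun I _ => ?_
  have := Complex.mul_conj (F I)
  rw [Complex.normSq_eq_norm_sq] at this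
  have h1 : F I * star (F I) = ((‖F I‖ ^ 2 : ℝ) : ℂ) := this
  rw [h1, Complex.ofReal_re]
  positivity

/-- The value of a unitary operator. -/
lemma re_ge {κ : Type} [Fintype κ] [DecidableEq κ] {g : Matrix R R ℂ} (hg : gᴴ * g = 1)
    (F : (κ → R) → ℂ) : -(ip F F).re ≤ (ip (kr κ g *ᵥ F) F).re := by
  have h1 := ip_self_re (kr κ g *ᵥ F + F)
  have h2 : ∀ a b c : (κ → R) → ℂ, ip a (b + c) = ip a b + ip a c := by
    intro a b c
    simp only [ip, Pi.add_apply, star_add, mul_add, Finset.sum_add_distrib]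
  have h3 : ip (kr κ g *ᵥ F) (kr κ g *ᵥ F) = ip F F := by
    rw [ip_kr, Matrix.mulVec_mulVec, ← kr_mul, hg, kr_one, Matrix.one_mulVec]
  rw [ip_add_left, h2, h2, h3, ← ip_star (kr κ g *ᵥ F) F] at h1
  simp only [Complex.add_re] at h1
  have h4 : (star (ip (kr κ g *ᵥ F) F)).re = (ip (kr κ g *ᵥ F) F).re := rfl
  rw [h4] at h1
  linarith

section proj

variable {G : Type} [Group G] [TopologicalSpace G] [IsTopologicalGroup G] [CompactSpace G]
  [MeasurableSpace G] [BorelSpace G] {r : G →* Matrix R R ℂ} (hr : Continuous r)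
  (hu : ∀ g, r g * (r g)ᴴ = 1)

include hr hu in
/-- The average is selfadjoint. -/
lemma av_symm {κ : Type} [Fintype κ] [DecidableEq κ] (F F' : (κ → R) → ℂ) :
    ip (av κ r *ᵥ F) F' = ip F (av κ r *ᵥ F') := by
  have h1 := ip_av hr hu F (av κ r *ᵥ F') fun g => av_mem hr F' g
  have h2 := ip_av hr hu F' (av κ r *ᵥ F) fun g => av_mem hr F g
  rw [← h1, ← ip_star (av κ r *ᵥ F') (av κ r *ᵥ F), h2, ip_star]

include hr in
lemma av_idem {κ : Type} [Fintype κ] [DecidableEq κ] : av κ r * av κ r = av κ r := by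
  refine Matrix.toLin'.injective (LinearMap.ext fun F => ?_)
  rw [Matrix.toLin'_apply, Matrix.toLin'_apply, ← Matrix.mulVec_mulVec]
  exact av_fix hr _ fun g => av_mem hr F g

include hr hu in
lemma av_herm {κ : Type} [Fintype κ] [DecidableEq κ] : (av κ r)ᴴ = av κ r := by
  ext I J
  have h1 := av_symm hr hu (κ := κ) (Pi.single I 1) (Pi.single J 1)
  have h2 : ∀ (F : (κ → R) → ℂ) (J : κ → R), ip F (Pi.single J 1) = F J := by
    intro F J
    rw [ip, Finset.sum_eq_single J]
    · simp
    · intro K _ hK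
      rw [Pi.single_eq_of_ne hK, star_zero, mul_zero]
    · intro h
      exact absurd (Finset.mem_univ _) h
  have h3 : ∀ (F : (κ → R) → ℂ) (J : κ → R), ip (Pi.single J 1) F = star (F J) := by
    intro F J
    rw [← ip_star, h2]
  rw [h2, h3, Matrix.mulVec_single_one, Matrix.mulVec_single_one] at h1
  change star (av κ r J I) = av κ r I J
  have h4 : star (av κ r I J) = av κ r J I := h1.symm
  rw [← h4, star_star]

end proj

/-- The value of a hermitian idempotent. -/
lemma trace_ge {κ : Type} [Fintype κ] [DecidableEq κ] {E : Matrix (κ → R) (κ → R) ℂ}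
    (hE : E * E = E) (hEh : Eᴴ = E) {g : Matrix R R ℂ} (hg : gᴴ * g = 1) :
    -(E.trace).re ≤ ((kr κ g * E).trace).re := by
  have h1 : ∀ A : Matrix (κ → R) (κ → R) ℂ, (A * E).trace =
      ∑ I, ip (A *ᵥ fun J => E J I) (fun J => E J I) := by
    intro A
    have h2 : (A * E).trace = (E * (A * E)).trace := by
      rw [Matrix.trace_mul_comm E, mul_assoc, hE]
    rw [h2, Matrix.trace]
    refine Finset.sum_congr rfl fun I _ => ?_
    rw [Matrix.diag_apply, Matrix.mul_apply, ip]
    refine Finset.sum_congr rfl fun J _ => ?_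
    rw [mul_comm]
    congr 1
    have h3 := congrFun (congrFun hEh I) J
    rw [Matrix.conjTranspose_apply] at h3
    rw [h3]
  have h2 : E.trace = ∑ I, ip (fun J => E J I) (fun J => E J I) := by
    have h3 := h1 1
    rw [one_mul] at h3
    rw [h3]
    exact Finset.sum_congr rfl fun I _ => by rw [Matrix.one_mulVec]
  rw [h1, h2, Complex.re_sum, Complex.re_sum, ← Finset.sum_neg_distrib]
  exact Finset.sum_le_sum fun I _ => re_ge hg _

/-- The trace of the average is the dimension of the invariants. -/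
lemma trace_av (hB : Bas cls inv jj) (hBf : Fam cls inv jj B) {κ : Type} [Fintype κ]
    [DecidableEq κ] [MeasurableSpace (stabG (tens B))] [BorelSpace (stabG (tens B))] :
    (av κ (inc (stabG (tens B)))).trace = (finrank ℂ (B κ) : ℂ) := by
  have hr : Continuous (inc (stabG (tens B))) := inc_cont _
  have h1 : LinearMap.IsProj (B κ) (Matrix.toLin' (av κ (inc (stabG (tens B))))) := by
    refine ⟨fun F => ?_, fun F hF => ?_⟩
    · rw [Matrix.toLin'_apply]
      refine tannaka hB hBf _ fun g hg => ?_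
      exact av_mem hr F ⟨g, hg⟩
    · rw [Matrix.toLin'_apply]
      exact av_fix hr F fun g => (mem_stab hBf).1 g.2 κ F hF
  rw [← h1.trace, Matrix.trace_toLin'_eq]

/-- **More than half of the tensors decide.** -/
theorem effective_half (hB : Bas cls inv jj) (hC : Fam cls inv jj C) (hBf : Fam cls inv jj B)
    (hle : ∀ κ : Type, C κ ≤ B κ) (hodd : ∀ n, Odd n → ∀ F ∈ B (Fin n), F = 0) {N : ℕ}
    (hN : 2 ≤ N) (hL : LieDet B N) {m : ℕ}
    (hhalf : (m + 2) * finrank ℂ (B (Fin (2 * m))) ≤ (2 * m + 2) * finrank ℂ (C (Fin (2 * m))))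
    (hnum : ((m : ℝ) + 1) ^ (Fintype.card R * Fintype.card R) *
      (((m : ℝ) + 1) * (Fintype.card R - 2 * (1 - Real.cos (Real.pi / (2 * N)))) ^ (2 * m)) <
        (Fintype.card R : ℝ) ^ (2 * m)) (κ : Type) [Fintype κ] [DecidableEq κ] : B κ ≤ C κ := by
  have hsub : stabG (tens B) ≤ stabG (tens C) := fun g hg s hs => hg s (hle _ hs)
  have hgrp : stabG (tens C) ≤ stabG (tens B) := by
    by_contra hne
    obtain ⟨q, hq, hbd⟩ := exists_coset hB hC hBf hle hodd hN hL hne
    set c : ℝ := Fintype.card R - 2 * (1 - Real.cos (Real.pi / (2 * N))) with hc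
    let _ : MeasurableSpace (stabG (tens B)) := borel _
    have _ : BorelSpace (stabG (tens B)) := ⟨rfl⟩
    let _ : MeasurableSpace (stabG (tens C)) := borel _
    have _ : BorelSpace (stabG (tens C)) := ⟨rfl⟩
    let r := inc (stabG (tens B))
    let r' := inc (stabG (tens C))
    have hr : Continuous r := inc_cont _
    have hr' : Continuous r' := inc_cont _
    have hu : ∀ g, r g * (r g)ᴴ = 1 := fun g => Matrix.mem_unitaryGroup_iff.1 g.1.2
    have hu' : ∀ g, r' g * (r' g)ᴴ = 1 := fun g => Matrix.mem_unitaryGroup_iff.1 g.1.2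
    set RB := av (Fin (2 * m)) r with hRB
    set RC := av (Fin (2 * m)) r' with hRC
    have hBB : RB * RB = RB := av_idem hr
    have hCC : RC * RC = RC := av_idem hr'
    have hBC : RB * RC = RC := by
      refine Matrix.toLin'.injective (LinearMap.ext fun F => ?_)
      rw [Matrix.toLin'_apply, Matrix.toLin'_apply, ← Matrix.mulVec_mulVec]
      exact av_fix hr _ fun g => av_mem hr' F ⟨g.1, hsub g.2⟩
    have hBh : RBᴴ = RB := av_herm hr hu
    have hCh : RCᴴ = RC := av_herm hr' hu'
    have hCB : RC * RB = RC := by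
      have h1 := congrArg Matrix.conjTranspose hBC
      rwa [Matrix.conjTranspose_mul, hBh, hCh] at h1
    have hE : (RB - RC) * (RB - RC) = RB - RC := by
      rw [sub_mul, mul_sub, mul_sub, hBB, hBC, hCB, hCC, sub_self, sub_zero]
    have hEh : (RB - RC)ᴴ = RB - RC := by
      rw [Matrix.conjTranspose_sub, hBh, hCh]
    have hqq : (q : Matrix R R ℂ)ᴴ * (q : Matrix R R ℂ) = 1 :=
      mul_eq_one_comm.1 (Matrix.mem_unitaryGroup_iff.1 q.2)
    have h1 := trace_ge hE hEh hqq
    have hqC : kr (Fin (2 * m)) (q : Matrix R R ℂ) * RC = RC := av_inv hr' ⟨q, hq⟩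
    rw [mul_sub, hqC, Matrix.trace_sub, Matrix.trace_sub, Complex.sub_re, Complex.sub_re] at h1
    have htB : RB.trace = (finrank ℂ (B (Fin (2 * m))) : ℂ) := trace_av hB hBf
    have htC : RC.trace = (finrank ℂ (C (Fin (2 * m))) : ℂ) := trace_av hB hC
    have htr : (∫ g, ((q : Matrix R R ℂ) * r g).trace ^ (2 * m) ∂(hm (stabG (tens B)))) =
        (kr (Fin (2 * m)) (q : Matrix R R ℂ) * RB).trace := by
      rw [Matrix.trace]
      simp only [Matrix.diag_apply, Matrix.mul_apply]
      have h1 : ∀ g, ((q : Matrix R R ℂ) * r g).trace ^ (2 * m) =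
          ∑ I, ∑ L, kr (Fin (2 * m)) (q : Matrix R R ℂ) I L * kr (Fin (2 * m)) (r g) L I := by
        intro g
        have h2 := kr_trace (κ := Fin (2 * m)) ((q : Matrix R R ℂ) * r g)
        rw [Fintype.card_fin] at h2
        rw [← h2, kr_mul, Matrix.trace]
        simp only [Matrix.diag_apply, Matrix.mul_apply]
      simp only [h1]
      rw [integral_finsetSum]
      · refine Finset.sum_congr rfl fun I _ => ?_
        rw [integral_finsetSum]
        · exact Finset.sum_congr rfl fun L _ => integral_const_mul _ _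
        · exact fun L _ => (integrable_of_continuous (kr_cont hr L I)).const_mul _
      · exact fun I _ => integrable_of_continuous (continuous_finsetSum _ fun L _ =>
          continuous_const.mul (kr_cont hr L I))
    have hb : ‖(kr (Fin (2 * m)) (q : Matrix R R ℂ) * RB).trace‖ ≤ c ^ (2 * m) := by
      rw [← htr]
      have h1 : ∀ g : stabG (tens B), ‖((q : Matrix R R ℂ) * r g).trace ^ (2 * m)‖ ≤
          c ^ (2 * m) := by
        intro g
        rw [norm_pow]
        exact pow_le_pow_left₀ (norm_nonneg _) (hbd g g.2) _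
      have h2 := norm_integral_le_of_norm_le_const (μ := hm (stabG (tens B)))
        (Filter.Eventually.of_forall h1)
      rw [probReal_univ, mul_one] at h2
      exact h2
    have h2 := (Complex.re_le_norm _).trans hb
    rw [htB, htC, Complex.natCast_re, Complex.natCast_re] at h1
    have hhalf' : ((m : ℝ) + 2) * (finrank ℂ (B (Fin (2 * m))) : ℝ) ≤
        (2 * m + 2) * (finrank ℂ (C (Fin (2 * m))) : ℝ) := by exact_mod_cast hhalf
    have h3 : (finrank ℂ (B (Fin (2 * m))) : ℝ) ≤ ((m : ℝ) + 1) * c ^ (2 * m) := by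
      have h4 : 2 * (finrank ℂ (C (Fin (2 * m))) : ℝ) ≤
          (finrank ℂ (B (Fin (2 * m))) : ℝ) + c ^ (2 * m) := by linarith
      have h5 := mul_le_mul_of_nonneg_left h4 (by positivity : (0 : ℝ) ≤ (m : ℝ) + 1)
      linarith
    have hmom := moment r hr m
    have hreal : ((∫ g, ‖(r g).trace‖ ^ (2 * m) ∂(hm (stabG (tens B))) : ℝ) : ℂ) =
        (finrank ℂ (B (Fin (2 * m))) : ℂ) := by
      have h1 := av_trace (κ := Fin (2 * m)) hr 1
      simp only [one_mul, Fintype.card_fin] at h1
      rw [← htB, ← h1, ← integral_complex_ofReal]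
      refine integral_congr_ae (Filter.Eventually.of_forall fun g => ?_)
      simp only
      have h2 := trace_real hB (stab_le hBf g.2)
      change (((‖(r g).trace‖ ^ (2 * m) : ℝ)) : ℂ) = (r g).trace ^ (2 * m)
      have h3 : (r g).trace = ((((r g).trace).re : ℝ) : ℂ) := h2.symm
      rw [h3, Complex.norm_real, Real.norm_eq_abs, pow_mul, sq_abs, ← pow_mul]
      push_cast
      rfl
    have hreal' : (∫ g, ‖(r g).trace‖ ^ (2 * m) ∂(hm (stabG (tens B)))) =
        (finrank ℂ (B (Fin (2 * m))) : ℝ) := by exact_mod_cast hreal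
    rw [hreal'] at hmom
    have hfin := hmom.trans (mul_le_mul_of_nonneg_left h3 (by positivity))
    exact absurd hnum (not_lt.2 hfin)
  intro F hF
  refine tannaka hB hC F fun g hg => ?_
  exact (mem_stab hBf).1 (hgrp hg) κ F hF

end

end Pool.Agent.X259.U
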