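import Pool.Agent.X259.U.U21

/-!
# Dimensions
-/

set_option autoImplicit false
set_option linter.unusedSectionVars false
set_option linter.unusedDecidableInType false
set_option linter.unusedFintypeInType false

namespace Pool.Agent.X259.U

open Matrix Finset Module Pool.Agent.H204R3.SP Pool.Agent.H204R3.GP Pool.Agent.W516
  Pool.Agent.X259.T
open scoped ComplexOrder

noncomputable section

section fm

variable {W : Type} [AddCommGroup W] [Module ℚ W] {R : Type} [Fintype R] [DecidableEq R]

/-- The complex tensor of a form. -/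
def ph (S : Matrix R R ℂ) (b : Basis R ℚ W) {m : ℕ} {κ : Type} (e : Fin m × Fin 2 ≃ κ) :
    RF W m →ₗ[ℚ] ((κ → R) → ℂ) where
  toFun ψ := ri e (kr (Fin m × Fin 2) S *ᵥ gt b ψ)
  map_add' ψ ψ' := by rw [gt_add, Matrix.mulVec_add, ri_add]
  map_smul' c ψ := by
    rw [gt_smul, Matrix.mulVec_smul, ri_smul, RingHom.id_apply]
    funext J
    rw [Pi.smul_apply, Pi.smul_apply, smul_eq_mul, Rat.smul_def]

lemma ph_apply (S : Matrix R R ℂ) (b : Basis R ℚ W) {m : ℕ} {κ : Type} (e : Fin m × Fin 2 ≃ κ)
    (ψ : RF W m) : ph S b e ψ = ri e (kr (Fin m × Fin 2) S *ᵥ gt b ψ) := rfl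

lemma rf_finite (b : Basis R ℚ W) (m : ℕ) : FiniteDimensional ℚ (RF W m) := by
  have hfd : FiniteDimensional ℚ W := Module.Finite.of_basis b
  infer_instance

/-- Rational classes which are linearly independent over the rational numbers are linearly
independent over the complex numbers. -/
lemma ph_indep {S S' : Matrix R R ℂ} (h1 : S' * S = 1) (b : Basis R ℚ W) {m : ℕ} {κ : Type}
    (e : Fin m × Fin 2 ≃ κ) {X : Type} [Fintype X] {β : X → RF W m}
    (hβ : LinearIndependent ℚ β) : LinearIndependent ℂ fun x => ph S b e (β x) := by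
  rw [Fintype.linearIndependent_iff] at hβ ⊢
  intro c hc x
  have h2 : kr (Fin m × Fin 2) S *ᵥ (∑ x, c x • gt b (β x)) = 0 := by
    funext J
    have h3 := congrFun hc (fun k => J (e.symm k))
    rw [Finset.sum_apply] at h3
    rw [Matrix.mulVec_sum, Finset.sum_apply]
    refine Eq.trans (Finset.sum_congr rfl fun y _ => ?_) h3
    rw [Matrix.mulVec_smul, Pi.smul_apply, Pi.smul_apply, ph_apply]
    change _ = c y • (kr (Fin m × Fin 2) S *ᵥ gt b (β y)) fun k => J (e.symm (e k))
    simp only [Equiv.symm_apply_apply]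
  have h3 : ∑ x, c x • gt b (β x) = 0 := by
    have h4 := congrArg (fun F => kr (Fin m × Fin 2) S' *ᵥ F) h2
    simp only [Matrix.mulVec_zero] at h4
    rwa [Matrix.mulVec_mulVec, ← kr_mul, h1, kr_one, Matrix.one_mulVec] at h4
  refine eq_zero_of_comp fun lam => ?_
  refine hβ (fun x => lam (c x)) ?_ x
  apply gt_inj b
  funext J
  have h4 := congrArg lam (congrFun h3 J)
  rw [Finset.sum_apply, Pi.zero_apply, map_zero, map_sum] at h4
  have h5 : ∀ y, lam ((c y • gt b (β y)) J) = lam (c y) * β y fun k => b (J k) := by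
    intro y
    rw [Pi.smul_apply, smul_eq_mul, gt, lam_mul_rat]
  rw [Finset.sum_congr rfl fun y _ => h5 y] at h4
  rw [gt, gt, _root_.zero_apply, Rat.cast_zero, _root_.sum_apply]
  rw [← Rat.cast_zero (α := ℂ), ← h4]
  congr 1

/-- The dimension of the complex tensors. -/
theorem finrank_Fm {S S' : Matrix R R ℂ} (h1 : S' * S = 1) (b : Basis R ℚ W)
    {C : ∀ m : ℕ, Submodule ℚ (RF W m)}
    (hperm : ∀ (m : ℕ) (σ : Equiv.Perm (Fin m × Fin 2)), ∀ ψ ∈ C m, ψ.domDomCongr σ ∈ C m)
    {m : ℕ} {κ : Type} [Fintype κ] (e : Fin m × Fin 2 ≃ κ) :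
    finrank ℂ (Fm S b C κ) = finrank ℚ (C m) := by
  have hfin := rf_finite b m
  let β := finBasis ℚ (C m)
  have hind : LinearIndependent ℂ fun x => ph S b e (β x).1 :=
    ph_indep h1 b e (β := fun x => (β x).1)
      (β.linearIndependent.map' (C m).subtype (Submodule.ker_subtype _))
  have hspan : Fm S b C κ = Submodule.span ℂ (Set.range fun x => ph S b e (β x).1) := by
    apply le_antisymm
    · refine Submodule.span_le.2 ?_
      rintro F ⟨m', e', ψ, hψ, rfl⟩
      have hc := Fintype.card_congr (e'.trans e.symm)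
      rw [Fintype.card_prod, Fintype.card_prod, Fintype.card_fin, Fintype.card_fin,
        Fintype.card_fin] at hc
      obtain rfl : m' = m := by omega
      have h2 : ri e' (kr (Fin m' × Fin 2) S *ᵥ gt b ψ) =
          ph S b e (ψ.domDomCongr (e'.trans e.symm)) := by
        rw [ph_apply, gt_dom, kr_ri, ri_ri]
        congr 1
        ext x
        simp
      rw [SetLike.mem_coe, h2]
      have h3 := hperm m' (e'.trans e.symm) ψ hψ
      have h4 : ψ.domDomCongr (e'.trans e.symm) =
          ∑ x, β.repr ⟨_, h3⟩ x • (β x).1 := by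
        have h5 := congrArg Subtype.val (β.sum_repr ⟨_, h3⟩)
        rw [Submodule.coe_sum] at h5
        exact h5.symm
      rw [h4, map_sum]
      refine Submodule.sum_mem _ fun x _ => ?_
      have h5 : ph S b e (β.repr ⟨_, h3⟩ x • (β x).1) =
          ((β.repr ⟨_, h3⟩ x : ℚ) : ℂ) • ph S b e (β x).1 := by
        rw [map_smul]
        funext J
        rw [Pi.smul_apply, Pi.smul_apply, smul_eq_mul, Rat.smul_def]
      rw [h5]
      exact Submodule.smul_mem _ _ (Submodule.subset_span ⟨x, rfl⟩)
    · refine Submodule.span_le.2 ?_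
      rintro _ ⟨x, rfl⟩
      exact gen_mem e (β x).2
  rw [hspan, finrank_span_eq_card hind, Fintype.card_fin]

end fm

section lift

variable {V : Type} [AddCommGroup V] [Module ℚ V]

/-- The form with given components. -/
def mk2 {m : ℕ} (G : (Fin m × Fin 2 → Bool) → RF V m) : RF (V × V) m :=
  ∑ t, (G t).compLinearMap fun k => bif t k then LinearMap.snd ℚ V V else LinearMap.fst ℚ V V

lemma cpt_mk2 {m : ℕ} (G : (Fin m × Fin 2 → Bool) → RF V m) (t : Fin m × Fin 2 → Bool) :
    cpt (mk2 G) t = G t := by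
  ext v
  rw [cpt_apply, mk2, _root_.sum_apply, Finset.sum_eq_single t]
  · rw [MultilinearMap.compLinearMap_apply]
    congr 1
    funext k
    cases t k <;> rfl
  · intro t' _ ht'
    obtain ⟨k, hk⟩ := Function.ne_iff.1 ht'
    rw [MultilinearMap.compLinearMap_apply]
    refine (G t').map_coord_zero k ?_
    cases h1 : t k <;> cases h2 : t' k
    · exact absurd (h2.trans h1.symm) hk
    · rfl
    · rfl
    · exact absurd (h2.trans h1.symm) hk
  · intro h
    exact absurd (Finset.mem_univ _) h

lemma cpt_zero {m : ℕ} {F : RF (V × V) m} (h : ∀ t, cpt F t = 0) : F = 0 := by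
  ext v
  have h1 : v = fun k => ∑ t : Bool, inj t (bif t then (v k).2 else (v k).1) := by
    funext k
    rw [Fintype.sum_bool]
    ext <;> simp [inj]
  rw [h1, MultilinearMap.map_sum, _root_.zero_apply]
  refine Finset.sum_eq_zero fun t _ => ?_
  have h2 := congrArg (fun G : RF V m => G fun k => bif t k then (v k).2 else (v k).1) (h t)
  exact h2

/-- The components give an isomorphism. -/
def liftEquiv (C : ∀ m : ℕ, Submodule ℚ (RF V m)) (m : ℕ) :
    Lift C m ≃ₗ[ℚ] ((Fin m × Fin 2 → Bool) → C m) :=
  LinearEquiv.ofBijective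
    { toFun := fun F t => ⟨cpt F.1 t, F.2 t⟩
      map_add' := fun _ _ => rfl
      map_smul' := fun _ _ => rfl }
    (by
      constructor
      · rw [← LinearMap.ker_eq_bot, LinearMap.ker_eq_bot']
        intro F hF
        apply Subtype.ext
        refine cpt_zero fun t => ?_
        have h1 := congrArg Subtype.val (congrFun hF t)
        exact h1
      · intro G
        refine ⟨⟨mk2 fun t => (G t).1, fun t => ?_⟩, ?_⟩
        · rw [cpt_mk2]
          exact (G t).2
        · funext t
          apply Subtype.ext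
          exact cpt_mk2 _ t)

/-- The dimension of the lifted family. -/
theorem finrank_lift [FiniteDimensional ℚ V] (C : ∀ m : ℕ, Submodule ℚ (RF V m)) (m : ℕ) :
    finrank ℚ (Lift C m) = 2 ^ (m * 2) * finrank ℚ (C m) := by
  rw [(liftEquiv C m).finrank_eq, Module.finrank_pi_fintype, Finset.sum_const, Finset.card_univ,
    Fintype.card_fun, Fintype.card_bool, Fintype.card_prod, Fintype.card_fin, Fintype.card_fin,
    smul_eq_mul]

end lift

end

end Pool.Agent.X259.U
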