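import Pool.Agent.X259.U.U22

/-!
# More than half of the tensors decide, in coordinates
-/

set_option autoImplicit false
set_option linter.unusedSectionVars false
set_option linter.unusedDecidableInType false
set_option linter.unusedFintypeInType false

namespace Pool.Agent.X259.U

open Matrix Finset Module Pool.Agent.H204R3.SP Pool.Agent.H204R3.GP Pool.Agent.W516
  Pool.Agent.X259.T
open scoped ComplexOrder

noncomputable section

/-! ### Numbers -/

lemma half_of_log {d m : ℕ} {δ : ℝ} (hd : 0 < d) (hδd : δ ≤ d)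
    (h : ((d : ℝ) * d + 1) * Real.log (m + 1) < 2 * m * (δ / d)) :
    ((m : ℝ) + 1) ^ (d * d) * (((m : ℝ) + 1) * ((d : ℝ) - δ) ^ (2 * m)) < (d : ℝ) ^ (2 * m) := by
  have hd' : (0 : ℝ) < d := by exact_mod_cast hd
  have hm' : (0 : ℝ) < (m : ℝ) + 1 := by positivity
  have h0 : (d : ℝ) - δ ≤ d * Real.exp (-(δ / d)) := by
    have h1 := Real.add_one_le_exp (-(δ / d))
    have h2 : (d : ℝ) - δ = d * (-(δ / d) + 1) := by
      field_simp
      ring
    rw [h2]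
    exact mul_le_mul_of_nonneg_left h1 hd'.le
  have h1 : ((d : ℝ) - δ) ^ (2 * m) ≤ (d * Real.exp (-(δ / d))) ^ (2 * m) :=
    pow_le_pow_left₀ (by linarith) h0 _
  have h2 : ((m : ℝ) + 1) ^ (d * d) * ((m : ℝ) + 1) =
      Real.exp (((d : ℝ) * d + 1) * Real.log (m + 1)) := by
    have h3 : (d : ℝ) * d + 1 = ((d * d + 1 : ℕ) : ℝ) := by push_cast; ring
    rw [h3, Real.exp_nat_mul, Real.exp_log hm', pow_succ]
  have h3 : (d * Real.exp (-(δ / d))) ^ (2 * m) =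
      (d : ℝ) ^ (2 * m) * Real.exp (-(2 * m * (δ / d))) := by
    rw [mul_pow, ← Real.exp_nat_mul]
    congr 2
    push_cast
    ring
  calc ((m : ℝ) + 1) ^ (d * d) * (((m : ℝ) + 1) * ((d : ℝ) - δ) ^ (2 * m)) =
      ((m : ℝ) + 1) ^ (d * d) * ((m : ℝ) + 1) * ((d : ℝ) - δ) ^ (2 * m) := by ring
    _ ≤ Real.exp (((d : ℝ) * d + 1) * Real.log (m + 1)) *
        ((d : ℝ) ^ (2 * m) * Real.exp (-(2 * m * (δ / d)))) := by
        rw [h2]
        refine mul_le_mul_of_nonneg_left ?_ (Real.exp_pos _).le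
        rw [← h3]
        exact h1
    _ = (d : ℝ) ^ (2 * m) *
        Real.exp (((d : ℝ) * d + 1) * Real.log (m + 1) - 2 * m * (δ / d)) := by
        rw [sub_eq_add_neg, Real.exp_add]
        ring
    _ < (d : ℝ) ^ (2 * m) * 1 := by
        refine mul_lt_mul_of_pos_left ?_ (by positivity)
        rw [Real.exp_lt_one_iff]
        linarith
    _ = _ := mul_one _

lemma cos_pi_eight_le : Real.cos (Real.pi / 8) ≤ 0.924 := by
  have h1 := Real.cos_sq (Real.pi / 8)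
  have h2 : 2 * (Real.pi / 8) = Real.pi / 4 := by ring
  rw [h2, Real.cos_pi_div_four] at h1
  have h3 : Real.sqrt 2 ≤ 1.4143 := by
    rw [Real.sqrt_le_left (by norm_num)]
    norm_num
  nlinarith

/-- The bound without skew elements in the centre. -/
lemma half_four {d m : ℕ} (hd : 2 ≤ d) (hm : 16 * d ^ 3 * (Nat.log 2 d + 1) ≤ m) :
    ((m : ℝ) + 1) ^ (d * d) *
      (((m : ℝ) + 1) * ((d : ℝ) - 2 * (1 - Real.cos (Real.pi / (2 * (4 : ℕ))))) ^ (2 * m)) <
        (d : ℝ) ^ (2 * m) := by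
  have hcos : Real.pi / (2 * ((4 : ℕ) : ℝ)) = Real.pi / 8 := by
    congr 1
    norm_num
  rw [hcos]
  have hd0 : (0 : ℝ) < d := by
    have : 0 < d := by omega
    exact_mod_cast this
  have hd2 : (2 : ℝ) ≤ d := by exact_mod_cast hd
  have hc1 := cos_pi_eight_le
  have hc0 : 0 ≤ Real.cos (Real.pi / 8) :=
    Real.cos_nonneg_of_neg_pi_div_two_le_of_le (by have := Real.pi_pos; linarith)
      (by have := Real.pi_pos; linarith)
  set L := Nat.log 2 d + 1 with hL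
  have hL2 : 2 ≤ L := by
    have h1 : 1 ≤ Nat.log 2 d := (Nat.le_log_iff_pow_le (by norm_num) (by omega)).2 (by simpa using hd)
    omega
  have hd3 : 8 ≤ d ^ 3 := by
    have h1 : 2 ^ 3 ≤ d ^ 3 := Nat.pow_le_pow_left hd 3
    omega
  refine half_of_log (by omega) (by linarith) ?_
  have hM0 : 0 < 16 * d ^ 3 * L := by positivity
  have hdL : d < 2 ^ L := Nat.lt_pow_succ_log_self (by norm_num) d
  have hLL : 2 * L ≤ 2 ^ L := by
    obtain ⟨l, hl⟩ : ∃ l, L = l + 1 := ⟨L - 1, by omega⟩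
    have h1 : l < 2 ^ l := Nat.lt_two_pow_self
    rw [hl, pow_succ]
    omega
  have hM16 : 16 * d ^ 3 * L + 1 ≤ 2 ^ (4 * L + 3) := by
    have h1 : d ^ 3 < (2 ^ L) ^ 3 := Nat.pow_lt_pow_left hdL (by norm_num)
    have h2 : d ^ 3 * (2 * L) < (2 ^ L) ^ 3 * 2 ^ L :=
      lt_of_lt_of_le (Nat.mul_lt_mul_of_pos_right h1 (by omega)) (Nat.mul_le_mul_left _ hLL)
    have h3 : 2 ^ (4 * L + 3) = 8 * ((2 ^ L) ^ 3 * 2 ^ L) := by
      rw [← pow_succ, ← pow_mul, pow_add]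
      ring
    rw [h3]
    have h4 : 16 * d ^ 3 * L = 8 * (d ^ 3 * (2 * L)) := by ring
    rw [h4]
    omega
  have hLR : (2 : ℝ) ≤ L := by exact_mod_cast hL2
  have hlog : Real.log (((16 * d ^ 3 * L : ℕ) : ℝ) + 1) < 3.85 * L := by
    have h1 : (((16 * d ^ 3 * L : ℕ) : ℝ) + 1) ≤ (2 : ℝ) ^ (4 * L + 3) := by exact_mod_cast hM16
    have h2 : Real.log (((16 * d ^ 3 * L : ℕ) : ℝ) + 1) ≤ (4 * L + 3) * Real.log 2 := by
      have h3 := Real.log_le_log (by positivity) h1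
      rw [Real.log_pow] at h3
      push_cast at h3 ⊢
      exact h3
    have h5 := Real.log_two_lt_d9
    nlinarith
  have h1 : ((d : ℝ) * d + 1) * Real.log (((16 * d ^ 3 * L : ℕ) : ℝ) + 1) <
      (0.304 / d) * ((16 * d ^ 3 * L : ℕ) : ℝ) := by
    have h2 : (0.304 / (d : ℝ)) * ((16 * d ^ 3 * L : ℕ) : ℝ) = (d : ℝ) * d * (4.864 * L) := by
      push_cast
      field_simp
      ring
    rw [h2]
    have h3 : (d : ℝ) * d + 1 ≤ 1.25 * ((d : ℝ) * d) := by nlinarith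
    have h4 : 0 ≤ Real.log (((16 * d ^ 3 * L : ℕ) : ℝ) + 1) := Real.log_nonneg (by
      have : (0 : ℝ) ≤ ((16 * d ^ 3 * L : ℕ) : ℝ) := Nat.cast_nonneg _
      linarith)
    calc ((d : ℝ) * d + 1) * Real.log (((16 * d ^ 3 * L : ℕ) : ℝ) + 1) ≤
        1.25 * ((d : ℝ) * d) * Real.log (((16 * d ^ 3 * L : ℕ) : ℝ) + 1) :=
          mul_le_mul_of_nonneg_right h3 h4
      _ < 1.25 * ((d : ℝ) * d) * (3.85 * L) := mul_lt_mul_of_pos_left hlog (by positivity)
      _ ≤ (d : ℝ) * d * (4.864 * L) := by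
          have h6 : (0 : ℝ) ≤ (d : ℝ) * d * L := by positivity
          nlinarith
  have h2 := log_mono hM0 (by positivity) h1 hm
  refine lt_of_lt_of_le h2 ?_
  have h3 : 2 * (m : ℝ) * (2 * (1 - Real.cos (Real.pi / 8)) / d) =
      (4 * (1 - Real.cos (Real.pi / 8)) / d) * m := by ring
  rw [h3]
  refine mul_le_mul_of_nonneg_right ?_ (Nat.cast_nonneg _)
  exact div_le_div_of_nonneg_right (by linarith) hd0.le

/-- The numerical bound. -/
lemma half_gen {d w m : ℕ} (hd : 2 ≤ d) (hw : 1 ≤ w) (hm : (d * w) ^ (4 * d + 13) ≤ m) :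
    ((m : ℝ) + 1) ^ (d * d) *
      (((m : ℝ) + 1) * ((d : ℝ) - 2 * (1 - Real.cos (Real.pi / (2 * (4 * (d * (w * d)) ^ d *
        d : ℕ))))) ^ (2 * m)) < (d : ℝ) ^ (2 * m) := by
  have hd0 : (0 : ℝ) < d := by
    have : 0 < d := by omega
    exact_mod_cast this
  have hd2 : (2 : ℝ) ≤ d := by exact_mod_cast hd
  have hw1 : (1 : ℝ) ≤ w := by exact_mod_cast hw
  obtain ⟨e, he⟩ : ∃ e : ℕ, e = d * w := ⟨_, rfl⟩
  rw [← he] at hm
  have heR : (e : ℝ) = d * w := by rw [he]; push_cast; ring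
  have hde : (d : ℝ) ≤ e := by rw [heR]; nlinarith
  have he2 : (2 : ℝ) ≤ e := hd2.trans hde
  have he2' : 2 ≤ e := by exact_mod_cast he2
  have he0 : (0 : ℝ) < e := by linarith
  set N : ℕ := 4 * (d * (w * d)) ^ d * d with hN
  have hN4 : 4 ≤ N := by
    rw [hN]
    have h1 : 1 ≤ (d * (w * d)) ^ d * d := by
      have : 0 < d := by omega
      exact Nat.succ_le_of_lt (by positivity)
    nlinarith
  have hNR : (4 : ℝ) ≤ N := by exact_mod_cast hN4
  have hN0 : (0 : ℝ) < N := by linarith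
  have hNsq : (N : ℝ) ^ 2 ≤ 16 * (e : ℝ) ^ (4 * d + 2) := by
    have h1 : (N : ℝ) = 4 * (d * e : ℝ) ^ d * d := by
      rw [hN, heR]
      push_cast
      ring
    have h2 : (N : ℝ) ≤ 4 * (e * e : ℝ) ^ d * e := by
      rw [h1]
      have h3 : (d * e : ℝ) ^ d ≤ (e * e : ℝ) ^ d :=
        pow_le_pow_left₀ (by positivity) (mul_le_mul_of_nonneg_right hde he0.le) _
      exact mul_le_mul (mul_le_mul_of_nonneg_left h3 (by norm_num)) hde hd0.le (by positivity)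
    calc (N : ℝ) ^ 2 ≤ (4 * (e * e : ℝ) ^ d * e) ^ 2 := pow_le_pow_left₀ hN0.le h2 2
      _ = _ := by ring
  have hx0 : 0 ≤ Real.pi / (2 * N) := by positivity
  have hcos1 : 1 / (2 * (N : ℝ) ^ 2) ≤ 1 - Real.cos (Real.pi / (2 * N)) := by
    have h1 := Real.cos_le_one_sub_mul_cos_sq (x := Real.pi / (2 * N)) (by
      rw [abs_of_nonneg hx0, div_le_iff₀ (by positivity)]
      have := Real.pi_pos
      nlinarith)
    have h2 : 2 / Real.pi ^ 2 * (Real.pi / (2 * N)) ^ 2 = 1 / (2 * (N : ℝ) ^ 2) := by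
      have := Real.pi_ne_zero
      field_simp
    rw [h2] at h1
    linarith
  refine half_of_log (by omega) ?_ ?_
  · have h1 : 0 ≤ Real.cos (Real.pi / (2 * N)) := by
      apply Real.cos_nonneg_of_neg_pi_div_two_le_of_le
      · have := Real.pi_pos
        linarith
      · rw [div_le_div_iff₀ (by positivity) (by norm_num)]
        have := Real.pi_pos
        nlinarith
    linarith
  have hM0 : 0 < e ^ (4 * d + 13) := by
    have : 0 < e := by omega
    positivity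
  have hlog : Real.log (((e ^ (4 * d + 13) : ℕ) : ℝ) + 1) ≤ (4 * e + 14) * (e - 1) := by
    have h1 : (((e ^ (4 * d + 13) : ℕ) : ℝ) + 1) ≤ (e : ℝ) ^ (4 * d + 14) := by
      have h2 : (1 : ℝ) ≤ (e : ℝ) ^ (4 * d + 13) := one_le_pow₀ (by linarith)
      have h3 : (e : ℝ) ^ (4 * d + 14) = (e : ℝ) ^ (4 * d + 13) * e := pow_succ _ _
      rw [h3]
      push_cast
      nlinarith
    have h2 : Real.log (((e ^ (4 * d + 13) : ℕ) : ℝ) + 1) ≤ (4 * d + 14) * Real.log e := by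
      have h3 := Real.log_le_log (by positivity) h1
      rw [Real.log_pow] at h3
      push_cast at h3 ⊢
      exact h3
    have h3 : Real.log e ≤ e - 1 := Real.log_le_sub_one_of_pos he0
    have h4 : (4 * (d : ℝ) + 14) * Real.log e ≤ (4 * e + 14) * (e - 1) :=
      mul_le_mul (by linarith) h3 (Real.log_nonneg (by linarith)) (by positivity)
    linarith
  have hpoly : ((e : ℝ) * e + 1) * ((4 * e + 14) * (e - 1)) < (e : ℝ) ^ 10 / 8 := by
    have h6 : (4 : ℝ) ≤ (e : ℝ) ^ 2 := by nlinarith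
    have h7 : (e : ℝ) * e + 1 ≤ 5 / 4 * (e : ℝ) ^ 2 := by nlinarith
    have h8 : (4 * (e : ℝ) + 14) * (e - 1) < 6 * (e : ℝ) ^ 2 := by
      nlinarith [sq_nonneg ((e : ℝ) - 5 / 2)]
    have h9 : 0 ≤ (4 * (e : ℝ) + 14) * (e - 1) := mul_nonneg (by linarith) (by linarith)
    have h10 : ((e : ℝ) * e + 1) * ((4 * e + 14) * (e - 1)) ≤
        5 / 4 * (e : ℝ) ^ 2 * ((4 * (e : ℝ) + 14) * (e - 1)) := mul_le_mul_of_nonneg_right h7 h9
    have h11 : 5 / 4 * (e : ℝ) ^ 2 * ((4 * (e : ℝ) + 14) * (e - 1)) <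
        5 / 4 * (e : ℝ) ^ 2 * (6 * (e : ℝ) ^ 2) :=
      mul_lt_mul_of_pos_left h8 (by positivity)
    have h12 : (64 : ℝ) ≤ (e : ℝ) ^ 6 := by
      calc (64 : ℝ) = 4 ^ 3 := by norm_num
        _ ≤ ((e : ℝ) ^ 2) ^ 3 := pow_le_pow_left₀ (by norm_num) h6 3
        _ = _ := by ring
    have h13 : (e : ℝ) ^ 4 * 64 ≤ (e : ℝ) ^ 4 * (e : ℝ) ^ 6 :=
      mul_le_mul_of_nonneg_left h12 (by positivity)
    have h14 : (e : ℝ) ^ 4 * (e : ℝ) ^ 6 = (e : ℝ) ^ 10 := by ring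
    have h15 : 5 / 4 * (e : ℝ) ^ 2 * (6 * (e : ℝ) ^ 2) = 15 / 2 * (e : ℝ) ^ 4 := by ring
    have h16 : (0 : ℝ) < (e : ℝ) ^ 4 := by positivity
    rw [h15] at h11
    rw [h14] at h13
    linarith
  have h1 : ((d : ℝ) * d + 1) * Real.log (((e ^ (4 * d + 13) : ℕ) : ℝ) + 1) <
      (2 / (d * (N : ℝ) ^ 2)) * ((e ^ (4 * d + 13) : ℕ) : ℝ) := by
    have h2 : (e : ℝ) ^ 10 / 8 ≤ (2 / (d * (N : ℝ) ^ 2)) * ((e ^ (4 * d + 13) : ℕ) : ℝ) := by
      have h3 : 2 / (e * (16 * (e : ℝ) ^ (4 * d + 2))) ≤ 2 / (d * (N : ℝ) ^ 2) := by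
        refine div_le_div_of_nonneg_left (by norm_num) (by positivity) ?_
        exact mul_le_mul hde hNsq (by positivity) he0.le
      calc (e : ℝ) ^ 10 / 8 =
          2 / (e * (16 * (e : ℝ) ^ (4 * d + 2))) * ((e ^ (4 * d + 13) : ℕ) : ℝ) := by
            push_cast
            rw [div_mul_eq_mul_div, div_eq_div_iff (by norm_num) (by positivity)]
            ring
        _ ≤ _ := mul_le_mul_of_nonneg_right h3 (by positivity)
    refine lt_of_lt_of_le (lt_of_le_of_lt ?_ hpoly) h2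
    have hlog0 : 0 ≤ Real.log (((e ^ (4 * d + 13) : ℕ) : ℝ) + 1) :=
      Real.log_nonneg (by
        have : (0 : ℝ) ≤ ((e ^ (4 * d + 13) : ℕ) : ℝ) := Nat.cast_nonneg _
        linarith)
    exact mul_le_mul (by nlinarith) hlog hlog0 (by positivity)
  have h2 := log_mono hM0 (by positivity) h1 hm
  refine lt_of_lt_of_le h2 ?_
  have h3 : 2 * (m : ℝ) * (2 * (1 - Real.cos (Real.pi / (2 * N))) / d) =
      (4 / d) * m * (1 - Real.cos (Real.pi / (2 * N))) := by ring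
  have h4 : 2 / (d * (N : ℝ) ^ 2) * m = (4 / d) * m * (1 / (2 * (N : ℝ) ^ 2)) := by
    field_simp
    ring
  rw [h3, h4]
  exact mul_le_mul_of_nonneg_left hcos1 (by positivity)

end

end Pool.Agent.X259.U
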