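import Pool.Agent.X259.U.U23

/-!
# More than half of the Hodge forms decide
-/

set_option autoImplicit false
set_option linter.unusedSectionVars false
set_option linter.unusedDecidableInType false
set_option linter.unusedFintypeInType false

namespace Pool.Agent.X259.U

open Matrix Finset Module Pool.Agent.H204R3.SP Pool.Agent.H204R3.GP Pool.Agent.W516
  Pool.Agent.X259.T
open scoped ComplexOrder TensorProduct

noncomputable section

section frame

variable {W : Type} [AddCommGroup W] [Module ℚ W] {R : Type} [Fintype R] [DecidableEq R]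
  {T : Type} [AddCommGroup T] [Module ℂ T] {Q : Type} [DecidableEq Q]
  {per : W →+ T} {ω₀ : W →ₗ[ℚ] W →ₗ[ℚ] ℚ} {b : Basis R ℚ W} {b' : Basis R ℝ T} {cls : R → Q}
  {inv : R → R} {jj : R → ℂ} {S S' : Matrix R R ℂ} (hf : Frame per ω₀ b b' cls inv jj S S')

include hf in
/-- **More than half decide**, in coordinates, for families of rational classes. -/
theorem half_frame {ι : Type} [Fintype ι] [DecidableEq ι] {β β' : ι → W}
    (hcl : ∀ x y, cls x = cls y) (hβ : ∀ w : W, w = ∑ i, ω₀ w (β' i) • β i)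
    {C B : ∀ m : ℕ, Submodule ℚ (RF W m)}
    (hC : Closed ω₀ β β' C) (hstC : StarStable b b' C)
    (hB : Closed ω₀ β β' B) (hstB : StarStable b b' B) (hCB : ∀ m, C m ≤ B m)
    {N : ℕ} (hN : 2 ≤ N) (hdet : LieDet (Fm S b B) N) {m : ℕ}
    (hnum : ((m : ℝ) + 1) ^ (Fintype.card R * Fintype.card R) *
      (((m : ℝ) + 1) * ((Fintype.card R : ℝ) - 2 * (1 - Real.cos (Real.pi / (2 * N)))) ^
        (2 * m)) <
        (Fintype.card R : ℝ) ^ (2 * m))
    (hhalf : (m + 2) * finrank ℚ (B m) ≤ (2 * m + 2) * finrank ℚ (C m)) (m' : ℕ) : B m' ≤ C m' := by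
  intro ψ hψ
  have hCf := fam' hf hcl hβ hC hstC
  have hBf := fam' hf hcl hβ hB hstB
  have hle : ∀ κ : Type, Fm S b C κ ≤ Fm S b B κ := by
    intro κ
    refine Submodule.span_mono ?_
    rintro F ⟨m, e, ψ, hψ, rfl⟩
    exact ⟨m, e, ψ, hCB m hψ, rfl⟩
  have h1 := effective_half hf.bas hCf hBf hle (fun n hn F hF => odd_zero hn hF) hN hdet (m := m)
    (by
      rw [finrank_Fm hf.one' b hB.perm (eqv m), finrank_Fm hf.one' b hC.perm (eqv m)]
      exact hhalf) hnum (Fin m' × Fin 2)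
  exact mem_of_Fm hf hC.perm (h1 (gen_mem (S := S) (b := b) (Equiv.refl (Fin m' × Fin 2)) hψ))

end frame

section coordinates

variable {V : Type} [AddCommGroup V] [Module ℚ V] {n : ℕ}
  {e : Basis (Fin n) ℚ V} {Q : V →ₗ[ℚ] V →ₗ[ℚ] ℚ} {ε : Module.End ℚ V}
  {P P' : Matrix (Fin n) (Fin n) ℂ} {k : Fin n → ℤ} (hd : HD e Q ε P P' k)
  {ι : Type} [Fintype ι] [DecidableEq ι] {γ γ' : ι → V}
  (hγ : ∀ v : V, v = ∑ i, Q v (γ' i) • γ i)

include hd hγ in
/-- **More than half decide**, in coordinates. -/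
theorem half_hd {C : ∀ m : ℕ, Submodule ℚ (RF V m)} (hC : Closed Q γ γ' C)
    (hCB : ∀ m, C m ≤ Ann e (wt P P' k) m) {N₀ : ℕ} (hN : 4 ≤ N₀)
    (hZ : ∀ X : Module.End ℚ (V × V), InComm (Lift (Ann e (wt P P' k))) X →
      (∀ Y, InComm (Lift (Ann e (wt P P' k))) Y → X * Y = Y * X) →
      (∀ u v, dbl Q (X u) v = -dbl Q u (X v)) →
      (∀ m, 2 * m ≤ N₀ → ∀ ψ ∈ Lift (Ann e (wt P P' k)) m, Kills X ψ) →
      X ∈ LB (Lift (Ann e (wt P P' k)))) {m : ℕ}
    (hnum : ((m : ℝ) + 1) ^ (2 * n * (2 * n)) *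
      (((m : ℝ) + 1) * (((2 * n : ℕ) : ℝ) - 2 * (1 - Real.cos (Real.pi / (2 * N₀)))) ^ (2 * m)) <
        ((2 * n : ℕ) : ℝ) ^ (2 * m))
    (hhalf : (m + 2) * finrank ℚ (Ann e (wt P P' k) m) ≤ (2 * m + 2) * finrank ℚ (C m)) (m' : ℕ) :
    Ann e (wt P P' k) m' ≤ C m' := by
  obtain ⟨S, S', hf⟩ := exists_frame_hd hd
  have hfd : FiniteDimensional ℚ V := Module.Finite.of_basis e
  have hβ := dual_dbl hγ hd.nd
  have hB := ann_closed' hd hγ
  have hC2 := lift_closed hC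
  have hB2 := lift_closed hB
  have hsC := star_lift hd hγ hC hCB
  have hsB := star_lift hd hγ hB fun m => le_refl _
  have hBN := defBy_lift e (wt P P' k)
  have hBf := fam' hf (fun _ _ => rfl) hβ hB2 hsB
  have hdet := lieDet' hf hBN hBf hN hZ
  have hcard : Fintype.card (Fin n ⊕ Fin n) = 2 * n := by
    rw [Fintype.card_sum, Fintype.card_fin]
    ring
  have h1 := half_frame hf (fun _ _ => rfl) hβ hC2 hsC hB2 hsB
    (fun m F hF t => hCB m (hF t)) (by omega) hdet (m := m) (by rw [hcard]; exact hnum)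
    (by
      rw [finrank_lift, finrank_lift]
      calc (m + 2) * (2 ^ (m * 2) * finrank ℚ (Ann e (wt P P' k) m)) =
          2 ^ (m * 2) * ((m + 2) * finrank ℚ (Ann e (wt P P' k) m)) := by ring
        _ ≤ 2 ^ (m * 2) * ((2 * m + 2) * finrank ℚ (C m)) := Nat.mul_le_mul_left _ hhalf
        _ = _ := by ring) m'
  intro ψ hψ
  exact mem_of_lift (h1 (lift_fst hψ))

include hd hγ in
/-- **More than half decide**, with the bound. -/
theorem half_gen' {C : ∀ m : ℕ, Submodule ℚ (RF V m)} (hC : Closed Q γ γ' C)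
    (hCB : ∀ m, C m ≤ Ann e (wt P P' k) m) (hn : 1 ≤ n) {w : ℕ} (hw1 : 1 ≤ w)
    (hw : ∀ x, |k x| ≤ w) {m : ℕ} (hm : (2 * n * w) ^ (8 * n + 13) ≤ m)
    (hhalf : (m + 2) * finrank ℚ (Ann e (wt P P' k) m) ≤ (2 * m + 2) * finrank ℚ (C m)) (m' : ℕ) :
    Ann e (wt P P' k) m' ≤ C m' := by
  obtain ⟨S, S', hf⟩ := exists_frame_hd hd
  have hβ := dual_dbl hγ hd.nd
  have hB := ann_closed' hd hγ
  have hB2 := lift_closed hB
  have hsB := star_lift hd hγ hB fun m => le_refl _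
  have hBN := defBy_lift e (wt P P' k)
  have hBf := fam' hf (fun _ _ => rfl) hβ hB2 hsB
  have hcard : Fintype.card (Fin n ⊕ Fin n) = 2 * n := by
    rw [Fintype.card_sum, Fintype.card_fin]
    ring
  have hsp : SpecBound (bd (wt P P' k)) (w * (2 * n)) := by
    rw [bd_wt, ← hcard]
    refine spec_wt hd.h2 hd.h2' (k2 k) ?_
    rintro (x | x)
    · exact hw x
    · exact hw x
  have hN4 : 4 ≤ 4 * (2 * n * (w * (2 * n))) ^ (2 * n) * (2 * n) := by
    have h1 : 1 ≤ (2 * n * (w * (2 * n))) ^ (2 * n) * (2 * n) :=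
      Nat.succ_le_of_lt (by positivity)
    nlinarith
  refine half_hd hd hγ hC hCB hN4 (fun X hX hXz hsk hkill => ?_)
    (half_gen (by omega) hw1 (by convert hm using 2; ring)) hhalf m'
  refine center_all'' hf hBN hBf hB2.pol (fun Y hY hYz => comm_Nz hd hγ hY hYz)
    (D := w * (2 * n)) (Nat.succ_le_of_lt (by positivity)) hsp (trace_bd hd) X hX hXz hsk ?_
  intro m hm' ψ hψ
  rw [hcard] at hm'
  exact hkill m hm' ψ hψ

include hd hγ in
/-- **More than half decide**, without skew elements in the centre. -/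
theorem half_noskew (hns : NoSkew e Q (wt P P' k))
    {C : ∀ m : ℕ, Submodule ℚ (RF V m)} (hC : Closed Q γ γ' C)
    (hCB : ∀ m, C m ≤ Ann e (wt P P' k) m) (hn : 1 ≤ n) {m : ℕ}
    (hm : 128 * n ^ 3 * (Nat.log 2 (2 * n) + 1) ≤ m)
    (hhalf : (m + 2) * finrank ℚ (Ann e (wt P P' k) m) ≤ (2 * m + 2) * finrank ℚ (C m)) (m' : ℕ) :
    Ann e (wt P P' k) m' ≤ C m' := by
  refine half_hd hd hγ hC hCB (le_refl 4) (fun X hX hXz hsk _ => ?_)
    (half_four (by omega) (by convert hm using 1; ring)) hhalf m'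
  rw [center_noskew hd hγ hns hX hXz hsk]
  exact Submodule.zero_mem _

end coordinates

section hodge

variable {V : Type} [AddCommGroup V] [Module ℚ V] [FiniteDimensional ℚ V]
  {H : ℤ → ℤ → Submodule ℂ (ℂ ⊗[ℚ] V)} {ε : Module.End ℚ V} {Q : LinearMap.BilinForm ℚ V}

/-- **More than half decide.** -/
theorem half_hs (hH : HS.IsHodgeStructure H ε) (hQ : HS.IsPolarization H ε Q)
    {w : ℕ} (hw1 : 1 ≤ w) (hw : ∀ p q : ℤ, H p q ≠ ⊥ → |p - q| ≤ w) (hn : 1 ≤ finrank ℚ V)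
    {ι : Type} [Fintype ι] [DecidableEq ι] {γ γ' : ι → V}
    (hγ : ∀ v : V, v = ∑ i, Q v (γ' i) • γ i)
    {C : ∀ m : ℕ, Submodule ℚ (RF V m)} (hC : Closed Q γ γ' C)
    (hCH : ∀ (m : ℕ), ∀ ψ ∈ C m, HS.IsHodgeForm H ψ) {m : ℕ}
    (hm : (2 * finrank ℚ V * w) ^ (8 * finrank ℚ V + 13) ≤ m ∨
      (∀ f : Module.End ℚ V, HS.IsHodgeEndo H f →
        (∀ f' : Module.End ℚ V, HS.IsHodgeEndo H f' → f * f' = f' * f) →
        (∀ u v, Q (f u) v = -Q u (f v)) → f = 0) ∧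
      128 * finrank ℚ V ^ 3 * (Nat.log 2 (2 * finrank ℚ V) + 1) ≤ m)
    {B : Submodule ℚ (RF V m)} (hB : ∀ ψ : RF V m, ψ ∈ B ↔ HS.IsHodgeForm H ψ)
    (hhalf : (m + 2) * finrank ℚ B ≤ (2 * m + 2) * finrank ℚ (C m)) (m' : ℕ) (ψ : RF V m')
    (hψ : HS.IsHodgeForm H ψ) : ψ ∈ C m' := by
  obtain ⟨vB, kk, hmem, hr⟩ := exists_adapted hH.internal
  have hd := hd_of (Module.finBasis ℚ V) hmem hr hH hQ
  have hA : ∀ (m : ℕ) (ψ : RF V m), HS.IsHodgeForm H ψ ↔
      ψ ∈ Ann (Module.finBasis ℚ V) (wt (PM (Module.finBasis ℚ V) vB)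
        (PM' (Module.finBasis ℚ V) vB) (kd kk)) m := fun m ψ => hodge_iff_ann _ hmem hr ψ
  have hB' : B = Ann (Module.finBasis ℚ V) (wt (PM (Module.finBasis ℚ V) vB)
      (PM' (Module.finBasis ℚ V) vB) (kd kk)) m := by
    ext ψ
    rw [hB, hA]
  rw [hB'] at hhalf
  rcases hm with hm | ⟨hns, hm⟩
  · have hwk : ∀ a, |kd kk a| ≤ w := fun a => by
      refine hw _ _ fun h => ?_
      have h1 := hmem a
      rw [h, Submodule.mem_bot] at h1
      exact vB.ne_zero a h1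
    exact half_gen' hd hγ hC (fun m ψ hψ => (hA m ψ).1 (hCH m ψ hψ)) hn hw1 hwk hm hhalf m'
      ((hA m' ψ).1 hψ)
  · have hns' : NoSkew (Module.finBasis ℚ V) Q (wt (PM (Module.finBasis ℚ V) vB)
        (PM' (Module.finBasis ℚ V) vB) (kd kk)) := fun p hp hpz hsk =>
      hns p ((endo_iff _ hmem hr p).2 hp) (fun f' hf' => hpz f' ((endo_iff _ hmem hr f').1 hf')) hsk
    exact half_noskew hd hγ hns' hC (fun m ψ hψ => (hA m ψ).1 (hCH m ψ hψ)) hn hm hhalf m'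
      ((hA m' ψ).1 hψ)

end hodge

end

end Pool.Agent.X259.U
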