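import Pool.Agent.X259.U.U24

/-!
# More than half of the Hodge classes on one power of a variety
-/

set_option autoImplicit false
set_option linter.unusedSectionVars false
set_option linter.unusedDecidableInType false
set_option linter.unusedFintypeInType false

namespace Pool.Agent.X259.U

open Matrix Finset Module Pool.Agent.H204R3.SP Pool.Agent.H204R3.GP Pool.Agent.W516
  Pool.Agent.X259.T
open scoped ComplexOrder TensorProduct

noncomputable section

variable {V : Type} [AddCommGroup V] [Module ℚ V] {H : ℤ → ℤ → Submodule ℂ (ℂ ⊗[ℚ] V)}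
  {ε : Module.End ℚ V} {P Q : LinearMap.BilinForm ℚ V} {one point : V}
  {A : ∀ N : ℕ, Submodule ℚ (HS.Cls V N)} (hA : HS.IsCycleFamily H ε P one point A)
  (hP : HS.IsPoincare ε P one point)

include hP in
lemma flip_nd (hε : ε * ε = 1) (z : V) (h : ∀ x, P x z = 0) : z = 0 := by
  refine hP.nondeg z fun x => ?_
  have h1 := h (ε x)
  rw [hP.symm] at h1
  have h2 : ε (ε x) = x := congrArg (fun f : Module.End ℚ V => f x) hε
  rwa [h2] at h1

/-- The operator of a bilinear form. -/
lemma exists_adj' [FiniteDimensional ℚ V] {P : V →ₗ[ℚ] V →ₗ[ℚ] ℚ}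
    (hnd : ∀ z, (∀ x, P x z = 0) → z = 0) (B : V →ₗ[ℚ] V →ₗ[ℚ] ℚ) :
    ∃ T : Module.End ℚ V, ∀ x y, P x (T y) = B x y := by
  have hinj : Function.Injective (LinearMap.flip P) := by
    rw [← LinearMap.ker_eq_bot, LinearMap.ker_eq_bot']
    intro v hv
    exact hnd v fun u => congrArg (fun f : V →ₗ[ℚ] ℚ => f u) hv
  let E := LinearMap.linearEquivOfInjective (LinearMap.flip P) hinj Subspace.dual_finrank_eq.symm
  refine ⟨E.symm.toLinearMap ∘ₗ LinearMap.flip B, fun x y => ?_⟩
  have h1 : E (E.symm (LinearMap.flip B y)) = LinearMap.flip B y := E.apply_symm_apply _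
  exact congrArg (fun f : V →ₗ[ℚ] ℚ => f x) h1

/-- The inverse of an operator is a polynomial in it. -/
lemma inv_mem_adjoin [FiniteDimensional ℚ V] {S T : Module.End ℚ V} (h : S * T = 1) :
    T ∈ Algebra.adjoin ℚ {S} := by
  let B := Algebra.adjoin ℚ {S}
  have hS : S ∈ B := Algebra.self_mem_adjoin_singleton ℚ S
  have hTS : T * S = 1 := mul_eq_one_comm.1 h
  let f : B →ₗ[ℚ] B := LinearMap.mulLeft ℚ (⟨S, hS⟩ : B)
  have hinj : Function.Injective f := by
    intro x y hxy
    apply Subtype.ext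
    have h1 : S * x.1 = S * y.1 := congrArg Subtype.val hxy
    calc x.1 = (T * S) * x.1 := by rw [hTS, one_mul]
      _ = (T * S) * y.1 := by rw [mul_assoc, h1, ← mul_assoc]
      _ = y.1 := by rw [hTS, one_mul]
  obtain ⟨x, hx⟩ := LinearMap.surjective_of_injective hinj 1
  have h1 : S * x.1 = 1 := congrArg Subtype.val hx
  have h2 : T = x.1 := by
    calc T = T * (S * x.1) := by rw [h1, mul_one]
      _ = x.1 := by rw [← mul_assoc, hTS, one_mul]
  rw [h2]
  exact x.2

include hA in
/-- The operators of the last variable. -/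
lemma adjoin_ap {S : Module.End ℚ V} {N : ℕ}
    (hS : ∀ ψ ∈ A (N + 1), ap (Fin.last N) S ψ ∈ A (N + 1)) {T : Module.End ℚ V}
    (hT : T ∈ Algebra.adjoin ℚ {S}) : ∀ ψ ∈ A (N + 1), ap (Fin.last N) T ψ ∈ A (N + 1) := by
  induction hT using Algebra.adjoin_induction with
  | mem x hx =>
    rw [Set.mem_singleton_iff] at hx
    rw [hx]
    exact hS
  | algebraMap c =>
    intro ψ hψ
    have h1 : ap (Fin.last N) (algebraMap ℚ (Module.End ℚ V) c) ψ = c • ψ := by
      ext v
      rw [ap_apply]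
      have h2 : (algebraMap ℚ (Module.End ℚ V) c) (v (Fin.last N)) = c • v (Fin.last N) := rfl
      rw [h2, MultilinearMap.map_update_smul, Function.update_eq_self]
      rfl
    rw [h1]
    exact Submodule.smul_mem _ _ hψ
  | add x y _ _ hx hy =>
    intro ψ hψ
    have h1 : ap (Fin.last N) (x + y) ψ = ap (Fin.last N) x ψ + ap (Fin.last N) y ψ := by
      ext v
      rw [_root_.add_apply, ap_apply, ap_apply, ap_apply, LinearMap.add_apply,
        MultilinearMap.map_update_add]
    rw [h1]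
    exact Submodule.add_mem _ (hx ψ hψ) (hy ψ hψ)
  | mul x y _ _ hx hy =>
    intro ψ hψ
    have h1 : ap (Fin.last N) (x * y) ψ = ap (Fin.last N) y (ap (Fin.last N) x ψ) := by
      ext v
      rw [ap_apply, ap_apply, ap_apply, Function.update_self, Function.update_idem,
        Module.End.mul_apply]
    rw [h1]
    exact hy _ (hx ψ hψ)

include hA hP in
/-- The closed family, if the polarization and the parity are in the family. -/
theorem closed_of_star [FiniteDimensional ℚ V] (hH : HS.IsHodgeStructure H ε)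
    (hQ : HS.IsPolarization H ε Q) (hεA : bil (LinearMap.comp P ε) ∈ A 2) (hQA : bil Q ∈ A 2) :
    ∃ γ γ' : Fin (finrank ℚ V) → V, (∀ v : V, v = ∑ i, Q v (γ' i) • γ i) ∧
      Closed Q γ γ' (CC A) := by
  obtain ⟨a, b, hab⟩ := exists_dual_poincare hP
  obtain ⟨vB, kk, hmem, hr⟩ := exists_adapted hH.internal
  have hd := hd_of (Module.finBasis ℚ V) hmem hr hH hQ
  have hε : ε * ε = 1 := LinearMap.ext hd.eps2
  have hPε : ∀ x y, P (ε x) (ε y) = P x y := fun x y => by
    rw [← hP.symm y (ε x), ← hP.symm x y]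
  have hQε : ∀ x y, Q (ε x) (ε y) = Q x y := fun x y => by
    rw [← hQ.symm y (ε x), ← hQ.symm x y]
  have hφ : bil (LinearMap.flip P) ∈ A 2 := by
    have h1 : bil (LinearMap.flip P) = bil (LinearMap.comp P ε) := by
      ext v
      rw [bil_apply, bil_apply, LinearMap.flip_apply, LinearMap.comp_apply, hP.symm (ε (v 0)),
        hd.eps2]
    rw [h1]
    exact hεA
  obtain ⟨S, hS⟩ := exists_adj' (flip_nd hP hε) Q
  obtain ⟨T, hT⟩ := exists_adj hd P
  have hST : S * T = 1 := by
    refine LinearMap.ext fun y => ?_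
    rw [← sub_eq_zero]
    refine flip_nd hP hε _ fun x => ?_
    rw [map_sub, Module.End.mul_apply, hS, hT, Module.End.one_apply, sub_self]
  have hεS : ε * S = S * ε := by
    refine LinearMap.ext fun y => ?_
    rw [← sub_eq_zero]
    refine flip_nd hP hε _ fun x => ?_
    rw [map_sub, Module.End.mul_apply, Module.End.mul_apply, hS]
    have h3 : P x (ε (S y)) = P (ε x) (S y) := by
      rw [← hPε (ε x) (S y), hd.eps2]
    rw [h3, hS, ← hQε (ε x) y, hd.eps2, sub_self]
  have hTε : ε * T = T * ε := adj_eps hd hP.symm hT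
  -- the star operator in the last variable
  have hφS : bil (LinearMap.comp (LinearMap.flip P) S) ∈ A 2 := by
    have h1 : bil (LinearMap.comp (LinearMap.flip P) S) = ap (Fin.last 1) ε (bil Q) := by
      ext v
      rw [bil_apply, LinearMap.comp_apply, LinearMap.flip_apply, hS, ap_apply, bil_apply,
        hQ.symm (v 1) (v 0), ← hQ.symm]
      have e0 : Function.update v (Fin.last 1) (ε (v (Fin.last 1))) 0 = v 0 :=
        Function.update_of_ne (by decide) _ _
      have e1 : Function.update v (Fin.last 1) (ε (v (Fin.last 1))) 1 = ε (v 1) :=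
        Function.update_self _ _ _
      rw [e0, e1, hQ.symm (v 1) (v 0)]
    rw [h1]
    exact last_eps hA hab hε hφ hQA
  have hSA : ∀ ψ ∈ A (1 + 1), ap (Fin.last 1) S ψ ∈ A (1 + 1) := fun ψ hψ =>
    last_op' hA hab hε hεS hφ hφS hψ
  have hPA : bil P ∈ A 2 := hA.diagonal (bil P) fun v => rfl
  have hTA : ap (Fin.last 1) T (bil P) ∈ A 2 := adjoin_ap hA hSA (inv_mem_adjoin hST) _ hPA
  have hSP : ∀ x y, P (S x) y = Q x y := by
    intro x y
    rw [hP.symm, ← Module.End.mul_apply, hεS, Module.End.mul_apply, hS, ← hQ.symm]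
  have hSTx : ∀ x, S (T x) = x := fun x => congrArg (fun f : Module.End ℚ V => f x) hST
  have hTP : ∀ u z, P u (T z) = P (T u) z := by
    intro u z
    have h1 : P (T u) z = Q (T u) (T z) := by
      conv_lhs => rw [← hSTx z]
      rw [hS]
    have h2 : P u (T z) = Q (T u) (T z) := by
      conv_lhs => rw [← hSTx u]
      rw [hSP]
    rw [h1, h2]
  have hφT : bil (LinearMap.comp (LinearMap.flip P) (T * ε)) ∈ A 2 := by
    have h1 : bil (LinearMap.comp (LinearMap.flip P) (T * ε)) = ap (Fin.last 1) T (bil P) := by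
      ext v
      rw [bil_apply, LinearMap.comp_apply, LinearMap.flip_apply, ap_apply, bil_apply,
        Module.End.mul_apply, hTP, ← hP.symm]
      rfl
    rw [h1]
    exact hTA
  refine ⟨a, fun i => (T * ε) (b i), fun v => ?_, closed_of hA hab hε (T := T * ε) ?_ hφ hφT hQA⟩
  · have h1 : ∀ i, Q v ((T * ε) (b i)) = P (b i) v := by
      intro i
      rw [Module.End.mul_apply, hT, ← hP.symm]
    rw [Finset.sum_congr rfl fun i _ => by rw [h1 i]]
    exact hab v
  · rw [← mul_assoc, hTε]

/-- The reindexing of the variables. -/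
def rein (V : Type) [AddCommGroup V] [Module ℚ V] (m : ℕ) : RF V m ≃ₗ[ℚ] HS.Cls V (2 * m) where
  toFun ψ := ψ.domDomCongr (eqv m)
  invFun ψ := ψ.domDomCongr (eqv m).symm
  map_add' _ _ := rfl
  map_smul' _ _ := rfl
  left_inv ψ := by
    refine MultilinearMap.ext fun (v : Fin m × Fin 2 → V) => ?_
    simp only [MultilinearMap.domDomCongr_apply, Equiv.symm_apply_apply]
  right_inv ψ := by
    refine MultilinearMap.ext fun (v : Fin (2 * m) → V) => ?_
    simp only [MultilinearMap.domDomCongr_apply, Equiv.apply_symm_apply]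

lemma finrank_rein [FiniteDimensional ℚ V] {m : ℕ} {B : Submodule ℚ (HS.Cls V (2 * m))}
    {B' : Submodule ℚ (RF V m)} (h : ∀ ψ : RF V m, ψ ∈ B' ↔ rein V m ψ ∈ B) :
    finrank ℚ B' = finrank ℚ B := by
  have h1 : B'.map (rein V m).toLinearMap = B := by
    ext ψ
    rw [Submodule.mem_map]
    constructor
    · rintro ⟨ψ', hψ', rfl⟩
      exact (h ψ').1 hψ'
    · intro hψ
      refine ⟨(rein V m).symm ψ, (h _).2 ?_, ?_⟩
      · rw [LinearEquiv.apply_symm_apply]
        exact hψ
      · exact (rein V m).apply_symm_apply ψ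
  rw [← h1]
  exact ((rein V m).submoduleMap B').finrank_eq

include hA hP in
/-- **More than half of the Hodge classes on one power.** -/
theorem half_powers [FiniteDimensional ℚ V] (hH : HS.IsHodgeStructure H ε)
    (hQ : HS.IsPolarization H ε Q) (hεA : bil (LinearMap.comp P ε) ∈ A 2) (hQA : bil Q ∈ A 2)
    {w : ℕ} (hw1 : 1 ≤ w) (hw : ∀ p q : ℤ, H p q ≠ ⊥ → |p - q| ≤ w) {m : ℕ}
    (hm : (2 * finrank ℚ V * w) ^ (8 * finrank ℚ V + 13) ≤ m ∨
      (∀ f : Module.End ℚ V, HS.IsHodgeEndo H f →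
        (∀ f' : Module.End ℚ V, HS.IsHodgeEndo H f' → f * f' = f' * f) →
        (∀ u v, Q (f u) v = -Q u (f v)) → f = 0) ∧
      128 * finrank ℚ V ^ 3 * (Nat.log 2 (2 * finrank ℚ V) + 1) ≤ m)
    {B : Submodule ℚ (HS.Cls V (2 * m))} (hB : ∀ ψ, ψ ∈ B ↔ HS.IsHodgeClass H ψ)
    (hhalf : (m + 2) * finrank ℚ B ≤ (2 * m + 2) * finrank ℚ (A (2 * m))) (N : ℕ) : HIn H A N := by
  have hn : 1 ≤ finrank ℚ V := by
    rw [Nat.one_le_iff_ne_zero]
    intro h0
    have h1 : Subsingleton V := Module.finrank_zero_iff.1 h0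
    have h2 := hP.point
    rw [Subsingleton.elim one 0, map_zero] at h2
    exact zero_ne_one h2
  obtain ⟨γ, γ', hγ, hC⟩ := closed_of_star hA hP hH hQ hεA hQA
  obtain ⟨vB, kk, hmem, hr⟩ := exists_adapted hH.internal
  have hCH : ∀ (m : ℕ), ∀ ψ ∈ CC A m, HS.IsHodgeForm H ψ := fun m ψ hψ =>
    (hform_iff (Module.finBasis ℚ V) hmem hr ψ).2 (hA.hodge _ _ hψ)
  have hB' : ∀ ψ : RF V m, ψ ∈ B.comap (rein V m).toLinearMap ↔ HS.IsHodgeForm H ψ := fun ψ => by
    rw [hform_iff (Module.finBasis ℚ V) hmem hr ψ, ← hB]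
    rfl
  have hhalf' : (m + 2) * finrank ℚ (B.comap (rein V m).toLinearMap) ≤
      (2 * m + 2) * finrank ℚ (CC A m) := by
    rw [finrank_rein (B := B) (B' := B.comap (rein V m).toLinearMap) fun ψ => Iff.rfl,
      finrank_rein (B := A (2 * m)) (B' := CC A m) fun ψ => Iff.rfl]
    exact hhalf
  have hall : ∀ m' : ℕ, HIn H A (2 * m') := by
    intro m' ψ hψ
    have h6 : ((ψ.domDomCongr (eqv m').symm : RF V m').domDomCongr (eqv m') :
        HS.Cls V (2 * m')) = ψ := (rein V m').apply_symm_apply ψ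
    have h5 : HS.IsHodgeForm H (ψ.domDomCongr (eqv m').symm : RF V m') := by
      rw [hform_iff (Module.finBasis ℚ V) hmem hr, h6]
      exact hψ
    have h7 : (ψ.domDomCongr (eqv m').symm : RF V m') ∈ CC A m' :=
      half_hs hH hQ hw1 hw hn hγ hC hCH hm hB' hhalf' m' _ h5
    have h8 : ((ψ.domDomCongr (eqv m').symm : RF V m').domDomCongr (eqv m') :
        HS.Cls V (2 * m')) ∈ A (2 * m') := h7
    rwa [h6] at h8
  exact down_le hA hP hH (by omega : N ≤ 2 * N) (hall N)

include hA hP in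
/-- The parity and the polarization, from the Hodge classes on the square. -/
theorem star_of_two [FiniteDimensional ℚ V] (hH : HS.IsHodgeStructure H ε)
    (hQ : HS.IsPolarization H ε Q) (h2 : HIn H A 2) :
    bil (LinearMap.comp P ε) ∈ A 2 ∧ bil Q ∈ A 2 := by
  obtain ⟨vB, kk, hmem, hr⟩ := exists_adapted hH.internal
  have hd := hd_of (Module.finBasis ℚ V) hmem hr hH hQ
  have hPH := (bil_hodge (e := Module.finBasis ℚ V) hmem hr).1
    (hA.hodge 2 _ (hA.diagonal (bil P) fun v => rfl))
  refine ⟨?_, h2 _ ((bil_hodge (e := Module.finBasis ℚ V) hmem hr).2 hd.inv)⟩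
  have h1 : bil (LinearMap.comp P ε) = bil (LinearMap.flip P) := by
    ext v
    rw [bil_apply, bil_apply, LinearMap.flip_apply, LinearMap.comp_apply, hP.symm (ε (v 0)),
      hd.eps2]
  rw [h1]
  refine h2 _ ((bil_hodge (e := Module.finBasis ℚ V) hmem hr).2 ?_)
  have h1 := conj_hodge hPH (M := 1) (by rw [mul_one, one_mul])
  rw [one_mul] at h1
  exact h1

end

end Pool.Agent.X259.U
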