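import Pool.Agent.X259.U.U23
import Pool.Agent.X259.T.T34

/-!
# More than half of the Hodge classes on one power of an abelian variety
-/

set_option autoImplicit false
set_option linter.unusedSectionVars false
set_option linter.unusedDecidableInType false
set_option linter.unusedFintypeInType false

namespace Pool.Agent.X259.U

open Matrix Finset Module Pool.Agent.H204R3.SP Pool.Agent.H204R3.GP Pool.Agent.W516
  Pool.Agent.X259.T
open scoped ComplexOrder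

noncomputable section

section frame

variable {W : Type} [AddCommGroup W] [Module ℚ W] {R : Type} [Fintype R] [DecidableEq R]
  {T : Type} [AddCommGroup T] [Module ℂ T] {Q : Type} [DecidableEq Q]
  {per : W →+ T} {ω₀ : W →ₗ[ℚ] W →ₗ[ℚ] ℚ} {b : Basis R ℚ W} {b' : Basis R ℝ T} {cls : R → Q}
  {inv : R → R} {jj : R → ℂ} {S S' : Matrix R R ℂ} (hf : Frame per ω₀ b b' cls inv jj S S')

include hf in
/-- **More than half decide**, in coordinates, for abelian varieties. -/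
theorem half_frame_ab {ι : Type} [Fintype ι] [DecidableEq ι] {β β' : ι → W}
    (hcl : ∀ x y, cls x = cls y) (hβ : ∀ w : W, w = ∑ i, ω₀ w (β' i) • β i)
    (hωH : IsHodgeBilinear per ω₀) {C : ∀ m : ℕ, Submodule ℚ (RF W m)}
    (hC : Closed ω₀ β β' C) (hH : ∀ m, ∀ ψ ∈ C m, IsHodgeTensor per ψ)
    {N : ℕ} (hN : 2 ≤ N) (hdet : LieDet (Fm S b (Hd per)) N) {m : ℕ}
    (hnum : ((m : ℝ) + 1) ^ (Fintype.card R * Fintype.card R) *
      (((m : ℝ) + 1) * ((Fintype.card R : ℝ) - 2 * (1 - Real.cos (Real.pi / (2 * N)))) ^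
        (2 * m)) < (Fintype.card R : ℝ) ^ (2 * m))
    (hhalf : (m + 2) * finrank ℚ (Hd per m) ≤ (2 * m + 2) * finrank ℚ (C m)) (m' : ℕ)
    (ψ : RF W m') (hψ : IsHodgeTensor per ψ) : ψ ∈ C m' := by
  have hCf := fam hf hcl hβ hC hH
  have hcl' := closed_hd hf hωH hβ
  have hBf := fam hf hcl hβ hcl' (fun m ψ hψ => hψ)
  have hle : ∀ κ : Type, Fm S b C κ ≤ Fm S b (Hd per) κ := by
    intro κ
    refine Submodule.span_mono ?_
    rintro F ⟨m, e, ψ, hψ, rfl⟩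
    exact ⟨m, e, ψ, hH m ψ hψ, rfl⟩
  have h1 := effective_half hf.bas hCf hBf hle (fun n hn F hF => odd_zero hn hF) hN hdet (m := m)
    (by
      rw [finrank_Fm hf.one' b hcl'.perm (eqv m), finrank_Fm hf.one' b hC.perm (eqv m)]
      exact hhalf) hnum (Fin m' × Fin 2)
  exact mem_of_Fm hf hC.perm (h1 (gen_mem (S := S) (b := b) (Equiv.refl (Fin m' × Fin 2)) hψ))

end frame

variable {W T : Type} [AddCommGroup W] [Module ℚ W] [AddCommGroup T] [Module ℂ T]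
  {per : W →+ T} {ω₀ : W →ₗ[ℚ] W →ₗ[ℚ] ℚ}

/-- **More than half decide.** -/
theorem half_ab [FiniteDimensional ℚ W] (hper : DR.IsRationalStructure per)
    (hω : ∃ E : T →ₗ[ℝ] T →ₗ[ℝ] ℝ, (∀ x y, E (per x) (per y) = ω₀ x y) ∧
      (∀ z : ℂ, ‖z‖ = 1 → ∀ u v, E (z • u) (z • v) = E u v) ∧ (∀ u, E u u = 0) ∧
      ∀ u, u ≠ 0 → 0 < E (Complex.I • u) u)
    {ι : Type} [Fintype ι] [DecidableEq ι] {β β' : ι → W}
    (hβ : ∀ w : W, w = ∑ i, ω₀ w (β' i) • β i)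
    {C : ∀ m : ℕ, Submodule ℚ (RF W m)} (hC : Closed ω₀ β β' C)
    (hH : ∀ m, ∀ ψ ∈ C m, IsHodgeTensor per ψ) {N : ℕ} (hN : 4 ≤ N)
    (hZ : ∀ P : Module.End ℚ W, IsHodgeEnd per P →
      (∀ P' : Module.End ℚ W, IsHodgeEnd per P' → P * P' = P' * P) →
      (∀ u v, ω₀ (P u) v = -ω₀ u (P v)) →
      (∀ m, 2 * m ≤ N → ∀ ψ : RF W m, IsHodgeTensor per ψ → Kills P ψ) →
      ∀ m, ∀ ψ : RF W m, IsHodgeTensor per ψ → Kills P ψ)
    {m : ℕ}
    (hnum : ((m : ℝ) + 1) ^ (finrank ℚ W * finrank ℚ W) *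
      (((m : ℝ) + 1) * ((finrank ℚ W : ℝ) - 2 * (1 - Real.cos (Real.pi / (2 * N)))) ^
        (2 * m)) < (finrank ℚ W : ℝ) ^ (2 * m))
    (hhalf : (m + 2) * finrank ℚ (Hd per m) ≤ (2 * m + 2) * finrank ℚ (C m)) (m' : ℕ)
    (ψ : RF W m') (hψ : IsHodgeTensor per ψ) : ψ ∈ C m' := by
  obtain ⟨g, b, b', S, S', hf⟩ := exists_frame per ω₀ hper hω
  have hωH : IsHodgeBilinear per ω₀ := by
    obtain ⟨E, hE, hinv, _⟩ := hω
    exact ⟨E, hE, hinv⟩
  have hd : finrank ℚ W = Fintype.card (Fin g ⊕ Fin g) := finrank_eq_card_basis b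
  rw [hd] at hnum
  exact half_frame_ab hf (fun _ _ => rfl) hβ hωH hC hH (by omega)
    (lieDet_hd hf (fun _ _ => rfl) hper hωH hβ hN hZ) hnum hhalf m' ψ hψ

/-- **More than half decide, for all abelian varieties.** -/
theorem hodge_half [FiniteDimensional ℚ W] (hper : DR.IsRationalStructure per)
    (hω : ∃ E : T →ₗ[ℝ] T →ₗ[ℝ] ℝ, (∀ x y, E (per x) (per y) = ω₀ x y) ∧
      (∀ z : ℂ, ‖z‖ = 1 → ∀ u v, E (z • u) (z • v) = E u v) ∧ (∀ u, E u u = 0) ∧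
      ∀ u, u ≠ 0 → 0 < E (Complex.I • u) u)
    {ι : Type} [Fintype ι] [DecidableEq ι] {β β' : ι → W}
    (hβ : ∀ w : W, w = ∑ i, ω₀ w (β' i) • β i)
    {C : ∀ m : ℕ, Submodule ℚ (RF W m)} (hC : Closed ω₀ β β' C)
    (hH : ∀ m, ∀ ψ ∈ C m, IsHodgeTensor per ψ) (hd : 2 ≤ finrank ℚ W) {m : ℕ}
    (hm : finrank ℚ W ^ (4 * finrank ℚ W + 13) ≤ m ∨
      (∀ P : Module.End ℚ W, IsHodgeEnd per P →
        (∀ P' : Module.End ℚ W, IsHodgeEnd per P' → P * P' = P' * P) →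
        (∀ u v, ω₀ (P u) v = -ω₀ u (P v)) → P = 0) ∧
      16 * finrank ℚ W ^ 3 * (Nat.log 2 (finrank ℚ W) + 1) ≤ m)
    {B : Submodule ℚ (RF W m)} (hB : ∀ ψ : RF W m, ψ ∈ B ↔ IsHodgeTensor per ψ)
    (hhalf : (m + 2) * finrank ℚ B ≤ (2 * m + 2) * finrank ℚ (C m)) (m' : ℕ)
    (ψ : RF W m') (hψ : IsHodgeTensor per ψ) : ψ ∈ C m' := by
  have hB' : B = Hd per m := by
    ext ψ
    rw [hB]
    rfl
  rw [hB'] at hhalf
  rcases hm with hm | ⟨h4, hm⟩
  · have hN4 : 4 ≤ 4 * (finrank ℚ W * finrank ℚ W) ^ (finrank ℚ W) * finrank ℚ W := by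
      have h1 : 1 ≤ (finrank ℚ W * finrank ℚ W) ^ (finrank ℚ W) * finrank ℚ W := by
        have : 0 < finrank ℚ W := by omega
        exact Nat.succ_le_of_lt (by positivity)
      nlinarith
    have hnum := half_gen (d := finrank ℚ W) (w := 1) (m := m) hd le_rfl (by rwa [mul_one])
    rw [one_mul] at hnum
    exact half_ab hper hω hβ hC hH hN4 (fun P hP _ hsk hkill m ψ hψ =>
      center_all' hper hω hβ P hP hsk hkill m ψ hψ) hnum hhalf m' ψ hψ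
  · refine half_ab hper hω hβ hC hH (le_refl 4) (fun P hP hc hsk _ m ψ _ v => ?_)
      (half_four hd hm) hhalf m' ψ hψ
    rw [h4 P hP hc hsk]
    refine Finset.sum_eq_zero fun k _ => ?_
    rw [LinearMap.zero_apply]
    exact ψ.map_update_zero v k

end

end Pool.Agent.X259.U
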