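import Pool.Agent.X259.U.U25
import Pool.Agent.X259.U.ADefs

/-!
# Operations on Hodge classes and on pairs of conjugate classes
-/

set_option autoImplicit false
set_option linter.unusedSectionVars false
set_option linter.unusedDecidableInType false
set_option linter.unusedFintypeInType false

namespace Pool.Agent.X259.U

open Matrix Finset Module Pool.Agent.H204R3.SP Pool.Agent.H204R3.GP Pool.Agent.W516
  Pool.Agent.X259.T
open scoped ComplexOrder TensorProduct

noncomputable section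

section general

variable {K M : Type} [CommRing K] [AddCommGroup M] [Module K M]

/-- The exterior product, over a ring. -/
def extK {N N' : ℕ} (Ψ : MultilinearMap K (fun _ : Fin N => M) K)
    (Ψ' : MultilinearMap K (fun _ : Fin N' => M) K) :
    MultilinearMap K (fun _ : Fin (N + N') => M) K :=
  ((LinearMap.mul' K K).compMultilinearMap (Ψ.domCoprod Ψ')).domDomCongr finSumFinEquiv

lemma extK_apply {N N' : ℕ} (Ψ : MultilinearMap K (fun _ : Fin N => M) K)
    (Ψ' : MultilinearMap K (fun _ : Fin N' => M) K) (x : Fin (N + N') → M) :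
    extK Ψ Ψ' x = Ψ (fun k => x (Fin.castAdd N' k)) * Ψ' (fun k => x (Fin.natAdd N k)) := by
  rw [extK, MultilinearMap.domDomCongr_apply, LinearMap.compMultilinearMap_apply,
    MultilinearMap.domCoprod_apply, LinearMap.mul'_apply]
  simp only [finSumFinEquiv_apply_left, finSumFinEquiv_apply_right]

/-- The last two variables are fixed, over a ring. -/
def crK {N : ℕ} (x y : M) (Ψ : MultilinearMap K (fun _ : Fin (N + 2) => M) K) :
    MultilinearMap K (fun _ : Fin N => M) K :=
  (LinearMap.applyₗ (R := K) (M := M) (M₂ := K) x).compMultilinearMap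
    ((LinearMap.applyₗ (R := K) (M := M) (M₂ := K) y).compMultilinearMap
      (MultilinearMap.curryRight (n := N + 1) (M := fun _ => M) Ψ)).curryRight

lemma crK_apply {N : ℕ} (x y : M) (Ψ : MultilinearMap K (fun _ : Fin (N + 2) => M) K)
    (v : Fin N → M) : crK x y Ψ v = Ψ (Fin.snoc (Fin.snoc v x : Fin (N + 1) → M) y) := rfl

/-- The bilinear map in the last two variables. -/
def lastK {N : ℕ} (Ψ : MultilinearMap K (fun _ : Fin (N + 2) => M) K) (v : Fin N → M) :
    M →ₗ[K] M →ₗ[K] K :=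
  LinearMap.mk₂ K (fun x y => Ψ (Fin.snoc (Fin.snoc v x : Fin (N + 1) → M) y))
    (fun x x' y => by
      have h : ∀ z : M, (Fin.snoc (Fin.snoc v z : Fin (N + 1) → M) y : Fin (N + 2) → M) =
          Function.update (Fin.snoc (Fin.snoc v x : Fin (N + 1) → M) y : Fin (N + 2) → M)
            (Fin.last N).castSucc z := by
        intro z
        rw [← Fin.snoc_update, Fin.update_snoc_last]
      rw [h (x + x'), MultilinearMap.map_update_add, ← h, ← h])
    (fun a x y => by
      have h : ∀ z : M, (Fin.snoc (Fin.snoc v z : Fin (N + 1) → M) y : Fin (N + 2) → M) =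
          Function.update (Fin.snoc (Fin.snoc v x : Fin (N + 1) → M) y : Fin (N + 2) → M)
            (Fin.last N).castSucc z := by
        intro z
        rw [← Fin.snoc_update, Fin.update_snoc_last]
      rw [h (a • x), MultilinearMap.map_update_smul, ← h])
    (fun x y y' => by
      have h : ∀ z : M, (Fin.snoc (Fin.snoc v x : Fin (N + 1) → M) z : Fin (N + 2) → M) =
          Function.update (Fin.snoc (Fin.snoc v x : Fin (N + 1) → M) y : Fin (N + 2) → M)
            (Fin.last (N + 1)) z := by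
        intro z
        rw [Fin.update_snoc_last]
      rw [h (y + y'), MultilinearMap.map_update_add, ← h, ← h])
    (fun a x y => by
      have h : ∀ z : M, (Fin.snoc (Fin.snoc v x : Fin (N + 1) → M) z : Fin (N + 2) → M) =
          Function.update (Fin.snoc (Fin.snoc v x : Fin (N + 1) → M) y : Fin (N + 2) → M)
            (Fin.last (N + 1)) z := by
        intro z
        rw [Fin.update_snoc_last]
      rw [h (a • y), MultilinearMap.map_update_smul, ← h])

lemma lastK_apply {N : ℕ} (Ψ : MultilinearMap K (fun _ : Fin (N + 2) => M) K) (v : Fin N → M)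
    (x y : M) : lastK Ψ v x y = Ψ (Fin.snoc (Fin.snoc v x : Fin (N + 1) → M) y) := rfl

end general

section hodge

variable {V : Type} [AddCommGroup V] [Module ℚ V] {H : ℤ → ℤ → Submodule ℂ (ℂ ⊗[ℚ] V)}

lemma hodge_add {N : ℕ} {ψ ψ' : HS.Cls V N} (h : HS.IsHodgeClass H ψ) (h' : HS.IsHodgeClass H ψ') :
    HS.IsHodgeClass H (ψ + ψ') := by
  obtain ⟨Ψ, h1, h2⟩ := h
  obtain ⟨Ψ', h1', h2'⟩ := h'
  refine ⟨Ψ + Ψ', fun v => ?_, fun p q x hx hpq => ?_⟩
  · rw [_root_.add_apply, h1, h1', _root_.add_apply, Rat.cast_add]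
  · rw [_root_.add_apply, h2 p q x hx hpq, h2' p q x hx hpq, add_zero]

lemma hodge_zero {N : ℕ} : HS.IsHodgeClass H (0 : HS.Cls V N) :=
  ⟨0, fun v => by rw [_root_.zero_apply, _root_.zero_apply, Rat.cast_zero],
    fun p q x _ _ => _root_.zero_apply x⟩

lemma hodge_smul {N : ℕ} (c : ℚ) {ψ : HS.Cls V N} (h : HS.IsHodgeClass H ψ) :
    HS.IsHodgeClass H (c • ψ) := by
  obtain ⟨Ψ, h1, h2⟩ := h
  refine ⟨(c : ℂ) • Ψ, fun v => ?_, fun p q x hx hpq => ?_⟩
  · rw [_root_.smul_apply, h1, _root_.smul_apply, smul_eq_mul, smul_eq_mul, Rat.cast_mul]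
  · rw [_root_.smul_apply, h2 p q x hx hpq, smul_zero]

lemma hodge_unit {ψ : HS.Cls V 0} (h : ∀ v, ψ v = 1) : HS.IsHodgeClass H ψ := by
  refine ⟨MultilinearMap.constOfIsEmpty ℂ _ 1, fun v => ?_, fun p q x _ hpq => ?_⟩
  · rw [h, Rat.cast_one]
    rfl
  · exact absurd (by rw [Finset.univ_eq_empty, Finset.sum_empty, Finset.sum_empty]) hpq

lemma hodge_perm {N : ℕ} (s : Equiv.Perm (Fin N)) {ψ : HS.Cls V N} (h : HS.IsHodgeClass H ψ) :
    HS.IsHodgeClass H (ψ.domDomCongr s) := by
  obtain ⟨Ψ, h1, h2⟩ := h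
  refine ⟨Ψ.domDomCongr s, fun v => ?_, fun p q x hx hpq => ?_⟩
  · rw [MultilinearMap.domDomCongr_apply, MultilinearMap.domDomCongr_apply, ← h1]
  · rw [MultilinearMap.domDomCongr_apply]
    refine h2 (fun k => p (s k)) (fun k => q (s k)) _ (fun k => hx (s k)) ?_
    rw [Equiv.sum_comp s p, Equiv.sum_comp s q]
    exact hpq

lemma hodge_ap {ε : Module.End ℚ V} (hH : HS.IsHodgeStructure H ε) {N : ℕ} (i : Fin N)
    {ψ : HS.Cls V N} (h : HS.IsHodgeClass H ψ) : HS.IsHodgeClass H (ap i ε ψ) := by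
  obtain ⟨Ψ, h1, h2⟩ := h
  have h3 : ∀ (L : Module.End ℂ (ℂ ⊗[ℚ] V)) (x : Fin N → ℂ ⊗[ℚ] V),
      Ψ.compLinearMap (Function.update (fun _ => LinearMap.id) i L) x =
        Ψ (Function.update x i (L (x i))) := by
    intro L x
    rw [MultilinearMap.compLinearMap_apply]
    congr 1
    funext k
    by_cases h : k = i
    · subst h
      simp
    · simp [h]
  refine ⟨Ψ.compLinearMap (Function.update (fun _ => LinearMap.id) i (ε.baseChange ℂ)),
    fun v => ?_, fun p q x hx hpq => ?_⟩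
  · rw [h3, ap_apply, ← h1]
    congr 1
    funext k
    by_cases h : k = i
    · subst h
      rw [Function.update_self, Function.update_self, LinearMap.baseChange_tmul]
    · rw [Function.update_of_ne h, Function.update_of_ne h]
  · rw [h3, hH.parity _ _ _ (hx i), MultilinearMap.map_update_smul, Function.update_eq_self,
      h2 p q x hx hpq, smul_zero]

lemma hodge_extp {N M : ℕ} {ψ : HS.Cls V N} {ψ' : HS.Cls V M} (h : HS.IsHodgeClass H ψ)
    (h' : HS.IsHodgeClass H ψ') : HS.IsHodgeClass H (extp ψ ψ') := by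
  obtain ⟨Ψ, h1, h2⟩ := h
  obtain ⟨Ψ', h1', h2'⟩ := h'
  refine ⟨extK Ψ Ψ', fun v => ?_, fun p q x hx hpq => ?_⟩
  · rw [extK_apply, h1 fun k => v (Fin.castAdd M k), h1' fun k => v (Fin.natAdd N k),
      extp_ext ψ ψ', Rat.cast_mul]
  · rw [extK_apply]
    by_cases h3 : ∑ k, p (Fin.castAdd M k) = ∑ k, q (Fin.castAdd M k)
    · have h4 : ∑ k, p (Fin.natAdd N k) ≠ ∑ k, q (Fin.natAdd N k) := by
        intro h4
        apply hpq
        rw [Fin.sum_univ_add, Fin.sum_univ_add, h3, h4]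
      rw [h2' (fun k => p (Fin.natAdd N k)) (fun k => q (Fin.natAdd N k)) _
        (fun k => hx (Fin.natAdd N k)) h4, mul_zero]
    · rw [h2 (fun k => p (Fin.castAdd M k)) (fun k => q (Fin.castAdd M k)) _
        (fun k => hx (Fin.castAdd M k)) h3, zero_mul]

end hodge

section contraction

variable {V : Type} [AddCommGroup V] [Module ℚ V] {n : ℕ}

/-- The matrix of the contraction is invariant. -/
lemma Km_inv {e : Basis (Fin n) ℚ V} {Q : V →ₗ[ℚ] V →ₗ[ℚ] ℚ} {P P' : Matrix (Fin n) (Fin n) ℂ}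
    {k : Fin n → ℤ} {ι : Type} [Fintype ι] [DecidableEq ι] {γ γ' : ι → V} (h : P' * P = 1)
    (h' : P * P' = 1) (hinv : wt P P' k * Om e Q = -(Om e Q * (wt P P' k)ᵀ))
    (hγ : ∀ v : V, v = ∑ i, Q v (γ' i) • γ i) :
    (pw P P' k 2)ᵀ * Km e γ γ' * pw P P' k 2 = Km e γ γ' := by
  have hq : dk (Fin 2) (wt P P' k) *ᵥ mt (Om e Q) = 0 := dk_two_zero.2 hinv
  have hq2 : pw P P' k 2 * Om e Q * (pw P P' k 2)ᵀ = Om e Q := by
    have h1 := kr_of_dk' h h' k (two_ne_zero) hq
    ext i j
    have h2 := congrFun h1 ![i, j]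
    have h3 := kr_two (pw P P' k 2) (Om e Q) ![i, j]
    rw [show mt (Om e Q) = fun J => Om e Q (J 0) (J 1) from rfl, h3] at h2
    simpa using h2
  have hK := Om_Km (b := e) hγ
  have e1 : (Km e γ γ') * (Om e Q)ᵀ = 1 := by
    have := congrArg Matrix.transpose (mul_eq_one_comm.1 hK)
    rw [Matrix.transpose_mul, Matrix.transpose_transpose, Matrix.transpose_one] at this
    exact mul_eq_one_comm.1 this
  have e2 : pw P P' k 2 * (Om e Q)ᵀ * (pw P P' k 2)ᵀ = (Om e Q)ᵀ := by
    have := congrArg Matrix.transpose hq2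
    rw [Matrix.transpose_mul, Matrix.transpose_mul, Matrix.transpose_transpose,
      ← mul_assoc] at this
    exact this
  have e3 : ((pw P P' k 2)ᵀ * Km e γ γ' * pw P P' k 2) * (Om e Q)ᵀ = 1 := by
    have e4 : (pw P P' k 2 * (Om e Q)ᵀ) * ((pw P P' k 2)ᵀ * Km e γ γ') = 1 := by
      rw [← mul_assoc, e2]
      exact mul_eq_one_comm.1 e1
    have e5 := mul_eq_one_comm.1 e4
    rw [← e5]
    simp only [mul_assoc]
  exact left_inv_eq_right_inv (mul_eq_one_comm.1 (mul_eq_one_comm.1 e3)) (mul_eq_one_comm.1 e1)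

/-- The contraction in coordinates. -/
lemma gt_cr (e : Basis (Fin n) ℚ V) {ι : Type} [Fintype ι] (a b : ι → V) {N : ℕ}
    (ψ : HS.Cls V (N + 2)) :
    gt e (∑ i, cr (a i) (b i) ψ) =
      cK (Km e a b) (ri (finSumFinEquiv : Fin N ⊕ Fin 2 ≃ Fin (N + 2)).symm (gt e ψ)) := by
  funext J
  rw [gt, _root_.sum_apply, Rat.cast_sum]
  simp only [cK, Km, Finset.sum_mul]
  have hsn : ∀ x y : V, (Fin.snoc (Fin.snoc (fun k => e (J k)) x : Fin (N + 1) → V) y :
      Fin (N + 2) → V) = Function.update (Function.update (Fin.snoc (Fin.snoc (fun k => e (J k)) 0 :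
        Fin (N + 1) → V) 0 : Fin (N + 2) → V) (Fin.last N).castSucc x) (Fin.last (N + 1)) y := by
    intro x y
    rw [← Fin.snoc_update, Fin.update_snoc_last, Fin.update_snoc_last]
  have h1 : ∀ i, ((cr (a i) (b i) ψ (fun k => e (J k)) : ℚ) : ℂ) =
      ∑ y, ∑ z, ((e.repr (a i) y : ℚ) : ℂ) * ((e.repr (b i) z : ℚ) : ℂ) *
        ri (finSumFinEquiv : Fin N ⊕ Fin 2 ≃ Fin (N + 2)).symm (gt e ψ) (Sum.elim J ![y, z]) := by
    intro i
    have h2 : cr (a i) (b i) ψ (fun k => e (J k)) =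
        lastK ψ (fun k => e (J k)) (a i) (b i) := rfl
    rw [h2]
    conv_lhs => rw [← e.sum_repr (a i), ← e.sum_repr (b i)]
    rw [map_sum (lastK ψ fun k => e (J k)), LinearMap.sum_apply, Rat.cast_sum]
    refine Finset.sum_congr rfl fun y _ => ?_
    rw [map_sum, Rat.cast_sum]
    refine Finset.sum_congr rfl fun z _ => ?_
    rw [map_smul, map_smul, LinearMap.smul_apply, smul_eq_mul, smul_eq_mul, Rat.cast_mul,
      Rat.cast_mul, lastK_apply]
    have h3 : (ψ (Fin.snoc (Fin.snoc (fun k => e (J k)) (e y) : Fin (N + 1) → V) (e z)) : ℚ) =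
        ψ fun k => e ((Sum.elim J ![y, z] : Fin N ⊕ Fin 2 → Fin n) (finSumFinEquiv.symm k)) := by
      congr 1
      funext k
      refine Fin.lastCases ?_ (fun k => ?_) k
      · rw [Fin.snoc_last]
        have h4 : (finSumFinEquiv : Fin N ⊕ Fin 2 ≃ Fin (N + 2)).symm (Fin.last (N + 1)) =
            Sum.inr 1 := by
          rw [Equiv.symm_apply_eq]
          rfl
        rw [h4]
        rfl
      · rw [Fin.snoc_castSucc]
        refine Fin.lastCases ?_ (fun k => ?_) k
        · rw [Fin.snoc_last]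
          have h4 : (finSumFinEquiv : Fin N ⊕ Fin 2 ≃ Fin (N + 2)).symm (Fin.last N).castSucc =
              Sum.inr 0 := by
            rw [Equiv.symm_apply_eq]
            rfl
          rw [h4]
          rfl
        · rw [Fin.snoc_castSucc]
          have h4 : (finSumFinEquiv : Fin N ⊕ Fin 2 ≃ Fin (N + 2)).symm k.castSucc.castSucc =
              Sum.inl k := by
            rw [Equiv.symm_apply_eq]
            rfl
          rw [h4]
          rfl
    rw [h3]
    ring_nf
    rfl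
  simp only [h1]
  rw [Finset.sum_comm]
  refine Finset.sum_congr rfl fun y _ => ?_
  rw [Finset.sum_comm]

/-- The contraction of a Hodge class with the inverse of a Hodge form is a Hodge class. -/
lemma hodge_ct [FiniteDimensional ℚ V] {H : ℤ → ℤ → Submodule ℂ (ℂ ⊗[ℚ] V)} {ε : Module.End ℚ V}
    (hH : HS.IsHodgeStructure H ε) {P : V →ₗ[ℚ] V →ₗ[ℚ] ℚ} (hP : HS.IsHodgeClass H (bil P))
    {ι : Type} [Fintype ι] [DecidableEq ι] {a b : ι → V} (hab : ∀ y : V, y = ∑ i, P (b i) y • a i)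
    {N : ℕ} {ψ : HS.Cls V (N + 2)} (hψ : HS.IsHodgeClass H ψ) :
    HS.IsHodgeClass H (∑ i, cr (a i) (b i) ψ) := by
  obtain ⟨vB, kk, hmem, hr⟩ := exists_adapted hH.internal
  rw [hclass_iff (Module.finBasis ℚ V) hmem hr] at hψ ⊢
  have hPH := (bil_hodge (e := Module.finBasis ℚ V) hmem hr).1 hP
  have h1 := conj_hodge hPH (M := 1) (by rw [mul_one, one_mul])
  rw [one_mul] at h1
  have hK := Km_inv (Q := LinearMap.flip P) (e := Module.finBasis ℚ V)
    (PM_mul (Module.finBasis ℚ V) vB) (PM_mul' (Module.finBasis ℚ V) vB) h1 hab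
  refine dk_of_kr (PM_mul (Module.finBasis ℚ V) vB) (PM_mul' (Module.finBasis ℚ V) vB) _ ?_
  rw [gt_cr]
  have h2 := cK_kr (Km (Module.finBasis ℚ V) a b) (pw (PM (Module.finBasis ℚ V) vB)
    (PM' (Module.finBasis ℚ V) vB) (kd kk) 2)
    (ri (finSumFinEquiv : Fin N ⊕ Fin 2 ≃ Fin (N + 2)).symm (gt (Module.finBasis ℚ V) ψ))
  rw [hK, kr_ri, kr_of_dk' (PM_mul (Module.finBasis ℚ V) vB) (PM_mul' (Module.finBasis ℚ V) vB) _
    two_ne_zero hψ] at h2
  exact h2.symm

end contraction

end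

end Pool.Agent.X259.U
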