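import Pool.Agent.X259.U.U27

/-!
# Pairs of conjugate classes
-/

set_option autoImplicit false
set_option linter.unusedSectionVars false
set_option linter.unusedDecidableInType false
set_option linter.unusedFintypeInType false

namespace Pool.Agent.X259.U

open Matrix Finset Module Pool.Agent.H204R3.SP Pool.Agent.H204R3.GP Pool.Agent.W516
  Pool.Agent.X259.T
open scoped ComplexOrder TensorProduct

noncomputable section

variable {V : Type} [AddCommGroup V] [Module ℚ V] {ε : Module.End ℚ V} {X : HS.Conjugate V}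

lemma corr_zero {N : ℕ} : HS.AreConjugate X.σ X.c (0 : HS.Cls V N) (0 : HS.Cls X.V' N) :=
  ⟨0, 0, fun v => by rw [_root_.zero_apply, _root_.zero_apply, map_zero],
    fun v => by rw [_root_.zero_apply, _root_.zero_apply, map_zero],
    fun x => by rw [_root_.zero_apply, _root_.zero_apply, map_zero]⟩

lemma corr_add {N : ℕ} {ψ φ : HS.Cls V N} {ψ' φ' : HS.Cls X.V' N} (h : HS.AreConjugate X.σ X.c ψ ψ')
    (h' : HS.AreConjugate X.σ X.c φ φ') : HS.AreConjugate X.σ X.c (ψ + φ) (ψ' + φ') := by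
  obtain ⟨Ψ, Ψ', h1, h2, h3⟩ := h
  obtain ⟨Φ, Φ', g1, g2, g3⟩ := h'
  exact ⟨Ψ + Φ, Ψ' + Φ', fun v => by rw [_root_.add_apply, h1, g1, _root_.add_apply, map_add],
    fun v => by rw [_root_.add_apply, h2, g2, _root_.add_apply, map_add],
    fun x => by rw [_root_.add_apply, h3, g3, _root_.add_apply, map_add]⟩

lemma corr_smul {N : ℕ} (q : ℚ) {ψ : HS.Cls V N} {ψ' : HS.Cls X.V' N}
    (h : HS.AreConjugate X.σ X.c ψ ψ') : HS.AreConjugate X.σ X.c (q • ψ) (q • ψ') := by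
  obtain ⟨Ψ, Ψ', h1, h2, h3⟩ := h
  refine ⟨algebraMap ℚ X.K q • Ψ, algebraMap ℚ X.K q • Ψ', fun v => ?_, fun v => ?_, fun x => ?_⟩
  · rw [_root_.smul_apply, h1, _root_.smul_apply, smul_eq_mul, smul_eq_mul, map_mul]
  · rw [_root_.smul_apply, h2, _root_.smul_apply, smul_eq_mul, smul_eq_mul, map_mul]
  · rw [_root_.smul_apply, h3, _root_.smul_apply, smul_eq_mul, smul_eq_mul, map_mul]
    congr 1
    exact (RingHom.map_rat_algebraMap (X.σ : X.K →+* X.K) q).symm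

lemma corr_unit {ψ : HS.Cls V 0} {ψ' : HS.Cls X.V' 0} (h : ∀ v, ψ v = 1) (h' : ∀ v, ψ' v = 1) :
    HS.AreConjugate X.σ X.c ψ ψ' := by
  refine ⟨MultilinearMap.constOfIsEmpty X.K _ 1, MultilinearMap.constOfIsEmpty X.K _ 1,
    fun v => ?_, fun v => ?_, fun x => ?_⟩
  · rw [h, map_one]
    rfl
  · rw [h', map_one]
    rfl
  · exact (map_one X.σ).symm

lemma corr_perm {N : ℕ} (s : Equiv.Perm (Fin N)) {ψ : HS.Cls V N} {ψ' : HS.Cls X.V' N}
    (h : HS.AreConjugate X.σ X.c ψ ψ') : HS.AreConjugate X.σ X.c (ψ.domDomCongr s) (ψ'.domDomCongr s) := by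
  obtain ⟨Ψ, Ψ', h1, h2, h3⟩ := h
  exact ⟨Ψ.domDomCongr s, Ψ'.domDomCongr s,
    fun v => by rw [MultilinearMap.domDomCongr_apply, MultilinearMap.domDomCongr_apply, ← h1],
    fun v => by rw [MultilinearMap.domDomCongr_apply, MultilinearMap.domDomCongr_apply, ← h2],
    fun x => by rw [MultilinearMap.domDomCongr_apply, MultilinearMap.domDomCongr_apply, ← h3]⟩

lemma apK {K M : Type} [CommRing K] [AddCommGroup M] [Module K M] {N : ℕ}
    (Ψ : MultilinearMap K (fun _ : Fin N => M) K) (i : Fin N) (L : Module.End K M)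
    (x : Fin N → M) : Ψ.compLinearMap (Function.update (fun _ => LinearMap.id) i L) x =
      Ψ (Function.update x i (L (x i))) := by
  rw [MultilinearMap.compLinearMap_apply]
  congr 1
  funext k
  by_cases h : k = i
  · subst h
    simp
  · simp [h]

lemma corr_ap (hX : HS.IsConjugate ε X) {N : ℕ} (i : Fin N) {ψ : HS.Cls V N}
    {ψ' : HS.Cls X.V' N} (h : HS.AreConjugate X.σ X.c ψ ψ') :
    HS.AreConjugate X.σ X.c (ap i ε ψ) (ap i X.ε' ψ') := by
  obtain ⟨Ψ, Ψ', h1, h2, h3⟩ := h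
  refine ⟨Ψ.compLinearMap (Function.update (fun _ => LinearMap.id) i (ε.baseChange X.K)),
    Ψ'.compLinearMap (Function.update (fun _ => LinearMap.id) i (X.ε'.baseChange X.K)),
    fun v => ?_, fun v => ?_, fun x => ?_⟩
  · rw [apK, ap_apply, ← h1]
    congr 1
    funext k
    by_cases h : k = i
    · subst h
      rw [Function.update_self, Function.update_self, LinearMap.baseChange_tmul]
    · rw [Function.update_of_ne h, Function.update_of_ne h]
  · rw [apK, ap_apply, ← h2]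
    congr 1
    funext k
    by_cases h : k = i
    · subst h
      rw [Function.update_self, Function.update_self, LinearMap.baseChange_tmul]
    · rw [Function.update_of_ne h, Function.update_of_ne h]
  · rw [apK, apK, ← h3]
    congr 1
    funext k
    by_cases h : k = i
    · subst h
      rw [Function.update_self, Function.update_self, hX.parity]
    · rw [Function.update_of_ne h, Function.update_of_ne h]

lemma corr_extp {N M : ℕ} {ψ : HS.Cls V N} {ψ' : HS.Cls X.V' N} {φ : HS.Cls V M}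
    {φ' : HS.Cls X.V' M} (h : HS.AreConjugate X.σ X.c ψ ψ') (h' : HS.AreConjugate X.σ X.c φ φ') :
    HS.AreConjugate X.σ X.c (extp ψ φ) (extp ψ' φ') := by
  obtain ⟨Ψ, Ψ', h1, h2, h3⟩ := h
  obtain ⟨Φ, Φ', g1, g2, g3⟩ := h'
  refine ⟨extK Ψ Φ, extK Ψ' Φ', fun v => ?_, fun v => ?_, fun x => ?_⟩
  · rw [extK_apply, h1 fun k => v (Fin.castAdd M k), g1 fun k => v (Fin.natAdd N k),
      extp_ext ψ φ, map_mul]
  · rw [extK_apply, h2 fun k => v (Fin.castAdd M k), g2 fun k => v (Fin.natAdd N k),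
      extp_ext ψ' φ', map_mul]
  · rw [extK_apply, extK_apply, h3 fun k => x (Fin.castAdd M k), g3 fun k => x (Fin.natAdd N k),
      map_mul]

section dual

variable {K : Type} [CommRing K] [Algebra ℚ K] {W : Type} [AddCommGroup W] [Module ℚ W]
  {P : W →ₗ[ℚ] W →ₗ[ℚ] ℚ} {PK : K ⊗[ℚ] W →ₗ[K] K ⊗[ℚ] W →ₗ[K] K}
  (hPK : ∀ x y : W, PK (1 ⊗ₜ x) (1 ⊗ₜ y) = algebraMap ℚ K (P x y))
  {ι : Type} [Fintype ι] {a b : ι → W}

include hPK in
lemma dual_ext (hab : ∀ y : W, y = ∑ i, P (b i) y • a i) (z : K ⊗[ℚ] W) :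
    z = ∑ i, PK (1 ⊗ₜ b i) z • ((1 : K) ⊗ₜ[ℚ] a i) := by
  induction z using TensorProduct.induction_on with
  | zero => simp
  | add x y hx hy =>
    conv_lhs => rw [hx, hy]
    rw [← Finset.sum_add_distrib]
    exact Finset.sum_congr rfl fun i _ => by rw [map_add, add_smul]
  | tmul k y =>
    have h1 : k ⊗ₜ[ℚ] y = k • ((1 : K) ⊗ₜ[ℚ] y) := by rw [TensorProduct.smul_tmul', smul_eq_mul,
      mul_one]
    rw [h1]
    have h2 : (1 : K) ⊗ₜ[ℚ] y = ∑ i, PK (1 ⊗ₜ b i) (1 ⊗ₜ y) • ((1 : K) ⊗ₜ[ℚ] a i) := by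
      conv_lhs => rw [hab y]
      rw [TensorProduct.tmul_sum]
      refine Finset.sum_congr rfl fun i _ => ?_
      rw [hPK, TensorProduct.tmul_smul, algebraMap_smul]
    conv_lhs => rw [h2]
    rw [Finset.smul_sum]
    exact Finset.sum_congr rfl fun i _ => by rw [map_smul, smul_eq_mul, mul_smul]

include hPK in
lemma dual_ext' (hab : ∀ y : W, y = ∑ i, P y (a i) • b i) (z : K ⊗[ℚ] W) :
    z = ∑ i, PK z (1 ⊗ₜ a i) • ((1 : K) ⊗ₜ[ℚ] b i) := by
  induction z using TensorProduct.induction_on with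
  | zero => simp
  | add x y hx hy =>
    conv_lhs => rw [hx, hy]
    rw [← Finset.sum_add_distrib]
    exact Finset.sum_congr rfl fun i _ => by rw [map_add, LinearMap.add_apply, add_smul]
  | tmul k y =>
    have h1 : k ⊗ₜ[ℚ] y = k • ((1 : K) ⊗ₜ[ℚ] y) := by rw [TensorProduct.smul_tmul', smul_eq_mul,
      mul_one]
    rw [h1]
    have h2 : (1 : K) ⊗ₜ[ℚ] y = ∑ i, PK (1 ⊗ₜ y) (1 ⊗ₜ a i) • ((1 : K) ⊗ₜ[ℚ] b i) := by
      conv_lhs => rw [hab y]
      rw [TensorProduct.tmul_sum]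
      refine Finset.sum_congr rfl fun i _ => ?_
      rw [hPK, TensorProduct.tmul_smul, algebraMap_smul]
    conv_lhs => rw [h2]
    rw [Finset.smul_sum]
    exact Finset.sum_congr rfl fun i _ => by
      rw [map_smul, LinearMap.smul_apply, smul_eq_mul, mul_smul]

lemma dual_left (hnd : ∀ x : W, (∀ y, P x y = 0) → x = 0)
    (hab : ∀ y : W, y = ∑ i, P (b i) y • a i) (y : W) : y = ∑ i, P y (a i) • b i := by
  rw [← sub_eq_zero]
  refine hnd _ fun z => ?_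
  rw [map_sub, LinearMap.sub_apply, map_sum, LinearMap.sum_apply, sub_eq_zero]
  conv_lhs => rw [hab z]
  rw [map_sum]
  refine Finset.sum_congr rfl fun i _ => ?_
  rw [map_smul, map_smul, LinearMap.smul_apply, smul_eq_mul, smul_eq_mul, mul_comm]

end dual

/-- The bilinear form of a class in two variables. -/
def bilK {K M : Type} [CommRing K] [AddCommGroup M] [Module K M]
    (Ψ : MultilinearMap K (fun _ : Fin 2 => M) K) : M →ₗ[K] M →ₗ[K] K :=
  lastK (N := 0) Ψ ![]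

lemma bilK_apply {K M : Type} [CommRing K] [AddCommGroup M] [Module K M]
    (Ψ : MultilinearMap K (fun _ : Fin 2 => M) K) (x y : M) : bilK Ψ x y = Ψ ![x, y] := by
  rw [bilK, lastK_apply]
  congr 1
  funext k
  fin_cases k <;> rfl

lemma bil_bilK {W : Type} [AddCommGroup W] [Module ℚ W] (ψ : HS.Cls W 2) : bil (bilK ψ) = ψ := by
  refine MultilinearMap.ext fun (v : Fin 2 → W) => ?_
  rw [bil_apply, bilK_apply]
  congr 1
  funext k
  fin_cases k <;> rfl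

lemma c_zero (hX : HS.IsConjugate ε X) : X.c 0 = 0 := by
  have h := hX.semilinear.smul 0 0
  rwa [zero_smul, map_zero, zero_smul] at h

lemma c_sum (hX : HS.IsConjugate ε X) {ι : Type} (s : Finset ι) (f : ι → X.K ⊗[ℚ] V) :
    X.c (∑ i ∈ s, f i) = ∑ i ∈ s, X.c (f i) := by
  let g : X.K ⊗[ℚ] V →+ X.K ⊗[ℚ] X.V' := ⟨⟨X.c, c_zero hX⟩, hX.semilinear.add⟩
  exact map_sum g f s

/-- Data of the comparison for a nondegenerate form. -/
lemma corr_form {P : V →ₗ[ℚ] V →ₗ[ℚ] ℚ} {P' : X.V' →ₗ[ℚ] X.V' →ₗ[ℚ] ℚ}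
    (hPP : HS.AreConjugate X.σ X.c (bil P) (bil P')) :
    ∃ (PK : X.K ⊗[ℚ] V →ₗ[X.K] X.K ⊗[ℚ] V →ₗ[X.K] X.K)
      (PK' : X.K ⊗[ℚ] X.V' →ₗ[X.K] X.K ⊗[ℚ] X.V' →ₗ[X.K] X.K),
      (∀ x y : V, PK (1 ⊗ₜ x) (1 ⊗ₜ y) = algebraMap ℚ X.K (P x y)) ∧
      (∀ x y : X.V', PK' (1 ⊗ₜ x) (1 ⊗ₜ y) = algebraMap ℚ X.K (P' x y)) ∧
      ∀ x y, PK' (X.c x) (X.c y) = X.σ (PK x y) := by
  obtain ⟨Φ, Φ', g1, g2, g3⟩ := hPP
  refine ⟨bilK Φ, bilK Φ', fun x y => ?_, fun x y => ?_, fun x y => ?_⟩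
  · rw [bilK_apply]
    have h1 := g1 ![x, y]
    rw [bil_apply] at h1
    refine Eq.trans ?_ h1
    congr 1
    funext k
    fin_cases k <;> rfl
  · rw [bilK_apply]
    have h1 := g2 ![x, y]
    rw [bil_apply] at h1
    refine Eq.trans ?_ h1
    congr 1
    funext k
    fin_cases k <;> rfl
  · rw [bilK_apply, bilK_apply, ← g3]
    congr 1
    funext k
    fin_cases k <;> rfl

/-- The conjugate of a nondegenerate form is nondegenerate. -/
lemma corr_nd (hX : HS.IsConjugate ε X) {P : V →ₗ[ℚ] V →ₗ[ℚ] ℚ}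
    (hnd : ∀ x : V, (∀ y, P x y = 0) → x = 0) {P' : X.V' →ₗ[ℚ] X.V' →ₗ[ℚ] ℚ}
    (hPP : HS.AreConjugate X.σ X.c (bil P) (bil P')) {ι : Type} [Fintype ι] {a b : ι → V}
    (hab : ∀ y : V, y = ∑ i, P (b i) y • a i) (x : X.V') (hx : ∀ y, P' x y = 0) : x = 0 := by
  obtain ⟨PK, PK', h1, h2, h3⟩ := corr_form hPP
  obtain ⟨z, hz⟩ := hX.semilinear.bijective.2 (1 ⊗ₜ[ℚ] x)
  have h4 : ∀ w : X.K ⊗[ℚ] X.V', PK' (1 ⊗ₜ x) w = 0 := by
    intro w
    induction w using TensorProduct.induction_on with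
    | zero => rw [map_zero]
    | add u v hu hv => rw [map_add, hu, hv, add_zero]
    | tmul k y =>
      have h5 : k ⊗ₜ[ℚ] y = k • ((1 : X.K) ⊗ₜ[ℚ] y) := by
        rw [TensorProduct.smul_tmul', smul_eq_mul, mul_one]
      rw [h5, map_smul, h2, hx, map_zero, smul_zero]
  have h5 : ∀ w, PK z w = 0 := by
    intro w
    have h6 := h3 z w
    rw [hz, h4] at h6
    exact (map_eq_zero_iff X.σ X.σ.injective).1 h6.symm
  have h6 : z = 0 := by
    rw [dual_ext' h1 (dual_left hnd hab) z]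
    exact Finset.sum_eq_zero fun i _ => by rw [h5, zero_smul]
  rw [h6, c_zero hX] at hz
  have hfin := hX.finite
  have hnt := hX.nontrivial
  let e := Module.finBasis ℚ X.V'
  apply e.repr.injective
  ext j
  have h7 : (e.baseChange X.K).repr ((1 : X.K) ⊗ₜ[ℚ] x) j = 0 := by
    rw [← hz, map_zero]
    rfl
  rw [Basis.baseChange_repr_tmul] at h7
  rw [map_zero, Finsupp.zero_apply]
  have h8 : algebraMap ℚ X.K (e.repr x j) = 0 := by
    rw [Algebra.algebraMap_eq_smul_one]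
    exact h7
  exact (map_eq_zero_iff _ (algebraMap ℚ X.K).injective).1 h8

/-- The contraction. -/
lemma corr_ct (hX : HS.IsConjugate ε X) {P : V →ₗ[ℚ] V →ₗ[ℚ] ℚ}
    (hnd : ∀ x : V, (∀ y, P x y = 0) → x = 0) {P' : X.V' →ₗ[ℚ] X.V' →ₗ[ℚ] ℚ}
    (hPP : HS.AreConjugate X.σ X.c (bil P) (bil P')) {ι ι' : Type} [Fintype ι] [Fintype ι'] {a b : ι → V}
    (hab : ∀ y : V, y = ∑ i, P (b i) y • a i) {a' b' : ι' → X.V'}
    (hab' : ∀ y : X.V', y = ∑ i, P' (b' i) y • a' i) {N : ℕ} {ψ : HS.Cls V (N + 2)}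
    {ψ' : HS.Cls X.V' (N + 2)} (h : HS.AreConjugate X.σ X.c ψ ψ') :
    HS.AreConjugate X.σ X.c (∑ i, cr (a i) (b i) ψ) (∑ i, cr (a' i) (b' i) ψ') := by
  obtain ⟨PK, PK', g1, g2, g3⟩ := corr_form hPP
  obtain ⟨Ψ, Ψ', h1, h2, h3⟩ := h
  refine ⟨∑ i, crK (1 ⊗ₜ a i) (1 ⊗ₜ b i) Ψ, ∑ i, crK (1 ⊗ₜ a' i) (1 ⊗ₜ b' i) Ψ',
    fun v => ?_, fun v => ?_, fun x => ?_⟩
  · rw [_root_.sum_apply, _root_.sum_apply, map_sum]
    refine Finset.sum_congr rfl fun i _ => ?_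
    rw [crK_apply, cr_apply, ← h1]
    congr 1
    funext k
    refine Fin.lastCases ?_ (fun k => ?_) k
    · rw [Fin.snoc_last, Fin.snoc_last]
    · rw [Fin.snoc_castSucc, Fin.snoc_castSucc]
      refine Fin.lastCases ?_ (fun k => ?_) k
      · rw [Fin.snoc_last, Fin.snoc_last]
      · rw [Fin.snoc_castSucc, Fin.snoc_castSucc]
  · rw [_root_.sum_apply, _root_.sum_apply, map_sum]
    refine Finset.sum_congr rfl fun i _ => ?_
    rw [crK_apply, cr_apply, ← h2]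
    congr 1
    funext k
    refine Fin.lastCases ?_ (fun k => ?_) k
    · rw [Fin.snoc_last, Fin.snoc_last]
    · rw [Fin.snoc_castSucc, Fin.snoc_castSucc]
      refine Fin.lastCases ?_ (fun k => ?_) k
      · rw [Fin.snoc_last, Fin.snoc_last]
      · rw [Fin.snoc_castSucc, Fin.snoc_castSucc]
  · rw [_root_.sum_apply, _root_.sum_apply, map_sum]
    have h4 : ∀ i, X.σ (crK ((1 : X.K) ⊗ₜ[ℚ] a i) (1 ⊗ₜ[ℚ] b i) Ψ x) =
        lastK Ψ' (fun k => X.c (x k)) (X.c (1 ⊗ₜ a i)) (X.c (1 ⊗ₜ b i)) := by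
      intro i
      rw [crK_apply, ← h3, lastK_apply]
      congr 1
      funext k
      refine Fin.lastCases ?_ (fun k => ?_) k
      · rw [Fin.snoc_last, Fin.snoc_last]
      · rw [Fin.snoc_castSucc, Fin.snoc_castSucc]
        refine Fin.lastCases ?_ (fun k => ?_) k
        · rw [Fin.snoc_last, Fin.snoc_last]
        · rw [Fin.snoc_castSucc, Fin.snoc_castSucc]
    have h5 : ∀ i, crK ((1 : X.K) ⊗ₜ[ℚ] a' i) (1 ⊗ₜ[ℚ] b' i) Ψ' (fun k => X.c (x k)) =
        lastK Ψ' (fun k => X.c (x k)) (1 ⊗ₜ a' i) (1 ⊗ₜ b' i) := fun i => rfl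
    simp only [h4, h5]
    set B := lastK Ψ' (fun k => X.c (x k)) with hB
    have d1 := dual_ext g2 hab'
    have d2 : ∀ z, z = ∑ i, PK' z (X.c (1 ⊗ₜ a i)) • X.c (1 ⊗ₜ b i) := by
      intro z
      obtain ⟨w, rfl⟩ := hX.semilinear.bijective.2 z
      conv_lhs => rw [dual_ext' g1 (dual_left hnd hab) w]
      rw [c_sum hX]
      exact Finset.sum_congr rfl fun i _ => by rw [hX.semilinear.smul, g3]
    have h6 : ∀ i, B (X.c (1 ⊗ₜ a i)) (X.c (1 ⊗ₜ b i)) =
        ∑ j, PK' (1 ⊗ₜ b' j) (X.c (1 ⊗ₜ a i)) • B (1 ⊗ₜ a' j) (X.c (1 ⊗ₜ b i)) := by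
      intro i
      conv_lhs => rw [d1 (X.c (1 ⊗ₜ a i))]
      rw [map_sum, LinearMap.sum_apply]
      exact Finset.sum_congr rfl fun j _ => by rw [map_smul, LinearMap.smul_apply]
    rw [Finset.sum_congr rfl fun i _ => h6 i, Finset.sum_comm]
    refine Finset.sum_congr rfl fun j _ => ?_
    conv_lhs => rw [d2 (1 ⊗ₜ b' j)]
    rw [map_sum]
    exact Finset.sum_congr rfl fun i _ => by rw [map_smul]

end

end Pool.Agent.X259.U
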