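import Pool.Agent.X259.U.U28

/-!
# The absolute Hodge classes form a cycle family
-/

set_option autoImplicit false
set_option linter.unusedSectionVars false
set_option linter.unusedDecidableInType false
set_option linter.unusedFintypeInType false

namespace Pool.Agent.X259.U

open Matrix Finset Module Pool.Agent.H204R3.SP Pool.Agent.H204R3.GP Pool.Agent.W516
  Pool.Agent.X259.T
open scoped ComplexOrder TensorProduct

noncomputable section

/-- Dual families for a nondegenerate form. -/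
lemma exists_dual_form {W : Type} [AddCommGroup W] [Module ℚ W] [FiniteDimensional ℚ W]
    {P : W →ₗ[ℚ] W →ₗ[ℚ] ℚ} (hnd : ∀ x : W, (∀ y, P x y = 0) → x = 0) :
    ∃ a b : Fin (finrank ℚ W) → W, ∀ y : W, y = ∑ i, P (b i) y • a i := by
  have hinj : Function.Injective P := by
    rw [← LinearMap.ker_eq_bot, LinearMap.ker_eq_bot']
    intro v hv
    exact hnd v fun u => congrArg (fun f : W →ₗ[ℚ] ℚ => f u) hv
  have hsurj : Function.Surjective P :=
    (LinearMap.injective_iff_surjective_of_finrank_eq_finrank Subspace.dual_finrank_eq.symm).1 hinj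
  let e := Module.finBasis ℚ W
  choose b hb using fun i => hsurj (e.coord i)
  refine ⟨e, b, fun w => ?_⟩
  conv_lhs => rw [← e.sum_repr w]
  refine Finset.sum_congr rfl fun i _ => ?_
  have h1 : P (b i) w = e.coord i w := congrArg (fun f : W →ₗ[ℚ] ℚ => f w) (hb i)
  rw [h1, Basis.coord_apply]

variable {V : Type} [AddCommGroup V] [Module ℚ V] {ε : Module.End ℚ V}

/-- The exchange is unique. -/
lemma exch_unique (hε : ε * ε = 1) {N : ℕ} (i : Fin N) {ψ ψ' : HS.Cls V (N + 1)}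
    (h : HS.IsExchange ε i ψ ψ') : ψ' = fo ε i (tr i ψ) := by
  have hε' : ∀ x, ε (ε x) = x := fun x => congrArg (fun f : Module.End ℚ V => f x) hε
  rw [← sub_eq_zero]
  set D := ψ' - fo ε i (tr i ψ) with hD
  have h0 : ∀ (v : Fin (N + 1) → V) (a b : ℕ), ε (v i.castSucc) = (-1 : ℚ) ^ a • v i.castSucc →
      ε (v i.succ) = (-1 : ℚ) ^ b • v i.succ → D v = 0 := by
    intro v a b ha hb
    rw [hD, _root_.sub_apply, h v a b ha hb, sg_exchange (ε := ε) i ψ v a b ha hb, sub_self]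
  have hsplit : ∀ x : V, x = (1 / 2 : ℚ) • (x + ε x) + (1 / 2 : ℚ) • (x - ε x) := by
    intro x
    module
  have hp : ∀ x : V, ε ((1 / 2 : ℚ) • (x + ε x)) = (-1 : ℚ) ^ 0 • ((1 / 2 : ℚ) • (x + ε x)) := by
    intro x
    rw [map_smul, map_add, hε', pow_zero, one_smul, add_comm]
  have hm : ∀ x : V, ε ((1 / 2 : ℚ) • (x - ε x)) = (-1 : ℚ) ^ 1 • ((1 / 2 : ℚ) • (x - ε x)) := by
    intro x
    rw [map_smul, map_sub, hε', pow_one]
    module
  have h1 : ∀ (v : Fin (N + 1) → V) (a : ℕ), ε (v i.castSucc) = (-1 : ℚ) ^ a • v i.castSucc →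
      D v = 0 := by
    intro v a ha
    have h2 : v = Function.update v i.succ
        ((1 / 2 : ℚ) • (v i.succ + ε (v i.succ)) + (1 / 2 : ℚ) • (v i.succ - ε (v i.succ))) := by
      rw [← hsplit, Function.update_eq_self]
    have h3 : ∀ y : V, Function.update v i.succ y i.castSucc = v i.castSucc := fun y =>
      Function.update_of_ne (cs_ne i) _ _
    rw [h2, MultilinearMap.map_update_add, h0 _ a 0, h0 _ a 1, add_zero]
    · rw [h3]
      exact ha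
    · rw [Function.update_self]
      exact hm _
    · rw [h3]
      exact ha
    · rw [Function.update_self]
      exact hp _
  ext v
  have h2 : v = Function.update v i.castSucc
      ((1 / 2 : ℚ) • (v i.castSucc + ε (v i.castSucc)) +
        (1 / 2 : ℚ) • (v i.castSucc - ε (v i.castSucc))) := by
    rw [← hsplit, Function.update_eq_self]
  rw [h2, MultilinearMap.map_update_add, h1 _ 0, h1 _ 1, add_zero]
  · rfl
  · rw [Function.update_self]
    exact hm _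
  · rw [Function.update_self]
    exact hp _

section ah

variable {H : ℤ → ℤ → Submodule ℂ (ℂ ⊗[ℚ] V)} {κ : Type} {S : κ → HS.Conjugate V}

lemma ah_add {N : ℕ} {ψ ψ' : HS.Cls V N} (h : HS.IsAbsoluteHodge H S ψ)
    (h' : HS.IsAbsoluteHodge H S ψ') : HS.IsAbsoluteHodge H S (ψ + ψ') := by
  refine ⟨hodge_add h.1 h'.1, fun i => ?_⟩
  obtain ⟨φ, h1, h2⟩ := h.2 i
  obtain ⟨φ', h1', h2'⟩ := h'.2 i
  exact ⟨φ + φ', hodge_add h1 h1', corr_add h2 h2'⟩

lemma ah_zero {N : ℕ} : HS.IsAbsoluteHodge H S (0 : HS.Cls V N) :=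
  ⟨hodge_zero, fun _ => ⟨0, hodge_zero, corr_zero⟩⟩

lemma ah_smul {N : ℕ} (q : ℚ) {ψ : HS.Cls V N} (h : HS.IsAbsoluteHodge H S ψ) :
    HS.IsAbsoluteHodge H S (q • ψ) := by
  refine ⟨hodge_smul q h.1, fun i => ?_⟩
  obtain ⟨φ, h1, h2⟩ := h.2 i
  exact ⟨q • φ, hodge_smul q h1, corr_smul q h2⟩

lemma ah_perm {N : ℕ} (s : Equiv.Perm (Fin N)) {ψ : HS.Cls V N} (h : HS.IsAbsoluteHodge H S ψ) :
    HS.IsAbsoluteHodge H S (ψ.domDomCongr s) := by
  refine ⟨hodge_perm s h.1, fun i => ?_⟩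
  obtain ⟨φ, h1, h2⟩ := h.2 i
  exact ⟨φ.domDomCongr s, hodge_perm s h1, corr_perm s h2⟩

variable (hH : HS.IsHodgeStructure H ε) (hS : ∀ i, HS.IsConjugate ε (S i))

include hH hS in
lemma ah_ap {N : ℕ} (i : Fin N) {ψ : HS.Cls V N} (h : HS.IsAbsoluteHodge H S ψ) :
    HS.IsAbsoluteHodge H S (ap i ε ψ) := by
  refine ⟨hodge_ap hH i h.1, fun s => ?_⟩
  obtain ⟨φ, h1, h2⟩ := h.2 s
  exact ⟨ap i (S s).ε' φ, hodge_ap (hS s).hodge i h1, corr_ap (hS s) i h2⟩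

lemma ah_extp {N M : ℕ} {ψ : HS.Cls V N} {φ : HS.Cls V M} (h : HS.IsAbsoluteHodge H S ψ)
    (h' : HS.IsAbsoluteHodge H S φ) : HS.IsAbsoluteHodge H S (extp ψ φ) := by
  refine ⟨hodge_extp h.1 h'.1, fun s => ?_⟩
  obtain ⟨ψ', h1, h2⟩ := h.2 s
  obtain ⟨φ', g1, g2⟩ := h'.2 s
  exact ⟨extp ψ' φ', hodge_extp h1 g1, corr_extp h2 g2⟩

include hH hS in
lemma ah_fo {N : ℕ} (i : Fin N) {ψ : HS.Cls V (N + 1)} (h : HS.IsAbsoluteHodge H S ψ) :
    HS.IsAbsoluteHodge H S (fo ε i ψ) := by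
  refine ah_smul _ ?_
  rw [sub_eq_add_neg, ← neg_one_smul ℚ]
  refine ah_add (ah_add (ah_add h (ah_ap hH hS _ h)) (ah_ap hH hS _ h)) (ah_smul _ ?_)
  exact ah_ap hH hS _ (ah_ap hH hS _ h)

include hH hS in
lemma ah_ct [FiniteDimensional ℚ V] {P : V →ₗ[ℚ] V →ₗ[ℚ] ℚ}
    (hnd : ∀ x : V, (∀ y, P x y = 0) → x = 0) (hP : HS.IsAbsoluteHodge H S (bil P))
    {ι : Type} [Fintype ι] [DecidableEq ι] {a b : ι → V} (hab : ∀ y : V, y = ∑ i, P (b i) y • a i)
    {N : ℕ} {ψ : HS.Cls V (N + 2)} (h : HS.IsAbsoluteHodge H S ψ) :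
    HS.IsAbsoluteHodge H S (∑ i, cr (a i) (b i) ψ) := by
  refine ⟨hodge_ct hH hP.1 hab h.1, fun s => ?_⟩
  obtain ⟨ψ', h1, h2⟩ := h.2 s
  obtain ⟨φ', g1, g2⟩ := hP.2 s
  have hfin := (hS s).finite
  rw [← bil_bilK φ'] at g1 g2
  obtain ⟨a', b', hab'⟩ := exists_dual_form (corr_nd (hS s) hnd g2 hab)
  exact ⟨∑ i, cr (a' i) (b' i) ψ', hodge_ct (hS s).hodge g1 hab' h1,
    corr_ct (hS s) hnd g2 hab hab' h2⟩

include hH hS in
/-- The absolute Hodge classes form a cycle family. -/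
theorem ah_cycle [FiniteDimensional ℚ V] {P : LinearMap.BilinForm ℚ V} {one point : V}
    (hε : ε * ε = 1) (hP : HS.IsPoincare ε P one point)
    (hdiag : ∀ ψ : HS.Cls V 2, (∀ v, ψ v = P (v 0) (v 1)) → HS.IsAbsoluteHodge H S ψ)
    (hfund : ∀ ψ : HS.Cls V 1, (∀ v, ψ v = P (v 0) one) → HS.IsAbsoluteHodge H S ψ)
    (hpoint : ∀ ψ : HS.Cls V 1, (∀ v, ψ v = P point (v 0)) → HS.IsAbsoluteHodge H S ψ)
    {A : ∀ N : ℕ, Submodule ℚ (HS.Cls V N)}
    (hA : ∀ (N : ℕ) (ψ : HS.Cls V N), ψ ∈ A N ↔ HS.IsAbsoluteHodge H S ψ) :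
    HS.IsCycleFamily H ε P one point A where
  hodge N ψ hψ := ((hA N ψ).1 hψ).1
  unit ψ h := (hA 0 ψ).2 ⟨hodge_unit h, fun s =>
    ⟨MultilinearMap.constOfIsEmpty ℚ _ 1, hodge_unit fun _ => rfl, corr_unit h fun _ => rfl⟩⟩
  fundamental ψ h := (hA 1 ψ).2 (hfund ψ h)
  point ψ h := (hA 1 ψ).2 (hpoint ψ h)
  diagonal ψ h := (hA 2 ψ).2 (hdiag ψ h)
  exchange N i ψ hψ ψ' h := by
    rw [hA] at hψ ⊢
    rw [exch_unique hε i h]
    exact ah_fo hH hS i (ah_perm _ hψ)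
  exterior N M ψ hψ ψ' hψ' ψ'' h := by
    rw [hA] at hψ hψ' ⊢
    have h1 : ψ'' = extp ψ ψ' := MultilinearMap.ext fun v => by rw [h, extp_ext ψ ψ']
    rw [h1]
    exact ah_extp hψ hψ'
  image N ψ hψ ψ' h := by
    rw [hA] at hψ ⊢
    obtain ⟨a, b, hab, h⟩ := h
    have h1 : ψ' = ∑ i, cr (a i) (b i) ψ := MultilinearMap.ext fun v => by
      rw [h, _root_.sum_apply]
      rfl
    rw [h1]
    exact ah_ct hH hS hP.nondeg (hdiag (bil P) fun v => rfl) hab hψ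

end ah

end

end Pool.Agent.X259.U
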