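import Pool.Agent.X259.U.U2

/-!
# Coordinates in standard form, for a given basis
-/

set_option autoImplicit false
set_option linter.unusedSectionVars false
set_option linter.unusedDecidableInType false
set_option linter.unusedFintypeInType false

namespace Pool.Agent.X259.U

open Matrix Finset Module Pool.Agent.H204R3.SP Pool.Agent.H204R3.GP Pool.Agent.W516
  Pool.Agent.X259.T

noncomputable section

variable {W T : Type} [AddCommGroup W] [Module ℚ W] [AddCommGroup T] [Module ℂ T]

/-- Coordinates in standard form for a given basis. -/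
theorem exists_frame_of {g : ℕ} (hg : finrank ℂ T = g) (per : W →+ T)
    (ω₀ : W →ₗ[ℚ] W →ₗ[ℚ] ℚ) (b : Basis (Fin g ⊕ Fin g) ℚ W) (b' : Basis (Fin g ⊕ Fin g) ℝ T)
    (hb : ∀ i, b' i = per (b i))
    (E : T →ₗ[ℝ] T →ₗ[ℝ] ℝ) (hE : ∀ x y, E (per x) (per y) = ω₀ x y)
    (hinv : ∀ z : ℂ, ‖z‖ = 1 → ∀ u v, E (z • u) (z • v) = E u v) (halt : ∀ u, E u u = 0)
    (hpos : ∀ u, u ≠ 0 → 0 < E (Complex.I • u) u) :
    ∃ (S S' : Matrix (Fin g ⊕ Fin g) (Fin g ⊕ Fin g) ℂ),
      Frame per ω₀ b b' (fun _ => ()) Sum.swap (Sum.elim (fun _ => 1) (fun _ => -1)) S S' := by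
  subst hg
  have hfR : FiniteDimensional ℝ T := Module.Finite.of_basis b'
  have hfC : FiniteDimensional ℂ T := Module.Finite.of_restrictScalars_finite ℝ ℂ T
  obtain ⟨t, ht1, ht2⟩ := exists_unitary E hinv halt hpos
  let r : ℝ := 1 / Real.sqrt 2
  have hr : r * r = 1 / 2 := by
    change 1 / Real.sqrt 2 * (1 / Real.sqrt 2) = _
    rw [div_mul_div_comm, one_mul, Real.mul_self_sqrt (by norm_num)]
  let inv : Fin (finrank ℂ T) ⊕ Fin (finrank ℂ T) → Fin (finrank ℂ T) ⊕ Fin (finrank ℂ T) :=
    Sum.swap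
  let jj : Fin (finrank ℂ T) ⊕ Fin (finrank ℂ T) → ℂ := Sum.elim (fun _ => 1) (fun _ => -1)
  let S : Matrix (Fin (finrank ℂ T) ⊕ Fin (finrank ℂ T)) (Fin (finrank ℂ T) ⊕ Fin (finrank ℂ T)) ℂ :=
    fun x j => ((b'.repr (sv t r x).1 j : ℝ) : ℂ) + Complex.I * ((b'.repr (sv t r x).2 j : ℝ) : ℂ)
  have hpol : ∀ z : ℂ, ‖z‖ = 1 → Nz b' z * Om b ω₀ * (Nz b' z)ᵀ = Om b ω₀ := fun z hz =>
    Nz_Om per b b' ω₀ E hE hb (hinv z hz)
  have hbas : Bas (fun _ => ()) inv jj :=
    { inv2 := fun x => Sum.swap_swap x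
      neg := fun x => by rcases x with x | x <;> simp [inv, jj]
      sq := fun x => by rcases x with x | x <;> simp [jj]
      cls := fun _ _ _ => rfl }
  have hskew : ∀ u v, E u v = -E v u := by
    intro u v
    have h1 := halt (u + v)
    rw [map_add, map_add, LinearMap.add_apply, LinearMap.add_apply, halt, halt] at h1
    linarith
  have hI2 : ∀ u v, E (Complex.I • u) (Complex.I • v) = E u v := hinv Complex.I (by simp)
  have ht3 : ∀ a c, E (t a) (Complex.I • t c) = if c = a then -1 else 0 := by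
    intro a c
    rw [hskew, ht1]
    split_ifs <;> simp
  have hform : S * Om b ω₀ * Sᵀ = Jm inv jj := by
    have h1 : ∀ x y, (S * Om b ω₀ * Sᵀ) x y =
        ((E (sv t r x).1 (sv t r y).1 - E (sv t r x).2 (sv t r y).2 : ℝ) : ℂ) +
        Complex.I * ((E (sv t r x).1 (sv t r y).2 + E (sv t r x).2 (sv t r y).1 : ℝ) : ℂ) := by
      intro x y
      push_cast
      rw [E_expand b' E, E_expand b' E, E_expand b' E, E_expand b' E, Matrix.mul_apply]
      simp only [Matrix.mul_apply, Finset.sum_mul, Matrix.transpose_apply]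
      rw [Finset.sum_comm]
      simp only [mul_add, Finset.mul_sum, ← Finset.sum_add_distrib, ← Finset.sum_sub_distrib]
      refine Finset.sum_congr rfl fun k _ => Finset.sum_congr rfl fun l _ => ?_
      rw [Om_real per b b' ω₀ E hE hb]
      have hII := Complex.I_mul_I
      change (((b'.repr (sv t r x).1 k : ℝ) : ℂ) + Complex.I * ((b'.repr (sv t r x).2 k : ℝ) : ℂ)) *
        _ * (((b'.repr (sv t r y).1 l : ℝ) : ℂ) + Complex.I * ((b'.repr (sv t r y).2 l : ℝ) : ℂ)) = _
      linear_combination (((b'.repr (sv t r x).2 k : ℝ) : ℂ) * ((E (b' k) (b' l) : ℝ) : ℂ) *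
        ((b'.repr (sv t r y).2 l : ℝ) : ℂ)) * hII
    have hsc1 : ∀ (u v : T), E (r • u) v = r * E u v := fun u v => by
      rw [LinearMap.map_smul, LinearMap.smul_apply, smul_eq_mul]
    have hsc2 : ∀ (u v : T), E u (r • v) = r * E u v := fun u v => by
      rw [LinearMap.map_smul, smul_eq_mul]
    have hn1 : ∀ (u v : T), E (-u) v = -E u v := fun u v => by
      rw [map_neg, LinearMap.neg_apply]
    have hn2 : ∀ (u v : T), E u (-v) = -E u v := fun u v => map_neg _ _
    ext x y
    rw [h1]
    rcases x with x | x <;> rcases y with y | y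
    · simp only [sv, Sum.elim_inl, hn1, hn2, hsc1, hsc2, ht1, ht2, ht3, hI2]
      simp only [Jm, JJ, inv, jj, Sum.swap_inl, reduceCtorEq, if_false]
      by_cases h : x = y
      · subst h
        simp
      · rw [if_neg h, if_neg (Ne.symm h)]
        simp
    · simp only [sv, Sum.elim_inl, Sum.elim_inr, hn1, hn2, hsc1, hsc2, ht1, ht2, ht3, hI2]
      simp only [Jm, JJ, inv, jj, Sum.swap_inl, Sum.inr.injEq, Sum.elim_inl]
      have hrc : (r : ℂ) * r = 1 / 2 := by
        rw [← Complex.ofReal_mul, hr]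
        norm_num
      by_cases h : x = y
      · subst h
        simp only [if_true]
        push_cast
        have hII := Complex.I_mul_I
        linear_combination 2 * hrc
      · rw [if_neg h, if_neg (Ne.symm h)]
        simp [Ne.symm h]
    · simp only [sv, Sum.elim_inl, Sum.elim_inr, hn1, hn2, hsc1, hsc2, ht1, ht2, ht3, hI2]
      simp only [Jm, JJ, inv, jj, Sum.swap_inr, Sum.inl.injEq, Sum.elim_inr]
      have hrc : (r : ℂ) * r = 1 / 2 := by
        rw [← Complex.ofReal_mul, hr]
        norm_num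
      by_cases h : x = y
      · subst h
        simp only [if_true]
        push_cast
        have hII := Complex.I_mul_I
        linear_combination -2 * hrc
      · rw [if_neg h, if_neg (Ne.symm h)]
        simp [Ne.symm h]
    · simp only [sv, Sum.elim_inr, hn1, hn2, hsc1, hsc2, ht1, ht2, ht3, hI2]
      simp only [Jm, JJ, inv, jj, Sum.swap_inr, reduceCtorEq, if_false]
      by_cases h : x = y
      · subst h
        simp
      · rw [if_neg h, if_neg (Ne.symm h)]
        simp
  refine ⟨S, Om b ω₀ * Sᵀ * (-Jm inv jj), hb, hbas, ?_, ?_, hform, ?_, hpol⟩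
  · rw [← mul_assoc, ← mul_assoc, hform, mul_neg, Jm_sq hbas, neg_neg]
  · have h1 : S * (Om b ω₀ * Sᵀ * (-Jm inv jj)) = 1 := by
      rw [← mul_assoc, ← mul_assoc, hform, mul_neg, Jm_sq hbas, neg_neg]
    exact mul_eq_one_comm.1 h1
  · have h1 : ∀ x j, (S * Nz b' (-Complex.I)) x j =
        ((b'.repr (-(Complex.I • (sv t r x).1)) j : ℝ) : ℂ) +
        Complex.I * ((b'.repr (-(Complex.I • (sv t r x).2)) j : ℝ) : ℂ) := by
      intro x j
      have h2 : ∀ v : T, ((b'.repr (-(Complex.I • v)) j : ℝ) : ℂ) =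
          ∑ l, ((b'.repr v l : ℝ) : ℂ) * Nz b' (-Complex.I) l j := by
        intro v
        have h3 : -(Complex.I • v) = ∑ l, b'.repr v l • ((-Complex.I) • b' l) := by
          rw [← neg_smul]
          conv_lhs => rw [← b'.sum_repr v]
          rw [Finset.smul_sum]
          exact Finset.sum_congr rfl fun l _ => smul_comm _ _ _
        rw [h3, map_sum, Finset.sum_apply', Complex.ofReal_sum]
        refine Finset.sum_congr rfl fun l _ => ?_
        rw [map_smul, Finsupp.smul_apply, smul_eq_mul, Complex.ofReal_mul]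
        rfl
      rw [h2, h2, Matrix.mul_apply, Finset.mul_sum, ← Finset.sum_add_distrib]
      refine Finset.sum_congr rfl fun l _ => ?_
      change (((b'.repr (sv t r x).1 l : ℝ) : ℂ) + Complex.I * ((b'.repr (sv t r x).2 l : ℝ) : ℂ)) *
        _ = _
      ring
    intro x j
    rw [h1]
    change jj x * star (((b'.repr (sv t r (inv x)).1 j : ℝ) : ℂ) +
      Complex.I * ((b'.repr (sv t r (inv x)).2 j : ℝ) : ℂ)) = _
    rw [star_add, star_mul']
    simp only [Complex.star_def, Complex.conj_ofReal, Complex.conj_I]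
    have hI3 : ∀ v : T, Complex.I • (Complex.I • v) = -v := by
      intro v
      rw [smul_smul, Complex.I_mul_I, neg_one_smul]
    rcases x with x | x
    · simp only [sv, inv, jj, Sum.swap_inl, Sum.elim_inl, Sum.elim_inr]
      rw [smul_neg, smul_comm Complex.I r, smul_comm Complex.I r, hI3]
      simp only [map_neg, Finsupp.neg_apply, smul_neg, neg_neg]
      push_cast
      ring
    · simp only [sv, inv, jj, Sum.swap_inr, Sum.elim_inl, Sum.elim_inr]
      rw [smul_neg, smul_comm Complex.I r, smul_comm Complex.I r, hI3]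
      simp only [map_neg, Finsupp.neg_apply, smul_neg, neg_neg]
      push_cast
      ring

end

end Pool.Agent.X259.U
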