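import Pool.Agent.X259.U.U26
import Pool.Agent.X259.U.U25

/-!
# More than half of the tensors of one degree decide in low degrees
-/

set_option autoImplicit false
set_option linter.unusedSectionVars false
set_option linter.unusedDecidableInType false
set_option linter.unusedFintypeInType false

namespace Pool.Agent.X259.U

open Matrix Finset Module MeasureTheory Pool.Agent.H204R3.SP Pool.Agent.H204R3.GP
  Pool.Agent.W516 Pool.Agent.X259.T
open scoped ComplexOrder

noncomputable section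

variable {R : Type} [Fintype R] [DecidableEq R] {Q : Type} [DecidableEq Q]
  {cls : R → Q} {inv : R → R} {jj : R → ℂ} {B C : ∀ κ : Type, Submodule ℂ ((κ → R) → ℂ)}

/-- A coset far from one, from a tensor of low degree. -/
theorem exists_coset_low (hB : Bas cls inv jj) (hC : Fam cls inv jj C) (hBf : Fam cls inv jj B)
    (hle : ∀ κ : Type, C κ ≤ B κ) (hodd : ∀ n, Odd n → ∀ F ∈ B (Fin n), F = 0) {N n : ℕ}
    (hN : 1 ≤ N) (hn : n ≤ N) (hne : ¬B (Fin n) ≤ C (Fin n)) :
    ∃ q ∈ stabG (tens C), ∀ g ∈ stabG (tens B),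
      ‖((q * g : Matrix.unitaryGroup R ℂ) : Matrix R R ℂ).trace‖ ≤
        Fintype.card R - 2 * (1 - Real.cos (Real.pi / (2 * N))) := by
  have hsub : stabG (tens B) ≤ stabG (tens C) := fun g hg s hs => hg s (hle _ hs)
  have hm1 := neg_one_mem hodd
  set c : ℝ := Fintype.card R - 2 * (1 - Real.cos (Real.pi / (2 * N))) with hc
  have hN' : (0 : ℝ) < N := by
    exact_mod_cast hN
  -- it is enough to bound the real part
  have key : ∀ q ∈ stabG (tens C), (∀ g ∈ stabG (tens B),
      (((q * g : Matrix.unitaryGroup R ℂ) : Matrix R R ℂ).trace).re ≤ c) →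
      ∀ g ∈ stabG (tens B), ‖((q * g : Matrix.unitaryGroup R ℂ) : Matrix R R ℂ).trace‖ ≤ c := by
    intro q hq h g hg
    have h1 := h g hg
    have h2 := h (g * -1) ((stabG (tens B)).mul_mem hg hm1)
    have h3 : ((q * (g * -1) : Matrix.unitaryGroup R ℂ) : Matrix R R ℂ).trace =
        -((q * g : Matrix.unitaryGroup R ℂ) : Matrix R R ℂ).trace := by
      change ((q : Matrix R R ℂ) * ((g : Matrix R R ℂ) * (-1 : Matrix R R ℂ))).trace =
        -((q : Matrix R R ℂ) * (g : Matrix R R ℂ)).trace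
      rw [mul_neg, mul_one, mul_neg, Matrix.trace_neg]
    rw [h3, Complex.neg_re] at h2
    have hmem : q * g ∈ stabG (tens C) := (stabG (tens C)).mul_mem hq (hsub hg)
    rw [← trace_real hB (stab_le hC hmem), Complex.norm_real, Real.norm_eq_abs, abs_le]
    constructor <;> linarith
  obtain ⟨F₀, hF₀, hF₀'⟩ := SetLike.not_le_iff_exists.1 hne
  obtain ⟨F, hF, hF0, horth⟩ := exists_orth hle hF₀ hF₀'
  let _ : MeasurableSpace (stabG (tens C)) := borel _
  have _ : BorelSpace (stabG (tens C)) := ⟨rfl⟩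
  let r := inc (stabG (tens C))
  have hr : Continuous r := inc_cont _
  have havC : av (Fin n) r *ᵥ F ∈ C (Fin n) := by
    refine tannaka hB hC _ fun g hg => ?_
    exact av_mem hr F ⟨g, hg⟩
  have hu : ∀ g, r g * (r g)ᴴ = 1 := fun g => Matrix.mem_unitaryGroup_iff.1 g.1.2
  have hav0 : av (Fin n) r *ᵥ F = 0 := by
    apply ip_self
    rw [ip_av hr hu F _ fun g => av_mem hr F g]
    exact horth _ havC
  obtain ⟨q, hq⟩ := exists_far hr hav0
  refine ⟨q, q.2, key q q.2 fun g hg => ?_⟩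
  have hmem : (q : Matrix.unitaryGroup R ℂ) * g ∈ stabG (tens C) :=
    (stabG (tens C)).mul_mem q.2 (hsub hg)
  obtain ⟨P, P', μ, h1, h2, hgP, hμ⟩ := exists_diag ((q : Matrix.unitaryGroup R ℂ) * g)
  have h3 : kr (Fin n) (((q : Matrix.unitaryGroup R ℂ) * g : Matrix.unitaryGroup R ℂ) :
      Matrix R R ℂ) *ᵥ F = kr (Fin n) (r q) *ᵥ F := by
    have h4 : kr (Fin n) (g : Matrix R R ℂ) *ᵥ F = F := hg ⟨n, F⟩ hF
    have h5 : (((q : Matrix.unitaryGroup R ℂ) * g : Matrix.unitaryGroup R ℂ) :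
        Matrix R R ℂ) = r q * (g : Matrix R R ℂ) := rfl
    rw [h5, kr_mul, ← Matrix.mulVec_mulVec, h4]
  obtain ⟨x, hx⟩ := exists_arg hN hn
    (Matrix.mem_unitaryGroup_iff.1 ((q : Matrix.unitaryGroup R ℂ) * g).2) h1 h2 hgP hμ hF0
    (by rw [h3]; exact hq)
  exact trace_le hB (stab_le hC hmem) h1 h2 hgP hμ (by positivity) hx

/-- The contradiction. -/
theorem half_of_coset (hB : Bas cls inv jj) (hC : Fam cls inv jj C) (hBf : Fam cls inv jj B)
    (hle : ∀ κ : Type, C κ ≤ B κ) {N : ℕ} {q : Matrix.unitaryGroup R ℂ}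
    (hq : q ∈ stabG (tens C)) (hbd : ∀ g ∈ stabG (tens B),
      ‖((q * g : Matrix.unitaryGroup R ℂ) : Matrix R R ℂ).trace‖ ≤
        Fintype.card R - 2 * (1 - Real.cos (Real.pi / (2 * N)))) {m : ℕ}
    (hhalf : (m + 2) * finrank ℂ (B (Fin (2 * m))) ≤ (2 * m + 2) * finrank ℂ (C (Fin (2 * m))))
    (hnum : ((m : ℝ) + 1) ^ (Fintype.card R * Fintype.card R) *
      (((m : ℝ) + 1) * (Fintype.card R - 2 * (1 - Real.cos (Real.pi / (2 * N)))) ^ (2 * m)) <
        (Fintype.card R : ℝ) ^ (2 * m)) : False := by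
  have hsub : stabG (tens B) ≤ stabG (tens C) := fun g hg s hs => hg s (hle _ hs)
  set c : ℝ := Fintype.card R - 2 * (1 - Real.cos (Real.pi / (2 * N))) with hc
  let _ : MeasurableSpace (stabG (tens B)) := borel _
  have _ : BorelSpace (stabG (tens B)) := ⟨rfl⟩
  let _ : MeasurableSpace (stabG (tens C)) := borel _
  have _ : BorelSpace (stabG (tens C)) := ⟨rfl⟩
  let r := inc (stabG (tens B))
  let r' := inc (stabG (tens C))
  have hr : Continuous r := inc_cont _
  have hr' : Continuous r' := inc_cont _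
  have hu : ∀ g, r g * (r g)ᴴ = 1 := fun g => Matrix.mem_unitaryGroup_iff.1 g.1.2
  have hu' : ∀ g, r' g * (r' g)ᴴ = 1 := fun g => Matrix.mem_unitaryGroup_iff.1 g.1.2
  set RB := av (Fin (2 * m)) r with hRB
  set RC := av (Fin (2 * m)) r' with hRC
  have hBB : RB * RB = RB := av_idem hr
  have hCC : RC * RC = RC := av_idem hr'
  have hBC : RB * RC = RC := by
    refine Matrix.toLin'.injective (LinearMap.ext fun F => ?_)
    rw [Matrix.toLin'_apply, Matrix.toLin'_apply, ← Matrix.mulVec_mulVec]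
    exact av_fix hr _ fun g => av_mem hr' F ⟨g.1, hsub g.2⟩
  have hBh : RBᴴ = RB := av_herm hr hu
  have hCh : RCᴴ = RC := av_herm hr' hu'
  have hCB : RC * RB = RC := by
    have h1 := congrArg Matrix.conjTranspose hBC
    rwa [Matrix.conjTranspose_mul, hBh, hCh] at h1
  have hE : (RB - RC) * (RB - RC) = RB - RC := by
    rw [sub_mul, mul_sub, mul_sub, hBB, hBC, hCB, hCC, sub_self, sub_zero]
  have hEh : (RB - RC)ᴴ = RB - RC := by
    rw [Matrix.conjTranspose_sub, hBh, hCh]
  have hqq : (q : Matrix R R ℂ)ᴴ * (q : Matrix R R ℂ) = 1 :=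
    mul_eq_one_comm.1 (Matrix.mem_unitaryGroup_iff.1 q.2)
  have h1 := trace_ge hE hEh hqq
  have hqC : kr (Fin (2 * m)) (q : Matrix R R ℂ) * RC = RC := av_inv hr' ⟨q, hq⟩
  rw [mul_sub, hqC, Matrix.trace_sub, Matrix.trace_sub, Complex.sub_re, Complex.sub_re] at h1
  have htB : RB.trace = (finrank ℂ (B (Fin (2 * m))) : ℂ) := trace_av hB hBf
  have htC : RC.trace = (finrank ℂ (C (Fin (2 * m))) : ℂ) := trace_av hB hC
  have htr : (∫ g, ((q : Matrix R R ℂ) * r g).trace ^ (2 * m) ∂(hm (stabG (tens B)))) =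
      (kr (Fin (2 * m)) (q : Matrix R R ℂ) * RB).trace := by
    rw [Matrix.trace]
    simp only [Matrix.diag_apply, Matrix.mul_apply]
    have h1 : ∀ g, ((q : Matrix R R ℂ) * r g).trace ^ (2 * m) =
        ∑ I, ∑ L, kr (Fin (2 * m)) (q : Matrix R R ℂ) I L * kr (Fin (2 * m)) (r g) L I := by
      intro g
      have h2 := kr_trace (κ := Fin (2 * m)) ((q : Matrix R R ℂ) * r g)
      rw [Fintype.card_fin] at h2
      rw [← h2, kr_mul, Matrix.trace]
      simp only [Matrix.diag_apply, Matrix.mul_apply]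
    simp only [h1]
    rw [integral_finsetSum]
    · refine Finset.sum_congr rfl fun I _ => ?_
      rw [integral_finsetSum]
      · exact Finset.sum_congr rfl fun L _ => integral_const_mul _ _
      · exact fun L _ => (integrable_of_continuous (kr_cont hr L I)).const_mul _
    · exact fun I _ => integrable_of_continuous (continuous_finsetSum _ fun L _ =>
        continuous_const.mul (kr_cont hr L I))
  have hb : ‖(kr (Fin (2 * m)) (q : Matrix R R ℂ) * RB).trace‖ ≤ c ^ (2 * m) := by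
    rw [← htr]
    have h1 : ∀ g : stabG (tens B), ‖((q : Matrix R R ℂ) * r g).trace ^ (2 * m)‖ ≤
        c ^ (2 * m) := by
      intro g
      rw [norm_pow]
      exact pow_le_pow_left₀ (norm_nonneg _) (hbd g g.2) _
    have h2 := norm_integral_le_of_norm_le_const (μ := hm (stabG (tens B)))
      (Filter.Eventually.of_forall h1)
    rw [probReal_univ, mul_one] at h2
    exact h2
  have h2 := (Complex.re_le_norm _).trans hb
  rw [htB, htC, Complex.natCast_re, Complex.natCast_re] at h1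
  have hhalf' : ((m : ℝ) + 2) * (finrank ℂ (B (Fin (2 * m))) : ℝ) ≤
      (2 * m + 2) * (finrank ℂ (C (Fin (2 * m))) : ℝ) := by exact_mod_cast hhalf
  have h3 : (finrank ℂ (B (Fin (2 * m))) : ℝ) ≤ ((m : ℝ) + 1) * c ^ (2 * m) := by
    have h4 : 2 * (finrank ℂ (C (Fin (2 * m))) : ℝ) ≤
        (finrank ℂ (B (Fin (2 * m))) : ℝ) + c ^ (2 * m) := by linarith
    have h5 := mul_le_mul_of_nonneg_left h4 (by positivity : (0 : ℝ) ≤ (m : ℝ) + 1)
    linarith
  have hmom := moment r hr m
  have hreal : ((∫ g, ‖(r g).trace‖ ^ (2 * m) ∂(hm (stabG (tens B))) : ℝ) : ℂ) =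
      (finrank ℂ (B (Fin (2 * m))) : ℂ) := by
    have h1 := av_trace (κ := Fin (2 * m)) hr 1
    simp only [one_mul, Fintype.card_fin] at h1
    rw [← htB, ← h1, ← integral_complex_ofReal]
    refine integral_congr_ae (Filter.Eventually.of_forall fun g => ?_)
    simp only
    have h2 := trace_real hB (stab_le hBf g.2)
    change (((‖(r g).trace‖ ^ (2 * m) : ℝ)) : ℂ) = (r g).trace ^ (2 * m)
    have h3 : (r g).trace = ((((r g).trace).re : ℝ) : ℂ) := h2.symm
    rw [h3, Complex.norm_real, Real.norm_eq_abs, pow_mul, sq_abs, ← pow_mul]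
    push_cast
    rfl
  have hreal' : (∫ g, ‖(r g).trace‖ ^ (2 * m) ∂(hm (stabG (tens B)))) =
      (finrank ℂ (B (Fin (2 * m))) : ℝ) := by exact_mod_cast hreal
  rw [hreal'] at hmom
  have hfin := hmom.trans (mul_le_mul_of_nonneg_left h3 (by positivity))
  exact absurd hnum (not_lt.2 hfin)

/-- **More than half of the tensors of one degree decide in low degrees.** -/
theorem half_low (hB : Bas cls inv jj) (hC : Fam cls inv jj C) (hBf : Fam cls inv jj B)
    (hle : ∀ κ : Type, C κ ≤ B κ) (hodd : ∀ n, Odd n → ∀ F ∈ B (Fin n), F = 0) {N n : ℕ}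
    (hN : 1 ≤ N) (hn : n ≤ N) {m : ℕ}
    (hhalf : (m + 2) * finrank ℂ (B (Fin (2 * m))) ≤ (2 * m + 2) * finrank ℂ (C (Fin (2 * m))))
    (hnum : ((m : ℝ) + 1) ^ (Fintype.card R * Fintype.card R) *
      (((m : ℝ) + 1) * (Fintype.card R - 2 * (1 - Real.cos (Real.pi / (2 * N)))) ^ (2 * m)) <
        (Fintype.card R : ℝ) ^ (2 * m)) : B (Fin n) ≤ C (Fin n) := by
  by_contra hne
  obtain ⟨q, hq, hbd⟩ := exists_coset_low hB hC hBf hle hodd hN hn hne
  exact half_of_coset hB hC hBf hle hq hbd hhalf hnum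

end

end Pool.Agent.X259.U
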