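import Pool.Agent.X259.U.U30

/-!
# Matrix coefficients of a vector of a compact group near one and far from one
-/

set_option autoImplicit false
set_option linter.unusedSectionVars false
set_option linter.unusedDecidableInType false
set_option linter.unusedFintypeInType false

namespace Pool.Agent.X259.U

open Matrix Finset Module MeasureTheory Pool.Agent.H204R3.SP Pool.Agent.H204R3.GP
  Pool.Agent.W516 Pool.Agent.X259.T
open scoped ComplexOrder

noncomputable section

section diag

variable {R : Type} [Fintype R] [DecidableEq R]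

/-- If the matrix coefficient is not near to its maximum then an eigenvalue is far from one. -/
lemma exists_arg_cos {N n : ℕ} (hN : 1 ≤ N) (hn : n ≤ N) {θ : ℝ} (hθ : 0 < θ)
    (hθN : N * θ ≤ Real.pi) {h P P' : Matrix R R ℂ} {μ : R → ℂ}
    (hu : h * hᴴ = 1) (h1 : P' * P = 1) (h2 : P * P' = 1) (hP : h = P * Matrix.diagonal μ * P')
    (hμ : ∀ x, ‖μ x‖ = 1) {F : (Fin n → R) → ℂ} (hF : F ≠ 0)
    (hre : (ip (kr (Fin n) h *ᵥ F) F).re ≤ Real.cos (N * θ) * (ip F F).re) :
    ∃ x, θ ≤ |(μ x).arg| := by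
  by_contra hcon
  push Not at hcon
  have hμs : ∀ x, μ x * star (μ x) = 1 := by
    intro x
    have := Complex.mul_conj (μ x)
    rw [Complex.normSq_eq_norm_sq, hμ] at this
    simpa using this
  have hadj : hᴴ = P * Matrix.diagonal (fun x => star (μ x)) * P' := by
    have h3 : h * (P * Matrix.diagonal (fun x => star (μ x)) * P') = 1 := by
      calc _ = P * (Matrix.diagonal μ * (P' * P) * Matrix.diagonal (fun x => star (μ x))) * P' := by
            rw [hP]
            simp only [mul_assoc]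
        _ = 1 := by
            rw [h1, mul_one, Matrix.diagonal_mul_diagonal]
            simp only [hμs]
            rw [Matrix.diagonal_one, mul_one, h2]
    have h4 : hᴴ * h = 1 := mul_eq_one_comm.1 hu
    calc hᴴ = hᴴ * (h * (P * Matrix.diagonal (fun x => star (μ x)) * P')) := by rw [h3, mul_one]
      _ = _ := by rw [← mul_assoc, h4, one_mul]
  set c : ℝ := Real.cos (N * θ) with hc
  let a : (Fin n → R) → ℝ := fun I => 2 * Real.cos (∑ k, (μ (I k)).arg) - 2 * c
  have hN' : (0 : ℝ) < N := by exact_mod_cast hN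
  have ha : ∀ I, 0 < a I := by
    intro I
    have h5 : |∑ k, (μ (I k)).arg| < N * θ := by
      rcases Nat.eq_zero_or_pos n with h0 | h0
      · subst h0
        rw [Finset.univ_eq_empty, Finset.sum_empty, abs_zero]
        positivity
      · have h12 : (∑ k : Fin n, |(μ (I k)).arg|) < ∑ _k : Fin n, θ :=
          Finset.sum_lt_sum_of_nonempty ⟨⟨0, h0⟩, Finset.mem_univ _⟩ fun k _ => hcon _
        rw [Finset.sum_const, Finset.card_univ, Fintype.card_fin, nsmul_eq_mul] at h12
        refine (Finset.abs_sum_le_sum_abs _ _).trans_lt (h12.trans_le ?_)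
        have hn' : (n : ℝ) ≤ N := by exact_mod_cast hn
        exact mul_le_mul_of_nonneg_right hn' hθ.le
    have h6 : c < Real.cos (∑ k, (μ (I k)).arg) := by
      rw [← Real.cos_abs (∑ k, (μ (I k)).arg)]
      exact Real.cos_lt_cos_of_nonneg_of_le_pi (abs_nonneg _) hθN h5
    change 0 < 2 * Real.cos _ - 2 * c
    linarith
  have hprod : ∀ I : Fin n → R, ∏ k, μ (I k) =
      Complex.exp (((∑ k, (μ (I k)).arg : ℝ) : ℂ) * Complex.I) := by
    intro I
    push_cast
    rw [Finset.sum_mul, Complex.exp_sum]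
    exact Finset.prod_congr rfl fun k _ => (exp_arg (hμ _)).symm
  have hone : (1 : Matrix (Fin n → R) (Fin n → R) ℂ) = kr (Fin n) P * kr (Fin n) P' := by
    rw [← kr_mul, h2, kr_one]
  have hsum : kr (Fin n) h + kr (Fin n) hᴴ - ((2 * c : ℝ) : ℂ) • 1 =
      kr (Fin n) P * Matrix.diagonal (fun I => (a I : ℂ)) * kr (Fin n) P' := by
    have e1 : kr (Fin n) h = kr (Fin n) P * Matrix.diagonal (fun I => ∏ k, μ (I k)) *
        kr (Fin n) P' := by
      rw [hP, kr_mul, kr_mul, kr_diagonal]
    have e2 : kr (Fin n) hᴴ = kr (Fin n) P * Matrix.diagonal (fun I => ∏ k, star (μ (I k))) *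
        kr (Fin n) P' := by
      rw [hadj, kr_mul, kr_mul, kr_diagonal]
    have e3 : (((2 * c : ℝ) : ℂ) • 1 : Matrix (Fin n → R) (Fin n → R) ℂ) =
        kr (Fin n) P * Matrix.diagonal (fun _ => ((2 * c : ℝ) : ℂ)) * kr (Fin n) P' := by
      rw [← Matrix.smul_one_eq_diagonal, Matrix.mul_smul, Matrix.mul_one, Matrix.smul_mul, ← hone]
    rw [e1, e2, e3, ← add_mul, ← mul_add, ← sub_mul, ← mul_sub, Matrix.diagonal_add,
      Matrix.diagonal_sub]
    congr 3
    funext I
    have e4 : ∏ k, star (μ (I k)) = star (∏ k, μ (I k)) := by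
      rw [← starRingEnd_apply, map_prod]
      rfl
    rw [e4, hprod]
    change Complex.exp _ + starRingEnd ℂ (Complex.exp _) - _ = ((2 * Real.cos _ - 2 * c : ℝ) : ℂ)
    rw [Complex.add_conj, Complex.exp_ofReal_mul_I_re]
    push_cast
    ring
  have hherm : (kr (Fin n) h + kr (Fin n) hᴴ - ((2 * c : ℝ) : ℂ) • 1).IsHermitian := by
    rw [Matrix.IsHermitian, Matrix.conjTranspose_sub, Matrix.conjTranspose_add, kr_conjTranspose,
      Matrix.conjTranspose_conjTranspose, Matrix.conjTranspose_smul, Matrix.conjTranspose_one,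
      add_comm]
    congr 2
    exact Complex.conj_ofReal _
  have hpos := posDef_of_diag hherm (P := kr (Fin n) P) (P' := kr (Fin n) P') (by
    rw [← kr_mul, h1, kr_one]) hsum ha
  have h3 := hpos.dotProduct_mulVec_pos hF
  have h4 : star F ⬝ᵥ ((kr (Fin n) h + kr (Fin n) hᴴ - ((2 * c : ℝ) : ℂ) • 1) *ᵥ F) =
      ip (kr (Fin n) h *ᵥ F) F + star (ip (kr (Fin n) h *ᵥ F) F) - ((2 * c : ℝ) : ℂ) * ip F F := by
    rw [ip_star, ip_kr (g := h), Matrix.sub_mulVec, Matrix.add_mulVec, dotProduct_sub,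
      dotProduct_add]
    congr 1
    · congr 1
      · rw [← ip_kr, ip, dotProduct]
        exact Finset.sum_congr rfl fun I _ => mul_comm _ _
      · have h7 := ip_kr (κ := Fin n) (g := hᴴ) F F
        rw [Matrix.conjTranspose_conjTranspose] at h7
        rw [← h7, ip, dotProduct]
        exact Finset.sum_congr rfl fun I _ => mul_comm _ _
    · rw [Matrix.smul_mulVec, Matrix.one_mulVec, dotProduct_smul, smul_eq_mul, ip, dotProduct]
      congr 1
      exact Finset.sum_congr rfl fun I _ => mul_comm _ _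
  rw [h4] at h3
  have h5 := (Complex.pos_iff.1 h3).1
  rw [Complex.sub_re, Complex.add_re, Complex.re_ofReal_mul] at h5
  have h6 : (star (ip (kr (Fin n) h *ᵥ F) F)).re = (ip (kr (Fin n) h *ᵥ F) F).re := rfl
  rw [h6] at h5
  linarith

end diag

section cs

variable {R : Type} [Fintype R] [DecidableEq R] {κ : Type} [Fintype κ] [DecidableEq κ]

/-- The inequality of Cauchy and Schwarz. -/
lemma norm_ip_le (F F' : (κ → R) → ℂ) : ‖ip F F'‖ ^ 2 ≤ (ip F F).re * (ip F' F').re := by
  let x : EuclideanSpace ℂ (κ → R) := WithLp.toLp 2 F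
  let y : EuclideanSpace ℂ (κ → R) := WithLp.toLp 2 F'
  have h1 : ∀ G G' : (κ → R) → ℂ, inner ℂ (WithLp.toLp 2 G' : EuclideanSpace ℂ (κ → R))
      (WithLp.toLp 2 G : EuclideanSpace ℂ (κ → R)) = ip G G' := by
    intro G G'
    rw [PiLp.inner_apply, ip]
    rfl
  have h2 : ∀ G : (κ → R) → ℂ, (ip G G).re =
      ‖(WithLp.toLp 2 G : EuclideanSpace ℂ (κ → R))‖ ^ 2 := by
    intro G
    rw [← h1 G G]
    exact inner_self_eq_norm_sq (𝕜 := ℂ) _
  have h3 := norm_inner_le_norm (𝕜 := ℂ) y x
  rw [h1 F F'] at h3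
  rw [h2, h2, ← mul_pow, mul_comm]
  exact pow_le_pow_left₀ (norm_nonneg _) h3 2

/-- The matrix coefficients of a unitary matrix. -/
lemma norm_coef_le {g : Matrix R R ℂ} (hg : gᴴ * g = 1) (F : (κ → R) → ℂ) :
    ‖ip (kr κ g *ᵥ F) F‖ ≤ (ip F F).re := by
  have h1 := norm_ip_le (kr κ g *ᵥ F) F
  have h3 : ip (kr κ g *ᵥ F) (kr κ g *ᵥ F) = ip F F := by
    rw [ip_kr, Matrix.mulVec_mulVec, ← kr_mul, hg, kr_one, Matrix.one_mulVec]
  rw [h3, ← pow_two] at h1
  exact (pow_le_pow_iff_left₀ (norm_nonneg _) (ip_self_re F) two_ne_zero).1 h1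

/-- The trace of a unitary operator on the image of a hermitian idempotent. -/
lemma norm_trace_le {E : Matrix (κ → R) (κ → R) ℂ}
    (hE : E * E = E) (hEh : Eᴴ = E) {g : Matrix R R ℂ} (hg : gᴴ * g = 1) :
    ‖(kr κ g * E).trace‖ ≤ (E.trace).re := by
  have h1 : ∀ A : Matrix (κ → R) (κ → R) ℂ, (A * E).trace =
      ∑ I, ip (A *ᵥ fun J => E J I) (fun J => E J I) := by
    intro A
    have h2 : (A * E).trace = (E * (A * E)).trace := by
      rw [Matrix.trace_mul_comm E, mul_assoc, hE]
    rw [h2, Matrix.trace]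
    refine Finset.sum_congr rfl fun I _ => ?_
    rw [Matrix.diag_apply, Matrix.mul_apply, ip]
    refine Finset.sum_congr rfl fun J _ => ?_
    rw [mul_comm]
    congr 1
    have h3 := congrFun (congrFun hEh I) J
    rw [Matrix.conjTranspose_apply] at h3
    rw [h3]
  have h2 : E.trace = ∑ I, ip (fun J => E J I) (fun J => E J I) := by
    have h3 := h1 1
    rw [one_mul] at h3
    rw [h3]
    exact Finset.sum_congr rfl fun I _ => by rw [Matrix.one_mulVec]
  rw [h1, h2, Complex.re_sum]
  exact (norm_sum_le _ _).trans (Finset.sum_le_sum fun I _ => norm_coef_le hg _)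

end cs

section proj

variable {X : Type} [Fintype X] [DecidableEq X]

/-- The matrix of an orthogonal projector. -/
lemma exists_projector (T : Submodule ℂ (X → ℂ)) : ∃ P : Matrix X X ℂ, P * P = P ∧ Pᴴ = P ∧
    (∀ x ∈ T, P *ᵥ x = x) ∧ (∀ x, P *ᵥ x ∈ T) ∧ P.trace = (finrank ℂ T : ℂ) := by
  let e : EuclideanSpace ℂ X ≃ₗ[ℂ] (X → ℂ) := WithLp.linearEquiv 2 ℂ (X → ℂ)
  let T' : Submodule ℂ (EuclideanSpace ℂ X) := T.comap e.toLinearMap
  let L : (X → ℂ) →ₗ[ℂ] (X → ℂ) :=
    e.toLinearMap ∘ₗ (T'.starProjection : EuclideanSpace ℂ X →ₗ[ℂ] EuclideanSpace ℂ X) ∘ₗ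
      e.symm.toLinearMap
  have hL : ∀ x, L x = e (T'.starProjection (e.symm x)) := fun x => rfl
  let P : Matrix X X ℂ := LinearMap.toMatrix' L
  have hP : ∀ x, P *ᵥ x = L x := fun x => by
    rw [← Matrix.toLin'_apply, Matrix.toLin'_toMatrix']
  have h1 : ∀ x ∈ T, P *ᵥ x = x := by
    intro x hx
    rw [hP, hL]
    have h2 : e.symm x ∈ T' := by
      change e (e.symm x) ∈ T
      rwa [e.apply_symm_apply]
    rw [Submodule.starProjection_eq_self_iff.2 h2, e.apply_symm_apply]
  have h2 : ∀ x, P *ᵥ x ∈ T := by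
    intro x
    rw [hP, hL]
    exact Submodule.starProjection_apply_mem T' (e.symm x)
  have h3 : LinearMap.IsProj T (Matrix.toLin' P) := by
    refine ⟨fun x => ?_, fun x hx => ?_⟩
    · rw [Matrix.toLin'_apply]
      exact h2 x
    · rw [Matrix.toLin'_apply]
      exact h1 x hx
  refine ⟨P, ?_, ?_, h1, h2, ?_⟩
  · refine Matrix.toLin'.injective (LinearMap.ext fun x => ?_)
    rw [Matrix.toLin'_apply, Matrix.toLin'_apply, ← Matrix.mulVec_mulVec]
    exact h1 _ (h2 x)
  · ext I J
    have h4 : ∀ I J : X, P I J = inner ℂ (EuclideanSpace.single I (1 : ℂ))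
        (T'.starProjection (EuclideanSpace.single J (1 : ℂ))) := by
      intro I J
      rw [EuclideanSpace.inner_single_left, map_one, one_mul]
      have h5 : P I J = (P *ᵥ Pi.single J 1) I := by
        rw [Matrix.mulVec_single_one]
        rfl
      rw [h5, hP, hL]
      rfl
    rw [Matrix.conjTranspose_apply, h4, h4, ← starRingEnd_apply, inner_conj_symm]
    exact Submodule.inner_starProjection_left_eq_right T' _ _
  · rw [← h3.trace, Matrix.trace_toLin'_eq]

end proj

end

end Pool.Agent.X259.U
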