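import Pool.Agent.X259.U.U32

/-!
# A larger family of tensors without positivity
-/

set_option autoImplicit false
set_option linter.unusedSectionVars false
set_option linter.unusedDecidableInType false
set_option linter.unusedFintypeInType false

namespace Pool.Agent.X259.U

open Matrix Finset Module MeasureTheory Pool.Agent.H204R3.SP Pool.Agent.H204R3.GP
  Pool.Agent.W516 Pool.Agent.X259.T
open scoped ComplexOrder

noncomputable section

variable {R : Type} [Fintype R] [DecidableEq R] {Q : Type} [DecidableEq Q]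
  {cls : R → Q} {inv : R → R} {jj : R → ℂ} {B : ∀ κ : Type, Submodule ℂ ((κ → R) → ℂ)}

/-- The elements far from one. -/
lemma near_or_far (hB : Bas cls inv jj) (hBf : Fam cls inv jj B)
    (hodd : ∀ n, Odd n → ∀ F ∈ B (Fin n), F = 0) {N n : ℕ}
    (hN : 1 ≤ N) (hn : n ≤ N) (hev : Even n) {θ : ℝ} (hθ : 0 < θ) (hθN : N * θ ≤ Real.pi)
    {F : (Fin n → R) → ℂ} (hF : F ≠ 0) {g : Matrix.unitaryGroup R ℂ}
    (hg : g ∈ stabG (tens B))
    (hre : (ip (kr (Fin n) (g : Matrix R R ℂ) *ᵥ F) F).re ≤ Real.cos (N * θ) * (ip F F).re) :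
    ‖(g : Matrix R R ℂ).trace‖ ≤ Fintype.card R - 2 * (1 - Real.cos θ) := by
  have key : ∀ q ∈ stabG (tens B),
      (ip (kr (Fin n) (q : Matrix R R ℂ) *ᵥ F) F).re ≤ Real.cos (N * θ) * (ip F F).re →
      ((q : Matrix R R ℂ).trace).re ≤ Fintype.card R - 2 * (1 - Real.cos θ) := by
    intro q hq hre
    obtain ⟨P, P', μ, h1, h2, hgP, hμ⟩ := exists_diag q
    obtain ⟨x, hx⟩ := exists_arg_cos hN hn hθ hθN (Matrix.mem_unitaryGroup_iff.1 q.2) h1 h2 hgP hμ
      hF hre
    exact trace_le hB (stab_le hBf hq) h1 h2 hgP hμ hθ.le hx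
  have hm1 := neg_one_mem hodd
  have h1 := key g hg hre
  have h4 : kr (Fin n) ((g * -1 : Matrix.unitaryGroup R ℂ) : Matrix R R ℂ) =
      kr (Fin n) (g : Matrix R R ℂ) := by
    ext I J
    rw [kr_apply, kr_apply]
    have h5 : ∀ k, ((g * -1 : Matrix.unitaryGroup R ℂ) : Matrix R R ℂ) (I k) (J k) =
        -((g : Matrix R R ℂ) (I k) (J k)) := by
      intro k
      change ((g : Matrix R R ℂ) * (-1 : Matrix R R ℂ)) _ _ = _
      rw [mul_neg, mul_one, Matrix.neg_apply]
    simp only [h5]
    rw [Finset.prod_neg, Finset.card_univ, Fintype.card_fin, hev.neg_one_pow, one_mul]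
  have h2 := key (g * -1) ((stabG (tens B)).mul_mem hg hm1) (by rw [h4]; exact hre)
  have h3 : ((g * -1 : Matrix.unitaryGroup R ℂ) : Matrix R R ℂ).trace =
      -(g : Matrix R R ℂ).trace := by
    change ((g : Matrix R R ℂ) * (-1 : Matrix R R ℂ)).trace = _
    rw [mul_neg, mul_one, Matrix.trace_neg]
  rw [h3, Complex.neg_re] at h2
  rw [← trace_real hB (stab_le hBf hg), Complex.norm_real, Real.norm_eq_abs, abs_le]
  constructor <;> linarith

section coefficient

variable {G : Type} [Group G] [TopologicalSpace G] [IsTopologicalGroup G] [CompactSpace G]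
  [MeasurableSpace G] [BorelSpace G] {r : G →* Matrix R R ℂ} (hr : Continuous r)
  {κ μ : Type} [Fintype κ] [DecidableEq κ] [Fintype μ] [DecidableEq μ]

/-- The matrix coefficient of a tensor. -/
def fa (r : G → Matrix R R ℂ) (F : (μ → R) → ℂ) (g : G) : ℂ :=
  star (ip (kr μ (r g) *ᵥ F) F)

/-- The average of the tensor powers, with weights. -/
def MM (κ : Type) [Fintype κ] [DecidableEq κ] (r : G → Matrix R R ℂ) (F : (μ → R) → ℂ) :
    Matrix (κ → R) (κ → R) ℂ :=
  fun I J => ∫ g, fa r F g * kr κ (r g) I J ∂(hm G)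

include hr in
lemma fa_cont (F : (μ → R) → ℂ) : Continuous (fa r F) := by
  change Continuous fun g => star (∑ I, (kr μ (r g) *ᵥ F) I * star (F I))
  exact continuous_star.comp
    (continuous_finsetSum _ fun I _ => (krmv_cont hr F I).mul continuous_const)

include hr in
lemma MM_mulVec (F : (μ → R) → ℂ) (x : (κ → R) → ℂ) (I : κ → R) :
    (MM κ r F *ᵥ x) I = ∫ g, fa r F g * (kr κ (r g) *ᵥ x) I ∂(hm G) := by
  change ∑ J, (∫ g, fa r F g * kr κ (r g) I J ∂(hm G)) * x J =
    ∫ g, fa r F g * (∑ J, kr κ (r g) I J * x J) ∂(hm G)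
  simp only [Finset.mul_sum]
  rw [integral_finsetSum]
  · refine Finset.sum_congr rfl fun J _ => ?_
    rw [← integral_mul_const]
    simp only [mul_assoc]
  · exact fun J _ => integrable_of_continuous
      ((fa_cont hr F).mul ((kr_cont hr I J).mul continuous_const))

include hr in
/-- The trace against a matrix. -/
lemma trace_MM (F : (μ → R) → ℂ) (E : Matrix (κ → R) (κ → R) ℂ) :
    (E * MM κ r F).trace = ∫ g, fa r F g * (kr κ (r g) * E).trace ∂(hm G) := by
  have h1 : ∀ g, fa r F g * (kr κ (r g) * E).trace =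
      ∑ I, ∑ J, E I J * (fa r F g * kr κ (r g) J I) := by
    intro g
    rw [Matrix.trace_mul_comm, Matrix.trace, Finset.mul_sum]
    refine Finset.sum_congr rfl fun I _ => ?_
    rw [Matrix.diag_apply, Matrix.mul_apply, Finset.mul_sum]
    exact Finset.sum_congr rfl fun J _ => by ring
  simp only [h1]
  have h2 : ∀ I J, Continuous fun g => E I J * (fa r F g * kr κ (r g) J I) := fun I J =>
    continuous_const.mul ((fa_cont hr F).mul (kr_cont hr J I))
  rw [integral_finsetSum]
  · rw [Matrix.trace]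
    refine Finset.sum_congr rfl fun I _ => ?_
    rw [Matrix.diag_apply, Matrix.mul_apply, integral_finsetSum]
    · exact Finset.sum_congr rfl fun J _ => (integral_const_mul _ _).symm
    · exact fun J _ => integrable_of_continuous (h2 I J)
  · exact fun I _ => integrable_of_continuous (continuous_finsetSum _ fun J _ => h2 I J)

include hr in
/-- The weighted average is a contraction of the average. -/
lemma MM_pr (hB : Bas cls inv jj)
    (hG : ∀ g, ∃ u : Matrix.unitaryGroup R ℂ, u ∈ stabG (forms cls inv jj) ∧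
      (u : Matrix R R ℂ) = r g) (F : (μ → R) → ℂ) (x : (κ → R) → ℂ) :
    MM κ r F *ᵥ x = Pool.Agent.X259.T.pr inv jj F (av (κ ⊕ μ) r *ᵥ tp x (st inv jj F)) := by
  funext I
  rw [MM_mulVec hr, Pool.Agent.X259.T.pr]
  simp only [av_mulVec hr]
  have h1 : ∀ J : μ → R, (∏ k, (jj (J k))⁻¹) * (F (fun k => inv (J k)) *
      ∫ g, (kr (κ ⊕ μ) (r g) *ᵥ tp x (st inv jj F)) (Sum.elim I J) ∂(hm G)) =
      ∫ g, (∏ k, (jj (J k))⁻¹) * (F (fun k => inv (J k)) *
        (kr (κ ⊕ μ) (r g) *ᵥ tp x (st inv jj F)) (Sum.elim I J)) ∂(hm G) := by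
    intro J
    rw [← integral_const_mul, ← integral_const_mul]
  simp only [h1]
  rw [← integral_finsetSum]
  · refine integral_congr_ae (Filter.Eventually.of_forall fun g => ?_)
    simp only
    obtain ⟨u, hu, hug⟩ := hG g
    rw [fa, ← hug, ip, star_sum, Finset.sum_mul, ← (ie hB μ).sum_comp]
    refine Finset.sum_congr rfl fun J _ => ?_
    rw [kr_tp, tp_apply, ← st_kr hB hu]
    change star ((kr μ (u : Matrix R R ℂ) *ᵥ F) (fun k => inv (J k)) *
      star (F fun k => inv (J k))) * (kr κ (u : Matrix R R ℂ) *ᵥ x) I = _ * (_ * (_ *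
        ((∏ k, jj (J k)) * star ((kr μ (u : Matrix R R ℂ) *ᵥ F) (fun k => inv (J k))))))
    have e1 : (∏ k, (jj (J k))⁻¹) * (∏ k, jj (J k)) = 1 := by
      rw [← Finset.prod_mul_distrib]
      refine Finset.prod_eq_one fun k _ => ?_
      rw [jj_inv hB, jj_sq hB]
    rw [star_mul', star_star]
    linear_combination -(star ((kr μ (u : Matrix R R ℂ) *ᵥ F) (fun k => inv (J k))) *
      F (fun k => inv (J k)) * (kr κ (u : Matrix R R ℂ) *ᵥ x) I) * e1
  · intro J _
    exact (((integrable_of_continuous (krmv_cont hr _ _)).const_mul _).const_mul _)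

end coefficient

/-- **A family which contains a tensor orthogonal to the invariants is large.** -/
theorem gap_T (hB : Bas cls inv jj) (hBf : Fam cls inv jj B)
    (hodd : ∀ n, Odd n → ∀ F ∈ B (Fin n), F = 0) {N n : ℕ}
    (hN : 1 ≤ N) (hn : n ≤ N) (hev : Even n) {θ : ℝ} (hθ : 0 < θ) (hθN : N * θ ≤ Real.pi)
    {F : (Fin n → R) → ℂ} (hF : F ≠ 0) (horth : ∀ a ∈ B (Fin n), ip F a = 0) {m : ℕ}
    {T : Submodule ℂ ((Fin (2 * m) → R) → ℂ)} (hBT : B (Fin (2 * m)) ≤ T)
    (hpr : ∀ E ∈ B (Fin (2 * m) ⊕ Fin n), Pool.Agent.X259.T.pr inv jj F E ∈ T) :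
    (1 + Real.cos (N * θ)) * finrank ℂ (B (Fin (2 * m))) ≤ finrank ℂ T +
      2 * (Fintype.card R - 2 * (1 - Real.cos θ)) ^ (2 * m) := by
  let _ : MeasurableSpace (stabG (tens B)) := borel _
  have _ : BorelSpace (stabG (tens B)) := ⟨rfl⟩
  let r := inc (stabG (tens B))
  have hr : Continuous r := inc_cont _
  have hu : ∀ g, r g * (r g)ᴴ = 1 := fun g => Matrix.mem_unitaryGroup_iff.1 g.1.2
  have hu' : ∀ g, (r g)ᴴ * r g = 1 := fun g => mul_eq_one_comm.1 (hu g)
  have hG : ∀ g : stabG (tens B), ∃ u : Matrix.unitaryGroup R ℂ,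
      u ∈ stabG (forms cls inv jj) ∧ (u : Matrix R R ℂ) = r g := fun g =>
    ⟨g.1, stab_le hBf g.2, rfl⟩
  have hav0 : av (Fin n) r *ᵥ F = 0 := by
    apply ip_self
    rw [ip_av hr hu F _ fun g => av_mem hr F g]
    exact horth _ (tannaka hB hBf _ fun g hg => av_mem hr F ⟨g, hg⟩)
  set c₀ : ℝ := (ip F F).re with hc₀
  have hc₀p : 0 < c₀ := by
    rcases (ip_self_re F).lt_or_eq with h | h
    · exact h
    · exfalso
      apply hF
      apply ip_self
      have h1 := norm_ip_le F F
      rw [← h, mul_zero] at h1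
      have h2 : ‖ip F F‖ = 0 := by
        have := sq_nonneg ‖ip F F‖
        exact pow_eq_zero_iff two_ne_zero |>.1 (le_antisymm h1 this)
      exact norm_eq_zero.1 h2
  set M := MM (Fin (2 * m)) r F with hM
  obtain ⟨P, hPP, hPh, hPT, hPm, hPt⟩ := exists_projector T
  set A := av (Fin (2 * m)) r with hA
  have hAA : A * A = A := av_idem hr
  have hAh : Aᴴ = A := av_herm hr hu
  have hAt : A.trace = (finrank ℂ (B (Fin (2 * m))) : ℂ) := trace_av hB hBf
  have hPA : P * A = A := by
    refine Matrix.toLin'.injective (LinearMap.ext fun x => ?_)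
    rw [Matrix.toLin'_apply, Matrix.toLin'_apply, ← Matrix.mulVec_mulVec]
    exact hPT _ (hBT (tannaka hB hBf _ fun g hg => av_mem hr x ⟨g, hg⟩))
  have hAP : A * P = A := by
    have h1 := congrArg Matrix.conjTranspose hPA
    rwa [Matrix.conjTranspose_mul, hPh, hAh] at h1
  have hE : (P - A) * (P - A) = P - A := by
    rw [sub_mul, mul_sub, mul_sub, hPP, hPA, hAP, hAA, sub_self, sub_zero]
  have hEh : (P - A)ᴴ = P - A := by
    rw [Matrix.conjTranspose_sub, hPh, hAh]
  have hPM : P * M = M := by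
    refine Matrix.toLin'.injective (LinearMap.ext fun x => ?_)
    rw [Matrix.toLin'_apply, Matrix.toLin'_apply, ← Matrix.mulVec_mulVec]
    apply hPT
    rw [hM, MM_pr hr hB hG]
    exact hpr _ (tannaka hB hBf _ fun g hg => av_mem hr _ ⟨g, hg⟩)
  have hfa : ∫ g, fa r F g ∂(hm (stabG (tens B))) = 0 := by
    have h1 := ip_av_int hr F F
    rw [hav0] at h1
    have h2 : ip (0 : (Fin n → R) → ℂ) F = 0 := by
      rw [ip]
      exact Finset.sum_eq_zero fun I _ => zero_mul _
    rw [h2] at h1
    have h3 : ∫ g, fa r F g ∂(hm (stabG (tens B))) =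
        star (∫ g, ip (kr (Fin n) (r g) *ᵥ F) F ∂(hm (stabG (tens B)))) := by
      exact integral_conj
    rw [h3, ← h1, star_zero]
  have hAM : (A * M).trace = 0 := by
    rw [hM, trace_MM hr]
    have h1 : ∀ g, (kr (Fin (2 * m)) (r g) * A).trace = A.trace := fun g => by
      rw [hA, av_inv hr]
    simp only [h1]
    rw [integral_mul_const, hfa, zero_mul]
  have htr : M.trace = ((P - A) * M).trace := by
    rw [sub_mul, Matrix.trace_sub, hPM, hAM, sub_zero]
  have hMt : M.trace = ∫ g, fa r F g * (r g).trace ^ (2 * m) ∂(hm (stabG (tens B))) := by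
    have h1 := trace_MM (κ := Fin (2 * m)) hr F 1
    rw [one_mul] at h1
    rw [hM, h1]
    refine integral_congr_ae (Filter.Eventually.of_forall fun g => ?_)
    simp only
    rw [mul_one, kr_trace, Fintype.card_fin]
  have hfn : ∀ g, ‖fa r F g‖ ≤ c₀ := by
    intro g
    rw [fa, norm_star]
    exact norm_coef_le (hu' g) F
  -- the upper bound
  have hup : (M.trace).re ≤ c₀ * ((finrank ℂ T : ℝ) - finrank ℂ (B (Fin (2 * m)))) := by
    have h1 : ‖M.trace‖ ≤ c₀ * ((P - A).trace).re := by
      rw [htr, hM, trace_MM hr]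
      have h2 : ∀ g, ‖fa r F g * (kr (Fin (2 * m)) (r g) * (P - A)).trace‖ ≤
          c₀ * ((P - A).trace).re := by
        intro g
        rw [norm_mul]
        exact mul_le_mul (hfn g) (norm_trace_le hE hEh (hu' g)) (norm_nonneg _) hc₀p.le
      have h3 := norm_integral_le_of_norm_le_const (μ := hm (stabG (tens B)))
        (Filter.Eventually.of_forall h2)
      rwa [probReal_univ, mul_one] at h3
    refine (Complex.re_le_norm _).trans (h1.trans (le_of_eq ?_))
    rw [Matrix.trace_sub, hPt, hAt, Complex.sub_re, Complex.natCast_re, Complex.natCast_re]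
  -- the lower bound
  set c := Real.cos (N * θ) with hc
  set D : ℝ := Fintype.card R - 2 * (1 - Real.cos θ) with hD
  have hDp : 0 ≤ D ^ (2 * m) := by
    rw [pow_mul]
    exact pow_nonneg (sq_nonneg D) m
  have hreal : ∀ g, (r g).trace = ((((r g).trace).re : ℝ) : ℂ) := fun g =>
    (trace_real hB (stab_le hBf g.2)).symm
  have hpow : ∀ g, (r g).trace ^ (2 * m) = (((((r g).trace).re) ^ (2 * m) : ℝ) : ℂ) := by
    intro g
    conv_lhs => rw [hreal g]
    push_cast
    rfl
  have htn : ∀ g, 0 ≤ (((r g).trace).re) ^ (2 * m) := fun g => by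
    rw [pow_mul]
    exact pow_nonneg (sq_nonneg _) m
  have hc1 : -1 ≤ c := Real.neg_one_le_cos _
  have hpt : ∀ g, c₀ * (c * (((r g).trace).re) ^ (2 * m) - (1 + c) * D ^ (2 * m)) ≤
      (fa r F g * (r g).trace ^ (2 * m)).re := by
    intro g
    have h1 : (fa r F g * (r g).trace ^ (2 * m)).re =
        (fa r F g).re * (((r g).trace).re) ^ (2 * m) := by
      rw [hpow, Complex.re_mul_ofReal]
    rw [h1]
    have h0 : (fa r F g).re = (ip (kr (Fin n) (r g) *ᵥ F) F).re := rfl
    rcases le_or_gt (ip (kr (Fin n) (r g) *ᵥ F) F).re (c * c₀) with h2 | h2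
    · have h3 := near_or_far hB hBf hodd hN hn hev hθ hθN hF g.2 h2
      have h4 : (((r g).trace).re) ^ (2 * m) ≤ D ^ (2 * m) := by
        have h5 : |((r g).trace).re| ≤ D := (Complex.abs_re_le_norm _).trans h3
        rw [pow_mul, ← sq_abs, ← pow_mul]
        exact pow_le_pow_left₀ (abs_nonneg _) h5 _
      have h6 : -c₀ ≤ (fa r F g).re := by
        have h7 := (Complex.abs_re_le_norm (fa r F g)).trans (hfn g)
        exact (abs_le.1 h7).1
      have h8 := mul_le_mul_of_nonneg_right h6 (htn g)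
      have h9 : c₀ * ((1 + c) * (((r g).trace).re) ^ (2 * m)) ≤ c₀ * ((1 + c) * D ^ (2 * m)) :=
        mul_le_mul_of_nonneg_left (mul_le_mul_of_nonneg_left h4 (by linarith)) hc₀p.le
      linarith
    · rw [← h0] at h2
      have h3 := mul_le_mul_of_nonneg_right h2.le (htn g)
      have h4 : 0 ≤ c₀ * ((1 + c) * D ^ (2 * m)) :=
        mul_nonneg hc₀p.le (mul_nonneg (by linarith) hDp)
      linarith
  have hcont : Continuous fun g => fa r F g * (r g).trace ^ (2 * m) :=
    (fa_cont hr F).mul ((Continuous.matrix_trace hr).pow _)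
  have hcont' : Continuous fun g => (((r g).trace).re) ^ (2 * m) :=
    (Complex.continuous_re.comp (Continuous.matrix_trace hr)).pow _
  have hint : (∫ g, (((r g).trace).re) ^ (2 * m) ∂(hm (stabG (tens B)))) =
      (finrank ℂ (B (Fin (2 * m))) : ℝ) := by
    have h1 := av_trace (κ := Fin (2 * m)) hr 1
    simp only [one_mul, Fintype.card_fin, hpow] at h1
    rw [← hA, hAt, integral_complex_ofReal] at h1
    exact_mod_cast h1
  have hlow : c₀ * (c * finrank ℂ (B (Fin (2 * m))) - (1 + c) * D ^ (2 * m)) ≤ (M.trace).re := by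
    have h1 : (M.trace).re = ∫ g, (fa r F g * (r g).trace ^ (2 * m)).re
        ∂(hm (stabG (tens B))) := by
      rw [hMt]
      exact (integral_re (μ := hm (stabG (tens B))) (𝕜 := ℂ) (integrable_of_continuous hcont)).symm
    have hi : Integrable (fun g => (((r g).trace).re) ^ (2 * m)) (hm (stabG (tens B))) :=
      hcont'.integrable_of_hasCompactSupport (HasCompactSupport.of_compactSpace _)
    have h2 : c₀ * (c * finrank ℂ (B (Fin (2 * m))) - (1 + c) * D ^ (2 * m)) =
        ∫ g, c₀ * (c * (((r g).trace).re) ^ (2 * m) - (1 + c) * D ^ (2 * m))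
          ∂(hm (stabG (tens B))) := by
      rw [integral_const_mul, integral_sub (hi.const_mul _) (integrable_const _),
        integral_const_mul, hint, integral_const]
      simp
    rw [h1, h2]
    refine integral_mono ?_ ?_ hpt
    · exact ((hi.const_mul _).sub (integrable_const _)).const_mul _
    · exact (integrable_of_continuous hcont).re
  have hfin := hlow.trans hup
  have h1 := le_of_mul_le_mul_left hfin hc₀p
  have h2 : (1 + c) * D ^ (2 * m) ≤ 2 * D ^ (2 * m) :=
    mul_le_mul_of_nonneg_right (by linarith [Real.cos_le_one (N * θ)]) hDp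
  linarith

end

end Pool.Agent.X259.U
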