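import Pool.Agent.X259.U.U33
import Pool.Agent.X259.T.T35

/-!
# Families of tensors without conjugation, and families of arrays
-/

set_option autoImplicit false
set_option linter.unusedSectionVars false
set_option linter.unusedDecidableInType false
set_option linter.unusedFintypeInType false

namespace Pool.Agent.X259.U

open Matrix Finset Module Pool.Agent.H204R3.SP Pool.Agent.H204R3.GP
  Pool.Agent.W516 Pool.Agent.X259.T

noncomputable section

variable {R : Type} [Fintype R] [DecidableEq R] (inv : R → R) (jj : R → ℂ)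

/-- The families of tensors closed under the operations, without the conjugation. -/
structure Fam0 (C : ∀ κ : Type, Submodule ℂ ((κ → R) → ℂ)) : Prop where
  ri : ∀ {κ μ : Type} (e : κ ≃ μ) {F : (κ → R) → ℂ}, F ∈ C κ → ri e F ∈ C μ
  tp : ∀ {κ μ : Type} [Fintype κ] [Fintype μ] {F : (κ → R) → ℂ} {F' : (μ → R) → ℂ},
    F ∈ C κ → F' ∈ C μ → tp F F' ∈ C (κ ⊕ μ)
  ct : ∀ {κ : Type} [Fintype κ] {F : (κ ⊕ Fin 2 → R) → ℂ}, F ∈ C (κ ⊕ Fin 2) → ct inv jj F ∈ C κ

variable {inv jj} {C : ∀ κ : Type, Submodule ℂ ((κ → R) → ℂ)}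

lemma mc0 (h : Fam0 inv jj C) (n : ℕ) : ∀ (κ : Type) [Fintype κ]
    (F : (κ ⊕ (Fin n ⊕ Fin n) → R) → ℂ), F ∈ C (κ ⊕ (Fin n ⊕ Fin n)) →
    (fun I : κ → R => ∑ J : Fin n → R, (∏ k, (jj (J k))⁻¹) *
      F (Sum.elim I (Sum.elim J fun k => inv (J k)))) ∈ C κ := by
  induction n with
  | zero =>
    intro κ _ F hF
    let e : κ ⊕ (Fin 0 ⊕ Fin 0) ≃ κ := Equiv.sumEmpty κ (Fin 0 ⊕ Fin 0)
    have h1 := h.ri e hF
    convert h1 using 1
    funext I
    rw [Fintype.sum_eq_single (fun k => k.elim0 : Fin 0 → R)]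
    · rw [Finset.univ_eq_empty, Finset.prod_empty, one_mul]
      change F _ = F _
      congr 1
      funext k
      rcases k with k | k | k
      · rfl
      · exact k.elim0
      · exact k.elim0
    · intro J hJ
      exact absurd (Subsingleton.elim _ _) hJ
  | succ n ih =>
    intro κ _ F hF
    have h1 := ih κ _ (h.ct (h.ri (eqc κ n) hF))
    convert h1 using 1
    funext I
    rw [← (Fin.snocEquiv (fun _ : Fin (n + 1) => R)).sum_comp, Fintype.sum_prod_type,
      Finset.sum_comm]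
    refine Finset.sum_congr rfl fun J _ => ?_
    rw [ct, Finset.mul_sum]
    refine Finset.sum_congr rfl fun x _ => ?_
    rw [Fin.prod_univ_castSucc, ← mul_assoc]
    congr 1
    · congr 1
      · refine Finset.prod_congr rfl fun k _ => ?_
        simp [Fin.snocEquiv]
      · simp [Fin.snocEquiv]
    · change F _ = F _
      congr 1
      funext k
      rcases k with k | k | k
      · rfl
      · refine Fin.lastCases ?_ (fun j => ?_) k
        · simp [eqc, Fin.snocEquiv]
        · simp [eqc, Fin.snocEquiv]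
      · refine Fin.lastCases ?_ (fun j => ?_) k
        · simp [eqc, Fin.snocEquiv]
        · simp [eqc, Fin.snocEquiv]

lemma pr_mem0 (h : Fam0 inv jj C) {κ μ : Type} [Fintype κ] [Fintype μ] [DecidableEq μ]
    {a : (μ → R) → ℂ} {D : (κ ⊕ μ → R) → ℂ} (ha : a ∈ C μ) (hD : D ∈ C (κ ⊕ μ)) :
    Pool.Agent.X259.T.pr inv jj a D ∈ C κ := by
  let n := Fintype.card μ
  let e : μ ≃ Fin n := Fintype.equivFin μ
  have h1 := h.ri (Equiv.sumAssoc κ (Fin n) (Fin n))
    (h.tp (h.ri (Equiv.sumCongr (Equiv.refl κ) e) hD) (h.ri e ha))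
  have h2 := mc0 h n κ _ h1
  convert h2 using 1
  funext I
  rw [Pool.Agent.X259.T.pr, ← (e.arrowCongr (Equiv.refl R)).symm.sum_comp]
  refine Finset.sum_congr rfl fun J _ => ?_
  congr 1
  · rw [← e.prod_comp]
    exact Finset.prod_congr rfl fun k _ => by simp
  · rw [mul_comm]
    change D _ * a _ = D _ * a _
    congr 2
    funext k
    rcases k with k | k
    · rfl
    · simp


/-- The tensors attached to a family of arrays. -/
def FA (S : Matrix R R ℂ) (A : ∀ m : ℕ, Submodule ℂ ((Fin m × Fin 2 → R) → ℂ)) (κ : Type) :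
    Submodule ℂ ((κ → R) → ℂ) :=
  Submodule.span ℂ {F | ∃ (m : ℕ) (e : Fin m × Fin 2 ≃ κ) (a : (Fin m × Fin 2 → R) → ℂ),
    a ∈ A m ∧ F = ri e (kr (Fin m × Fin 2) S *ᵥ a)}

/-- The closed families of arrays. -/
structure ClA (K : Matrix R R ℂ) (A : ∀ m : ℕ, Submodule ℂ ((Fin m × Fin 2 → R) → ℂ)) : Prop where
  perm : ∀ (m : ℕ) (σ : Equiv.Perm (Fin m × Fin 2)), ∀ a ∈ A m, ri σ a ∈ A m
  prod : ∀ (m m' : ℕ), ∀ a ∈ A m, ∀ a' ∈ A m', ri (e0 m m') (tp a a') ∈ A (m + m')
  contr : ∀ m : ℕ, ∀ a ∈ A (m + 1), cK K (ri (e1 m) a) ∈ A m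

variable {S : Matrix R R ℂ} {A : ∀ m : ℕ, Submodule ℂ ((Fin m × Fin 2 → R) → ℂ)} {κ μ : Type}

lemma FA_ri (e : κ ≃ μ) {F : (κ → R) → ℂ} (hF : F ∈ FA S A κ) : ri e F ∈ FA S A μ := by
  induction hF using Submodule.span_induction with
  | mem F h =>
    obtain ⟨m, e', ψ, hψ, rfl⟩ := h
    exact Submodule.subset_span ⟨m, e'.trans e, ψ, hψ, rfl⟩
  | zero => exact Submodule.zero_mem _
  | add a c _ _ ha hc => exact Submodule.add_mem _ ha hc
  | smul c a _ ha => exact Submodule.smul_mem _ _ ha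

lemma FA_gen {m : ℕ} (e : Fin m × Fin 2 ≃ κ) {a : (Fin m × Fin 2 → R) → ℂ} (ha : a ∈ A m) :
    ri e (kr (Fin m × Fin 2) S *ᵥ a) ∈ FA S A κ :=
  Submodule.subset_span ⟨m, e, a, ha, rfl⟩

lemma FA_tp {K : Matrix R R ℂ} (hC : ClA K A) [Fintype κ] [Fintype μ] {F : (κ → R) → ℂ}
    {F' : (μ → R) → ℂ} (hF : F ∈ FA S A κ) (hF' : F' ∈ FA S A μ) : tp F F' ∈ FA S A (κ ⊕ μ) := by
  classical
  induction hF using Submodule.span_induction with
  | mem F h =>
    obtain ⟨m, e, ψ, hψ, rfl⟩ := h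
    induction hF' using Submodule.span_induction with
    | mem F' h' =>
      obtain ⟨m', e', ψ', hψ', rfl⟩ := h'
      have h1 := hC.prod m m' ψ hψ ψ' hψ'
      have h2 := FA_gen (S := S) ((e0 m m').symm.trans (Equiv.sumCongr e e')) h1
      rw [kr_ri, kr_tp] at h2
      convert h2 using 1
      have h3 : ∀ F : ((Fin m × Fin 2) ⊕ (Fin m' × Fin 2) → R) → ℂ,
          ri (e0 m m').symm (ri (e0 m m') F) = F := by
        intro F
        funext J
        change F _ = F _
        congr 1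
        funext k
        simp
      rw [← ri_ri (e0 m m').symm, h3]
      rfl
    | zero =>
      rw [show tp _ (0 : (μ → R) → ℂ) = 0 from by
        funext I
        change _ * (0 : ℂ) = 0
        rw [mul_zero]]
      exact Submodule.zero_mem _
    | add a c _ _ ha hc => rw [tp_add_right]; exact Submodule.add_mem _ ha hc
    | smul c a _ ha => rw [tp_smul_right]; exact Submodule.smul_mem _ _ ha
  | zero =>
    rw [show tp (0 : (κ → R) → ℂ) F' = 0 from by
      funext I
      change (0 : ℂ) * _ = 0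
      rw [zero_mul]]
    exact Submodule.zero_mem _
  | add a c _ _ ha hc => rw [tp_add_left]; exact Submodule.add_mem _ ha hc
  | smul c a _ ha => rw [tp_smul_left]; exact Submodule.smul_mem _ _ ha

lemma FA_cK {K : Matrix R R ℂ} (hC : ClA K A) [Fintype κ] {M : Matrix R R ℂ}
    (hM : Sᵀ * M * S = -K) {F : (κ ⊕ Fin 2 → R) → ℂ} (hF : F ∈ FA S A (κ ⊕ Fin 2)) :
    cK M F ∈ FA S A κ := by
  classical
  induction hF using Submodule.span_induction with
  | mem F h =>
    obtain ⟨m', e, a, ha, rfl⟩ := h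
    have hc := Fintype.card_congr e
    rw [Fintype.card_prod, Fintype.card_fin, Fintype.card_fin, Fintype.card_sum,
      Fintype.card_fin] at hc
    obtain ⟨m, rfl⟩ : ∃ m, m' = m + 1 := ⟨m' - 1, by omega⟩
    have hc' : Fintype.card (Fin m × Fin 2) = Fintype.card κ := by
      rw [Fintype.card_prod, Fintype.card_fin, Fintype.card_fin]
      omega
    let e2 : Fin m × Fin 2 ≃ κ := Fintype.equivOfCardEq hc'
    let e3 : (Fin m × Fin 2) ⊕ Fin 2 ≃ κ ⊕ Fin 2 := Equiv.sumCongr e2 (Equiv.refl (Fin 2))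
    let σ : Equiv.Perm (Fin (m + 1) × Fin 2) := (e.trans e3.symm).trans (e1 m).symm
    have h1 : ri σ a ∈ A (m + 1) := hC.perm _ σ a ha
    have h2 := hC.contr m _ h1
    have h3 := FA_gen (S := S) e2 h2
    have h4 : ri e (kr (Fin (m + 1) × Fin 2) S *ᵥ a) =
        ri e3 (kr _ S *ᵥ (ri (e1 m) (ri σ a))) := by
      rw [kr_ri, kr_ri, ri_ri, ri_ri]
      congr 1
      ext p
      simp [σ]
    rw [h4, cK_ri, cK_kr, hM, cK_neg, Matrix.mulVec_neg]
    exact Submodule.neg_mem _ h3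
  | zero =>
    rw [show cK M (0 : (κ ⊕ Fin 2 → R) → ℂ) = 0 from by
      funext I
      simp [cK]]
    exact Submodule.zero_mem _
  | add a c _ _ ha hc => rw [cK_add]; exact Submodule.add_mem _ ha hc
  | smul c a _ ha => rw [cK_smul]; exact Submodule.smul_mem _ _ ha

/-- The dimension. -/
lemma FA_finrank {K : Matrix R R ℂ} (hC : ClA K A) [Fintype κ] {m : ℕ} (e : Fin m × Fin 2 ≃ κ) :
    finrank ℂ (FA S A κ) ≤ finrank ℂ (A m) := by
  classical
  let L : ((Fin m × Fin 2 → R) → ℂ) →ₗ[ℂ] ((κ → R) → ℂ) :=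
    { toFun := fun a => ri e (kr (Fin m × Fin 2) S *ᵥ a)
      map_add' := fun a c => by rw [Matrix.mulVec_add]; rfl
      map_smul' := fun c a => by rw [Matrix.mulVec_smul]; rfl }
  have h1 : FA S A κ ≤ (A m).map L := by
    refine Submodule.span_le.2 ?_
    rintro F ⟨m', e', a, ha, rfl⟩
    have hc := Fintype.card_congr (e'.trans e.symm)
    rw [Fintype.card_prod, Fintype.card_prod, Fintype.card_fin, Fintype.card_fin,
      Fintype.card_fin] at hc
    obtain rfl : m' = m := by omega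
    refine ⟨ri (e'.trans e.symm) a, hC.perm _ _ a ha, ?_⟩
    change ri e (kr (Fin m' × Fin 2) S *ᵥ ri (e'.trans e.symm) a) = _
    rw [kr_ri, ri_ri]
    congr 1
    ext p
    simp
  exact (Submodule.finrank_mono h1).trans (Submodule.finrank_map_le L (A m))

end

end Pool.Agent.X259.U
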