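import Mathlib

/-!
# The field of `ℓ`-adic numbers can be embedded in the field of complex numbers
-/

set_option autoImplicit false

namespace Pool.Agent.X259.U

open Cardinal

/-- The cardinality of the field of `ℓ`-adic numbers. -/
lemma card_padic (ℓ : ℕ) [Fact ℓ.Prime] : #ℚ_[ℓ] = 𝔠 := by
  apply le_antisymm
  · have h1 : #ℚ_[ℓ] ≤ #(CauSeq ℚ (padicNorm ℓ)) :=
      Cardinal.mk_le_of_surjective (f := (Quotient.mk _ : CauSeq ℚ (padicNorm ℓ) → ℚ_[ℓ]))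
        Quotient.mk_surjective
    have h2 : #(CauSeq ℚ (padicNorm ℓ)) ≤ #(ℕ → ℚ) := Cardinal.mk_subtype_le _
    have h3 : #(ℕ → ℚ) = 𝔠 := by
      rw [← Cardinal.power_def, Cardinal.mk_denumerable ℕ, Cardinal.mk_denumerable ℚ,
        Cardinal.aleph0_power_aleph0]
    exact (h1.trans h2).trans h3.le
  · exact continuum_le_cardinal_of_nontriviallyNormedField ℚ_[ℓ]

/-- The embedding. -/
theorem exists_emb (ℓ : ℕ) [Fact ℓ.Prime] : Nonempty (ℚ_[ℓ] →+* ℂ) := by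
  have h1 : #(AlgebraicClosure ℚ_[ℓ]) = 𝔠 := by
    apply le_antisymm
    · have h2 := Algebra.IsAlgebraic.cardinalMk_le_max ℚ_[ℓ] (AlgebraicClosure ℚ_[ℓ])
      rw [card_padic] at h2
      exact h2.trans (max_le le_rfl Cardinal.aleph0_le_continuum)
    · rw [← card_padic ℓ]
      exact Cardinal.mk_le_of_injective (algebraMap ℚ_[ℓ] (AlgebraicClosure ℚ_[ℓ])).injective
  have h2 : Nonempty (AlgebraicClosure ℚ_[ℓ] ≃ ℂ) := by
    rw [← Cardinal.eq, h1, Cardinal.mk_complex]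
  have : CharZero (AlgebraicClosure ℚ_[ℓ]) :=
    charZero_of_injective_algebraMap (algebraMap ℚ_[ℓ] (AlgebraicClosure ℚ_[ℓ])).injective
  obtain ⟨e⟩ := IsAlgClosed.ringEquiv_of_equiv_of_charZero
    (by rw [h1]; exact Cardinal.aleph0_lt_continuum) h2
  exact ⟨(e : AlgebraicClosure ℚ_[ℓ] →+* ℂ).comp (algebraMap ℚ_[ℓ] (AlgebraicClosure ℚ_[ℓ]))⟩

end Pool.Agent.X259.U
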