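import Pool.Agent.X259.U.U34
import Pool.Agent.X259.U.U35

/-!
# Tate classes in complex coordinates
-/

set_option autoImplicit false
set_option linter.unusedSectionVars false
set_option linter.unusedDecidableInType false
set_option linter.unusedFintypeInType false

namespace Pool.Agent.X259.U

open Matrix Finset Module TensorProduct Pool.Agent.H204R3.SP Pool.Agent.H204R3.GP
  Pool.Agent.W516 Pool.Agent.X259.T

noncomputable section

section descent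

variable {K : Type} [Field K] (τ : K →+* ℂ) {X : Type} [Fintype X]

/-- A complex vector whose components over `K` are in a space is a combination of vectors in the
space. -/
lemma mem_span_comp (U : Submodule K (X → K)) (a : X → ℂ)
    (h : ∀ lam : ℂ → K, (∀ (c : K) (x : ℂ), lam (τ c * x) = c * lam x) →
      (∀ x y, lam (x + y) = lam x + lam y) → (fun x => lam (a x)) ∈ U) :
    a ∈ Submodule.span ℂ {F : X → ℂ | ∃ u ∈ U, F = fun x => τ (u x)} := by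
  classical
  let _ : Algebra K ℂ := τ.toAlgebra
  have hsm : ∀ (c : K) (x : ℂ), c • x = τ c * x := fun c x => Algebra.smul_def c x
  let β := Basis.ofVectorSpace K ℂ
  let s : Finset (Basis.ofVectorSpaceIndex K ℂ) :=
    Finset.univ.biUnion fun x => (β.repr (a x)).support
  have h1 : a = ∑ i ∈ s, β i • (fun x => τ (β.repr (a x) i)) := by
    funext x
    rw [Finset.sum_apply]
    have h2 := β.linearCombination_repr (a x)
    rw [Finsupp.linearCombination_apply, Finsupp.sum_of_support_subset (s := s)] at h2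
    · conv_lhs => rw [← h2]
      refine Finset.sum_congr rfl fun i _ => ?_
      rw [Pi.smul_apply, smul_eq_mul, hsm, mul_comm]
    · intro i hi
      exact Finset.mem_biUnion.2 ⟨x, Finset.mem_univ _, hi⟩
    · intro i _
      exact zero_smul _ _
  rw [h1]
  refine Submodule.sum_mem _ fun i _ => Submodule.smul_mem _ _ (Submodule.subset_span ?_)
  refine ⟨fun x => β.repr (a x) i, h (fun z => β.repr z i) (fun c x => ?_) (fun x y => ?_), rfl⟩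
  · rw [← hsm, map_smul, Finsupp.smul_apply, smul_eq_mul]
  · rw [map_add, Finsupp.add_apply]

/-- The dimension of the complex span. -/
lemma finrank_span_comp (U : Submodule K (X → K)) :
    finrank ℂ (Submodule.span ℂ {F : X → ℂ | ∃ u ∈ U, F = fun x => τ (u x)}) ≤ finrank K U := by
  classical
  let u := Module.finBasis K U
  have h1 : Submodule.span ℂ {F : X → ℂ | ∃ u ∈ U, F = fun x => τ (u x)} ≤
      Submodule.span ℂ (Set.range fun i => fun x => τ ((u i : X → K) x)) := by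
    refine Submodule.span_le.2 ?_
    rintro F ⟨v, hv, rfl⟩
    have h2 := u.sum_repr ⟨v, hv⟩
    have h3 : (fun x => τ (v x)) = ∑ i, τ (u.repr ⟨v, hv⟩ i) • (fun x => τ ((u i : X → K) x)) := by
      funext x
      have h4 := congrArg (fun y : U => (y : X → K) x) h2
      simp only [Submodule.coe_sum, Submodule.coe_smul, Finset.sum_apply, Pi.smul_apply,
        smul_eq_mul] at h4
      rw [Finset.sum_apply, ← h4, map_sum]
      refine Finset.sum_congr rfl fun i _ => ?_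
      rw [map_mul, Pi.smul_apply, smul_eq_mul]
    rw [h3]
    exact Submodule.sum_mem _ fun i _ => Submodule.smul_mem _ _ (Submodule.subset_span ⟨i, rfl⟩)
  refine (Submodule.finrank_mono h1).trans ?_
  refine (finrank_range_le_card _).trans ?_
  rw [Fintype.card_fin]

end descent

section tate

variable {ℓ : ℕ} [Fact ℓ.Prime] {W : Type} [AddCommGroup W] [Module ℚ W] {R : Type} [Fintype R]
  [DecidableEq R] (b : Basis R ℚ W) (τ : ℚ_[ℓ] →+* ℂ) {Γ : Type} [Group Γ]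
  (ρ : Representation ℚ_[ℓ] Γ (ℚ_[ℓ] ⊗[ℚ] W)) (χ : Γ →* ℚ_[ℓ])

/-- The complex matrix of an element of the Galois group. -/
def Ns (s : Γ) : Matrix R R ℂ := fun x y =>
  τ ((b.baseChange ℚ_[ℓ]).repr (ρ s ((1 : ℚ_[ℓ]) ⊗ₜ[ℚ] b x)) y)

/-- The complex coefficients of a form. -/
def gK {κ : Type} (φ : MultilinearMap ℚ_[ℓ] (fun _ : κ => ℚ_[ℓ] ⊗[ℚ] W) ℚ_[ℓ]) : (κ → R) → ℂ :=
  fun J => τ (φ fun k => (1 : ℚ_[ℓ]) ⊗ₜ[ℚ] b (J k))

lemma rho_sum (s : Γ) (x : R) : ρ s ((1 : ℚ_[ℓ]) ⊗ₜ[ℚ] b x) =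
    ∑ y, (b.baseChange ℚ_[ℓ]).repr (ρ s ((1 : ℚ_[ℓ]) ⊗ₜ[ℚ] b x)) y • ((1 : ℚ_[ℓ]) ⊗ₜ[ℚ] b y) := by
  conv_lhs => rw [← (b.baseChange ℚ_[ℓ]).sum_repr (ρ s ((1 : ℚ_[ℓ]) ⊗ₜ[ℚ] b x))]
  refine Finset.sum_congr rfl fun y _ => ?_
  rw [Basis.baseChange_apply]

lemma form_rho {κ : Type} [Fintype κ] [DecidableEq κ] (s : Γ)
    (φ : MultilinearMap ℚ_[ℓ] (fun _ : κ => ℚ_[ℓ] ⊗[ℚ] W) ℚ_[ℓ]) (J : κ → R) :
    φ (fun k => ρ s ((1 : ℚ_[ℓ]) ⊗ₜ[ℚ] b (J k))) =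
      ∑ I : κ → R, (∏ k, (b.baseChange ℚ_[ℓ]).repr (ρ s ((1 : ℚ_[ℓ]) ⊗ₜ[ℚ] b (J k))) (I k)) *
        φ (fun k => (1 : ℚ_[ℓ]) ⊗ₜ[ℚ] b (I k)) := by
  have h1 : (fun k => ρ s ((1 : ℚ_[ℓ]) ⊗ₜ[ℚ] b (J k))) = fun k =>
      ∑ y, (b.baseChange ℚ_[ℓ]).repr (ρ s ((1 : ℚ_[ℓ]) ⊗ₜ[ℚ] b (J k))) y •
        ((1 : ℚ_[ℓ]) ⊗ₜ[ℚ] b y) := by
    funext k
    exact rho_sum b ρ s (J k)
  rw [h1, MultilinearMap.map_sum]
  refine Finset.sum_congr rfl fun I _ => ?_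
  rw [MultilinearMap.map_smul_univ, smul_eq_mul]

lemma Ns_gK {κ : Type} [Fintype κ] [DecidableEq κ] (s : Γ)
    (φ : MultilinearMap ℚ_[ℓ] (fun _ : κ => ℚ_[ℓ] ⊗[ℚ] W) ℚ_[ℓ]) (J : κ → R) :
    (kr κ (Ns b τ ρ s) *ᵥ gK b τ φ) J = τ (φ fun k => ρ s ((1 : ℚ_[ℓ]) ⊗ₜ[ℚ] b (J k))) := by
  rw [kr_mulVec, form_rho, map_sum]
  refine Finset.sum_congr rfl fun I _ => ?_
  rw [map_mul, map_prod]
  rfl

/-- The complex arrays which are invariant under a subgroup of finite index. -/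
def TA (m : ℕ) : Submodule ℂ ((Fin m × Fin 2 → R) → ℂ) where
  carrier := {a | ∃ Δ : Subgroup Γ, Δ.FiniteIndex ∧ ∀ s ∈ Δ,
    kr (Fin m × Fin 2) (Ns b τ ρ s) *ᵥ a = τ (χ s) ^ m • a}
  zero_mem' := ⟨⊤, inferInstance, fun s _ => by rw [Matrix.mulVec_zero, smul_zero]⟩
  add_mem' := by
    rintro a c ⟨Δ, hΔ, h⟩ ⟨Δ', hΔ', h'⟩
    refine ⟨Δ ⊓ Δ', inferInstance, fun s hs => ?_⟩
    rw [Matrix.mulVec_add, h s hs.1, h' s hs.2, smul_add]
  smul_mem' := by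
    rintro c a ⟨Δ, hΔ, h⟩
    refine ⟨Δ, hΔ, fun s hs => ?_⟩
    rw [Matrix.mulVec_smul, h s hs, smul_comm]

variable {χ} in
lemma chi_ne (s : Γ) : τ (χ s) ≠ 0 := by
  intro h
  have h1 : τ (χ s) * τ (χ s⁻¹) = 1 := by
    rw [← map_mul, ← map_mul, mul_inv_cancel, map_one, map_one]
  rw [h, zero_mul] at h1
  exact zero_ne_one h1

section closed

variable {b τ ρ χ} {ω₀ : W →ₗ[ℚ] W →ₗ[ℚ] ℚ}
  {ω : ℚ_[ℓ] ⊗[ℚ] W →ₗ[ℚ_[ℓ]] ℚ_[ℓ] ⊗[ℚ] W →ₗ[ℚ_[ℓ]] ℚ_[ℓ]}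
  (hωω : ∀ u v : W, ω ((1 : ℚ_[ℓ]) ⊗ₜ[ℚ] u) ((1 : ℚ_[ℓ]) ⊗ₜ[ℚ] v) = ((ω₀ u v : ℚ) : ℚ_[ℓ]))
  (hωρ : ∀ s u v, ω (ρ s u) (ρ s v) = χ s * ω u v)

lemma bil_sum {K V : Type} [Field K] [AddCommGroup V] [Module K V] (ω : V →ₗ[K] V →ₗ[K] K)
    (c c' : R → K) (e : R → V) : ω (∑ z, c z • e z) (∑ z, c' z • e z) =
      ∑ z, ∑ z', c z * (c' z' * ω (e z) (e z')) := by
  rw [map_sum, Finset.sum_comm]
  refine Finset.sum_congr rfl fun z' _ => ?_
  rw [map_smul, map_sum, LinearMap.sum_apply, smul_eq_mul, Finset.mul_sum]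
  refine Finset.sum_congr rfl fun z _ => ?_
  rw [map_smul, LinearMap.smul_apply, smul_eq_mul]
  ring

include hωω hωρ in
lemma Ns_Om (s : Γ) : Ns b τ ρ s * Om b ω₀ * (Ns b τ ρ s)ᵀ = τ (χ s) • Om b ω₀ := by
  ext x y
  have h1 := hωρ s ((1 : ℚ_[ℓ]) ⊗ₜ[ℚ] b x) ((1 : ℚ_[ℓ]) ⊗ₜ[ℚ] b y)
  rw [hωω, rho_sum b ρ s x, rho_sum b ρ s y, bil_sum] at h1
  simp only [hωω] at h1
  have h2 := congrArg τ h1
  simp only [map_sum, map_mul, map_ratCast] at h2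
  have h3 : (τ (χ s) • Om b ω₀) x y = τ (χ s) * ((ω₀ (b x) (b y) : ℚ) : ℂ) := rfl
  rw [h3, ← h2, Matrix.mul_apply]
  have h4 : ∀ z, (Ns b τ ρ s * Om b ω₀) x z * (Ns b τ ρ s)ᵀ z y =
      ∑ z', Ns b τ ρ s x z' * (Ns b τ ρ s y z * ((ω₀ (b z') (b z) : ℚ) : ℂ)) := by
    intro z
    rw [Matrix.mul_apply, Finset.sum_mul]
    refine Finset.sum_congr rfl fun z' _ => ?_
    change Ns b τ ρ s x z' * ((ω₀ (b z') (b z) : ℚ) : ℂ) * Ns b τ ρ s y z = _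
    ring
  simp only [h4]
  rw [Finset.sum_comm]
  rfl

variable {ι : Type} [Fintype ι] [DecidableEq ι] {β β' : ι → W}
  (hβ : ∀ w : W, w = ∑ i, ω₀ w (β' i) • β i)

include hωω hωρ hβ in
lemma Ns_Km (s : Γ) :
    (Ns b τ ρ s)ᵀ * Km b β β' * Ns b τ ρ s = τ (χ s) • Km b β β' := by
  set N := Ns b τ ρ s with hN
  set x := τ (χ s) with hx
  have hx0 : x ≠ 0 := chi_ne τ s
  have h1 := Om_Km (b := b) hβ
  have h2 : N * Om b ω₀ * Nᵀ = x • Om b ω₀ := Ns_Om hωω hωρ s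
  have h1' : (Km b β β')ᵀ * Om b ω₀ = 1 := mul_eq_one_comm.1 h1
  have h3 : N * (x⁻¹ • (Om b ω₀ * Nᵀ * (Km b β β')ᵀ)) = 1 := by
    rw [Matrix.mul_smul]
    calc x⁻¹ • (N * (Om b ω₀ * Nᵀ * (Km b β β')ᵀ)) =
        x⁻¹ • ((N * Om b ω₀ * Nᵀ) * (Km b β β')ᵀ) := by simp only [mul_assoc]
      _ = 1 := by
        rw [h2, Matrix.smul_mul, h1, smul_smul, inv_mul_cancel₀ hx0, one_smul]
  have h4 : (x⁻¹ • (Om b ω₀ * Nᵀ * (Km b β β')ᵀ)) * N = 1 := mul_eq_one_comm.1 h3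
  have h5 : Nᵀ * (Km b β β')ᵀ * N = x • (Km b β β')ᵀ := by
    have h6 : (Km b β β')ᵀ * ((x⁻¹ • (Om b ω₀ * Nᵀ * (Km b β β')ᵀ)) * N) = (Km b β β')ᵀ := by
      rw [h4, mul_one]
    have h7 : (Km b β β')ᵀ * ((x⁻¹ • (Om b ω₀ * Nᵀ * (Km b β β')ᵀ)) * N) =
        x⁻¹ • (Nᵀ * (Km b β β')ᵀ * N) := by
      rw [Matrix.smul_mul, Matrix.mul_smul]
      congr 1
      calc _ = ((Km b β β')ᵀ * Om b ω₀) * Nᵀ * (Km b β β')ᵀ * N := by simp only [mul_assoc]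
        _ = _ := by rw [h1', one_mul]
    rw [h7] at h6
    calc Nᵀ * (Km b β β')ᵀ * N = x • (x⁻¹ • (Nᵀ * (Km b β β')ᵀ * N)) := by
          rw [smul_smul, mul_inv_cancel₀ hx0, one_smul]
      _ = _ := by rw [h6]
  have h8 := congrArg Matrix.transpose h5
  rw [Matrix.transpose_mul, Matrix.transpose_mul, Matrix.transpose_transpose,
    Matrix.transpose_smul, Matrix.transpose_transpose, Matrix.transpose_transpose, ← mul_assoc] at h8
  exact h8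

include hωω hωρ hβ in
/-- The invariant arrays are a closed family. -/
lemma closed_TA : ClA (Km b β β') (TA b τ ρ χ) where
  perm := by
    rintro m σ a ⟨Δ, hΔ, h⟩
    refine ⟨Δ, hΔ, fun s hs => ?_⟩
    rw [kr_ri, h s hs]
    rfl
  prod := by
    rintro m m' a ⟨Δ, hΔ, h⟩ a' ⟨Δ', hΔ', h'⟩
    refine ⟨Δ ⊓ Δ', inferInstance, fun s hs => ?_⟩
    rw [kr_ri, kr_tp, h s hs.1, h' s hs.2, tp_smul_left, tp_smul_right, smul_smul, ← pow_add]
    rfl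
  contr := by
    rintro m a ⟨Δ, hΔ, h⟩
    refine ⟨Δ, hΔ, fun s hs => ?_⟩
    have h2 := cK_kr (Km b β β') (Ns b τ ρ s) (ri (e1 m) a)
    rw [Ns_Km hωω hωρ hβ, kr_ri, h s hs] at h2
    have h3 : cK (τ (χ s) • Km b β β') (ri (e1 m) a) = τ (χ s) • cK (Km b β β') (ri (e1 m) a) := by
      funext I
      simp only [cK, Pi.smul_apply, Matrix.smul_apply, smul_eq_mul, Finset.mul_sum, mul_assoc]
    rw [ri_smul, cK_smul, h3, Matrix.mulVec_smul, pow_succ, mul_comm, ← smul_smul] at h2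
    exact ((smul_right_injective _ (chi_ne (χ := χ) τ s)) h2).symm

end closed

/-- Tate classes give invariant arrays. -/
lemma tate_mem {m : ℕ} {φ : MultilinearMap ℚ_[ℓ] (fun _ : Fin m × Fin 2 => ℚ_[ℓ] ⊗[ℚ] W) ℚ_[ℓ]}
    (hφ : IsTateTensor ρ χ m φ) : gK b τ φ ∈ TA b τ ρ χ m := by
  obtain ⟨Δ, hΔ, h⟩ := hφ
  refine ⟨Δ, hΔ, fun s hs => ?_⟩
  funext J
  rw [Ns_gK, h s hs, map_mul, map_pow]
  rfl

/-- The form with given coefficients. -/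
def mkK {κ : Type} [Fintype κ] [DecidableEq κ] (u : (κ → R) → ℚ_[ℓ]) :
    MultilinearMap ℚ_[ℓ] (fun _ : κ => ℚ_[ℓ] ⊗[ℚ] W) ℚ_[ℓ] :=
  ∑ J : κ → R, u J • (MultilinearMap.mkPiAlgebra ℚ_[ℓ] κ ℚ_[ℓ]).compLinearMap
    (fun k => (b.baseChange ℚ_[ℓ]).coord (J k))

lemma mkK_apply {κ : Type} [Fintype κ] [DecidableEq κ] (u : (κ → R) → ℚ_[ℓ]) (I : κ → R) :
    mkK b u (fun k => (1 : ℚ_[ℓ]) ⊗ₜ[ℚ] b (I k)) = u I := by
  have h0 : ∀ x : R, (1 : ℚ_[ℓ]) ⊗ₜ[ℚ] b x = b.baseChange ℚ_[ℓ] x := fun x =>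
    (Basis.baseChange_apply _ _ _).symm
  simp only [h0]
  rw [mkK, _root_.sum_apply, Finset.sum_eq_single I]
  · rw [_root_.smul_apply, MultilinearMap.compLinearMap_apply, MultilinearMap.mkPiAlgebra_apply,
      smul_eq_mul]
    rw [Finset.prod_eq_one, mul_one]
    intro k _
    rw [Basis.coord_apply, Basis.repr_self, Finsupp.single_eq_same]
  · intro J _ hJ
    obtain ⟨k, hk⟩ := Function.ne_iff.1 hJ
    rw [_root_.smul_apply, MultilinearMap.compLinearMap_apply, MultilinearMap.mkPiAlgebra_apply,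
      smul_eq_mul, Finset.prod_eq_zero (Finset.mem_univ k), mul_zero]
    rw [Basis.coord_apply, Basis.repr_self, Finsupp.single_eq_of_ne hk]
  · intro h
    exact absurd (Finset.mem_univ _) h

/-- Invariant arrays are combinations of Tate classes. -/
lemma TA_le (m : ℕ) (U : Submodule ℚ_[ℓ] ((Fin m × Fin 2 → R) → ℚ_[ℓ]))
    (hU : ∀ φ : MultilinearMap ℚ_[ℓ] (fun _ : Fin m × Fin 2 => ℚ_[ℓ] ⊗[ℚ] W) ℚ_[ℓ],
      IsTateTensor ρ χ m φ → (fun J => φ fun k => (1 : ℚ_[ℓ]) ⊗ₜ[ℚ] b (J k)) ∈ U) :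
    finrank ℂ (TA b τ ρ χ m) ≤ finrank ℚ_[ℓ] U := by
  refine le_trans (Submodule.finrank_mono ?_) (finrank_span_comp τ U)
  rintro a ⟨Δ, hΔ, h⟩
  refine mem_span_comp τ U a fun lam hmul hadd => ?_
  have h1 := hU (mkK b fun J => lam (a J)) ?_
  · have h2 : (fun J : Fin m × Fin 2 → R => mkK b (fun J => lam (a J))
        fun k => (1 : ℚ_[ℓ]) ⊗ₜ[ℚ] b (J k)) = fun J => lam (a J) := by
      funext J
      exact mkK_apply b _ J
    rwa [h2] at h1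
  · refine ⟨Δ, hΔ, fun s hs v => ?_⟩
    have h0 : lam 0 = 0 := by
      have := hmul 0 0
      rwa [map_zero, zero_mul, zero_mul] at this
    let lam' : ℂ →+ ℚ_[ℓ] := { toFun := lam, map_zero' := h0, map_add' := hadd }
    have h3 : (mkK b fun J => lam (a J)).compLinearMap (fun _ => ρ s) =
        χ s ^ m • (mkK b fun J => lam (a J)) := by
      refine Basis.ext_multilinear (fun _ => b.baseChange ℚ_[ℓ]) fun J => ?_
      simp only [Basis.baseChange_apply]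
      rw [MultilinearMap.compLinearMap_apply, form_rho, _root_.smul_apply, mkK_apply, smul_eq_mul]
      simp only [mkK_apply]
      have h4 := congrArg lam' (congrFun (h s hs) J)
      rw [kr_mulVec, map_sum, Pi.smul_apply, smul_eq_mul, ← map_pow] at h4
      have h5 : lam' (τ (χ s ^ m) * a J) = χ s ^ m * lam (a J) := hmul _ _
      rw [h5] at h4
      rw [← h4]
      refine Finset.sum_congr rfl fun I _ => ?_
      have h6 : (∏ k, Ns b τ ρ s (J k) (I k)) = τ (∏ k, (b.baseChange ℚ_[ℓ]).repr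
          (ρ s ((1 : ℚ_[ℓ]) ⊗ₜ[ℚ] b (J k))) (I k)) := by
        rw [map_prod]
        rfl
      rw [h6]
      exact (hmul _ _).symm
    have h4 := congrArg (fun φ => φ v) h3
    exact h4

end tate

end

end Pool.Agent.X259.U
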