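import Pool.Agent.X259.U.U36
import Pool.Agent.X259.U.U31

/-!
# More than half of the Tate classes of one degree decide in low degrees
-/

set_option autoImplicit false
set_option linter.unusedSectionVars false
set_option linter.unusedDecidableInType false
set_option linter.unusedFintypeInType false

namespace Pool.Agent.X259.U

open Matrix Finset Module MeasureTheory TensorProduct Pool.Agent.H204R3.SP Pool.Agent.H204R3.GP
  Pool.Agent.W516 Pool.Agent.X259.T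
open scoped ComplexOrder

noncomputable section

/-- The numerical bound. -/
lemma tate_deg {d r k m : ℕ} (hd : 2 ≤ d) (hr : 1 ≤ r) (hk : 1 ≤ k)
    (hm : 32 * k * d ^ 3 * r ^ 2 * (Nat.log 2 (2 * d * k * r) + 1) ≤ m) :
    ∃ θ : ℝ, 0 < θ ∧ ((2 * r : ℕ) : ℝ) * θ ≤ Real.pi ∧
      1 - 1 / (2 * (k : ℝ)) ≤ Real.cos (((2 * r : ℕ) : ℝ) * θ) ∧ 4 * k ≤ m + 1 ∧
      ((m : ℝ) + 1) ^ (d * d) *
        (((m : ℝ) + 1) * ((d : ℝ) - 2 * (1 - Real.cos θ)) ^ (2 * m)) < (d : ℝ) ^ (2 * m) := by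
  have hd0 : (0 : ℝ) < d := by
    have : 0 < d := by omega
    exact_mod_cast this
  have hd2 : (2 : ℝ) ≤ d := by exact_mod_cast hd
  obtain ⟨N, hN⟩ : ∃ N : ℕ, N = 2 * r := ⟨_, rfl⟩
  rw [← hN]
  have hN2 : 2 ≤ N := by omega
  have hNR : (2 : ℝ) ≤ N := by exact_mod_cast hN2
  have hN0 : (0 : ℝ) < N := by linarith
  have hkR : (1 : ℝ) ≤ k := by exact_mod_cast hk
  have hk0 : (0 : ℝ) < k := by linarith
  set y : ℝ := Real.sqrt (1 / k) with hy
  have hy2 : y ^ 2 = 1 / k := Real.sq_sqrt (by positivity)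
  have hy0 : 0 < y := Real.sqrt_pos.2 (by positivity)
  have hy1 : y ≤ 1 := by
    rw [hy, Real.sqrt_le_one]
    rw [div_le_one hk0]
    exact hkR
  have hNy : (N : ℝ) * (y / N) = y := by
    field_simp
  have hπ3 : (3 : ℝ) < Real.pi := Real.pi_gt_three
  refine ⟨y / N, by positivity, ?_, ?_, ?_, ?_⟩
  · rw [hNy]
    linarith
  · rw [hNy]
    have h1 := Real.one_sub_sq_div_two_le_cos (x := y)
    rw [hy2] at h1
    have h2 : 1 / (k : ℝ) / 2 = 1 / (2 * (k : ℝ)) := by field_simp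
    rw [h2] at h1
    exact h1
  · have h1 : 4 * k ≤ 32 * k * d ^ 3 * r ^ 2 * (Nat.log 2 (2 * d * k * r) + 1) := by
      have h2 : 1 ≤ d ^ 3 * r ^ 2 * (Nat.log 2 (2 * d * k * r) + 1) := Nat.one_le_iff_ne_zero.2
        (by positivity)
      calc 4 * k ≤ 32 * k * 1 := by omega
        _ ≤ 32 * k * (d ^ 3 * r ^ 2 * (Nat.log 2 (2 * d * k * r) + 1)) :=
          Nat.mul_le_mul_left _ h2
        _ = _ := by ring
    omega
  have hcos1 : 1 / (5 * (N : ℝ) ^ 2 * k) ≤ 1 - Real.cos (y / N) := by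
    have hx0 : 0 ≤ y / N := by positivity
    have hx1 : y / N ≤ 1 := by
      rw [div_le_one hN0]
      linarith
    have h1 := Real.cos_le_one_sub_mul_cos_sq (x := y / N) (by
      rw [abs_of_nonneg hx0]
      linarith)
    have h2 : (1 : ℝ) / 5 ≤ 2 / Real.pi ^ 2 := by
      rw [div_le_div_iff₀ (by norm_num) (by positivity)]
      have h3 := Real.pi_lt_d2
      nlinarith
    have h3 : (y / N) ^ 2 = 1 / ((N : ℝ) ^ 2 * k) := by
      rw [div_pow, hy2]
      field_simp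
    have h4 : 1 / (5 * (N : ℝ) ^ 2 * k) = 1 / 5 * (y / N) ^ 2 := by
      rw [h3]
      field_simp
    have h5 : 1 / 5 * (y / N) ^ 2 ≤ 2 / Real.pi ^ 2 * (y / N) ^ 2 :=
      mul_le_mul_of_nonneg_right h2 (sq_nonneg _)
    rw [h4]
    linarith
  refine half_of_log (by omega) ?_ ?_
  · have h1 : 0 ≤ Real.cos (y / N) := by
      apply Real.cos_nonneg_of_neg_pi_div_two_le_of_le
      · have : 0 ≤ y / N := by positivity
        linarith
      · have : y / N ≤ 1 := by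
          rw [div_le_one hN0]
          linarith
        linarith
    linarith
  set L := Nat.log 2 (2 * d * k * r) + 1 with hL
  have hL2 : 2 ≤ L := by
    have h1 : 1 ≤ Nat.log 2 (2 * d * k * r) :=
      (Nat.le_log_iff_pow_le (by norm_num) (by positivity)).2 (by
        have h2 : 1 ≤ d * k * r := Nat.one_le_iff_ne_zero.2 (by positivity)
        calc 2 ^ 1 ≤ 2 * (d * k * r) := by omega
          _ = _ := by ring)
    omega
  have hMN : 32 * k * d ^ 3 * r ^ 2 * L = 8 * k * N ^ 2 * d ^ 3 * L := by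
    rw [hN]
    ring
  rw [hMN] at hm
  have hM0 : 0 < 8 * k * N ^ 2 * d ^ 3 * L := by positivity
  have hdL : d * N * k < 2 ^ L := by
    have h1 : 2 * d * k * r < 2 ^ L := Nat.lt_pow_succ_log_self (by norm_num) (2 * d * k * r)
    rw [hN]
    calc d * (2 * r) * k = 2 * d * k * r := by ring
      _ < _ := h1
  have hLL : 8 * L ≤ 4 * 2 ^ L := by
    obtain ⟨l, hl⟩ : ∃ l, L = l + 1 := ⟨L - 1, by omega⟩
    have h1 : l < 2 ^ l := Nat.lt_two_pow_self
    rw [hl, pow_succ]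
    omega
  have hM16 : 8 * k * N ^ 2 * d ^ 3 * L + 1 ≤ 2 ^ (4 * L + 2) := by
    have h1 : (d * N * k) ^ 3 < (2 ^ L) ^ 3 := Nat.pow_lt_pow_left hdL (by norm_num)
    have h0 : k * N ^ 2 * d ^ 3 ≤ (d * N * k) ^ 3 := by
      have h5 : N ^ 2 ≤ N ^ 3 := Nat.pow_le_pow_right (by omega) (by norm_num)
      have h6 : k ≤ k ^ 3 := Nat.le_self_pow (by norm_num) k
      calc k * N ^ 2 * d ^ 3 ≤ k ^ 3 * N ^ 3 * d ^ 3 :=
            Nat.mul_le_mul_right _ (Nat.mul_le_mul h6 h5)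
        _ = _ := by ring
    have h2 : k * N ^ 2 * d ^ 3 * (8 * L) < (2 ^ L) ^ 3 * (4 * 2 ^ L) :=
      lt_of_lt_of_le (Nat.mul_lt_mul_of_pos_right (lt_of_le_of_lt h0 h1) (by omega))
        (Nat.mul_le_mul_left _ hLL)
    have h3 : 2 ^ (4 * L + 2) = (2 ^ L) ^ 3 * (4 * 2 ^ L) := by
      rw [pow_add, mul_comm 4 L, pow_mul]
      ring
    rw [h3]
    have h4 : 8 * k * N ^ 2 * d ^ 3 * L = k * N ^ 2 * d ^ 3 * (8 * L) := by ring
    rw [h4]
    omega
  have hLR : (2 : ℝ) ≤ L := by exact_mod_cast hL2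
  have hlog : Real.log (((8 * k * N ^ 2 * d ^ 3 * L : ℕ) : ℝ) + 1) < 3.5 * L := by
    have h1 : (((8 * k * N ^ 2 * d ^ 3 * L : ℕ) : ℝ) + 1) ≤ (2 : ℝ) ^ (4 * L + 2) := by
      exact_mod_cast hM16
    have h2 : Real.log (((8 * k * N ^ 2 * d ^ 3 * L : ℕ) : ℝ) + 1) ≤ (4 * L + 2) * Real.log 2 := by
      have h3 := Real.log_le_log (by positivity) h1
      rw [Real.log_pow] at h3
      push_cast at h3 ⊢
      exact h3
    have h5 := Real.log_two_lt_d9
    nlinarith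
  have h1 : ((d : ℝ) * d + 1) * Real.log (((8 * k * N ^ 2 * d ^ 3 * L : ℕ) : ℝ) + 1) <
      (4 / (5 * d * (N : ℝ) ^ 2 * k)) * ((8 * k * N ^ 2 * d ^ 3 * L : ℕ) : ℝ) := by
    have h2 : (4 / (5 * d * (N : ℝ) ^ 2 * k)) * ((8 * k * N ^ 2 * d ^ 3 * L : ℕ) : ℝ) =
        (d : ℝ) * d * (6.4 * L) := by
      push_cast
      field_simp
      ring
    rw [h2]
    have h3 : (d : ℝ) * d + 1 ≤ 1.25 * ((d : ℝ) * d) := by nlinarith
    have h4 : 0 ≤ Real.log (((8 * k * N ^ 2 * d ^ 3 * L : ℕ) : ℝ) + 1) := Real.log_nonneg (by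
      have : (0 : ℝ) ≤ ((8 * k * N ^ 2 * d ^ 3 * L : ℕ) : ℝ) := Nat.cast_nonneg _
      linarith)
    calc ((d : ℝ) * d + 1) * Real.log (((8 * k * N ^ 2 * d ^ 3 * L : ℕ) : ℝ) + 1) ≤
        1.25 * ((d : ℝ) * d) * Real.log (((8 * k * N ^ 2 * d ^ 3 * L : ℕ) : ℝ) + 1) :=
          mul_le_mul_of_nonneg_right h3 h4
      _ < 1.25 * ((d : ℝ) * d) * (3.5 * L) := mul_lt_mul_of_pos_left hlog (by positivity)
      _ ≤ (d : ℝ) * d * (6.4 * L) := by
          have h6 : (0 : ℝ) ≤ (d : ℝ) * d * L := by positivity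
          nlinarith
  have h2 := log_mono hM0 (by positivity) h1 hm
  refine lt_of_lt_of_le h2 ?_
  have h3 : 2 * (m : ℝ) * (2 * (1 - Real.cos (y / N)) / d) =
      (4 / d) * m * (1 - Real.cos (y / N)) := by ring
  have h4 : 4 / (5 * d * (N : ℝ) ^ 2 * k) * m = (4 / d) * m * (1 / (5 * (N : ℝ) ^ 2 * k)) := by
    field_simp
  rw [h3, h4]
  exact mul_le_mul_of_nonneg_left hcos1 (by positivity)

section moments

variable {R : Type} [Fintype R] [DecidableEq R] {Q : Type} [DecidableEq Q]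
  {cls : R → Q} {inv : R → R} {jj : R → ℂ} {B : ∀ κ : Type, Submodule ℂ ((κ → R) → ℂ)}

/-- The growth of the dimensions. -/
lemma moment_B (hB : Bas cls inv jj) (hBf : Fam cls inv jj B) (m : ℕ) :
    (Fintype.card R : ℝ) ^ (2 * m) ≤ ((m : ℝ) + 1) ^ (Fintype.card R * Fintype.card R) *
      finrank ℂ (B (Fin (2 * m))) := by
  let _ : MeasurableSpace (stabG (tens B)) := borel _
  have _ : BorelSpace (stabG (tens B)) := ⟨rfl⟩
  let r := inc (stabG (tens B))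
  have hr : Continuous r := inc_cont _
  have htB : (av (Fin (2 * m)) r).trace = (finrank ℂ (B (Fin (2 * m))) : ℂ) := trace_av hB hBf
  have hmom := moment r hr m
  have hreal : ((∫ g, ‖(r g).trace‖ ^ (2 * m) ∂(hm (stabG (tens B))) : ℝ) : ℂ) =
      (finrank ℂ (B (Fin (2 * m))) : ℂ) := by
    have h1 := av_trace (κ := Fin (2 * m)) hr 1
    simp only [one_mul, Fintype.card_fin] at h1
    rw [← htB, ← h1, ← integral_complex_ofReal]
    refine integral_congr_ae (Filter.Eventually.of_forall fun g => ?_)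
    simp only
    have h2 := trace_real hB (stab_le hBf g.2)
    change (((‖(r g).trace‖ ^ (2 * m) : ℝ)) : ℂ) = (r g).trace ^ (2 * m)
    have h3 : (r g).trace = ((((r g).trace).re : ℝ) : ℂ) := h2.symm
    rw [h3, Complex.norm_real, Real.norm_eq_abs, pow_mul, sq_abs, ← pow_mul]
    push_cast
    rfl
  have hreal' : (∫ g, ‖(r g).trace‖ ^ (2 * m) ∂(hm (stabG (tens B)))) =
      (finrank ℂ (B (Fin (2 * m))) : ℝ) := by exact_mod_cast hreal
  rwa [hreal'] at hmom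

/-- **If a larger family is not much larger in one degree, it is not larger in low degrees.** -/
theorem low_T (hB : Bas cls inv jj) (hBf : Fam cls inv jj B)
    (hodd : ∀ n, Odd n → ∀ F ∈ B (Fin n), F = 0) {C : ∀ κ : Type, Submodule ℂ ((κ → R) → ℂ)}
    (hC : Fam0 inv jj C) (hle : ∀ κ : Type, B κ ≤ C κ) {N n k : ℕ}
    (hN : 1 ≤ N) (hn : n ≤ N) (hev : Even n) (hk : 1 ≤ k) {m : ℕ} {θ : ℝ} (hθ : 0 < θ)
    (hθN : N * θ ≤ Real.pi) (hcos : 1 - 1 / (2 * (k : ℝ)) ≤ Real.cos (N * θ)) (hkm : 4 * k ≤ m + 1)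
    (hnum : ((m : ℝ) + 1) ^ (Fintype.card R * Fintype.card R) *
      (((m : ℝ) + 1) * (Fintype.card R - 2 * (1 - Real.cos θ)) ^ (2 * m)) <
        (Fintype.card R : ℝ) ^ (2 * m))
    (hratio : k * finrank ℂ (C (Fin (2 * m))) ≤ (2 * k - 1) * finrank ℂ (B (Fin (2 * m)))) :
    C (Fin n) ≤ B (Fin n) := by
  by_contra hne
  obtain ⟨F₀, hF₀, hF₀'⟩ := SetLike.not_le_iff_exists.1 hne
  obtain ⟨F, hF, hF0, horth⟩ := exists_orth hle hF₀ hF₀'
  have h1 := gap_T hB hBf hodd hN hn hev hθ hθN hF0 horth (m := m) (hle _)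
    (fun E hE => pr_mem0 hC hF (hle _ hE))
  set h : ℝ := ((finrank ℂ (B (Fin (2 * m))) : ℕ) : ℝ) with hh
  set t : ℝ := ((finrank ℂ (C (Fin (2 * m))) : ℕ) : ℝ) with ht
  set D : ℝ := (Fintype.card R - 2 * (1 - Real.cos θ)) ^ (2 * m) with hD
  have hkR : (1 : ℝ) ≤ k := by exact_mod_cast hk
  have hk0 : (0 : ℝ) < k := by linarith
  have hD0 : 0 ≤ D := by
    rw [hD, pow_mul]
    exact pow_nonneg (sq_nonneg _) m
  have hh0 : 0 ≤ h := Nat.cast_nonneg _
  have hr : (k : ℝ) * t ≤ (2 * k - 1) * h := by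
    have h2 : ((k * finrank ℂ (C (Fin (2 * m))) : ℕ) : ℝ) ≤
        (((2 * k - 1) * finrank ℂ (B (Fin (2 * m))) : ℕ) : ℝ) := by exact_mod_cast hratio
    rw [Nat.cast_mul, Nat.cast_mul, Nat.cast_sub (by omega)] at h2
    push_cast at h2
    exact h2
  have h2 : h ≤ 4 * k * D := by
    have h3 : (1 + (1 - 1 / (2 * (k : ℝ)))) * h ≤ t + 2 * D := by
      have := mul_le_mul_of_nonneg_right (add_le_add_left hcos 1) hh0
      linarith
    have h4 : (k : ℝ) * ((1 + (1 - 1 / (2 * (k : ℝ)))) * h) = (2 * k - 1 / 2) * h := by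
      field_simp
      ring
    have h5 := mul_le_mul_of_nonneg_left h3 hk0.le
    rw [h4] at h5
    nlinarith
  have hkm' : 4 * (k : ℝ) ≤ (m : ℝ) + 1 := by exact_mod_cast hkm
  have h3 : h ≤ ((m : ℝ) + 1) * D := h2.trans (mul_le_mul_of_nonneg_right hkm' hD0)
  have h4 := moment_B hB hBf m
  have h5 := h4.trans (mul_le_mul_of_nonneg_left h3 (by positivity))
  exact absurd hnum (not_lt.2 h5)

end moments

end

end Pool.Agent.X259.U
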