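import Pool.Agent.X259.U.U37

/-!
# More than half of the Tate classes of one degree decide in low degrees, for abelian varieties
-/

set_option autoImplicit false
set_option linter.unusedSectionVars false
set_option linter.unusedDecidableInType false
set_option linter.unusedFintypeInType false

namespace Pool.Agent.X259.U

open Matrix Finset Module TensorProduct Pool.Agent.H204R3.SP Pool.Agent.H204R3.GP
  Pool.Agent.W516 Pool.Agent.X259.T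

noncomputable section

section comp

variable {W : Type} [AddCommGroup W] [Module ℚ W] {R : Type} [Fintype R] [DecidableEq R]
  {b : Basis R ℚ W} {S S' : Matrix R R ℂ} (h1 : S' * S = 1)

include h1 in
/-- The rational components of the tensors of a family. -/
lemma comp_memC {C : ∀ m : ℕ, Submodule ℚ (RF W m)}
    (hperm : ∀ (m : ℕ) (σ : Equiv.Perm (Fin m × Fin 2)), ∀ ψ ∈ C m, ψ.domDomCongr σ ∈ C m)
    {m : ℕ} {F : (Fin m × Fin 2 → R) → ℂ} (hF : F ∈ Fm S b C (Fin m × Fin 2))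
    (lam : ℂ →ₗ[ℚ] ℚ) : mkc b (fun J => lam ((kr (Fin m × Fin 2) S' *ᵥ F) J)) ∈ C m := by
  induction hF using Submodule.span_induction generalizing lam with
  | mem F h' =>
    obtain ⟨m', e, ψ', hψ', rfl⟩ := h'
    have hc := Fintype.card_congr e
    rw [Fintype.card_prod, Fintype.card_prod, Fintype.card_fin, Fintype.card_fin,
      Fintype.card_fin] at hc
    obtain rfl : m' = m := by omega
    have h1 : kr (Fin m' × Fin 2) S' *ᵥ ri e (kr (Fin m' × Fin 2) S *ᵥ gt b ψ') =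
        gt b (ψ'.domDomCongr e) := by
      rw [kr_ri, Matrix.mulVec_mulVec, ← kr_mul, h1, kr_one, Matrix.one_mulVec, gt_dom]
    rw [h1]
    have h2 : mkc b (fun J => lam (gt b (ψ'.domDomCongr e) J)) = lam 1 • ψ'.domDomCongr e := by
      apply gt_inj b
      rw [gt_mkc, gt_smul]
      funext J
      have h3 : lam (gt b (ψ'.domDomCongr e) J) = lam 1 * (ψ'.domDomCongr e fun k => b (J k)) := by
        conv_lhs => rw [gt, ← one_mul (Rat.cast _ : ℂ), lam_mul_rat]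
      rw [h3, Rat.cast_mul]
      rfl
    rw [h2]
    exact Submodule.smul_mem _ _ (hperm _ e ψ' hψ')
  | zero =>
    have h1 : mkc b (fun J => lam ((kr (Fin m × Fin 2) S' *ᵥ (0 : (Fin m × Fin 2 → R) → ℂ)) J)) =
        0 := by
      apply gt_inj b
      rw [gt_mkc, Matrix.mulVec_zero]
      funext J
      simp [gt]
    rw [h1]
    exact Submodule.zero_mem _
  | add a c _ _ ha hc =>
    have h1 : mkc b (fun J => lam ((kr (Fin m × Fin 2) S' *ᵥ (a + c)) J)) =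
        mkc b (fun J => lam ((kr (Fin m × Fin 2) S' *ᵥ a) J)) +
        mkc b (fun J => lam ((kr (Fin m × Fin 2) S' *ᵥ c) J)) := by
      apply gt_inj b
      rw [gt_mkc, gt_add, gt_mkc, gt_mkc, Matrix.mulVec_add]
      funext J
      rw [Pi.add_apply, Pi.add_apply, map_add, Rat.cast_add]
    rw [h1]
    exact Submodule.add_mem _ (ha lam) (hc lam)
  | smul c a _ ha =>
    have h1 : mkc b (fun J => lam ((kr (Fin m × Fin 2) S' *ᵥ (c • a)) J)) =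
        mkc b (fun J => (lam ∘ₗ LinearMap.mulLeft ℚ c) ((kr (Fin m × Fin 2) S' *ᵥ a) J)) := by
      congr 1
      funext J
      rw [Matrix.mulVec_smul]
      rfl
    rw [h1]
    exact ha _

end comp

section tate

variable {ℓ : ℕ} [Fact ℓ.Prime] {W : Type} [AddCommGroup W] [Module ℚ W] {R : Type} [Fintype R]
  [DecidableEq R] {Q : Type} [DecidableEq Q] {b : Basis R ℚ W} {Γ : Type} [Group Γ]
  {ρ : Representation ℚ_[ℓ] Γ (ℚ_[ℓ] ⊗[ℚ] W)} {χ : Γ →* ℚ_[ℓ]}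

/-- The rational forms whose extensions are Tate classes. -/
lemma gt_mem_TA {τ : ℚ_[ℓ] →+* ℂ} {m : ℕ} {ψ : RF W m}
    (h : ∀ φ : MultilinearMap ℚ_[ℓ] (fun _ : Fin m × Fin 2 => ℚ_[ℓ] ⊗[ℚ] W) ℚ_[ℓ],
      (∀ v : Fin m × Fin 2 → W, φ (fun l => (1 : ℚ_[ℓ]) ⊗ₜ[ℚ] v l) = ((ψ v : ℚ) : ℚ_[ℓ])) →
      IsTateTensor ρ χ m φ) : gt b ψ ∈ TA b τ ρ χ m := by
  let φ : MultilinearMap ℚ_[ℓ] (fun _ : Fin m × Fin 2 => ℚ_[ℓ] ⊗[ℚ] W) ℚ_[ℓ] :=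
    bcm (Ω := ℚ_[ℓ]) b ψ
  have hφ : ∀ v : Fin m × Fin 2 → W, φ (fun l => (1 : ℚ_[ℓ]) ⊗ₜ[ℚ] v l) =
      ((ψ v : ℚ) : ℚ_[ℓ]) := fun v => by
    rw [← eq_ratCast (algebraMap ℚ ℚ_[ℓ])]
    exact bcm_one b ψ v
  have h1 := tate_mem b τ ρ χ (h φ hφ)
  have h2 : gK b τ φ = gt b ψ := by
    funext J
    change τ (φ fun k => (1 : ℚ_[ℓ]) ⊗ₜ[ℚ] b (J k)) = ((ψ fun k => b (J k) : ℚ) : ℂ)
    rw [hφ, map_ratCast]
  rwa [h2] at h1

/-- The dimension of the space of the invariant arrays. -/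
lemma finrank_TA_le [FiniteDimensional ℚ W] (τ : ℚ_[ℓ] →+* ℂ) {m : ℕ}
    {TT : Submodule ℚ_[ℓ] (MultilinearMap ℚ_[ℓ] (fun _ : Fin m × Fin 2 => ℚ_[ℓ] ⊗[ℚ] W) ℚ_[ℓ])}
    (hTT : ∀ φ, IsTateTensor ρ χ m φ → φ ∈ TT) :
    finrank ℂ (TA b τ ρ χ m) ≤ finrank ℚ_[ℓ] TT := by
  let L : MultilinearMap ℚ_[ℓ] (fun _ : Fin m × Fin 2 => ℚ_[ℓ] ⊗[ℚ] W) ℚ_[ℓ] →ₗ[ℚ_[ℓ]]
      ((Fin m × Fin 2 → R) → ℚ_[ℓ]) :=
    { toFun := fun φ J => φ fun k => (1 : ℚ_[ℓ]) ⊗ₜ[ℚ] b (J k)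
      map_add' := fun _ _ => rfl
      map_smul' := fun _ _ => rfl }
  refine (TA_le b τ ρ χ m (TT.map L) fun φ hφ => ⟨φ, hTT φ hφ, rfl⟩).trans ?_
  exact Submodule.finrank_map_le L TT

variable {T : Type} [AddCommGroup T] [Module ℂ T] {per : W →+ T} {ω₀ : W →ₗ[ℚ] W →ₗ[ℚ] ℚ}
  {ω : ℚ_[ℓ] ⊗[ℚ] W →ₗ[ℚ_[ℓ]] ℚ_[ℓ] ⊗[ℚ] W →ₗ[ℚ_[ℓ]] ℚ_[ℓ]}

/-- **More than half of the Tate classes of one degree decide in low degrees.** -/
theorem tate_low [FiniteDimensional ℚ W] (hper : DR.IsRationalStructure per)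
    (hω : ∃ E : T →ₗ[ℝ] T →ₗ[ℝ] ℝ, (∀ x y, E (per x) (per y) = ω₀ x y) ∧
      (∀ z : ℂ, ‖z‖ = 1 → ∀ u v, E (z • u) (z • v) = E u v) ∧ (∀ u, E u u = 0) ∧
      ∀ u, u ≠ 0 → 0 < E (Complex.I • u) u)
    {ι : Type} [Fintype ι] [DecidableEq ι] {β β' : ι → W}
    (hβ : ∀ w : W, w = ∑ i, ω₀ w (β' i) • β i)
    (hωω : ∀ u v : W, ω ((1 : ℚ_[ℓ]) ⊗ₜ[ℚ] u) ((1 : ℚ_[ℓ]) ⊗ₜ[ℚ] v) = ((ω₀ u v : ℚ) : ℚ_[ℓ]))
    (hωρ : ∀ s u v, ω (ρ s u) (ρ s v) = χ s * ω u v)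
    {C : ∀ m : ℕ, Submodule ℚ (RF W m)} (hC : Closed ω₀ β β' C)
    (hH : ∀ m, ∀ ψ ∈ C m, IsHodgeTensor per ψ)
    (hT : ∀ m, ∀ ψ ∈ C m, ∀ φ : MultilinearMap ℚ_[ℓ]
      (fun _ : Fin m × Fin 2 => ℚ_[ℓ] ⊗[ℚ] W) ℚ_[ℓ],
      (∀ v : Fin m × Fin 2 → W, φ (fun l => (1 : ℚ_[ℓ]) ⊗ₜ[ℚ] v l) = ((ψ v : ℚ) : ℚ_[ℓ])) →
      IsTateTensor ρ χ m φ)
    (hd : 2 ≤ finrank ℚ W) {r k m : ℕ} (hr : 1 ≤ r) (hk : 1 ≤ k)
    (hm : 32 * k * finrank ℚ W ^ 3 * r ^ 2 * (Nat.log 2 (2 * finrank ℚ W * k * r) + 1) ≤ m)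
    {TT : Submodule ℚ_[ℓ] (MultilinearMap ℚ_[ℓ] (fun _ : Fin m × Fin 2 => ℚ_[ℓ] ⊗[ℚ] W) ℚ_[ℓ])}
    (hTT : ∀ φ, IsTateTensor ρ χ m φ → φ ∈ TT)
    (hratio : k * finrank ℚ_[ℓ] TT ≤ (2 * k - 1) * finrank ℚ (C m)) {m' : ℕ} (hm' : m' ≤ r)
    (φ : MultilinearMap ℚ_[ℓ] (fun _ : Fin m' × Fin 2 => ℚ_[ℓ] ⊗[ℚ] W) ℚ_[ℓ])
    (hφ : IsTateTensor ρ χ m' φ) (lam : ℚ_[ℓ] →ₗ[ℚ] ℚ) : DR.fcmp lam φ ∈ C m' := by
  classical
  obtain ⟨g, b, b', S, S', hf⟩ := exists_frame per ω₀ hper hω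
  obtain ⟨τ⟩ := exists_emb ℓ
  have hd' : finrank ℚ W = Fintype.card (Fin g ⊕ Fin g) := finrank_eq_card_basis b
  obtain ⟨θ, hθ, hθN, hcos, hkm, hnum⟩ := tate_deg hd hr hk hm
  rw [hd'] at hnum
  have hBf := fam hf (fun _ _ => rfl) hβ hC hH
  have hcl : ClA (Km b β β') (TA b τ ρ χ) := closed_TA hωω hωρ hβ
  have hF0 : Fam0 _ _ (FA S (TA b τ ρ χ)) :=
    { ri := fun e _ hF => FA_ri e hF
      tp := fun hF hF' => FA_tp hcl hF hF'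
      ct := fun hF => by
        rw [ct_eq hf.bas]
        exact FA_cK hcl (ct_matrix hf hβ) hF }
  have hle : ∀ κ : Type, Fm S b C κ ≤ FA S (TA b τ ρ χ) κ := by
    intro κ
    refine Submodule.span_mono ?_
    rintro F ⟨m, e, ψ, hψ, rfl⟩
    exact ⟨m, e, gt b ψ, gt_mem_TA (hT m ψ hψ), rfl⟩
  have h1 := low_T (n := 2 * m') (m := m) (k := k) hf.bas hBf
    (fun n hn F hF => odd_zero hn hF) hF0 hle (by omega : 1 ≤ 2 * r) (by omega) (even_two_mul _)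
    hk hθ hθN hcos hkm hnum (by
      rw [finrank_Fm hf.one' b hC.perm (eqv m)]
      refine le_trans (Nat.mul_le_mul_left _ ?_) hratio
      exact (FA_finrank hcl (eqv m)).trans (finrank_TA_le τ hTT))
  have h2 : ri (eqv m') (kr (Fin m' × Fin 2) S *ᵥ gK b τ φ) ∈ Fm S b C (Fin (2 * m')) :=
    h1 (FA_gen (eqv m') (tate_mem b τ ρ χ hφ))
  have h3 := ri_mem (S := S) (b := b) (eqv m').symm h2
  rw [ri_ri, Equiv.self_trans_symm] at h3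
  have h4 : kr (Fin m' × Fin 2) S *ᵥ gK b τ φ ∈ Fm S b C (Fin m' × Fin 2) := h3
  -- the components
  let τ' : ℚ_[ℓ] →ₗ[ℚ] ℂ := τ.toRatAlgHom.toLinearMap
  obtain ⟨π, hπ⟩ := LinearMap.exists_leftInverse_of_injective τ' (LinearMap.ker_eq_bot.2
    τ.injective)
  have h5 := comp_memC hf.one' hC.perm h4 (lam ∘ₗ π)
  rw [Matrix.mulVec_mulVec, ← kr_mul, hf.one', kr_one, Matrix.one_mulVec] at h5
  have h6 : mkc b (fun J => (lam ∘ₗ π) (gK b τ φ J)) = DR.fcmp lam φ := by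
    refine Basis.ext_multilinear (fun _ => b) fun J => ?_
    rw [mkc_apply, DR.fcmp_apply, LinearMap.comp_apply]
    congr 1
    exact LinearMap.congr_fun hπ (φ fun l => (1 : ℚ_[ℓ]) ⊗ₜ[ℚ] b (J l))
  rwa [h6] at h5

end tate

end

end Pool.Agent.X259.U
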