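import Pool.Agent.X259.U.U38

/-!
# The dimension of the space of the combinations of rational classes
-/

set_option autoImplicit false
set_option linter.unusedSectionVars false
set_option linter.unusedDecidableInType false
set_option linter.unusedFintypeInType false

namespace Pool.Agent.X259.U

open Matrix Finset Module TensorProduct Pool.Agent.H204R3.SP Pool.Agent.H204R3.GP
  Pool.Agent.W516 Pool.Agent.X259.T

noncomputable section

variable {ℓ : ℕ} [Fact ℓ.Prime] {W : Type} [AddCommGroup W] [Module ℚ W]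

/-- The dimension of the space of the combinations of rational classes. -/
lemma finrank_comb_le [FiniteDimensional ℚ W] {m : ℕ} (C : Submodule ℚ (RF W m)) :
    finrank ℚ_[ℓ] (Submodule.span ℚ_[ℓ]
      {φ' : MultilinearMap ℚ_[ℓ] (fun _ : Fin m × Fin 2 => ℚ_[ℓ] ⊗[ℚ] W) ℚ_[ℓ] |
        ∃ ψ ∈ C, ∀ v : Fin m × Fin 2 → W, φ' (fun l => (1 : ℚ_[ℓ]) ⊗ₜ[ℚ] v l) =
          ((ψ v : ℚ) : ℚ_[ℓ])}) ≤ finrank ℚ C := by
  classical
  let b := Module.finBasis ℚ W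
  let c := Module.finBasis ℚ C
  have hb : ∀ (ψ : RF W m) (v : Fin m × Fin 2 → W),
      bcm (Ω := ℚ_[ℓ]) b ψ (fun l => (1 : ℚ_[ℓ]) ⊗ₜ[ℚ] v l) = ((ψ v : ℚ) : ℚ_[ℓ]) := fun ψ v => by
    rw [← eq_ratCast (algebraMap ℚ ℚ_[ℓ])]
    exact bcm_one b ψ v
  have h1 : Submodule.span ℚ_[ℓ]
      {φ' : MultilinearMap ℚ_[ℓ] (fun _ : Fin m × Fin 2 => ℚ_[ℓ] ⊗[ℚ] W) ℚ_[ℓ] |
        ∃ ψ ∈ C, ∀ v : Fin m × Fin 2 → W, φ' (fun l => (1 : ℚ_[ℓ]) ⊗ₜ[ℚ] v l) =
          ((ψ v : ℚ) : ℚ_[ℓ])} ≤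
      Submodule.span ℚ_[ℓ] (Set.range fun i => bcm (Ω := ℚ_[ℓ]) b (c i : RF W m)) := by
    refine Submodule.span_le.2 ?_
    rintro φ' ⟨ψ, hψ, h⟩
    have h2 := c.sum_repr ⟨ψ, hψ⟩
    have h3 : φ' = ∑ i, ((c.repr ⟨ψ, hψ⟩ i : ℚ) : ℚ_[ℓ]) • bcm (Ω := ℚ_[ℓ]) b (c i : RF W m) := by
      refine Basis.ext_multilinear (fun _ => b.baseChange ℚ_[ℓ]) fun J => ?_
      simp only [Basis.baseChange_apply]
      rw [h, _root_.sum_apply]
      have h4 := congrArg (fun y : C => (y : RF W m) fun l => b (J l)) h2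
      simp only [Submodule.coe_sum, Submodule.coe_smul] at h4
      rw [← h4, _root_.sum_apply, Rat.cast_sum]
      refine Finset.sum_congr rfl fun i _ => ?_
      rw [_root_.smul_apply, _root_.smul_apply, hb, smul_eq_mul, smul_eq_mul, Rat.cast_mul]
    rw [h3]
    exact Submodule.sum_mem _ fun i _ => Submodule.smul_mem _ _ (Submodule.subset_span ⟨i, rfl⟩)
  refine (Submodule.finrank_mono h1).trans ?_
  refine (finrank_range_le_card _).trans ?_
  rw [Fintype.card_fin]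

end

end Pool.Agent.X259.U
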