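import Pool.Agent.X259.U.U3

/-!
# Families on `V × V` from families on `V`
-/

set_option autoImplicit false
set_option linter.unusedSectionVars false
set_option linter.unusedDecidableInType false
set_option linter.unusedFintypeInType false

namespace Pool.Agent.X259.U

open Matrix Finset Module Pool.Agent.H204R3.SP Pool.Agent.H204R3.GP Pool.Agent.W516
  Pool.Agent.X259.T

noncomputable section

variable {V : Type} [AddCommGroup V] [Module ℚ V]

/-- The two injections. -/
def inj (t : Bool) : V →ₗ[ℚ] V × V := bif t then LinearMap.inr ℚ V V else LinearMap.inl ℚ V V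

lemma inj_false (v : V) : inj false v = (v, 0) := rfl
lemma inj_true (v : V) : inj true v = (0, v) := rfl

/-- The component of a form. -/
def cpt {m : ℕ} (F : RF (V × V) m) (t : Fin m × Fin 2 → Bool) : RF V m :=
  F.compLinearMap (fun k => inj (t k))

lemma cpt_apply {m : ℕ} (F : RF (V × V) m) (t : Fin m × Fin 2 → Bool) (v : Fin m × Fin 2 → V) :
    cpt F t v = F (fun k => inj (t k) (v k)) := rfl

/-- The family on `V × V` of the forms whose components are in the family `C`. -/
def Lift (C : ∀ m : ℕ, Submodule ℚ (RF V m)) (m : ℕ) : Submodule ℚ (RF (V × V) m) where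
  carrier := {F | ∀ t : Fin m × Fin 2 → Bool, cpt F t ∈ C m}
  add_mem' := by
    intro F F' hF hF' t
    exact Submodule.add_mem _ (hF t) (hF' t)
  zero_mem' := fun t => Submodule.zero_mem _
  smul_mem' := by
    intro c F hF t
    exact Submodule.smul_mem _ c (hF t)

lemma mem_Lift {C : ∀ m : ℕ, Submodule ℚ (RF V m)} {m : ℕ} {F : RF (V × V) m} :
    F ∈ Lift C m ↔ ∀ t, cpt F t ∈ C m := Iff.rfl

/-- The alternating form on `V × V`. -/
def dbl (Q : V →ₗ[ℚ] V →ₗ[ℚ] ℚ) : V × V →ₗ[ℚ] V × V →ₗ[ℚ] ℚ :=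
  LinearMap.mk₂ ℚ (fun x y => Q x.1 y.2 - Q y.1 x.2)
    (fun x x' y => by
      simp only [Prod.fst_add, Prod.snd_add, map_add, LinearMap.add_apply]
      ring)
    (fun c x y => by
      simp only [Prod.smul_fst, Prod.smul_snd, map_smul, LinearMap.smul_apply, smul_eq_mul]
      ring)
    (fun x y y' => by
      simp only [Prod.fst_add, Prod.snd_add, map_add, LinearMap.add_apply]
      ring)
    (fun c x y => by
      simp only [Prod.smul_fst, Prod.smul_snd, map_smul, LinearMap.smul_apply, smul_eq_mul]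
      ring)

lemma dbl_apply (Q : V →ₗ[ℚ] V →ₗ[ℚ] ℚ) (x y : V × V) : dbl Q x y = Q x.1 y.2 - Q y.1 x.2 := rfl

variable {Q : V →ₗ[ℚ] V →ₗ[ℚ] ℚ} {ι : Type} [Fintype ι] [DecidableEq ι] {γ γ' : ι → V}

/-- The first dual family. -/
def bb (γ γ' : ι → V) : ι ⊕ ι → V × V := Sum.elim (fun i => (γ i, 0)) (fun i => (0, γ' i))

/-- The second dual family. -/
def bb' (γ γ' : ι → V) : ι ⊕ ι → V × V := Sum.elim (fun i => (0, γ' i)) (fun i => (-γ i, 0))

lemma dual_right (hγ : ∀ v : V, v = ∑ i, Q v (γ' i) • γ i)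
    (hnd : ∀ x : V, (∀ v, Q v x = 0) → x = 0) (u : V) : u = ∑ i, Q (γ i) u • γ' i := by
  rw [← sub_eq_zero]
  refine hnd _ fun v => ?_
  rw [map_sub, map_sum, sub_eq_zero]
  conv_lhs => rw [hγ v]
  rw [map_sum, LinearMap.sum_apply]
  refine Finset.sum_congr rfl fun i _ => ?_
  rw [map_smul, map_smul, LinearMap.smul_apply, smul_eq_mul, smul_eq_mul, mul_comm]

lemma dual_dbl (hγ : ∀ v : V, v = ∑ i, Q v (γ' i) • γ i)
    (hnd : ∀ x : V, (∀ v, Q v x = 0) → x = 0) (w : V × V) :
    w = ∑ i, dbl Q w (bb' γ γ' i) • bb γ γ' i := by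
  rw [Fintype.sum_sum_type]
  have h1 : ∀ i, dbl Q w (bb' γ γ' (Sum.inl i)) = Q w.1 (γ' i) := by
    intro i
    rw [dbl_apply]
    change Q w.1 (γ' i) - Q 0 w.2 = _
    rw [map_zero, LinearMap.zero_apply, sub_zero]
  have h2 : ∀ i, dbl Q w (bb' γ γ' (Sum.inr i)) = Q (γ i) w.2 := by
    intro i
    rw [dbl_apply]
    change Q w.1 0 - Q (-γ i) w.2 = _
    rw [map_zero, map_neg, LinearMap.neg_apply, zero_sub, neg_neg]
  simp only [h1, h2]
  apply Prod.ext
  · rw [Prod.fst_add, Prod.fst_sum, Prod.fst_sum]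
    have h3 : ∑ i, (Q (γ i) w.2 • bb γ γ' (Sum.inr i)).1 = 0 :=
      Finset.sum_eq_zero fun i _ => smul_zero _
    rw [h3, add_zero]
    exact hγ w.1
  · rw [Prod.snd_add, Prod.snd_sum, Prod.snd_sum]
    have h3 : ∑ i, (Q w.1 (γ' i) • bb γ γ' (Sum.inl i)).2 = 0 :=
      Finset.sum_eq_zero fun i _ => smul_zero _
    rw [h3, zero_add]
    exact dual_right hγ hnd w.2

/-- The swap of the last two variables. -/
def swl (m : ℕ) : Equiv.Perm (Fin (m + 1) × Fin 2) :=
  Equiv.swap (Fin.last m, 0) (Fin.last m, 1)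

lemma ext2_castSucc {m : ℕ} {X : Type} (v : Fin m × Fin 2 → X) (x y : X) (j : Fin m) (c : Fin 2) :
    ext2 v x y (j.castSucc, c) = v (j, c) := by
  rw [ext2, Fin.lastCases_castSucc]

lemma ext2_last {m : ℕ} {X : Type} (v : Fin m × Fin 2 → X) (x y : X) (c : Fin 2) :
    ext2 v x y (Fin.last m, c) = ![x, y] c := by
  rw [ext2, Fin.lastCases_last]

lemma ext2_swl {m : ℕ} {X : Type} (v : Fin m × Fin 2 → X) (x y : X) :
    (fun p => ext2 v x y (swl m p)) = ext2 v y x := by
  funext p
  obtain ⟨k, c⟩ := p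
  refine Fin.lastCases ?_ (fun j => ?_) k
  · fin_cases c
    · change ext2 v x y (swl m (Fin.last m, 0)) = ext2 v y x (Fin.last m, 0)
      rw [swl, Equiv.swap_apply_left, ext2_last, ext2_last]
      rfl
    · change ext2 v x y (swl m (Fin.last m, 1)) = ext2 v y x (Fin.last m, 1)
      rw [swl, Equiv.swap_apply_right, ext2_last, ext2_last]
      rfl
  · rw [swl, Equiv.swap_apply_of_ne_of_ne, ext2_castSucc, ext2_castSucc]
    · intro h
      exact absurd (congrArg Prod.fst h) (Fin.castSucc_lt_last j).ne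
    · intro h
      exact absurd (congrArg Prod.fst h) (Fin.castSucc_lt_last j).ne

lemma ext2_update {m : ℕ} {X : Type} (v : Fin m × Fin 2 → X) (x y y' : X) :
    Function.update (ext2 v x y) (Fin.last m, 1) y' = ext2 v x y' := by
  funext p
  obtain ⟨k, c⟩ := p
  refine Fin.lastCases ?_ (fun j => ?_) k
  · fin_cases c
    · change Function.update (ext2 v x y) (Fin.last m, 1) y' (Fin.last m, 0) =
        ext2 v x y' (Fin.last m, 0)
      rw [Function.update_of_ne, ext2_last, ext2_last]
      · rfl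
      · intro h
        exact zero_ne_one (congrArg Prod.snd h)
    · change Function.update (ext2 v x y) (Fin.last m, 1) y' (Fin.last m, 1) =
        ext2 v x y' (Fin.last m, 1)
      rw [Function.update_self, ext2_last]
      rfl
  · rw [Function.update_of_ne, ext2_castSucc, ext2_castSucc]
    intro h
    exact absurd (congrArg Prod.fst h) (Fin.castSucc_lt_last j).ne

lemma ext2_neg {m : ℕ} (G : RF V (m + 1)) (v : Fin m × Fin 2 → V) (x y : V) :
    G (ext2 v x (-y)) = -G (ext2 v x y) := by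
  rw [← ext2_update v x y (-y), MultilinearMap.map_update_neg, Function.update_eq_self_iff.2]
  rw [ext2_last]
  rfl

/-- The lifted family is closed. -/
theorem lift_closed {C : ∀ m : ℕ, Submodule ℚ (RF V m)} (hC : Closed Q γ γ' C) :
    Closed (dbl Q) (bb γ γ') (bb' γ γ') (Lift C) where
  one := fun ψ hψ t => hC.one _ fun v => by rw [cpt_apply, hψ]
  pol := fun ψ hψ t => by
    have hQ : DR.one2 Q ∈ C 1 := hC.pol _ fun v => DR.one2_apply Q v
    have h0 : ∀ v : Fin 1 × Fin 2 → V, cpt ψ t v =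
        Q (inj (t (0, 0)) (v (0, 0))).1 (inj (t (0, 1)) (v (0, 1))).2 -
        Q (inj (t (0, 1)) (v (0, 1))).1 (inj (t (0, 0)) (v (0, 0))).2 := by
      intro v
      rw [cpt_apply, hψ, dbl_apply]
    rcases h1 : t (0, 0) with _ | _ <;> rcases h2 : t (0, 1) with _ | _ <;> rw [h1, h2] at h0
    · have h3 : cpt ψ t = 0 := by
        ext v
        rw [h0]
        change Q (v (0, 0)) 0 - Q (v (0, 1)) 0 = 0
        rw [map_zero, map_zero, sub_zero]
      rw [h3]
      exact Submodule.zero_mem _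
    · have h3 : cpt ψ t = DR.one2 Q := by
        ext v
        rw [h0, DR.one2_apply]
        change Q (v (0, 0)) (v (0, 1)) - Q 0 0 = _
        rw [map_zero, sub_zero]
      rw [h3]
      exact hQ
    · have h3 : cpt ψ t = -((DR.one2 Q).domDomCongr (Equiv.swap (0, 0) (0, 1))) := by
        ext v
        rw [h0, _root_.neg_apply, MultilinearMap.domDomCongr_apply, DR.one2_apply,
          Equiv.swap_apply_left, Equiv.swap_apply_right]
        change Q 0 0 - Q (v (0, 1)) (v (0, 0)) = _
        rw [map_zero, zero_sub]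
      rw [h3]
      exact Submodule.neg_mem _ (hC.perm 1 _ _ hQ)
    · have h3 : cpt ψ t = 0 := by
        ext v
        rw [h0]
        change Q 0 (v (0, 1)) - Q 0 (v (0, 0)) = 0
        rw [map_zero, LinearMap.zero_apply, LinearMap.zero_apply, sub_zero]
      rw [h3]
      exact Submodule.zero_mem _
  perm := fun m σ ψ hψ t => by
    have h1 : cpt (ψ.domDomCongr σ) t = (cpt ψ (fun k => t (σ k))).domDomCongr σ := rfl
    rw [h1]
    exact hC.perm m σ _ (hψ _)
  prod := fun m m' ψ hψ ψ' hψ' ψ'' h t => by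
    refine hC.prod m m' _ (hψ (fun p => t (Fin.castAdd m' p.1, p.2))) _
      (hψ' (fun p => t (Fin.natAdd m p.1, p.2))) _ fun v => ?_
    rw [cpt_apply, h, cpt_apply, cpt_apply]
  contr := fun m ψ hψ ψ' h t => by
    have h1 := hψ (ext2 t false true)
    have h2 := hC.perm _ (swl m) _ (hψ (ext2 t true false))
    have hc : ∀ G ∈ C (m + 1), mcontr γ γ' G ∈ C m := fun G hG =>
      hC.contr m G hG _ fun v => mcontr_apply γ γ' G v
    have h3 : ∀ (a c : Bool) (v : Fin m × Fin 2 → V) (x y : V),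
        cpt ψ (ext2 t a c) (ext2 v x y) =
          ψ (ext2 (fun k => inj (t k) (v k)) (inj a x) (inj c y)) := by
      intro a c v x y
      rw [cpt_apply]
      congr 1
      funext p
      obtain ⟨k, i⟩ := p
      refine Fin.lastCases ?_ (fun j => ?_) k
      · rw [ext2_last, ext2_last, ext2_last]
        fin_cases i <;> rfl
      · rw [ext2_castSucc, ext2_castSucc, ext2_castSucc]
    have h4 : cpt ψ' t = mcontr γ γ' (cpt ψ (ext2 t false true)) -
        mcontr γ γ' ((cpt ψ (ext2 t true false)).domDomCongr (swl m)) := by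
      ext v
      rw [cpt_apply, h, _root_.sub_apply, mcontr_apply, mcontr_apply,
        Fintype.sum_sum_type, sub_eq_add_neg, ← Finset.sum_neg_distrib]
      congr 1
      · refine Finset.sum_congr rfl fun i _ => ?_
        rw [h3]
        rfl
      · refine Finset.sum_congr rfl fun i _ => ?_
        rw [MultilinearMap.domDomCongr_apply, ext2_swl, ← ext2_neg, h3]
        rfl
    rw [h4]
    exact Submodule.sub_mem _ (hc _ h1) (hc _ h2)

end

end Pool.Agent.X259.U
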