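import Pool.Agent.X259.U.U39

/-!
# Rational classes which are Tate classes: the dimensions
-/

set_option autoImplicit false
set_option linter.unusedSectionVars false
set_option linter.unusedDecidableInType false
set_option linter.unusedFintypeInType false

namespace Pool.Agent.X259.U

open Matrix Finset Module TensorProduct Pool.Agent.H204R3.SP Pool.Agent.H204R3.GP
  Pool.Agent.W516 Pool.Agent.X259.T

noncomputable section

variable {ℓ : ℕ} [Fact ℓ.Prime] {W : Type} [AddCommGroup W] [Module ℚ W] {Γ : Type} [Group Γ]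
  {ρ : Representation ℚ_[ℓ] Γ (ℚ_[ℓ] ⊗[ℚ] W)} {χ : Γ →* ℚ_[ℓ]}

/-- The rational classes which are Tate classes. -/
lemma finrank_le_tate [FiniteDimensional ℚ W] {C : ∀ m : ℕ, Submodule ℚ (RF W m)}
    (hperm : ∀ (m : ℕ) (σ : Equiv.Perm (Fin m × Fin 2)), ∀ ψ ∈ C m, ψ.domDomCongr σ ∈ C m)
    (hT : ∀ m, ∀ ψ ∈ C m, ∀ φ : MultilinearMap ℚ_[ℓ]
      (fun _ : Fin m × Fin 2 => ℚ_[ℓ] ⊗[ℚ] W) ℚ_[ℓ],
      (∀ v : Fin m × Fin 2 → W, φ (fun l => (1 : ℚ_[ℓ]) ⊗ₜ[ℚ] v l) = ((ψ v : ℚ) : ℚ_[ℓ])) →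
      IsTateTensor ρ χ m φ) {m : ℕ}
    {TT : Submodule ℚ_[ℓ] (MultilinearMap ℚ_[ℓ] (fun _ : Fin m × Fin 2 => ℚ_[ℓ] ⊗[ℚ] W) ℚ_[ℓ])}
    (hTT : ∀ φ, IsTateTensor ρ χ m φ → φ ∈ TT) : finrank ℚ (C m) ≤ finrank ℚ_[ℓ] TT := by
  classical
  obtain ⟨τ⟩ := exists_emb ℓ
  let b := Module.finBasis ℚ W
  have h1 : (1 : Matrix (Fin (finrank ℚ W)) (Fin (finrank ℚ W)) ℂ) * 1 = 1 := one_mul 1
  rw [← finrank_Fm h1 b hperm (Equiv.refl (Fin m × Fin 2))]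
  refine le_trans ?_ (finrank_TA_le (b := b) (ρ := ρ) (χ := χ) τ hTT)
  refine Submodule.finrank_mono (Submodule.span_le.2 ?_)
  rintro F ⟨m', e, ψ, hψ, rfl⟩
  have hc := Fintype.card_congr e
  rw [Fintype.card_prod, Fintype.card_prod, Fintype.card_fin, Fintype.card_fin,
    Fintype.card_fin] at hc
  obtain rfl : m' = m := by omega
  rw [kr_one, Matrix.one_mulVec, ← gt_dom]
  exact gt_mem_TA (hT m' _ (hperm m' e ψ hψ))

end

end Pool.Agent.X259.U
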