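import Pool.Agent.X259.U.U40

/-!
# More than half of the Tate classes of one degree decide in all degrees, for abelian varieties
-/

set_option autoImplicit false
set_option linter.unusedSectionVars false
set_option linter.unusedDecidableInType false
set_option linter.unusedFintypeInType false

namespace Pool.Agent.X259.U

open Matrix Finset Module TensorProduct Pool.Agent.H204R3.SP Pool.Agent.H204R3.GP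
  Pool.Agent.W516 Pool.Agent.X259.T Pool.Agent.W516.MTD

noncomputable section

variable {ℓ : ℕ} [Fact ℓ.Prime] {W T : Type} [AddCommGroup W] [Module ℚ W] [AddCommGroup T]
  [Module ℂ T] {Γ : Type} [Group Γ]

/-- **More than half of the Tate classes decide in all degrees.** -/
theorem tate_all [FiniteDimensional ℚ W] {g : ℕ} (hg : 1 ≤ g) (hd : finrank ℚ W = 2 * g)
    {per : W →+ T} (hper : IsRationalStructure per)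
    {ω₀ : W →ₗ[ℚ] W →ₗ[ℚ] ℚ} (hω₀ : IsRiemannForm per ω₀)
    [TopologicalSpace Γ] [IsTopologicalGroup Γ] [CompactSpace Γ]
    {ρ : Representation ℚ_[ℓ] Γ (ℚ_[ℓ] ⊗[ℚ] W)}
    (hρ : ∀ (v : ℚ_[ℓ] ⊗[ℚ] W) (f : ℚ_[ℓ] ⊗[ℚ] W →ₗ[ℚ_[ℓ]] ℚ_[ℓ]), Continuous fun s => f (ρ s v))
    {χ : Γ →* ℚ_[ℓ]} (hχ : Continuous χ)
    {ω : ℚ_[ℓ] ⊗[ℚ] W →ₗ[ℚ_[ℓ]] ℚ_[ℓ] ⊗[ℚ] W →ₗ[ℚ_[ℓ]] ℚ_[ℓ]}
    (hωω : ∀ u v : W, ω ((1 : ℚ_[ℓ]) ⊗ₜ[ℚ] u) ((1 : ℚ_[ℓ]) ⊗ₜ[ℚ] v) = ((ω₀ u v : ℚ) : ℚ_[ℓ]))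
    (hωρ : ∀ s u v, ω (ρ s u) (ρ s v) = χ s * ω u v)
    (hss : Semisimple ρ) (hF : Faltings per ρ) (hD : Deligne per ρ χ) (hC : Centres per ρ χ)
    {ι : Type} [Fintype ι] [DecidableEq ι] {β β' : ι → W}
    (hβ : ∀ w : W, w = ∑ i, ω₀ w (β' i) • β i)
    {C : ∀ m : ℕ, Submodule ℚ (RF W m)} (hC' : Closed ω₀ β β' C)
    (hCH : ∀ m, ∀ ψ ∈ C m, IsHodgeTensor per ψ)
    {c m : ℕ} (hc : 1 ≤ c) (hm : 1024 * c * g ^ 3 * (Nat.log 2 (8 * g * c) + 1) ≤ m)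
    (hm' : (2 * g) ^ (8 * g + 13) ≤ m ∨ ∀ P : Module.End ℚ W, IsHodgeEnd per P →
      (∀ P' : Module.End ℚ W, IsHodgeEnd per P' → P * P' = P' * P) →
      (∀ u v, ω₀ (P u) v = -ω₀ u (P v)) → P = 0)
    {TT : Submodule ℚ_[ℓ] (MultilinearMap ℚ_[ℓ] (fun _ : Fin m × Fin 2 => ℚ_[ℓ] ⊗[ℚ] W) ℚ_[ℓ])}
    (hTT : ∀ φ, IsTateTensor ρ χ m φ → φ ∈ TT)
    (hratio : c * finrank ℚ_[ℓ] TT ≤ (2 * c - 1) * finrank ℚ (C m)) (m' : ℕ)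
    (φ : MultilinearMap ℚ_[ℓ] (fun _ : Fin m' × Fin 2 => ℚ_[ℓ] ⊗[ℚ] W) ℚ_[ℓ])
    (hφ : IsTateTensor ρ χ m' φ) (lam : ℚ_[ℓ] →ₗ[ℚ] ℚ) : DR.fcmp lam φ ∈ C m' := by
  classical
  have hωω' : ∀ u v : W, ω ((1 : ℚ_[ℓ]) ⊗ₜ[ℚ] u) ((1 : ℚ_[ℓ]) ⊗ₜ[ℚ] v) =
      algebraMap ℚ ℚ_[ℓ] (ω₀ u v) := fun u v => by rw [hωω, eq_ratCast]
  have hnt := Pool.Agent.X259.Q.trace_nondeg per ρ χ ω₀ ω hper hω₀ hωω' hωρ hD hF hss hC hρ hχ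
  obtain ⟨hinv, hdec⟩ := Pool.Agent.X259.Q.casimir_decides per ρ χ ω₀ ω hper hω₀ hωω' hωρ hD hF hC
    hρ hχ hnt
  set 𝔤 := Pool.Agent.H204R3.SP.lieT ρ χ with h𝔤
  set Θ := Pool.Agent.W516.KC2.casimir 𝔤 hnt ω with hΘ
  have htate : IsTateTensor ρ χ 2 Θ := ⟨⊤, inferInstance, fun s _ v => hinv s v⟩
  have hCT : ∀ m, ∀ ψ ∈ C m, ∀ φ : MultilinearMap ℚ_[ℓ]
      (fun _ : Fin m × Fin 2 => ℚ_[ℓ] ⊗[ℚ] W) ℚ_[ℓ],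
      (∀ v : Fin m × Fin 2 → W, φ (fun l => (1 : ℚ_[ℓ]) ⊗ₜ[ℚ] v l) = ((ψ v : ℚ) : ℚ_[ℓ])) →
      IsTateTensor ρ χ m φ := fun m ψ hψ φ hφ => hD m ψ (hCH m ψ hψ) φ hφ
  have h1024 : 1024 * c ≤ m := by
    have h1 : 1 ≤ g ^ 3 * (Nat.log 2 (8 * g * c) + 1) := Nat.one_le_iff_ne_zero.2 (by positivity)
    refine le_trans ?_ hm
    calc 1024 * c = 1024 * c * 1 := by omega
      _ ≤ 1024 * c * (g ^ 3 * (Nat.log 2 (8 * g * c) + 1)) := Nat.mul_le_mul_left _ h1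
      _ = _ := by ring
  -- the Casimir class
  have h1 : ∀ lam : ℚ_[ℓ] →ₗ[ℚ] ℚ, DR.fcmp lam Θ ∈ C 2 := fun lam => by
    refine tate_low hper hω₀ hβ hωω hωρ hC' hCH hCT (by omega) (r := 2) (k := c)
      (m := m) (by norm_num) hc ?_ (TT := TT) hTT hratio (le_refl 2) Θ htate lam
    rw [hd]
    have h1 : 2 * (2 * g) * c * 2 = 8 * g * c := by ring
    rw [h1]
    convert hm using 1
    ring
  have h2 : IsHodgeCombination per Θ := by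
    refine Submodule.span_mono ?_ (Pool.Agent.X259.Q.mem_of_fcmp (C 2) h1)
    rintro φ' ⟨ψ, hψ, h⟩
    exact ⟨ψ, hCH 2 ψ hψ, h⟩
  -- the Hodge classes
  have h3 : (m + 2) * finrank ℚ (Hd per m) ≤ (2 * m + 2) * finrank ℚ (C m) := by
    have h2 : finrank ℚ (Hd per m) ≤ finrank ℚ_[ℓ] TT :=
      finrank_le_tate (closed_hodge hper hω₀ hβ).perm
        (fun m ψ hψ φ hφ => hD m ψ hψ φ hφ) hTT
    set h₀ := finrank ℚ (Hd per m)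
    set c₀ := finrank ℚ (C m)
    have h3 : c * h₀ ≤ (2 * c - 1) * c₀ := (Nat.mul_le_mul_left _ h2).trans hratio
    have h4 : (m + 2) * (2 * c - 1) ≤ c * (2 * m + 2) := by
      obtain ⟨c', rfl⟩ : ∃ c', c = c' + 1 := ⟨c - 1, by omega⟩
      have h5 : 2 * (c' + 1) - 1 = 2 * c' + 1 := by omega
      rw [h5]
      nlinarith
    have h5 : c * ((m + 2) * h₀) ≤ c * ((2 * m + 2) * c₀) := by
      calc c * ((m + 2) * h₀) = (m + 2) * (c * h₀) := by ring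
        _ ≤ (m + 2) * ((2 * c - 1) * c₀) := Nat.mul_le_mul_left _ h3
        _ = ((m + 2) * (2 * c - 1)) * c₀ := by ring
        _ ≤ (c * (2 * m + 2)) * c₀ := Nat.mul_le_mul_right _ h4
        _ = _ := by ring
    exact Nat.le_of_mul_le_mul_left h5 (by omega)
  have h4 : ∀ m' (ψ : RF W m'), IsHodgeTensor per ψ → ψ ∈ C m' := by
    intro m' ψ hψ
    refine hodge_half hper hω₀ hβ hC' hCH (by omega) ?_
      (B := Hd per m) (fun ψ => Iff.rfl) h3 m' ψ hψ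
    rcases hm' with hm' | h4
    · left
      rw [hd]
      convert hm' using 2
      ring
    · right
      refine ⟨h4, ?_⟩
      rw [hd]
      refine le_trans ?_ hm
      have h1 : Nat.log 2 (2 * g) ≤ Nat.log 2 (8 * g * c) := Nat.log_mono_right (by
        calc 2 * g ≤ 8 * g * 1 := by omega
          _ ≤ 8 * g * c := Nat.mul_le_mul_left _ hc)
      have h2 : 128 * g ^ 3 ≤ 1024 * c * g ^ 3 := Nat.mul_le_mul_right _ (by omega)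
      calc _ = 128 * g ^ 3 * (Nat.log 2 (2 * g) + 1) := by ring
        _ ≤ _ := Nat.mul_le_mul h2 (by omega)
  apply h4 m'
  exact Pool.Agent.X259.Q.fcmp_mem (Pool.Agent.X259.Q.hodgeSub per (Fin m' × Fin 2))
    (hdec h2 m' φ hφ) lam

/-- **The number of Tate classes decides the Mumford-Tate conjecture.** -/
theorem tate_mt [FiniteDimensional ℚ W] {g : ℕ} (hg : 1 ≤ g) (hd : finrank ℚ W = 2 * g)
    {per : W →+ T} (hper : IsRationalStructure per)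
    {ω₀ : W →ₗ[ℚ] W →ₗ[ℚ] ℚ} (hω₀ : IsRiemannForm per ω₀)
    [TopologicalSpace Γ] [IsTopologicalGroup Γ] [CompactSpace Γ]
    {ρ : Representation ℚ_[ℓ] Γ (ℚ_[ℓ] ⊗[ℚ] W)}
    (hρ : ∀ (v : ℚ_[ℓ] ⊗[ℚ] W) (f : ℚ_[ℓ] ⊗[ℚ] W →ₗ[ℚ_[ℓ]] ℚ_[ℓ]), Continuous fun s => f (ρ s v))
    {χ : Γ →* ℚ_[ℓ]} (hχ : Continuous χ)
    {ω : ℚ_[ℓ] ⊗[ℚ] W →ₗ[ℚ_[ℓ]] ℚ_[ℓ] ⊗[ℚ] W →ₗ[ℚ_[ℓ]] ℚ_[ℓ]}
    (hωω : ∀ u v : W, ω ((1 : ℚ_[ℓ]) ⊗ₜ[ℚ] u) ((1 : ℚ_[ℓ]) ⊗ₜ[ℚ] v) = ((ω₀ u v : ℚ) : ℚ_[ℓ]))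
    (hωρ : ∀ s u v, ω (ρ s u) (ρ s v) = χ s * ω u v)
    (hss : Semisimple ρ) (hF : Faltings per ρ) (hD : Deligne per ρ χ) (hC : Centres per ρ χ)
    {c m : ℕ} (hc : 1 ≤ c) (hm : 1024 * c * g ^ 3 * (Nat.log 2 (8 * g * c) + 1) ≤ m)
    {TT : Submodule ℚ_[ℓ] (MultilinearMap ℚ_[ℓ] (fun _ : Fin m × Fin 2 => ℚ_[ℓ] ⊗[ℚ] W) ℚ_[ℓ])}
    (hTT : ∀ φ, IsTateTensor ρ χ m φ → φ ∈ TT)
    (hratio : c * finrank ℚ_[ℓ] TT ≤ (2 * c - 1) * finrank ℚ (Hd per m)) (m' : ℕ)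
    (φ : MultilinearMap ℚ_[ℓ] (fun _ : Fin m' × Fin 2 => ℚ_[ℓ] ⊗[ℚ] W) ℚ_[ℓ])
    (hφ : IsTateTensor ρ χ m' φ) (lam : ℚ_[ℓ] →ₗ[ℚ] ℚ) : DR.fcmp lam φ ∈ Hd per m' := by
  classical
  obtain ⟨β, β', hβ⟩ := exists_dual hper hω₀
  have hωω' : ∀ u v : W, ω ((1 : ℚ_[ℓ]) ⊗ₜ[ℚ] u) ((1 : ℚ_[ℓ]) ⊗ₜ[ℚ] v) =
      algebraMap ℚ ℚ_[ℓ] (ω₀ u v) := fun u v => by rw [hωω, eq_ratCast]
  have hnt := Pool.Agent.X259.Q.trace_nondeg per ρ χ ω₀ ω hper hω₀ hωω' hωρ hD hF hss hC hρ hχ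
  obtain ⟨hinv, hdec⟩ := Pool.Agent.X259.Q.casimir_decides per ρ χ ω₀ ω hper hω₀ hωω' hωρ hD hF hC
    hρ hχ hnt
  set 𝔤 := Pool.Agent.H204R3.SP.lieT ρ χ with h𝔤
  set Θ := Pool.Agent.W516.KC2.casimir 𝔤 hnt ω with hΘ
  have htate : IsTateTensor ρ χ 2 Θ := ⟨⊤, inferInstance, fun s _ v => hinv s v⟩
  have h1 := hdec (Pool.Agent.X259.Q.mem_of_fcmp (Hd per 2) fun lam => by
    refine tate_low hper hω₀ hβ hωω hωρ (closed_hodge hper hω₀ hβ) (fun m ψ hψ => hψ)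
      (fun m ψ hψ φ hφ => hD m ψ hψ φ hφ) (by omega) (r := 2) (k := c) (m := m) (by norm_num) hc ?_
      (TT := TT) hTT hratio (le_refl 2) Θ htate lam
    rw [hd]
    have h1 : 2 * (2 * g) * c * 2 = 8 * g * c := by ring
    rw [h1]
    convert hm using 1
    ring)
  exact Pool.Agent.X259.Q.fcmp_mem (Pool.Agent.X259.Q.hodgeSub per (Fin m' × Fin 2))
    (h1 m' φ hφ) lam

end

end Pool.Agent.X259.U
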