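import Pool.Agent.X259.U.U41
import Pool.Agent.X259.U.U31

/-!
# More than half of the Tate classes decide in low degrees, in frames
-/

set_option autoImplicit false
set_option linter.unusedSectionVars false
set_option linter.unusedDecidableInType false
set_option linter.unusedFintypeInType false

namespace Pool.Agent.X259.U

open Matrix Finset Module TensorProduct Pool.Agent.H204R3.SP Pool.Agent.H204R3.GP
  Pool.Agent.W516 Pool.Agent.X259.T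

noncomputable section

section frame

variable {ℓ : ℕ} [Fact ℓ.Prime] {W : Type} [AddCommGroup W] [Module ℚ W] {R : Type} [Fintype R]
  [DecidableEq R] {Q : Type} [DecidableEq Q] {Γ : Type} [Group Γ]
  {ρ : Representation ℚ_[ℓ] Γ (ℚ_[ℓ] ⊗[ℚ] W)} {χ : Γ →* ℚ_[ℓ]}
  {T : Type} [AddCommGroup T] [Module ℂ T] {per : W →+ T} {ω₀ : W →ₗ[ℚ] W →ₗ[ℚ] ℚ}
  {ω : ℚ_[ℓ] ⊗[ℚ] W →ₗ[ℚ_[ℓ]] ℚ_[ℓ] ⊗[ℚ] W →ₗ[ℚ_[ℓ]] ℚ_[ℓ]}
  {b : Basis R ℚ W} {b' : Basis R ℝ T} {cls : R → Q}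
  {inv : R → R} {jj : R → ℂ} {S S' : Matrix R R ℂ} (hf : Frame per ω₀ b b' cls inv jj S S')

include hf in
/-- **More than half of the Tate classes of one degree decide in low degrees**, in frames. -/
theorem tate_low_frame [FiniteDimensional ℚ W] (hcls : ∀ x y, cls x = cls y)
    {ι : Type} [Fintype ι] [DecidableEq ι] {β β' : ι → W}
    (hβ : ∀ w : W, w = ∑ i, ω₀ w (β' i) • β i)
    (hωω : ∀ u v : W, ω ((1 : ℚ_[ℓ]) ⊗ₜ[ℚ] u) ((1 : ℚ_[ℓ]) ⊗ₜ[ℚ] v) = ((ω₀ u v : ℚ) : ℚ_[ℓ]))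
    (hωρ : ∀ s u v, ω (ρ s u) (ρ s v) = χ s * ω u v)
    {C : ∀ m : ℕ, Submodule ℚ (RF W m)} (hC : Closed ω₀ β β' C) (hst : StarStable b b' C)
    (hT : ∀ m, ∀ ψ ∈ C m, ∀ φ : MultilinearMap ℚ_[ℓ]
      (fun _ : Fin m × Fin 2 => ℚ_[ℓ] ⊗[ℚ] W) ℚ_[ℓ],
      (∀ v : Fin m × Fin 2 → W, φ (fun l => (1 : ℚ_[ℓ]) ⊗ₜ[ℚ] v l) = ((ψ v : ℚ) : ℚ_[ℓ])) →
      IsTateTensor ρ χ m φ)
    (hd : 2 ≤ finrank ℚ W) {r k m : ℕ} (hr : 1 ≤ r) (hk : 1 ≤ k)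
    (hm : 32 * k * finrank ℚ W ^ 3 * r ^ 2 * (Nat.log 2 (2 * finrank ℚ W * k * r) + 1) ≤ m)
    {TT : Submodule ℚ_[ℓ] (MultilinearMap ℚ_[ℓ] (fun _ : Fin m × Fin 2 => ℚ_[ℓ] ⊗[ℚ] W) ℚ_[ℓ])}
    (hTT : ∀ φ, IsTateTensor ρ χ m φ → φ ∈ TT)
    (hratio : k * finrank ℚ_[ℓ] TT ≤ (2 * k - 1) * finrank ℚ (C m)) {m' : ℕ} (hm' : m' ≤ r)
    (φ : MultilinearMap ℚ_[ℓ] (fun _ : Fin m' × Fin 2 => ℚ_[ℓ] ⊗[ℚ] W) ℚ_[ℓ])
    (hφ : IsTateTensor ρ χ m' φ) (lam : ℚ_[ℓ] →ₗ[ℚ] ℚ) : DR.fcmp lam φ ∈ C m' := by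
  classical
  obtain ⟨τ⟩ := exists_emb ℓ
  have hd' : finrank ℚ W = Fintype.card R := finrank_eq_card_basis b
  obtain ⟨θ, hθ, hθN, hcos, hkm, hnum⟩ := tate_deg hd hr hk hm
  rw [hd'] at hnum
  have hBf := fam' hf hcls hβ hC hst
  have hcl : ClA (Km b β β') (TA b τ ρ χ) := closed_TA hωω hωρ hβ
  have hF0 : Fam0 _ _ (FA S (TA b τ ρ χ)) :=
    { ri := fun e _ hF => FA_ri e hF
      tp := fun hF hF' => FA_tp hcl hF hF'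
      ct := fun hF => by
        rw [ct_eq hf.bas]
        exact FA_cK hcl (ct_matrix hf hβ) hF }
  have hle : ∀ κ : Type, Fm S b C κ ≤ FA S (TA b τ ρ χ) κ := by
    intro κ
    refine Submodule.span_mono ?_
    rintro F ⟨m, e, ψ, hψ, rfl⟩
    exact ⟨m, e, gt b ψ, gt_mem_TA (hT m ψ hψ), rfl⟩
  have h1 := low_T (n := 2 * m') (m := m) (k := k) hf.bas hBf
    (fun n hn F hF => odd_zero hn hF) hF0 hle (by omega : 1 ≤ 2 * r) (by omega) (even_two_mul _)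
    hk hθ hθN hcos hkm hnum (by
      rw [finrank_Fm hf.one' b hC.perm (eqv m)]
      refine le_trans (Nat.mul_le_mul_left _ ?_) hratio
      exact (FA_finrank hcl (eqv m)).trans (finrank_TA_le τ hTT))
  have h2 : ri (eqv m') (kr (Fin m' × Fin 2) S *ᵥ gK b τ φ) ∈ Fm S b C (Fin (2 * m')) :=
    h1 (FA_gen (eqv m') (tate_mem b τ ρ χ hφ))
  have h3 := ri_mem (S := S) (b := b) (eqv m').symm h2
  rw [ri_ri, Equiv.self_trans_symm] at h3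
  have h4 : kr (Fin m' × Fin 2) S *ᵥ gK b τ φ ∈ Fm S b C (Fin m' × Fin 2) := h3
  -- the components
  let τ' : ℚ_[ℓ] →ₗ[ℚ] ℂ := τ.toRatAlgHom.toLinearMap
  obtain ⟨π, hπ⟩ := LinearMap.exists_leftInverse_of_injective τ' (LinearMap.ker_eq_bot.2
    τ.injective)
  have h5 := comp_memC hf.one' hC.perm h4 (lam ∘ₗ π)
  rw [Matrix.mulVec_mulVec, ← kr_mul, hf.one', kr_one, Matrix.one_mulVec] at h5
  have h6 : mkc b (fun J => (lam ∘ₗ π) (gK b τ φ J)) = DR.fcmp lam φ := by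
    refine Basis.ext_multilinear (fun _ => b) fun J => ?_
    rw [mkc_apply, DR.fcmp_apply, LinearMap.comp_apply]
    congr 1
    exact LinearMap.congr_fun hπ (φ fun l => (1 : ℚ_[ℓ]) ⊗ₜ[ℚ] b (J l))
  rwa [h6] at h5

end frame

section double

variable {ℓ : ℕ} [Fact ℓ.Prime] {V : Type} [AddCommGroup V] [Module ℚ V] {Γ : Type} [Group Γ]

/-- The forms in `2 m` variables in the Tate module of `V`. -/
abbrev TF (ℓ : ℕ) [Fact ℓ.Prime] (V : Type) [AddCommGroup V] [Module ℚ V] (m : ℕ) : Type :=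
  MultilinearMap ℚ_[ℓ] (fun _ : Fin m × Fin 2 => ℚ_[ℓ] ⊗[ℚ] V) ℚ_[ℓ]

variable (ℓ V) in
/-- The extended projections. -/
def pA (t : Bool) : ℚ_[ℓ] ⊗[ℚ] (V × V) →ₗ[ℚ_[ℓ]] ℚ_[ℓ] ⊗[ℚ] V :=
  LinearMap.baseChange ℚ_[ℓ] (bif t then LinearMap.snd ℚ V V else LinearMap.fst ℚ V V)

variable (ℓ V) in
/-- The extended injections. -/
def iA (t : Bool) : ℚ_[ℓ] ⊗[ℚ] V →ₗ[ℚ_[ℓ]] ℚ_[ℓ] ⊗[ℚ] (V × V) :=
  LinearMap.baseChange ℚ_[ℓ] (inj t)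

lemma pA_iA (t : Bool) (x : ℚ_[ℓ] ⊗[ℚ] V) : pA ℓ V t (iA ℓ V t x) = x := by
  have h1 : (pA ℓ V t).comp (iA ℓ V t) = LinearMap.id := by
    rw [pA, iA, ← LinearMap.baseChange_comp]
    have h2 : (bif t then LinearMap.snd ℚ V V else LinearMap.fst ℚ V V).comp (inj t) =
        LinearMap.id := by
      cases t <;> ext v <;> rfl
    rw [h2, LinearMap.baseChange_id]
  exact LinearMap.congr_fun h1 x

lemma pA_iA_ne {t t' : Bool} (h : t ≠ t') (x : ℚ_[ℓ] ⊗[ℚ] V) : pA ℓ V t (iA ℓ V t' x) = 0 := by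
  have h1 : (pA ℓ V t).comp (iA ℓ V t') = 0 := by
    rw [pA, iA, ← LinearMap.baseChange_comp]
    have h2 : (bif t then LinearMap.snd ℚ V V else LinearMap.fst ℚ V V).comp (inj t') = 0 := by
      cases t <;> cases t'
      · exact absurd rfl h
      · ext v; rfl
      · ext v; rfl
      · exact absurd rfl h
    rw [h2, LinearMap.baseChange_zero]
  exact LinearMap.congr_fun h1 x

lemma iA_pA (x : ℚ_[ℓ] ⊗[ℚ] (V × V)) : x = ∑ t : Bool, iA ℓ V t (pA ℓ V t x) := by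
  rw [Fintype.sum_bool]
  have h1 : (iA ℓ V true).comp (pA ℓ V true) + (iA ℓ V false).comp (pA ℓ V false) =
      LinearMap.id := by
    rw [pA, iA, pA, iA, ← LinearMap.baseChange_comp, ← LinearMap.baseChange_comp,
      ← LinearMap.baseChange_add]
    have h2 : (inj true).comp (bif true then LinearMap.snd ℚ V V else LinearMap.fst ℚ V V) +
        (inj false).comp (bif false then LinearMap.snd ℚ V V else LinearMap.fst ℚ V V) =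
        LinearMap.id := by
      ext v <;> simp [inj]
    rw [h2, LinearMap.baseChange_id]
  exact (LinearMap.congr_fun h1 x).symm

variable (ρ : Representation ℚ_[ℓ] Γ (ℚ_[ℓ] ⊗[ℚ] V)) (χ : Γ →* ℚ_[ℓ])

/-- The double of the representation. -/
def rho2 : Representation ℚ_[ℓ] Γ (ℚ_[ℓ] ⊗[ℚ] (V × V)) where
  toFun s := ∑ t : Bool, (iA ℓ V t).comp ((ρ s).comp (pA ℓ V t))
  map_one' := by
    refine LinearMap.ext fun x => ?_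
    rw [LinearMap.sum_apply, map_one, Module.End.one_apply]
    exact (iA_pA x).symm
  map_mul' s s' := by
    refine LinearMap.ext fun x => ?_
    rw [Module.End.mul_apply, map_mul]
    simp only [Fintype.sum_bool, LinearMap.add_apply, LinearMap.comp_apply, map_add,
      Module.End.mul_apply, pA_iA, pA_iA_ne (show (true : Bool) ≠ false by decide),
      pA_iA_ne (show (false : Bool) ≠ true by decide), map_zero, add_zero, zero_add]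

lemma rho2_apply (s : Γ) (x : ℚ_[ℓ] ⊗[ℚ] (V × V)) :
    rho2 ρ s x = ∑ t : Bool, iA ℓ V t (ρ s (pA ℓ V t x)) := by
  change (∑ t : Bool, (iA ℓ V t).comp ((ρ s).comp (pA ℓ V t))) x = _
  rw [LinearMap.sum_apply]
  rfl

lemma pA_rho2 (s : Γ) (t : Bool) (x : ℚ_[ℓ] ⊗[ℚ] (V × V)) :
    pA ℓ V t (rho2 ρ s x) = ρ s (pA ℓ V t x) := by
  rw [rho2_apply, map_sum, Finset.sum_eq_single t]
  · rw [pA_iA]
  · intro t' _ h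
    rw [pA_iA_ne h.symm]
  · intro h
    exact absurd (Finset.mem_univ _) h

lemma rho2_iA (s : Γ) (t : Bool) (x : ℚ_[ℓ] ⊗[ℚ] V) :
    rho2 ρ s (iA ℓ V t x) = iA ℓ V t (ρ s x) := by
  rw [rho2_apply, Finset.sum_eq_single t]
  · rw [pA_iA]
  · intro t' _ h
    rw [pA_iA_ne h, map_zero, map_zero]
  · intro h
    exact absurd (Finset.mem_univ _) h

/-- The double of the form. -/
def om2 (ω : ℚ_[ℓ] ⊗[ℚ] V →ₗ[ℚ_[ℓ]] ℚ_[ℓ] ⊗[ℚ] V →ₗ[ℚ_[ℓ]] ℚ_[ℓ]) :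
    ℚ_[ℓ] ⊗[ℚ] (V × V) →ₗ[ℚ_[ℓ]] ℚ_[ℓ] ⊗[ℚ] (V × V) →ₗ[ℚ_[ℓ]] ℚ_[ℓ] :=
  ω.compl₁₂ (pA ℓ V false) (pA ℓ V true) - (ω.compl₁₂ (pA ℓ V false) (pA ℓ V true)).flip

lemma om2_apply (ω : ℚ_[ℓ] ⊗[ℚ] V →ₗ[ℚ_[ℓ]] ℚ_[ℓ] ⊗[ℚ] V →ₗ[ℚ_[ℓ]] ℚ_[ℓ])
    (x y : ℚ_[ℓ] ⊗[ℚ] (V × V)) :
    om2 ω x y = ω (pA ℓ V false x) (pA ℓ V true y) - ω (pA ℓ V false y) (pA ℓ V true x) := rfl

variable {ρ χ}

lemma om2_rho2 {ω : ℚ_[ℓ] ⊗[ℚ] V →ₗ[ℚ_[ℓ]] ℚ_[ℓ] ⊗[ℚ] V →ₗ[ℚ_[ℓ]] ℚ_[ℓ]}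
    (hωρ : ∀ s u v, ω (ρ s u) (ρ s v) = χ s * ω u v) (s : Γ) (x y : ℚ_[ℓ] ⊗[ℚ] (V × V)) :
    om2 ω (rho2 ρ s x) (rho2 ρ s y) = χ s * om2 ω x y := by
  rw [om2_apply, om2_apply, pA_rho2, pA_rho2, pA_rho2, pA_rho2, hωρ, hωρ, mul_sub]

lemma om2_one {Q : V →ₗ[ℚ] V →ₗ[ℚ] ℚ}
    {ω : ℚ_[ℓ] ⊗[ℚ] V →ₗ[ℚ_[ℓ]] ℚ_[ℓ] ⊗[ℚ] V →ₗ[ℚ_[ℓ]] ℚ_[ℓ]}
    (hωω : ∀ u v : V, ω ((1 : ℚ_[ℓ]) ⊗ₜ[ℚ] u) ((1 : ℚ_[ℓ]) ⊗ₜ[ℚ] v) = ((Q u v : ℚ) : ℚ_[ℓ]))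
    (x y : V × V) : om2 ω ((1 : ℚ_[ℓ]) ⊗ₜ[ℚ] x) ((1 : ℚ_[ℓ]) ⊗ₜ[ℚ] y) =
      ((dbl Q x y : ℚ) : ℚ_[ℓ]) := by
  rw [om2_apply, dbl_apply]
  have h1 : ∀ x : V × V, pA ℓ V false ((1 : ℚ_[ℓ]) ⊗ₜ[ℚ] x) = (1 : ℚ_[ℓ]) ⊗ₜ[ℚ] x.1 := fun x => by
    rw [pA, LinearMap.baseChange_tmul]
    rfl
  have h2 : ∀ x : V × V, pA ℓ V true ((1 : ℚ_[ℓ]) ⊗ₜ[ℚ] x) = (1 : ℚ_[ℓ]) ⊗ₜ[ℚ] x.2 := fun x => by
    rw [pA, LinearMap.baseChange_tmul]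
    rfl
  rw [h1, h1, h2, h2, hωω, hωω, Rat.cast_sub]

/-- The components of a form on the double. -/
def cA {m : ℕ} (F : TF ℓ (V × V) m) (t : Fin m × Fin 2 → Bool) : TF ℓ V m :=
  F.compLinearMap fun k => iA ℓ V (t k)

lemma cA_apply {m : ℕ} (F : TF ℓ (V × V) m) (t : Fin m × Fin 2 → Bool)
    (v : Fin m × Fin 2 → ℚ_[ℓ] ⊗[ℚ] V) : cA F t v = F fun k => iA ℓ V (t k) (v k) := rfl

lemma cA_sum {m : ℕ} (F : TF ℓ (V × V) m) (v : Fin m × Fin 2 → ℚ_[ℓ] ⊗[ℚ] (V × V)) :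
    F v = ∑ t : Fin m × Fin 2 → Bool, cA F t fun k => pA ℓ V (t k) (v k) := by
  have h1 : v = fun k => ∑ t : Bool, iA ℓ V t (pA ℓ V t (v k)) := by
    funext k
    exact iA_pA (v k)
  conv_lhs => rw [h1]
  rw [MultilinearMap.map_sum]
  rfl

/-- The components of the Tate classes. -/
lemma tate_cA {m : ℕ} {F : TF ℓ (V × V) m} (hF : IsTateTensor (rho2 ρ) χ m F)
    (t : Fin m × Fin 2 → Bool) : IsTateTensor ρ χ m (cA F t) := by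
  obtain ⟨Δ, hΔ, h⟩ := hF
  refine ⟨Δ, hΔ, fun s hs v => ?_⟩
  rw [cA_apply, cA_apply, ← h s hs]
  congr 1
  funext k
  rw [rho2_iA]

/-- The forms with Tate components. -/
lemma tate_of_cA {m : ℕ} {F : TF ℓ (V × V) m}
    (hF : ∀ t : Fin m × Fin 2 → Bool, IsTateTensor ρ χ m (cA F t)) :
    IsTateTensor (rho2 ρ) χ m F := by
  choose Δ hΔ h using hF
  refine ⟨⨅ t, Δ t, ?_, fun s hs v => ?_⟩
  · have := hΔ
    exact Subgroup.finiteIndex_iInf hΔ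
  · rw [cA_sum, cA_sum F v, Finset.mul_sum]
    refine Finset.sum_congr rfl fun t _ => ?_
    rw [← h t s (Subgroup.mem_iInf.1 hs t)]
    congr 1
    funext k
    rw [pA_rho2]

/-- The forms on the double with components in a space. -/
def L2 {m : ℕ} (TT : Submodule ℚ_[ℓ] (TF ℓ V m)) : Submodule ℚ_[ℓ] (TF ℓ (V × V) m) where
  carrier := {F | ∀ t : Fin m × Fin 2 → Bool, cA F t ∈ TT}
  add_mem' := by
    intro F F' hF hF' t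
    exact Submodule.add_mem _ (hF t) (hF' t)
  zero_mem' := fun t => Submodule.zero_mem _
  smul_mem' := by
    intro c F hF t
    exact Submodule.smul_mem _ c (hF t)

lemma finrank_L2 [FiniteDimensional ℚ V] {m : ℕ} (TT : Submodule ℚ_[ℓ] (TF ℓ V m)) :
    finrank ℚ_[ℓ] (L2 TT) ≤ 2 ^ (m * 2) * finrank ℚ_[ℓ] TT := by
  let f : L2 TT →ₗ[ℚ_[ℓ]] ((Fin m × Fin 2 → Bool) → TT) :=
    { toFun := fun F t => ⟨cA F.1 t, F.2 t⟩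
      map_add' := fun _ _ => rfl
      map_smul' := fun _ _ => rfl }
  have hf : Function.Injective f := by
    rw [← LinearMap.ker_eq_bot, LinearMap.ker_eq_bot']
    intro F hF
    apply Subtype.ext
    ext v
    rw [cA_sum]
    refine Finset.sum_eq_zero fun t _ => ?_
    have h1 := congrArg Subtype.val (congrFun hF t)
    have h2 : cA F.1 t = 0 := h1
    rw [h2]
    rfl
  have h1 := LinearMap.finrank_le_finrank_of_injective hf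
  rwa [Module.finrank_pi_fintype, Finset.sum_const, Finset.card_univ, Fintype.card_fun,
    Fintype.card_bool, Fintype.card_prod, Fintype.card_fin, Fintype.card_fin, smul_eq_mul] at h1

end double

section coordinates

variable {ℓ : ℕ} [Fact ℓ.Prime] {V : Type} [AddCommGroup V] [Module ℚ V] {n : ℕ}
  {e : Basis (Fin n) ℚ V} {Q : V →ₗ[ℚ] V →ₗ[ℚ] ℚ} {ε : Module.End ℚ V}
  {P P' : Matrix (Fin n) (Fin n) ℂ} {k : Fin n → ℤ} (hd : HD e Q ε P P' k)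
  {ι : Type} [Fintype ι] [DecidableEq ι] {γ γ' : ι → V}
  (hγ : ∀ v : V, v = ∑ i, Q v (γ' i) • γ i)
  {Γ : Type} [Group Γ] {ρ : Representation ℚ_[ℓ] Γ (ℚ_[ℓ] ⊗[ℚ] V)} {χ : Γ →* ℚ_[ℓ]}
  {ω : ℚ_[ℓ] ⊗[ℚ] V →ₗ[ℚ_[ℓ]] ℚ_[ℓ] ⊗[ℚ] V →ₗ[ℚ_[ℓ]] ℚ_[ℓ]}

include hd hγ in
/-- **More than half of the Tate classes of one degree decide in low degrees**, in coordinates. -/
theorem tate_low_hd (hn : 1 ≤ n)
    (hωω : ∀ u v : V, ω ((1 : ℚ_[ℓ]) ⊗ₜ[ℚ] u) ((1 : ℚ_[ℓ]) ⊗ₜ[ℚ] v) = ((Q u v : ℚ) : ℚ_[ℓ]))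
    (hωρ : ∀ s u v, ω (ρ s u) (ρ s v) = χ s * ω u v)
    {C : ∀ m : ℕ, Submodule ℚ (RF V m)} (hC : Closed Q γ γ' C)
    (hCB : ∀ m, C m ≤ Ann e (wt P P' k) m)
    (hT : ∀ m, ∀ ψ ∈ C m, ∀ φ : TF ℓ V m,
      (∀ v : Fin m × Fin 2 → V, φ (fun l => (1 : ℚ_[ℓ]) ⊗ₜ[ℚ] v l) = ((ψ v : ℚ) : ℚ_[ℓ])) →
      IsTateTensor ρ χ m φ)
    {r c m : ℕ} (hr : 1 ≤ r) (hc : 1 ≤ c)
    (hm : 256 * c * n ^ 3 * r ^ 2 * (Nat.log 2 (4 * n * c * r) + 1) ≤ m)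
    {TT : Submodule ℚ_[ℓ] (TF ℓ V m)} (hTT : ∀ φ, IsTateTensor ρ χ m φ → φ ∈ TT)
    (hratio : c * finrank ℚ_[ℓ] TT ≤ (2 * c - 1) * finrank ℚ (C m)) {m' : ℕ} (hm' : m' ≤ r)
    (φ : TF ℓ V m') (hφ : IsTateTensor ρ χ m' φ) (lam : ℚ_[ℓ] →ₗ[ℚ] ℚ) :
    DR.fcmp lam φ ∈ C m' := by
  obtain ⟨S, S', hf⟩ := exists_frame_hd hd
  have hfd : FiniteDimensional ℚ V := Module.Finite.of_basis e
  have hβ := dual_dbl hγ hd.nd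
  have hC2 := lift_closed hC
  have hsC := star_lift hd hγ hC hCB
  have hdim : finrank ℚ (V × V) = 2 * n := by
    rw [Module.finrank_prod, finrank_eq_card_basis e, Fintype.card_fin]
    ring
  have hT2 : ∀ m, ∀ ψ ∈ Lift C m, ∀ φ : TF ℓ (V × V) m,
      (∀ v : Fin m × Fin 2 → V × V, φ (fun l => (1 : ℚ_[ℓ]) ⊗ₜ[ℚ] v l) =
        ((ψ v : ℚ) : ℚ_[ℓ])) → IsTateTensor (rho2 ρ) χ m φ := by
    intro m ψ hψ φ hφ
    refine tate_of_cA fun t => hT m _ (hψ t) _ fun v => ?_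
    rw [cA_apply, cpt_apply, ← hφ]
    rfl
  have h1 := tate_low_frame hf (fun _ _ => rfl) hβ (ω := om2 ω) (ρ := rho2 ρ) (χ := χ)
    (om2_one hωω) (om2_rho2 hωρ) hC2 hsC hT2 (by omega) hr (k := c) (m := m) hc (by
      rw [hdim]
      have h1 : 2 * (2 * n) * c * r = 4 * n * c * r := by ring
      rw [h1]
      convert hm using 1
      ring) (TT := L2 TT) (fun F hF t => hTT _ (tate_cA hF t)) (by
      rw [finrank_lift]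
      calc c * finrank ℚ_[ℓ] (L2 TT) ≤ c * (2 ^ (m * 2) * finrank ℚ_[ℓ] TT) :=
            Nat.mul_le_mul_left _ (finrank_L2 TT)
        _ = 2 ^ (m * 2) * (c * finrank ℚ_[ℓ] TT) := by ring
        _ ≤ 2 ^ (m * 2) * ((2 * c - 1) * finrank ℚ (C m)) := Nat.mul_le_mul_left _ hratio
        _ = _ := by ring) hm' (φ.compLinearMap fun _ => pA ℓ V false) (by
      obtain ⟨Δ, hΔ, h⟩ := hφ
      refine ⟨Δ, hΔ, fun s hs v => ?_⟩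
      rw [MultilinearMap.compLinearMap_apply, MultilinearMap.compLinearMap_apply, ← h s hs]
      congr 1
      funext k
      rw [pA_rho2]) lam
  refine mem_of_lift ?_
  convert h1 using 1
  ext v
  rw [MultilinearMap.compLinearMap_apply, DR.fcmp_apply, DR.fcmp_apply,
    MultilinearMap.compLinearMap_apply]
  rfl

end coordinates

section hodge

variable {ℓ : ℕ} [Fact ℓ.Prime] {V : Type} [AddCommGroup V] [Module ℚ V] [FiniteDimensional ℚ V]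
  {H : ℤ → ℤ → Submodule ℂ (ℂ ⊗[ℚ] V)} {ε : Module.End ℚ V} {Q : LinearMap.BilinForm ℚ V}
  {Γ : Type} [Group Γ] {ρ : Representation ℚ_[ℓ] Γ (ℚ_[ℓ] ⊗[ℚ] V)} {χ : Γ →* ℚ_[ℓ]}
  {ω : ℚ_[ℓ] ⊗[ℚ] V →ₗ[ℚ_[ℓ]] ℚ_[ℓ] ⊗[ℚ] V →ₗ[ℚ_[ℓ]] ℚ_[ℓ]}

/-- **More than half of the Tate classes of one degree decide in low degrees.** -/
theorem tate_low_hs (hH : HS.IsHodgeStructure H ε) (hQ : HS.IsPolarization H ε Q)
    (hn : 1 ≤ finrank ℚ V)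
    (hωω : ∀ u v : V, ω ((1 : ℚ_[ℓ]) ⊗ₜ[ℚ] u) ((1 : ℚ_[ℓ]) ⊗ₜ[ℚ] v) = ((Q u v : ℚ) : ℚ_[ℓ]))
    (hωρ : ∀ s u v, ω (ρ s u) (ρ s v) = χ s * ω u v)
    {ι : Type} [Fintype ι] [DecidableEq ι] {γ γ' : ι → V}
    (hγ : ∀ v : V, v = ∑ i, Q v (γ' i) • γ i)
    {C : ∀ m : ℕ, Submodule ℚ (RF V m)} (hC : Closed Q γ γ' C)
    (hCH : ∀ (m : ℕ), ∀ ψ ∈ C m, HS.IsHodgeForm H ψ)
    (hT : ∀ m, ∀ ψ ∈ C m, ∀ φ : TF ℓ V m,
      (∀ v : Fin m × Fin 2 → V, φ (fun l => (1 : ℚ_[ℓ]) ⊗ₜ[ℚ] v l) = ((ψ v : ℚ) : ℚ_[ℓ])) →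
      IsTateTensor ρ χ m φ)
    {r c m : ℕ} (hr : 1 ≤ r) (hc : 1 ≤ c)
    (hm : 256 * c * finrank ℚ V ^ 3 * r ^ 2 * (Nat.log 2 (4 * finrank ℚ V * c * r) + 1) ≤ m)
    {TT : Submodule ℚ_[ℓ] (TF ℓ V m)} (hTT : ∀ φ, IsTateTensor ρ χ m φ → φ ∈ TT)
    (hratio : c * finrank ℚ_[ℓ] TT ≤ (2 * c - 1) * finrank ℚ (C m)) {m' : ℕ} (hm' : m' ≤ r)
    (φ : TF ℓ V m') (hφ : IsTateTensor ρ χ m' φ) (lam : ℚ_[ℓ] →ₗ[ℚ] ℚ) :
    DR.fcmp lam φ ∈ C m' := by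
  obtain ⟨vB, kk, hmem, hr'⟩ := exists_adapted hH.internal
  have hd := hd_of (Module.finBasis ℚ V) hmem hr' hH hQ
  have hA : ∀ (m : ℕ) (ψ : RF V m), HS.IsHodgeForm H ψ ↔
      ψ ∈ Ann (Module.finBasis ℚ V) (wt (PM (Module.finBasis ℚ V) vB)
        (PM' (Module.finBasis ℚ V) vB) (kd kk)) m := fun m ψ => hodge_iff_ann _ hmem hr' ψ
  exact tate_low_hd hd hγ hn hωω hωρ hC (fun m ψ hψ => (hA m ψ).1 (hCH m ψ hψ)) hT hr hc hm hTT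
    hratio hm' φ hφ lam

end hodge

end

end Pool.Agent.X259.U
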