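import Pool.Agent.X259.U.U42

/-!
# Subspaces whose squared volume form is an invariant have invariant complements
-/

set_option autoImplicit false
set_option linter.unusedSectionVars false
set_option linter.unusedDecidableInType false
set_option linter.unusedFintypeInType false

namespace Pool.Agent.X259.U

open Matrix Finset Module TensorProduct Pool.Agent.H204R3.SP Pool.Agent.H204R3.GP
  Pool.Agent.W516 Pool.Agent.X259.T

noncomputable section

section det

variable {R : Type} [Fintype R] [DecidableEq R] {d : ℕ}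

lemma det_expand (F Y : Fin d → R → ℂ) :
    ∑ J : Fin d → R, (∏ j, Y j (J j)) * Matrix.det (Matrix.of fun i j => F i (J j)) =
      Matrix.det (Matrix.of fun i j => F i ⬝ᵥ Y j) := by
  have h1 : Matrix.det (Matrix.of fun i j => F i ⬝ᵥ Y j) =
      Matrix.detRowAlternating (fun j : Fin d => ∑ x, Y j x • fun i => F i x) := by
    rw [← Matrix.det_transpose]
    change _ = Matrix.det _
    congr 1
    ext j i
    change F i ⬝ᵥ Y j = (∑ x, Y j x • fun i => F i x) i
    rw [Finset.sum_apply, dotProduct]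
    exact Finset.sum_congr rfl fun x _ => by rw [Pi.smul_apply, smul_eq_mul, mul_comm]
  rw [h1]
  have h2 := (Matrix.detRowAlternating (n := Fin d) (R := ℂ)).toMultilinearMap.map_sum
    (g := fun j x => Y j x • fun i => F i x)
  change (Matrix.detRowAlternating (n := Fin d) (R := ℂ)).toMultilinearMap _ = _ at h2
  change _ = (Matrix.detRowAlternating (n := Fin d) (R := ℂ)).toMultilinearMap _
  rw [h2]
  refine Finset.sum_congr rfl fun J _ => ?_
  rw [MultilinearMap.map_smul_univ, smul_eq_mul]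
  congr 1
  rw [← Matrix.det_transpose]
  rfl

/-- The squared volume form. -/
def DF (F : Fin d → R → ℂ) : (Fin d × Fin 2 → R) → ℂ := fun J =>
  ∏ c : Fin 2, Matrix.det (Matrix.of fun i j => F i (J (j, c)))

lemma DF_expand (F : Fin d → R → ℂ) (Y : Fin d × Fin 2 → R → ℂ) :
    ∑ J : Fin d × Fin 2 → R, (∏ k, Y k (J k)) * DF F J =
      ∏ c : Fin 2, Matrix.det (Matrix.of fun i j => F i ⬝ᵥ Y (j, c)) := by
  have h1 : ∀ c : Fin 2, Matrix.det (Matrix.of fun i j => F i ⬝ᵥ Y (j, c)) =
      ∑ J : Fin d → R, (∏ j, Y (j, c) (J j)) * Matrix.det (Matrix.of fun i j => F i (J j)) :=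
    fun c => (det_expand F fun j => Y (j, c)).symm
  simp only [h1]
  rw [Finset.prod_univ_sum, Fintype.piFinset_univ]
  let e : (Fin 2 → Fin d → R) ≃ (Fin d × Fin 2 → R) :=
    { toFun := fun J k => J k.2 k.1
      invFun := fun J c j => J (j, c)
      left_inv := fun _ => rfl
      right_inv := fun _ => rfl }
  rw [← e.sum_comp]
  refine Finset.sum_congr rfl fun J _ => ?_
  rw [Finset.prod_mul_distrib, DF]
  congr 1
  rw [Fintype.prod_prod_type, Finset.prod_comm]
  rfl

lemma kr_DF (g : Matrix R R ℂ) (F : Fin d → R → ℂ) :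
    kr (Fin d × Fin 2) g *ᵥ DF F = DF fun i => g *ᵥ F i := by
  funext I
  rw [kr_mulVec, DF_expand F fun k => g (I k), DF]
  refine Finset.prod_congr rfl fun c _ => ?_
  congr 1
  ext i j
  change F i ⬝ᵥ g (I (j, c)) = (g *ᵥ F i) (I (j, c))
  rw [dotProduct_comm]
  rfl

/-- Two families of covectors with the same squared volume form have the same span. -/
lemma span_DF {F G : Fin d → R → ℂ} (h : DF G = DF F) {y : Fin d → R → ℂ}
    (hy : ∀ i j, F i ⬝ᵥ y j = if i = j then 1 else 0) (i : Fin d) :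
    G i ∈ Submodule.span ℂ (Set.range F) := by
  have hE : ∀ Y : Fin d × Fin 2 → R → ℂ,
      ∏ c : Fin 2, Matrix.det (Matrix.of fun i j => G i ⬝ᵥ Y (j, c)) =
      ∏ c : Fin 2, Matrix.det (Matrix.of fun i j => F i ⬝ᵥ Y (j, c)) := fun Y => by
    rw [← DF_expand, ← DF_expand, h]
  have h1 : Matrix.det (Matrix.of fun i j => F i ⬝ᵥ y j) = 1 := by
    have : (Matrix.of fun i j => F i ⬝ᵥ y j) = (1 : Matrix (Fin d) (Fin d) ℂ) := by
      ext i j
      rw [Matrix.of_apply, hy, Matrix.one_apply]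
    rw [this, Matrix.det_one]
  set A : Matrix (Fin d) (Fin d) ℂ := Matrix.of fun i j => G i ⬝ᵥ y j with hA
  have hA0 : A.det ≠ 0 := by
    intro h0
    have h2 := hE fun k => y k.1
    rw [Fin.prod_univ_two, Fin.prod_univ_two] at h2
    change A.det * A.det = _ * _ at h2
    rw [h0, zero_mul] at h2
    change 0 = Matrix.det (Matrix.of fun i j => F i ⬝ᵥ y j) *
      Matrix.det (Matrix.of fun i j => F i ⬝ᵥ y j) at h2
    rw [h1, mul_one] at h2
    exact zero_ne_one h2
  -- the common kernel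
  have hN : ∀ x : R → ℂ, (∀ i, F i ⬝ᵥ x = 0) → ∀ i, G i ⬝ᵥ x = 0 := by
    intro x hx i
    have h2 : ∀ j₀, Matrix.cramer A (fun i => G i ⬝ᵥ x) j₀ = 0 := by
      intro j₀
      rw [Matrix.cramer_apply]
      have h3 := hE fun k => if k.2 = 0 then Function.update y j₀ x k.1 else y k.1
      rw [Fin.prod_univ_two, Fin.prod_univ_two] at h3
      have h4 : (Matrix.of fun i j => F i ⬝ᵥ
          (if ((j, (0 : Fin 2)) : Fin d × Fin 2).2 = 0 then
            Function.update y j₀ x ((j, (0 : Fin 2)) : Fin d × Fin 2).1 else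
            y ((j, (0 : Fin 2)) : Fin d × Fin 2).1)).det = 0 := by
        refine Matrix.det_eq_zero_of_column_eq_zero j₀ fun i => ?_
        change F i ⬝ᵥ (if (0 : Fin 2) = 0 then Function.update y j₀ x j₀ else y j₀) = 0
        rw [if_pos rfl, Function.update_self, hx]
      rw [h4, zero_mul] at h3
      have h5 : (Matrix.of fun i j => G i ⬝ᵥ
          (if ((j, (1 : Fin 2)) : Fin d × Fin 2).2 = 0 then
            Function.update y j₀ x ((j, (1 : Fin 2)) : Fin d × Fin 2).1 else
            y ((j, (1 : Fin 2)) : Fin d × Fin 2).1)) = A := by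
        ext i j
        change G i ⬝ᵥ (if (1 : Fin 2) = 0 then Function.update y j₀ x j else y j) = G i ⬝ᵥ y j
        rw [if_neg (by decide)]
      rw [h5] at h3
      have h6 := (mul_eq_zero.1 h3).resolve_right hA0
      rw [← h6]
      congr 1
      ext i j
      rw [Matrix.updateCol_apply]
      change _ = G i ⬝ᵥ (if (0 : Fin 2) = 0 then Function.update y j₀ x j else y j)
      rw [if_pos rfl]
      by_cases hj : j = j₀
      · rw [if_pos hj, hj, Function.update_self]
      · rw [if_neg hj, Function.update_of_ne hj]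
        rfl
    have h3 := Matrix.mulVec_cramer A fun i => G i ⬝ᵥ x
    have h4 : Matrix.cramer A (fun i => G i ⬝ᵥ x) = 0 := funext h2
    rw [h4, Matrix.mulVec_zero] at h3
    have h5 := congrFun h3 i
    rw [Pi.zero_apply, Pi.smul_apply, smul_eq_mul] at h5
    exact (mul_eq_zero.1 h5.symm).resolve_left hA0
  have h2 : G i = ∑ j, (G i ⬝ᵥ y j) • F j := by
    refine dotProduct_eq _ _ fun x => ?_
    have h3 : ∀ i, F i ⬝ᵥ (x - ∑ j, (F j ⬝ᵥ x) • y j) = 0 := by
      intro i
      rw [dotProduct_sub, dotProduct_sum, Finset.sum_eq_single i]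
      · rw [dotProduct_smul, hy, if_pos rfl, smul_eq_mul, mul_one, sub_self]
      · intro j _ hj
        rw [dotProduct_smul, hy, if_neg hj.symm, smul_zero]
      · intro h
        exact absurd (Finset.mem_univ _) h
    have h4 := hN _ h3 i
    rw [dotProduct_sub, dotProduct_sum, sub_eq_zero] at h4
    rw [h4, sum_dotProduct]
    refine Finset.sum_congr rfl fun j _ => ?_
    rw [dotProduct_smul, smul_dotProduct, smul_eq_mul, smul_eq_mul, mul_comm]
  rw [h2]
  exact Submodule.sum_mem _ fun j _ => Submodule.smul_mem _ _ (Submodule.subset_span ⟨j, rfl⟩)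

/-- A matrix which commutes with a group of unitary matrices which preserve a subspace. -/
lemma exists_commuting (K : Subgroup (Matrix.unitaryGroup R ℂ)) (U : Submodule ℂ (R → ℂ))
    (hU : ∀ g ∈ K, ∀ x ∈ U, (g : Matrix R R ℂ) *ᵥ x ∈ U) :
    ∃ P : Matrix R R ℂ, (∀ x ∈ U, P *ᵥ x = x) ∧ (∀ x, P *ᵥ x ∈ U) ∧
      ∀ g ∈ K, (g : Matrix R R ℂ) * P = P * (g : Matrix R R ℂ) := by
  obtain ⟨P, hPP, hPh, hP1, hP2, -⟩ := exists_projector U
  refine ⟨P, hP1, hP2, fun g hg => ?_⟩
  have key : ∀ g ∈ K, P * ((g : Matrix R R ℂ) * P) = (g : Matrix R R ℂ) * P := by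
    intro g hg
    refine Matrix.toLin'.injective (LinearMap.ext fun x => ?_)
    rw [Matrix.toLin'_apply, Matrix.toLin'_apply, ← Matrix.mulVec_mulVec]
    apply hP1
    rw [← Matrix.mulVec_mulVec]
    exact hU g hg _ (hP2 x)
  have h1 := key g hg
  have h2 := key g⁻¹ (K.inv_mem hg)
  have h3 : ((g⁻¹ : Matrix.unitaryGroup R ℂ) : Matrix R R ℂ) = (g : Matrix R R ℂ)ᴴ := rfl
  rw [h3] at h2
  have h4 := congrArg Matrix.conjTranspose h2
  rw [Matrix.conjTranspose_mul, Matrix.conjTranspose_mul, Matrix.conjTranspose_conjTranspose,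
    hPh] at h4
  rw [← h1, ← mul_assoc, h4]

end det

section frame

variable {R : Type} [Fintype R] [DecidableEq R] {Q : Type} [DecidableEq Q]
  {cls : R → Q} {inv : R → R} {jj : R → ℂ} {B : ∀ κ : Type, Submodule ℂ ((κ → R) → ℂ)}

lemma stab_J (hcls : ∀ x y, cls x = cls y) (hBf : Fam cls inv jj B) {g : Matrix.unitaryGroup R ℂ}
    (hg : g ∈ stabG (tens B)) : (g : Matrix R R ℂ) * Jm inv jj * (g : Matrix R R ℂ)ᵀ =
      Jm inv jj := by
  ext x y
  have h1 := mem_forms.1 (stab_le hBf hg) (cls x)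
  have h2 : Pm cls (cls x) = (1 : Matrix R R ℂ) := by
    rw [Pm, ← Matrix.diagonal_one]
    congr 1
    funext z
    rw [if_pos (hcls z x)]
  rw [h2, one_mul] at h1
  exact congrFun (congrFun h1 x) y

/-- The tensor of a commuting matrix. -/
lemma commuting_mem (hB : Bas cls inv jj) (hcls : ∀ x y, cls x = cls y)
    (hBf : Fam cls inv jj B) {P : Matrix R R ℂ}
    (hP : ∀ g ∈ stabG (tens B), (g : Matrix R R ℂ) * P = P * (g : Matrix R R ℂ)) :
    (fun J : Fin 2 → R => (Jm inv jj * Pᵀ) (J 0) (J 1)) ∈ B (Fin 2) := by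
  refine tannaka hB hBf _ fun g hg => ?_
  funext I
  rw [kr_two]
  have h1 : (g : Matrix R R ℂ) * (Jm inv jj * Pᵀ) * (g : Matrix R R ℂ)ᵀ = Jm inv jj * Pᵀ := by
    have h2 : Pᵀ * (g : Matrix R R ℂ)ᵀ = (g : Matrix R R ℂ)ᵀ * Pᵀ := by
      rw [← Matrix.transpose_mul, ← Matrix.transpose_mul, hP g hg]
    calc _ = (g : Matrix R R ℂ) * Jm inv jj * (Pᵀ * (g : Matrix R R ℂ)ᵀ) := by
          simp only [mul_assoc]
      _ = ((g : Matrix R R ℂ) * Jm inv jj * (g : Matrix R R ℂ)ᵀ) * Pᵀ := by
          rw [h2]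
          simp only [mul_assoc]
      _ = _ := by rw [stab_J hcls hBf hg]
  rw [h1]

/-- **The span of covectors whose squared volume form is in the family has an invariant
projector.** -/
theorem exists_proj_DF (hB : Bas cls inv jj) (hcls : ∀ x y, cls x = cls y)
    (hBf : Fam cls inv jj B) {d : ℕ} {F : Fin d → R → ℂ} (hF : DF F ∈ B (Fin d × Fin 2))
    {y : Fin d → R → ℂ} (hy : ∀ i j, F i ⬝ᵥ y j = if i = j then 1 else 0) :
    ∃ P : Matrix R R ℂ, (∀ i, P *ᵥ F i = F i) ∧
      (∀ x, P *ᵥ x ∈ Submodule.span ℂ (Set.range F)) ∧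
      (fun J : Fin 2 → R => (Jm inv jj * Pᵀ) (J 0) (J 1)) ∈ B (Fin 2) := by
  obtain ⟨P, h1, h2, h3⟩ := exists_commuting (stabG (tens B)) (Submodule.span ℂ (Set.range F))
    fun g hg x hx => by
      induction hx using Submodule.span_induction with
      | mem x h =>
        obtain ⟨i, rfl⟩ := h
        refine span_DF (G := fun i => (g : Matrix R R ℂ) *ᵥ F i) ?_ hy i
        rw [← kr_DF]
        exact (mem_stab hBf).1 hg _ _ hF
      | zero =>
        rw [Matrix.mulVec_zero]
        exact Submodule.zero_mem _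
      | add a c _ _ ha hc =>
        rw [Matrix.mulVec_add]
        exact Submodule.add_mem _ ha hc
      | smul c a _ ha =>
        rw [Matrix.mulVec_smul]
        exact Submodule.smul_mem _ _ ha
  exact ⟨P, fun i => h1 _ (Submodule.subset_span ⟨i, rfl⟩), h2, commuting_mem hB hcls hBf h3⟩

end frame

end

end Pool.Agent.X259.U
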