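import Pool.Agent.X259.U.U43

/-!
# Invariant projectors, in frames
-/

set_option autoImplicit false
set_option linter.unusedSectionVars false
set_option linter.unusedDecidableInType false
set_option linter.unusedFintypeInType false

namespace Pool.Agent.X259.U

open Matrix Finset Module TensorProduct Pool.Agent.H204R3.SP Pool.Agent.H204R3.GP
  Pool.Agent.W516 Pool.Agent.X259.T

noncomputable section

section forms

variable {K M : Type} [Field K] [AddCommGroup M] [Module K M] {d : ℕ}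

/-- The determinant of covectors. -/
def detM (f : Fin d → M →ₗ[K] K) : MultilinearMap K (fun _ : Fin d => M) K :=
  (Matrix.detRowAlternating (n := Fin d) (R := K)).toMultilinearMap.compLinearMap
    fun _ => LinearMap.pi f

lemma detM_apply (f : Fin d → M →ₗ[K] K) (v : Fin d → M) :
    detM f v = Matrix.det (Matrix.of fun i j => f i (v j)) := by
  rw [← Matrix.det_transpose]
  rfl

lemma upd_eq (v : Fin d × Fin 2 → M) (j₀ : Fin d) (c : Fin 2) (z : M) :
    (fun j => Function.update v (j₀, c) z (j, c)) = Function.update (fun j => v (j, c)) j₀ z := by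
  funext j
  by_cases h : j = j₀
  · rw [h, Function.update_self, Function.update_self]
  · rw [Function.update_of_ne h, Function.update_of_ne]
    exact fun h' => h (congrArg Prod.fst h')

lemma upd_ne (v : Fin d × Fin 2 → M) (j₀ : Fin d) {c c' : Fin 2} (hc : c' ≠ c) (z : M) :
    (fun j => Function.update v (j₀, c) z (j, c')) = fun j => v (j, c') := by
  funext j
  rw [Function.update_of_ne]
  exact fun h' => hc (congrArg Prod.snd h')

/-- The exterior square of a form. -/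
def sq2 (A : MultilinearMap K (fun _ : Fin d => M) K) :
    MultilinearMap K (fun _ : Fin d × Fin 2 => M) K :=
  MultilinearMap.mk' (fun v => A (fun j => v (j, 0)) * A (fun j => v (j, 1)))
    (by
      rintro v ⟨j₀, c⟩ x y
      fin_cases c
      · change A (fun j => Function.update v (j₀, 0) (x + y) (j, 0)) *
          A (fun j => Function.update v (j₀, 0) (x + y) (j, 1)) =
          A (fun j => Function.update v (j₀, 0) x (j, 0)) *
          A (fun j => Function.update v (j₀, 0) x (j, 1)) +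
          A (fun j => Function.update v (j₀, 0) y (j, 0)) *
          A (fun j => Function.update v (j₀, 0) y (j, 1))
        rw [upd_eq, upd_eq, upd_eq, upd_ne v j₀ (by decide), upd_ne v j₀ (by decide),
          upd_ne v j₀ (by decide), A.map_update_add, add_mul]
      · change A (fun j => Function.update v (j₀, 1) (x + y) (j, 0)) *
          A (fun j => Function.update v (j₀, 1) (x + y) (j, 1)) =
          A (fun j => Function.update v (j₀, 1) x (j, 0)) *
          A (fun j => Function.update v (j₀, 1) x (j, 1)) +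
          A (fun j => Function.update v (j₀, 1) y (j, 0)) *
          A (fun j => Function.update v (j₀, 1) y (j, 1))
        rw [upd_eq, upd_eq, upd_eq, upd_ne v j₀ (by decide), upd_ne v j₀ (by decide),
          upd_ne v j₀ (by decide), A.map_update_add, mul_add])
    (by
      rintro v ⟨j₀, c⟩ a x
      fin_cases c
      · change A (fun j => Function.update v (j₀, 0) (a • x) (j, 0)) *
          A (fun j => Function.update v (j₀, 0) (a • x) (j, 1)) =
          a • (A (fun j => Function.update v (j₀, 0) x (j, 0)) *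
          A (fun j => Function.update v (j₀, 0) x (j, 1)))
        rw [upd_eq, upd_eq, upd_ne v j₀ (by decide), upd_ne v j₀ (by decide),
          A.map_update_smul, smul_mul_assoc]
      · change A (fun j => Function.update v (j₀, 1) (a • x) (j, 0)) *
          A (fun j => Function.update v (j₀, 1) (a • x) (j, 1)) =
          a • (A (fun j => Function.update v (j₀, 1) x (j, 0)) *
          A (fun j => Function.update v (j₀, 1) x (j, 1)))
        rw [upd_eq, upd_eq, upd_ne v j₀ (by decide), upd_ne v j₀ (by decide),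
          A.map_update_smul, mul_smul_comm])

lemma sq2_apply (A : MultilinearMap K (fun _ : Fin d => M) K) (v : Fin d × Fin 2 → M) :
    sq2 A v = A (fun j => v (j, 0)) * A (fun j => v (j, 1)) := rfl

/-- The form in two variables. -/
def b2K (B : M →ₗ[K] M →ₗ[K] K) : MultilinearMap K (fun _ : Fin 1 × Fin 2 => M) K :=
  MultilinearMap.domDomCongr (Equiv.uniqueProd (Fin 2) (Fin 1)).symm (MultilinearMap.mk'
    (fun v : Fin 2 → M => B (v 0) (v 1)) (by
      intro v i x y
      fin_cases i <;> simp [Function.update]) (by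
      intro v i c x
      fin_cases i <;> simp [Function.update]))

lemma b2K_apply (B : M →ₗ[K] M →ₗ[K] K) (v : Fin 1 × Fin 2 → M) :
    b2K B v = B (v (0, 0)) (v (0, 1)) := rfl

end forms

section frame

variable {ℓ : ℕ} [Fact ℓ.Prime] {W : Type} [AddCommGroup W] [Module ℚ W] {R : Type} [Fintype R]
  [DecidableEq R] {Q : Type} [DecidableEq Q]
  {T : Type} [AddCommGroup T] [Module ℂ T] {per : W →+ T} {ω₀ : W →ₗ[ℚ] W →ₗ[ℚ] ℚ}
  {ω : ℚ_[ℓ] ⊗[ℚ] W →ₗ[ℚ_[ℓ]] ℚ_[ℓ] ⊗[ℚ] W →ₗ[ℚ_[ℓ]] ℚ_[ℓ]}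
  {b : Basis R ℚ W} {b' : Basis R ℝ T} {cls : R → Q}
  {inv : R → R} {jj : R → ℂ} {S S' : Matrix R R ℂ} (hf : Frame per ω₀ b b' cls inv jj S S')

/-- The combinations of rational classes give tensors of the family. -/
lemma gK_mem [FiniteDimensional ℚ W] (τ : ℚ_[ℓ] →+* ℂ) {C : ∀ m : ℕ, Submodule ℚ (RF W m)} {m : ℕ}
    {φ : TF ℓ W m} (hφ : ∀ lam : ℚ_[ℓ] →ₗ[ℚ] ℚ, DR.fcmp lam φ ∈ C m) :
    kr (Fin m × Fin 2) S *ᵥ gK b τ φ ∈ Fm S b C (Fin m × Fin 2) := by
  have h1 := Pool.Agent.X259.Q.mem_of_fcmp (C m) hφ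
  clear hφ
  induction h1 using Submodule.span_induction with
  | mem φ h =>
    obtain ⟨ψ, hψ, h⟩ := h
    have h2 : gK b τ φ = gt b ψ := by
      funext J
      change τ (φ fun k => (1 : ℚ_[ℓ]) ⊗ₜ[ℚ] b (J k)) = ((ψ fun k => b (J k) : ℚ) : ℂ)
      rw [h, map_ratCast]
    rw [h2]
    exact gen_mem (S := S) (b := b) (Equiv.refl (Fin m × Fin 2)) hψ
  | zero =>
    have h2 : gK b τ (0 : TF ℓ W m) = 0 := by
      funext J
      exact map_zero τ
    rw [h2, Matrix.mulVec_zero]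
    exact Submodule.zero_mem _
  | add a c _ _ ha hc =>
    have h2 : gK b τ (a + c) = gK b τ a + gK b τ c := by
      funext J
      exact map_add τ _ _
    rw [h2, Matrix.mulVec_add]
    exact Submodule.add_mem _ ha hc
  | smul c a _ ha =>
    have h2 : gK b τ (c • a) = τ c • gK b τ a := by
      funext J
      exact map_mul τ _ _
    rw [h2, Matrix.mulVec_smul]
    exact Submodule.smul_mem _ _ ha

/-- The tensor of the squared determinant. -/
lemma gK_sq2 (τ : ℚ_[ℓ] →+* ℂ) {d : ℕ} (f : Fin d → ℚ_[ℓ] ⊗[ℚ] W →ₗ[ℚ_[ℓ]] ℚ_[ℓ]) :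
    gK b τ (sq2 (detM f)) = DF fun i x => τ (f i ((1 : ℚ_[ℓ]) ⊗ₜ[ℚ] b x)) := by
  funext J
  change τ (sq2 (detM f) fun k => (1 : ℚ_[ℓ]) ⊗ₜ[ℚ] b (J k)) = _
  rw [sq2_apply, detM_apply, detM_apply, map_mul, DF, Fin.prod_univ_two, RingHom.map_det,
    RingHom.map_det]
  rfl

include hf in
/-- **Invariant projectors**, in frames. -/
theorem proj_frame [FiniteDimensional ℚ W] (hcls : ∀ x y, cls x = cls y) {ι : Type} [Fintype ι] [DecidableEq ι]
    {β β' : ι → W} (hβ : ∀ w : W, w = ∑ i, ω₀ w (β' i) • β i)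
    (hωω : ∀ u v : W, ω ((1 : ℚ_[ℓ]) ⊗ₜ[ℚ] u) ((1 : ℚ_[ℓ]) ⊗ₜ[ℚ] v) = ((ω₀ u v : ℚ) : ℚ_[ℓ]))
    {C : ∀ m : ℕ, Submodule ℚ (RF W m)} (hC : Closed ω₀ β β' C) (hst : StarStable b b' C)
    {d : ℕ} {f : Fin d → ℚ_[ℓ] ⊗[ℚ] W →ₗ[ℚ_[ℓ]] ℚ_[ℓ]} {w : Fin d → ℚ_[ℓ] ⊗[ℚ] W}
    (hfw : ∀ i j, f i (w j) = if i = j then 1 else 0)
    (hφ : ∀ lam : ℚ_[ℓ] →ₗ[ℚ] ℚ, DR.fcmp lam (sq2 (detM f)) ∈ C d) :
    ∃ q : Module.End ℚ_[ℓ] (ℚ_[ℓ] ⊗[ℚ] W), (∀ i x, f i (q x) = f i x) ∧
      (∀ x, (∀ i, f i x = 0) → q x = 0) ∧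
      ∀ μ : ℚ_[ℓ] →ₗ[ℚ] ℚ, DR.fcmp μ (b2K (ω.compl₂ q)) ∈ C 1 := by
  classical
  obtain ⟨τ⟩ := exists_emb ℓ
  have hBf := fam' hf hcls hβ hC hst
  let bK := b.baseChange ℚ_[ℓ]
  have hbK : ∀ x, bK x = (1 : ℚ_[ℓ]) ⊗ₜ[ℚ] b x := fun x => Basis.baseChange_apply _ _ _
  let a : Fin d → R → ℂ := fun i x => τ (f i ((1 : ℚ_[ℓ]) ⊗ₜ[ℚ] b x))
  let F : Fin d → R → ℂ := fun i => S *ᵥ a i
  let co : ℚ_[ℓ] ⊗[ℚ] W → R → ℂ := fun x k => τ (bK.repr x k)
  have hdot : ∀ i x, a i ⬝ᵥ co x = τ (f i x) := by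
    intro i x
    conv_rhs => rw [← bK.sum_repr x]
    rw [map_sum, map_sum, dotProduct]
    refine Finset.sum_congr rfl fun k _ => ?_
    rw [map_smul, smul_eq_mul, map_mul, hbK, mul_comm]
  have hSS : Sᵀ * S'ᵀ = 1 := by
    rw [← Matrix.transpose_mul, hf.one', Matrix.transpose_one]
  have hFdot : ∀ i x, F i ⬝ᵥ (S'ᵀ *ᵥ co x) = τ (f i x) := by
    intro i x
    change (S *ᵥ a i) ⬝ᵥ (S'ᵀ *ᵥ co x) = _
    rw [← hdot, Matrix.dotProduct_mulVec, Matrix.vecMul_transpose, Matrix.mulVec_mulVec, hf.one',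
      Matrix.one_mulVec]
  have hF : DF F ∈ Fm S b C (Fin d × Fin 2) := by
    have h1 := gK_mem (S := S) (b := b) τ hφ
    rw [gK_sq2, kr_DF] at h1
    exact h1
  obtain ⟨P, hP1, hP2, hP3⟩ := exists_proj_DF hf.bas hcls hBf hF (y := fun j => S'ᵀ *ᵥ co (w j))
    (fun i j => by
      rw [hFdot, hfw]
      split_ifs
      · rw [map_one]
      · rw [map_zero])
  let Qm : Matrix R R ℂ := S' * P * S
  -- the rational components
  have hcomp : ∀ lam : ℂ →ₗ[ℚ] ℚ, mkc b (fun J : Fin 1 × Fin 2 → R =>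
      lam ((Om b ω₀ * Qmᵀ) (J (0, 0)) (J (0, 1)))) ∈ C 1 := by
    intro lam
    let e : Fin 2 ≃ Fin 1 × Fin 2 := (Equiv.uniqueProd (Fin 2) (Fin 1)).symm
    have h1 := comp_memC hf.one' hC.perm (ri_mem (S := S) (b := b) e hP3) lam
    convert h1 using 2
    funext J
    congr 1
    rw [kr_ri]
    change _ = (kr (Fin 2) S' *ᵥ fun J => (Jm inv jj * Pᵀ) (J 0) (J 1)) fun k => J (e k)
    rw [kr_two]
    have h2 : S' * (Jm inv jj * Pᵀ) * S'ᵀ = Om b ω₀ * Qmᵀ := by
      rw [← hf.form]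
      calc S' * (S * Om b ω₀ * Sᵀ * Pᵀ) * S'ᵀ = (S' * S) * Om b ω₀ * (Sᵀ * Pᵀ * S'ᵀ) := by
            simp only [mul_assoc]
        _ = _ := by
            rw [hf.one', one_mul, Matrix.transpose_mul, Matrix.transpose_mul]
            simp only [mul_assoc]
    rw [h2]
    rfl
  -- the retraction
  let _ : Algebra ℚ_[ℓ] ℂ := τ.toAlgebra
  obtain ⟨L, hL⟩ := LinearMap.exists_leftInverse_of_injective (Algebra.linearMap ℚ_[ℓ] ℂ)
    (LinearMap.ker_eq_bot.2 τ.injective)
  have hL1 : ∀ x : ℚ_[ℓ], L (τ x) = x := fun x => LinearMap.congr_fun hL x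
  have hL2 : ∀ (x : ℚ_[ℓ]) (z : ℂ), L (τ x * z) = x * L z := fun x z => L.map_smul x z
  have hL3 : ∀ (x : ℚ) (z : ℂ), L ((x : ℂ) * z) = (x : ℚ_[ℓ]) * L z := fun x z => by
    rw [← hL2, map_ratCast]
  let L' : ℂ →ₗ[ℚ] ℚ_[ℓ] :=
    { toFun := L
      map_add' := fun x y => map_add L x y
      map_smul' := fun x z => by
        rw [RingHom.id_apply, Rat.smul_def, hL3, Rat.smul_def] }
  have hL' : ∀ z, L' z = L z := fun z => rfl
  let q : Module.End ℚ_[ℓ] (ℚ_[ℓ] ⊗[ℚ] W) := bK.constr ℚ_[ℓ] fun j => ∑ k, L (Qm j k) • bK k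
  have hq : ∀ j, q (bK j) = ∑ k, L (Qm j k) • bK k := fun j => bK.constr_basis _ _ _
  refine ⟨q, ?_, ?_, ?_⟩
  · intro i x
    have h1 : (f i).comp q = f i := by
      refine bK.ext fun j => ?_
      rw [LinearMap.comp_apply, hq, map_sum]
      have h2 : ∀ k, f i (L (Qm j k) • bK k) = L (Qm j k * a i k) := by
        intro k
        rw [map_smul, smul_eq_mul, mul_comm, ← hL2, mul_comm, hbK]
      simp only [h2]
      rw [← map_sum]
      have h3 : ∑ k, Qm j k * a i k = (Qm *ᵥ a i) j := rfl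
      have h4 : Qm *ᵥ a i = a i := by
        change (S' * P * S) *ᵥ a i = a i
        rw [← Matrix.mulVec_mulVec, ← Matrix.mulVec_mulVec]
        change S' *ᵥ (P *ᵥ F i) = a i
        rw [hP1]
        change S' *ᵥ (S *ᵥ a i) = a i
        rw [Matrix.mulVec_mulVec, hf.one', Matrix.one_mulVec]
      rw [h3, h4]
      change L (τ (f i ((1 : ℚ_[ℓ]) ⊗ₜ[ℚ] b j))) = _
      rw [hL1, hbK]
    exact LinearMap.congr_fun h1 x
  · intro x hx
    have hZ : ∀ z, (P *ᵥ z) ⬝ᵥ (S'ᵀ *ᵥ co x) = 0 := by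
      have key : ∀ y ∈ Submodule.span ℂ (Set.range F), y ⬝ᵥ (S'ᵀ *ᵥ co x) = 0 := by
        intro y h1
        induction h1 using Submodule.span_induction with
        | mem y h =>
          obtain ⟨i, rfl⟩ := h
          rw [hFdot, hx, map_zero]
        | zero => exact zero_dotProduct _
        | add y y' _ _ h h' => rw [add_dotProduct, h, h', add_zero]
        | smul c y _ h => rw [smul_dotProduct, h, smul_zero]
      exact fun z => key _ (hP2 z)
    have h2 : co x ᵥ* Qm = 0 := by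
      refine dotProduct_eq _ _ fun z => ?_
      rw [zero_dotProduct, ← Matrix.dotProduct_mulVec]
      change co x ⬝ᵥ ((S' * P * S) *ᵥ z) = 0
      rw [← Matrix.mulVec_mulVec, ← Matrix.mulVec_mulVec, Matrix.dotProduct_mulVec,
        ← Matrix.mulVec_transpose, dotProduct_comm]
      exact hZ _
    have h3 : q x = ∑ k, L ((co x ᵥ* Qm) k) • bK k := by
      conv_lhs => rw [← bK.sum_repr x]
      rw [map_sum]
      have h4 : ∀ j, q (bK.repr x j • bK j) = ∑ k, L (co x j * Qm j k) • bK k := by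
        intro j
        rw [map_smul, hq, Finset.smul_sum]
        refine Finset.sum_congr rfl fun k _ => ?_
        rw [smul_smul, hL2]
      simp only [h4]
      rw [Finset.sum_comm]
      refine Finset.sum_congr rfl fun k _ => ?_
      rw [← Finset.sum_smul, ← map_sum]
      rfl
    rw [h3, h2]
    refine Finset.sum_eq_zero fun k _ => ?_
    rw [Pi.zero_apply, map_zero, zero_smul]
  · intro μ
    have h1 := hcomp (μ ∘ₗ L')
    convert h1 using 1
    refine Basis.ext_multilinear (fun _ => b) fun J => ?_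
    rw [mkc_apply, DR.fcmp_apply, b2K_apply, LinearMap.comp_apply, LinearMap.compl₂_apply]
    congr 1
    rw [← hbK (J (0, 1)), hq, map_sum, hL', Matrix.mul_apply, map_sum]
    refine Finset.sum_congr rfl fun k _ => ?_
    rw [map_smul, smul_eq_mul, hbK, hωω, Matrix.transpose_apply]
    change _ = L (((ω₀ (b (J (0, 0))) (b k) : ℚ) : ℂ) * Qm (J (0, 1)) k)
    rw [hL3, mul_comm]

end frame

end

end Pool.Agent.X259.U
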