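import Pool.Agent.X259.U.U44
import Pool.Agent.X259.U.U28

/-!
# Semisimplicity
-/

set_option autoImplicit false
set_option linter.unusedSectionVars false
set_option linter.unusedDecidableInType false
set_option linter.unusedFintypeInType false

namespace Pool.Agent.X259.U

open Matrix Finset Module TensorProduct Pool.Agent.H204R3.SP Pool.Agent.H204R3.GP
  Pool.Agent.W516 Pool.Agent.X259.T

noncomputable section

section maschke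

variable {K M Γ : Type} [Field K] [CharZero K] [AddCommGroup M] [Module K M] [Group Γ]

/-- Maschke's theorem for subgroups of finite index. -/
lemma exists_compl_of_proj (ρ : Representation K Γ M) (N : Submodule K M)
    (hN : ∀ s, ∀ x ∈ N, ρ s x ∈ N) (q : Module.End K M) (h1 : ∀ x, x - q x ∈ N)
    (h2 : ∀ x ∈ N, q x = 0) (Δ : Subgroup Γ) [hfin : Δ.FiniteIndex]
    (hΔ : ∀ s ∈ Δ, ∀ x, q (ρ s x) = ρ s (q x)) :
    ∃ N' : Submodule K M, (∀ s, ∀ x ∈ N', ρ s x ∈ N') ∧ IsCompl N N' := by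
  classical
  have : Fintype (Γ ⧸ Δ) := Fintype.ofFinite _
  have hinv : ∀ s x, ρ s (ρ s⁻¹ x) = x := fun s x => by
    rw [← Module.End.mul_apply, ← map_mul, mul_inv_cancel, map_one, Module.End.one_apply]
  have hinv' : ∀ s x, ρ s⁻¹ (ρ s x) = x := fun s x => by
    rw [← Module.End.mul_apply, ← map_mul, inv_mul_cancel, map_one, Module.End.one_apply]
  let c₀ : Γ → Module.End K M := fun g => ρ g * q * ρ g⁻¹
  have hc₀ : ∀ g x, c₀ g x = ρ g (q (ρ g⁻¹ x)) := fun g x => rfl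
  let c : Γ ⧸ Δ → Module.End K M := fun a => Quotient.liftOn' a c₀ (by
    intro g g' h
    rw [QuotientGroup.leftRel_apply] at h
    refine LinearMap.ext fun x => ?_
    rw [hc₀, hc₀]
    have h3 : ρ g⁻¹ x = ρ (g⁻¹ * g') (ρ g'⁻¹ x) := by
      rw [← Module.End.mul_apply, ← map_mul, mul_assoc, mul_inv_cancel, mul_one]
    rw [h3, hΔ _ h, ← Module.End.mul_apply, ← map_mul, mul_inv_cancel_left])
  have hc : ∀ g : Γ, c (g : Γ ⧸ Δ) = c₀ g := fun g => rfl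
  have hcs : ∀ (s : Γ) (a : Γ ⧸ Δ) (x : M), ρ s (c a x) = c (s • a) (ρ s x) := by
    intro s a x
    induction a using QuotientGroup.induction_on with
    | H g =>
      have h3 : s • (g : Γ ⧸ Δ) = ((s * g : Γ) : Γ ⧸ Δ) := rfl
      rw [h3, hc, hc, hc₀, hc₀, map_mul, _root_.mul_inv_rev, map_mul, Module.End.mul_apply,
        Module.End.mul_apply, hinv']
  set n : ℕ := Fintype.card (Γ ⧸ Δ) with hn
  have hn0 : (n : K) ≠ 0 := by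
    have : 0 < n := Fintype.card_pos
    exact_mod_cast this.ne'
  let q₀ : Module.End K M := (n : K)⁻¹ • ∑ a, c a
  have hq₀ : ∀ x, q₀ x = (n : K)⁻¹ • ∑ a, c a x := fun x => by
    change ((n : K)⁻¹ • ∑ a, c a) x = _
    rw [LinearMap.smul_apply, LinearMap.sum_apply]
  have hcN : ∀ a x, x - c a x ∈ N := by
    intro a x
    induction a using QuotientGroup.induction_on with
    | H g =>
      rw [hc, hc₀]
      have h3 := hN g _ (h1 (ρ g⁻¹ x))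
      rwa [map_sub, hinv] at h3
  have hc0 : ∀ a, ∀ x ∈ N, c a x = 0 := by
    intro a x hx
    induction a using QuotientGroup.induction_on with
    | H g => rw [hc, hc₀, h2 _ (hN _ x hx), map_zero]
  have hqN : ∀ x, x - q₀ x ∈ N := by
    intro x
    have h3 : x - q₀ x = (n : K)⁻¹ • ∑ a, (x - c a x) := by
      rw [Finset.sum_sub_distrib, smul_sub, hq₀, Finset.sum_const, Finset.card_univ, ← hn,
        ← Nat.cast_smul_eq_nsmul K, smul_smul, inv_mul_cancel₀ hn0, one_smul]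
    rw [h3]
    exact N.smul_mem _ (N.sum_mem fun a _ => hcN a x)
  have hq0 : ∀ x ∈ N, q₀ x = 0 := by
    intro x hx
    rw [hq₀, Finset.sum_eq_zero fun a _ => hc0 a x hx, smul_zero]
  refine ⟨LinearMap.range q₀, ?_, ?_⟩
  · rintro s _ ⟨y, rfl⟩
    refine ⟨ρ s y, ?_⟩
    rw [hq₀, hq₀, map_smul, map_sum]
    congr 1
    rw [← Equiv.sum_comp (MulAction.toPerm s) fun a => c a (ρ s y)]
    exact Finset.sum_congr rfl fun a _ => (hcs s a y).symm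
  · constructor
    · rw [Submodule.disjoint_def]
      rintro x hx ⟨y, rfl⟩
      have h3 := hq0 _ (hqN y)
      rw [map_sub, hq0 _ hx, sub_zero] at h3
      exact h3
    · rw [codisjoint_iff, eq_top_iff]
      intro x _
      have h3 : x = (x - q₀ x) + q₀ x := by abel
      rw [h3]
      exact Submodule.add_mem_sup (hqN x) ⟨x, rfl⟩

end maschke

section nondegenerate

variable {K M : Type} [Field K] [AddCommGroup M] [Module K M] [FiniteDimensional K M]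
  {ω : M →ₗ[K] M →ₗ[K] K}

/-- Covectors given by the orthogonal of a subspace. -/
lemma exists_covectors (hω : Function.Bijective ω) (N : Submodule K M) :
    ∃ (U : Submodule K M) (w : Fin (finrank K U) → M),
      (∀ u, u ∈ U ↔ ∀ x ∈ N, ω u x = 0) ∧
      (∀ i j, ω (Module.finBasis K U i : M) (w j) = if i = j then 1 else 0) ∧
      ∀ x, (∀ i, ω (Module.finBasis K U i : M) x = 0) → x ∈ N := by
  classical
  let U : Submodule K M :=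
    { carrier := {u | ∀ x ∈ N, ω u x = 0}
      add_mem' := fun {a c} ha hc x hx => by
        rw [map_add, LinearMap.add_apply, ha x hx, hc x hx, add_zero]
      zero_mem' := fun x _ => by rw [map_zero, LinearMap.zero_apply]
      smul_mem' := fun c a ha x hx => by
        rw [map_smul, LinearMap.smul_apply, ha x hx, smul_zero] }
  have hU : ∀ u, u ∈ U ↔ ∀ x ∈ N, ω u x = 0 := fun u => Iff.rfl
  let u : Fin (finrank K U) → M := fun i => (Module.finBasis K U i : M)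
  let Φ : M →ₗ[K] (Fin (finrank K U) → K) := LinearMap.pi fun i => ω (u i)
  have hΦ : LinearMap.range Φ = ⊤ := by
    by_contra h
    obtain ⟨g, hg, hle⟩ := Submodule.exists_le_ker_of_lt_top _ (lt_top_iff_ne_top.2 h)
    apply hg
    have h1 : ∑ i, g (Pi.single i 1) • (Module.finBasis K U i) = 0 := by
      apply Subtype.ext
      rw [Submodule.coe_sum, Submodule.coe_zero]
      apply hω.1
      refine LinearMap.ext fun x => ?_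
      rw [map_zero, LinearMap.zero_apply, map_sum, LinearMap.sum_apply]
      have h2 : g (Φ x) = 0 := hle ⟨x, rfl⟩
      rw [LinearMap.pi_apply_eq_sum_univ g (Φ x)] at h2
      rw [← h2]
      refine Finset.sum_congr rfl fun i _ => ?_
      rw [Submodule.coe_smul, map_smul, LinearMap.smul_apply, smul_eq_mul, smul_eq_mul, mul_comm]
      congr 2
      funext j
      rw [Pi.single_apply]
      simp [eq_comm]
    have h2 := Fintype.linearIndependent_iff.1 (Module.finBasis K U).linearIndependent _ h1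
    refine LinearMap.pi_ext' fun i => LinearMap.ext_ring ?_
    rw [LinearMap.comp_apply, LinearMap.zero_comp, LinearMap.zero_apply]
    exact h2 i
  have hw : ∀ j : Fin (finrank K U), ∃ w : M, ∀ i, ω (u i) w = if i = j then 1 else 0 := by
    intro j
    obtain ⟨w, hw⟩ := LinearMap.range_eq_top.1 hΦ (Pi.single j 1)
    refine ⟨w, fun i => ?_⟩
    have h1 := congrFun hw i
    rw [Pi.single_apply] at h1
    exact h1
  choose w hw using hw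
  refine ⟨U, w, hU, fun i j => hw j i, fun x hx => ?_⟩
  by_contra hxN
  obtain ⟨g, hgx, hgN⟩ := Submodule.exists_le_ker_of_notMem hxN
  obtain ⟨z, hz⟩ := hω.2 g
  have hzU : z ∈ U := by
    rw [hU]
    intro y hy
    rw [hz]
    exact hgN hy
  apply hgx
  rw [← hz]
  have h1 := congrArg Subtype.val ((Module.finBasis K U).sum_repr ⟨z, hzU⟩)
  rw [Submodule.coe_sum] at h1
  change _ = z at h1
  rw [← h1, map_sum, LinearMap.sum_apply]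
  refine Finset.sum_eq_zero fun i _ => ?_
  rw [Submodule.coe_smul, map_smul, LinearMap.smul_apply, hx i, smul_zero]

end nondegenerate

section tate

variable {ℓ : ℕ} [Fact ℓ.Prime] {V : Type} [AddCommGroup V] [Module ℚ V] {Γ : Type} [Group Γ]
  {ρ : Representation ℚ_[ℓ] Γ (ℚ_[ℓ] ⊗[ℚ] V)} {χ : Γ →* ℚ_[ℓ]}
  {ω : ℚ_[ℓ] ⊗[ℚ] V →ₗ[ℚ_[ℓ]] ℚ_[ℓ] ⊗[ℚ] V →ₗ[ℚ_[ℓ]] ℚ_[ℓ]} {Q : V →ₗ[ℚ] V →ₗ[ℚ] ℚ}
  {ι : Type} [Fintype ι] [DecidableEq ι] {γ γ' : ι → V}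

/-- The extended form is nondegenerate. -/
lemma om_bij [FiniteDimensional ℚ V] (hγ : ∀ v : V, v = ∑ i, Q v (γ' i) • γ i)
    (hωω : ∀ u v : V, ω ((1 : ℚ_[ℓ]) ⊗ₜ[ℚ] u) ((1 : ℚ_[ℓ]) ⊗ₜ[ℚ] v) = ((Q u v : ℚ) : ℚ_[ℓ])) :
    Function.Bijective ω := by
  have hPK : ∀ x y : V, ω (1 ⊗ₜ x) (1 ⊗ₜ y) = algebraMap ℚ ℚ_[ℓ] (Q x y) := fun x y => by
    rw [hωω, eq_ratCast]
  have h1 := dual_ext' hPK hγ
  have hinj : Function.Injective ω := by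
    rw [← LinearMap.ker_eq_bot, LinearMap.ker_eq_bot']
    intro z hz
    rw [h1 z]
    refine Finset.sum_eq_zero fun i _ => ?_
    rw [hz, LinearMap.zero_apply, zero_smul]
  exact ⟨hinj, (LinearMap.injective_iff_surjective_of_finrank_eq_finrank
    (Subspace.dual_finrank_eq (K := ℚ_[ℓ]) (V := ℚ_[ℓ] ⊗[ℚ] V)).symm).1 hinj⟩

/-- A form whose components are in the family is a Tate class. -/
lemma tate_of_comp [FiniteDimensional ℚ V] {C : ∀ m : ℕ, Submodule ℚ (RF V m)}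
    (hT : ∀ m, ∀ ψ ∈ C m, ∀ φ : TF ℓ V m,
      (∀ v : Fin m × Fin 2 → V, φ (fun l => (1 : ℚ_[ℓ]) ⊗ₜ[ℚ] v l) = ((ψ v : ℚ) : ℚ_[ℓ])) →
      IsTateTensor ρ χ m φ) {m : ℕ} {φ : TF ℓ V m}
    (hφ : ∀ lam : ℚ_[ℓ] →ₗ[ℚ] ℚ, DR.fcmp lam φ ∈ C m) : IsTateTensor ρ χ m φ := by
  have h1 := Pool.Agent.X259.Q.mem_of_fcmp (C m) hφ
  clear hφ
  induction h1 using Submodule.span_induction with
  | mem φ h =>
    obtain ⟨ψ, hψ, h⟩ := h
    exact hT m ψ hψ φ h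
  | zero => exact ⟨⊤, inferInstance, fun s _ v => by simp⟩
  | add a c _ _ ha hc =>
    obtain ⟨Δ, hΔ, h⟩ := ha
    obtain ⟨Δ', hΔ', h'⟩ := hc
    refine ⟨Δ ⊓ Δ', inferInstance, fun s hs v => ?_⟩
    rw [_root_.add_apply, _root_.add_apply, h s hs.1, h' s hs.2, mul_add]
  | smul c a _ ha =>
    obtain ⟨Δ, hΔ, h⟩ := ha
    refine ⟨Δ, hΔ, fun s hs v => ?_⟩
    rw [_root_.smul_apply, _root_.smul_apply, h s hs, smul_eq_mul, smul_eq_mul, mul_left_comm]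

/-- The squared volume form is a Tate class. -/
lemma tate_det [FiniteDimensional ℚ V]
    (hωρ : ∀ s u v, ω (ρ s u) (ρ s v) = χ s * ω u v)
    (U : Submodule ℚ_[ℓ] (ℚ_[ℓ] ⊗[ℚ] V)) (hU : ∀ s, ∀ x ∈ U, ρ s x ∈ U) {d : ℕ}
    (u : Basis (Fin d) ℚ_[ℓ] U) {Δ : Subgroup Γ}
    (hΔ : Δ.FiniteIndex) (h : ∀ s ∈ Δ, LinearMap.det ((ρ s).restrict (hU s)) ^ 2 = χ s ^ d) :
    IsTateTensor ρ χ d (sq2 (detM fun i => ω (u i : ℚ_[ℓ] ⊗[ℚ] V))) := by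
  refine ⟨Δ, hΔ, fun s hs v => ?_⟩
  let r : Module.End ℚ_[ℓ] U := (ρ s⁻¹).restrict (hU s⁻¹)
  let A : Matrix (Fin d) (Fin d) ℚ_[ℓ] := LinearMap.toMatrix u u r
  have hdet : A.det ^ 2 = χ s⁻¹ ^ d := by
    have h1 := h s⁻¹ (Δ.inv_mem hs)
    rw [← h1]
    congr 1
    exact LinearMap.det_toMatrix u r
  have hinv : ∀ x, ρ s (ρ s⁻¹ x) = x := fun x => by
    rw [← Module.End.mul_apply, ← map_mul, mul_inv_cancel, map_one, Module.End.one_apply]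
  have hχ : χ s * χ s⁻¹ = 1 := by rw [← map_mul, mul_inv_cancel, map_one]
  have hf : ∀ i x, ω (u i : ℚ_[ℓ] ⊗[ℚ] V) (ρ s x) = ∑ k, (χ s * A k i) *
      ω (u k : ℚ_[ℓ] ⊗[ℚ] V) x := by
    intro i x
    have h1 : ω (u i : ℚ_[ℓ] ⊗[ℚ] V) (ρ s x) = χ s * ω (ρ s⁻¹ (u i : ℚ_[ℓ] ⊗[ℚ] V)) x := by
      rw [← hωρ, hinv]
    have h2 : ρ s⁻¹ (u i : ℚ_[ℓ] ⊗[ℚ] V) = ∑ k, A k i • (u k : ℚ_[ℓ] ⊗[ℚ] V) := by
      have h3 := congrArg Subtype.val (u.sum_repr (r (u i)))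
      rw [Submodule.coe_sum] at h3
      have h4 : ((r (u i) : U) : ℚ_[ℓ] ⊗[ℚ] V) = ρ s⁻¹ (u i : ℚ_[ℓ] ⊗[ℚ] V) := rfl
      rw [← h4, ← h3]
      refine Finset.sum_congr rfl fun k _ => ?_
      have h5 : A k i = u.repr (r (u i)) k := LinearMap.toMatrix_apply u u r k i
      rw [Submodule.coe_smul, h5]
    rw [h1, h2, map_sum, LinearMap.sum_apply, Finset.mul_sum]
    refine Finset.sum_congr rfl fun k _ => ?_
    rw [map_smul, LinearMap.smul_apply, smul_eq_mul, mul_assoc]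
  have hD : ∀ y : Fin d → ℚ_[ℓ] ⊗[ℚ] V, detM (fun i => ω (u i : ℚ_[ℓ] ⊗[ℚ] V))
      (fun j => ρ s (y j)) = (χ s ^ d * A.det) * detM (fun i => ω (u i : ℚ_[ℓ] ⊗[ℚ] V)) y := by
    intro y
    rw [detM_apply, detM_apply]
    have h1 : (Matrix.of fun i j => ω (u i : ℚ_[ℓ] ⊗[ℚ] V) (ρ s (y j))) =
        χ s • (Aᵀ * Matrix.of fun i j => ω (u i : ℚ_[ℓ] ⊗[ℚ] V) (y j)) := by
      ext i j
      rw [Matrix.of_apply, hf, Matrix.smul_apply, Matrix.mul_apply, smul_eq_mul, Finset.mul_sum]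
      refine Finset.sum_congr rfl fun k _ => ?_
      rw [Matrix.transpose_apply, Matrix.of_apply, mul_assoc]
    rw [h1, Matrix.det_smul, Matrix.det_mul, Matrix.det_transpose, Fintype.card_fin, mul_assoc]
  rw [sq2_apply, sq2_apply, hD, hD]
  have h2 : χ s ^ d * A.det * (χ s ^ d * A.det) = χ s ^ d := by
    calc _ = χ s ^ d * (χ s ^ d * A.det ^ 2) := by ring
      _ = χ s ^ d * (χ s * χ s⁻¹) ^ d := by rw [hdet, mul_pow]
      _ = _ := by rw [hχ, one_pow, mul_one]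
  rw [mul_mul_mul_comm, h2]

end tate

section final

variable {ℓ : ℕ} [Fact ℓ.Prime] {V : Type} [AddCommGroup V] [Module ℚ V] {n : ℕ}
  {e : Basis (Fin n) ℚ V} {Q : V →ₗ[ℚ] V →ₗ[ℚ] ℚ} {ε : Module.End ℚ V}
  {P P' : Matrix (Fin n) (Fin n) ℂ} {k : Fin n → ℤ} (hd : HD e Q ε P P' k)
  {ι : Type} [Fintype ι] [DecidableEq ι] {γ γ' : ι → V}
  (hγ : ∀ v : V, v = ∑ i, Q v (γ' i) • γ i)
  {Γ : Type} [Group Γ] {ρ : Representation ℚ_[ℓ] Γ (ℚ_[ℓ] ⊗[ℚ] V)} {χ : Γ →* ℚ_[ℓ]}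
  {ω : ℚ_[ℓ] ⊗[ℚ] V →ₗ[ℚ_[ℓ]] ℚ_[ℓ] ⊗[ℚ] V →ₗ[ℚ_[ℓ]] ℚ_[ℓ]}

include hd hγ in
/-- Projectors given by classes. -/
theorem proj_hd
    (hωω : ∀ u v : V, ω ((1 : ℚ_[ℓ]) ⊗ₜ[ℚ] u) ((1 : ℚ_[ℓ]) ⊗ₜ[ℚ] v) = ((Q u v : ℚ) : ℚ_[ℓ]))
    {C : ∀ m : ℕ, Submodule ℚ (RF V m)} (hC : Closed Q γ γ' C)
    (hCB : ∀ m, C m ≤ Ann e (wt P P' k) m)
    {d : ℕ} {f : Fin d → ℚ_[ℓ] ⊗[ℚ] V →ₗ[ℚ_[ℓ]] ℚ_[ℓ]} {w : Fin d → ℚ_[ℓ] ⊗[ℚ] V}
    (hfw : ∀ i j, f i (w j) = if i = j then 1 else 0)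
    (hφ : ∀ lam : ℚ_[ℓ] →ₗ[ℚ] ℚ, DR.fcmp lam (sq2 (detM f)) ∈ C d) :
    ∃ q : Module.End ℚ_[ℓ] (ℚ_[ℓ] ⊗[ℚ] V), (∀ i x, f i (q x) = f i x) ∧
      (∀ x, (∀ i, f i x = 0) → q x = 0) ∧
      ∀ μ : ℚ_[ℓ] →ₗ[ℚ] ℚ, DR.fcmp μ (b2K (ω.comp q).flip) ∈ C 1 := by
  obtain ⟨S, S', hf⟩ := exists_frame_hd hd
  have hfd : FiniteDimensional ℚ V := Module.Finite.of_basis e
  have hβ := dual_dbl hγ hd.nd
  have hC2 := lift_closed hC
  have hsC := star_lift hd hγ hC hCB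
  obtain ⟨q', h1, h2, h3⟩ := proj_frame hf (fun _ _ => rfl) hβ (om2_one hωω) hC2 hsC
    (f := fun i => (f i).comp (pA ℓ V false)) (w := fun j => iA ℓ V false (w j))
    (fun i j => by rw [LinearMap.comp_apply, pA_iA, hfw]) (fun lam => by
      have h4 : DR.fcmp lam (sq2 (detM fun i => (f i).comp (pA ℓ V false))) =
          (DR.fcmp lam (sq2 (detM f))).compLinearMap (fun _ => LinearMap.fst ℚ V V) := by
        ext v
        rw [MultilinearMap.compLinearMap_apply, DR.fcmp_apply, DR.fcmp_apply, sq2_apply,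
          sq2_apply, detM_apply, detM_apply, detM_apply, detM_apply]
        rfl
      rw [h4]
      exact lift_fst (hφ lam))
  refine ⟨(pA ℓ V false).comp (q'.comp (iA ℓ V false)), ?_, ?_, ?_⟩
  · intro i x
    have h4 := h1 i (iA ℓ V false x)
    rw [LinearMap.comp_apply, LinearMap.comp_apply, pA_iA] at h4
    exact h4
  · intro x hx
    have h4 := h2 (iA ℓ V false x) fun i => by rw [LinearMap.comp_apply, pA_iA, hx]
    rw [LinearMap.comp_apply, LinearMap.comp_apply, h4, map_zero]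
  · intro μ
    have h4 := h3 μ fun p => bif p.2 = 0 then true else false
    have h5 : DR.fcmp μ (b2K (ω.comp ((pA ℓ V false).comp (q'.comp (iA ℓ V false)))).flip) =
        -cpt (DR.fcmp μ (b2K ((om2 ω).compl₂ q'))) fun p => bif p.2 = 0 then true else false := by
      ext v
      rw [_root_.neg_apply, cpt_apply, DR.fcmp_apply, DR.fcmp_apply, b2K_apply, b2K_apply,
        LinearMap.compl₂_apply, om2_apply]
      have h6 : pA ℓ V false ((1 : ℚ_[ℓ]) ⊗ₜ[ℚ] inj (bif ((0, 0) : Fin 1 × Fin 2).2 = 0 then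
          true else false) (v (0, 0))) = 0 := by
        change pA ℓ V false (iA ℓ V true ((1 : ℚ_[ℓ]) ⊗ₜ[ℚ] v (0, 0))) = 0
        exact pA_iA_ne (by decide) _
      have h7 : pA ℓ V true ((1 : ℚ_[ℓ]) ⊗ₜ[ℚ] inj (bif ((0, 0) : Fin 1 × Fin 2).2 = 0 then
          true else false) (v (0, 0))) = (1 : ℚ_[ℓ]) ⊗ₜ[ℚ] v (0, 0) := by
        change pA ℓ V true (iA ℓ V true ((1 : ℚ_[ℓ]) ⊗ₜ[ℚ] v (0, 0))) = _
        exact pA_iA _ _
      rw [h6, h7, map_zero, LinearMap.zero_apply, zero_sub, map_neg, neg_neg]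
      rfl
    rw [h5]
    exact Submodule.neg_mem _ h4

include hd hγ in
/-- **More than half of the Tate classes: semisimplicity**, in coordinates. -/
theorem semisimple_hd (hn : 1 ≤ n)
    (hωω : ∀ u v : V, ω ((1 : ℚ_[ℓ]) ⊗ₜ[ℚ] u) ((1 : ℚ_[ℓ]) ⊗ₜ[ℚ] v) = ((Q u v : ℚ) : ℚ_[ℓ]))
    (hωρ : ∀ s u v, ω (ρ s u) (ρ s v) = χ s * ω u v)
    {C : ∀ m : ℕ, Submodule ℚ (RF V m)} (hC : Closed Q γ γ' C)
    (hCB : ∀ m, C m ≤ Ann e (wt P P' k) m)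
    (hT : ∀ m, ∀ ψ ∈ C m, ∀ φ : TF ℓ V m,
      (∀ v : Fin m × Fin 2 → V, φ (fun l => (1 : ℚ_[ℓ]) ⊗ₜ[ℚ] v l) = ((ψ v : ℚ) : ℚ_[ℓ])) →
      IsTateTensor ρ χ m φ)
    (hdet : ∀ (U : Submodule ℚ_[ℓ] (ℚ_[ℓ] ⊗[ℚ] V)) (hU : ∀ s, ∀ x ∈ U, ρ s x ∈ U),
      ∃ Δ : Subgroup Γ, Δ.FiniteIndex ∧ ∀ s ∈ Δ,
        LinearMap.det ((ρ s).restrict (hU s)) ^ 2 = χ s ^ finrank ℚ_[ℓ] U)
    {c m : ℕ} (hc : 1 ≤ c)
    (hm : 256 * c * n ^ 5 * (Nat.log 2 (4 * n ^ 2 * c) + 1) ≤ m)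
    {TT : Submodule ℚ_[ℓ] (TF ℓ V m)} (hTT : ∀ φ, IsTateTensor ρ χ m φ → φ ∈ TT)
    (hratio : c * finrank ℚ_[ℓ] TT ≤ (2 * c - 1) * finrank ℚ (C m))
    (N : Submodule ℚ_[ℓ] (ℚ_[ℓ] ⊗[ℚ] V)) (hN : ∀ s, ∀ x ∈ N, ρ s x ∈ N) :
    ∃ N' : Submodule ℚ_[ℓ] (ℚ_[ℓ] ⊗[ℚ] V), (∀ s, ∀ x ∈ N', ρ s x ∈ N') ∧ IsCompl N N' := by
  have hfd : FiniteDimensional ℚ V := Module.Finite.of_basis e
  have hbij := om_bij (ω := ω) hγ hωω
  have hinv : ∀ s x, ρ s (ρ s⁻¹ x) = x := fun s x => by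
    rw [← Module.End.mul_apply, ← map_mul, mul_inv_cancel, map_one, Module.End.one_apply]
  have hinv' : ∀ s x, ρ s⁻¹ (ρ s x) = x := fun s x => by
    rw [← Module.End.mul_apply, ← map_mul, inv_mul_cancel, map_one, Module.End.one_apply]
  obtain ⟨U, w, hU, hw, hN'⟩ := exists_covectors hbij N
  have hUs : ∀ s, ∀ x ∈ U, ρ s x ∈ U := by
    intro s x hx
    rw [hU] at hx ⊢
    intro y hy
    have h1 := hωρ s x (ρ s⁻¹ y)
    rw [hinv] at h1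
    rw [h1, hx _ (hN _ _ hy), mul_zero]
  obtain ⟨Δ, hΔ, hdt⟩ := hdet U hUs
  have hφ := tate_det hωρ U hUs (Module.finBasis ℚ_[ℓ] U) hΔ hdt
  have hdim : finrank ℚ_[ℓ] (ℚ_[ℓ] ⊗[ℚ] V) = n := by
    rw [Module.finrank_baseChange, finrank_eq_card_basis e, Fintype.card_fin]
  have hr : finrank ℚ_[ℓ] U ≤ n := hdim ▸ Submodule.finrank_le U
  obtain ⟨q, h1, h2, h3⟩ := proj_hd hd hγ hωω hC hCB hw fun lam =>
    tate_low_hd hd hγ hn hωω hωρ hC hCB hT (r := n) (c := c) (m := m) hn hc (by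
      have h1 : 4 * n * c * n = 4 * n ^ 2 * c := by ring
      rw [h1]
      convert hm using 1
      ring) hTT hratio hr _ hφ lam
  obtain ⟨Δ', hΔ', hq⟩ := tate_of_comp hT h3
  refine exists_compl_of_proj ρ N hN q (fun x => hN' _ fun i => ?_) (fun x hx => h2 x fun i => ?_)
    Δ' (hfin := hΔ') fun s hs x => ?_
  · rw [map_sub, sub_eq_zero]
    exact (h1 i x).symm
  · exact (hU _).1 (Module.finBasis ℚ_[ℓ] U i).2 x hx
  · apply hbij.1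
    refine LinearMap.ext fun y => ?_
    have h4 := hq s hs fun p => if p.2 = 0 then ρ s⁻¹ y else x
    rw [b2K_apply, b2K_apply] at h4
    change ω (q (ρ s x)) (ρ s (ρ s⁻¹ y)) = χ s ^ 1 * ω (q x) (ρ s⁻¹ y) at h4
    rw [hinv, pow_one, ← hωρ, hinv] at h4
    exact h4

end final

section hodge

variable {ℓ : ℕ} [Fact ℓ.Prime] {V : Type} [AddCommGroup V] [Module ℚ V] [FiniteDimensional ℚ V]
  {H : ℤ → ℤ → Submodule ℂ (ℂ ⊗[ℚ] V)} {ε : Module.End ℚ V} {Q : LinearMap.BilinForm ℚ V}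
  {Γ : Type} [Group Γ] {ρ : Representation ℚ_[ℓ] Γ (ℚ_[ℓ] ⊗[ℚ] V)} {χ : Γ →* ℚ_[ℓ]}
  {ω : ℚ_[ℓ] ⊗[ℚ] V →ₗ[ℚ_[ℓ]] ℚ_[ℓ] ⊗[ℚ] V →ₗ[ℚ_[ℓ]] ℚ_[ℓ]}

/-- **More than half of the Tate classes: semisimplicity.** -/
theorem semisimple_hs (hH : HS.IsHodgeStructure H ε) (hQ : HS.IsPolarization H ε Q)
    (hn : 1 ≤ finrank ℚ V)
    (hωω : ∀ u v : V, ω ((1 : ℚ_[ℓ]) ⊗ₜ[ℚ] u) ((1 : ℚ_[ℓ]) ⊗ₜ[ℚ] v) = ((Q u v : ℚ) : ℚ_[ℓ]))
    (hωρ : ∀ s u v, ω (ρ s u) (ρ s v) = χ s * ω u v)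
    {ι : Type} [Fintype ι] [DecidableEq ι] {γ γ' : ι → V}
    (hγ : ∀ v : V, v = ∑ i, Q v (γ' i) • γ i)
    {C : ∀ m : ℕ, Submodule ℚ (RF V m)} (hC : Closed Q γ γ' C)
    (hCH : ∀ (m : ℕ), ∀ ψ ∈ C m, HS.IsHodgeForm H ψ)
    (hT : ∀ m, ∀ ψ ∈ C m, ∀ φ : TF ℓ V m,
      (∀ v : Fin m × Fin 2 → V, φ (fun l => (1 : ℚ_[ℓ]) ⊗ₜ[ℚ] v l) = ((ψ v : ℚ) : ℚ_[ℓ])) →
      IsTateTensor ρ χ m φ)
    (hdet : ∀ (U : Submodule ℚ_[ℓ] (ℚ_[ℓ] ⊗[ℚ] V)) (hU : ∀ s, ∀ x ∈ U, ρ s x ∈ U),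
      ∃ Δ : Subgroup Γ, Δ.FiniteIndex ∧ ∀ s ∈ Δ,
        LinearMap.det ((ρ s).restrict (hU s)) ^ 2 = χ s ^ finrank ℚ_[ℓ] U)
    {c m : ℕ} (hc : 1 ≤ c)
    (hm : 256 * c * finrank ℚ V ^ 5 * (Nat.log 2 (4 * finrank ℚ V ^ 2 * c) + 1) ≤ m)
    {TT : Submodule ℚ_[ℓ] (TF ℓ V m)} (hTT : ∀ φ, IsTateTensor ρ χ m φ → φ ∈ TT)
    (hratio : c * finrank ℚ_[ℓ] TT ≤ (2 * c - 1) * finrank ℚ (C m))
    (N : Submodule ℚ_[ℓ] (ℚ_[ℓ] ⊗[ℚ] V)) (hN : ∀ s, ∀ x ∈ N, ρ s x ∈ N) :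
    ∃ N' : Submodule ℚ_[ℓ] (ℚ_[ℓ] ⊗[ℚ] V), (∀ s, ∀ x ∈ N', ρ s x ∈ N') ∧ IsCompl N N' := by
  obtain ⟨vB, kk, hmem, hr'⟩ := exists_adapted hH.internal
  have hd := hd_of (Module.finBasis ℚ V) hmem hr' hH hQ
  have hA : ∀ (m : ℕ) (ψ : RF V m), HS.IsHodgeForm H ψ ↔
      ψ ∈ Ann (Module.finBasis ℚ V) (wt (PM (Module.finBasis ℚ V) vB)
        (PM' (Module.finBasis ℚ V) vB) (kd kk)) m := fun m ψ => hodge_iff_ann _ hmem hr' ψ
  exact semisimple_hd hd hγ hn hωω hωρ hC (fun m ψ hψ => (hA m ψ).1 (hCH m ψ hψ)) hT hdet hc hm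
    hTT hratio N hN

end hodge

end

end Pool.Agent.X259.U
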