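import Pool.Agent.X259.U.U4
import Pool.Agent.X259.T.T27

/-!
# Matrices with integral weights
-/

set_option autoImplicit false
set_option linter.unusedSectionVars false
set_option linter.unusedDecidableInType false
set_option linter.unusedFintypeInType false

namespace Pool.Agent.X259.U

open Matrix Finset Module Pool.Agent.H204R3.SP Pool.Agent.H204R3.GP Pool.Agent.W516
  Pool.Agent.X259.T

noncomputable section

section weights

variable {R : Type} [Fintype R] [DecidableEq R] {P P' : Matrix R R ℂ} (h : P' * P = 1)
  (h' : P * P' = 1) (k : R → ℤ)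

/-- The matrix with the weights `i k`. -/
def wt (P P' : Matrix R R ℂ) (k : R → ℤ) : Matrix R R ℂ :=
  P * Matrix.diagonal (fun x => Complex.I * (k x : ℂ)) * P'

/-- The Weil operator. -/
def we (P P' : Matrix R R ℂ) (k : R → ℤ) : Matrix R R ℂ :=
  P * Matrix.diagonal (fun x => Complex.I ^ (k x)) * P'

lemma prod_zpow_sum {κ : Type} (s : Finset κ) {z : ℂ} (hz : z ≠ 0) (f : κ → ℤ) :
    ∏ x ∈ s, z ^ f x = z ^ (∑ x ∈ s, f x) := by
  classical
  induction s using Finset.induction_on with
  | empty => simp
  | insert a s ha ih => rw [Finset.prod_insert ha, Finset.sum_insert ha, zpow_add₀ hz, ih]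

include h h' in
/-- The Weil operator fixes the tensors of weight zero. -/
lemma kr_of_dk {κ : Type} [Fintype κ] [DecidableEq κ] {G : (κ → R) → ℂ}
    (hG : dk κ (wt P P' k) *ᵥ G = 0) : kr κ (we P P' k) *ᵥ G = G := by
  rw [wt, dk_conj_diag h h'] at hG
  have h1 := kr_inj h hG
  have h2 : kr κ (Matrix.diagonal (fun x => Complex.I ^ (k x))) *ᵥ (kr κ P' *ᵥ G) =
      kr κ P' *ᵥ G := by
    funext I
    have h3 := congrFun h1 I
    rw [dk_diagonal_mulVec, Pi.zero_apply, ← Finset.mul_sum, mul_assoc] at h3
    rw [kr_diagonal_mulVec, prod_zpow_sum _ Complex.I_ne_zero]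
    rcases mul_eq_zero.1 h3 with h4 | h4
    · exact absurd h4 Complex.I_ne_zero
    · rcases mul_eq_zero.1 h4 with h5 | h5
      · have h6 : ∑ x, k (I x) = 0 := by exact_mod_cast h5
        rw [h6, zpow_zero, one_mul]
      · rw [h5, mul_zero]
  rw [we, kr_mul, kr_mul, mul_assoc, ← Matrix.mulVec_mulVec, ← Matrix.mulVec_mulVec, h2,
    Matrix.mulVec_mulVec, ← kr_mul, h', kr_one, Matrix.one_mulVec]

include h h' in
/-- Matrices that commute with the weights commute with the Weil operator. -/
lemma we_comm {A : Matrix R R ℂ} (hA : wt P P' k * A = A * wt P P' k) :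
    we P P' k * A = A * we P P' k := by
  have h1 : Matrix.diagonal (fun x => Complex.I * (k x : ℂ)) * (P' * A * P) =
      (P' * A * P) * Matrix.diagonal (fun x => Complex.I * (k x : ℂ)) := by
    calc _ = (P' * P) * Matrix.diagonal (fun x => Complex.I * (k x : ℂ)) * (P' * A * P) := by
          rw [h, one_mul]
      _ = P' * (wt P P' k * A) * P := by rw [wt]; simp only [mul_assoc]
      _ = P' * (A * wt P P' k) * P := by rw [hA]
      _ = (P' * A * P) * Matrix.diagonal (fun x => Complex.I * (k x : ℂ)) * (P' * P) := by
          rw [wt]; simp only [mul_assoc]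
      _ = _ := by rw [h, mul_one]
  have h2 : Matrix.diagonal (fun x => Complex.I ^ (k x)) * (P' * A * P) =
      (P' * A * P) * Matrix.diagonal (fun x => Complex.I ^ (k x)) := by
    ext x y
    have h3 := congrFun (congrFun h1 x) y
    rw [Matrix.diagonal_mul, Matrix.mul_diagonal] at h3 ⊢
    by_cases h4 : k x = k y
    · rw [h4, mul_comm]
    · have h5 : (P' * A * P) x y = 0 := by
        have h6 : Complex.I * ((k x : ℂ) - (k y : ℂ)) * (P' * A * P) x y = 0 := by
          linear_combination h3
        rcases mul_eq_zero.1 h6 with h7 | h7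
        · exfalso
          rcases mul_eq_zero.1 h7 with h8 | h8
          · exact Complex.I_ne_zero h8
          · rw [sub_eq_zero] at h8
            exact h4 (by exact_mod_cast h8)
        · exact h7
      rw [h5, mul_zero, zero_mul]
  calc we P P' k * A = P * (Matrix.diagonal (fun x => Complex.I ^ (k x)) * (P' * A * P)) * P' := by
        rw [we]
        calc _ = P * Matrix.diagonal (fun x => Complex.I ^ (k x)) * P' * A * (P * P') := by
              rw [h', mul_one]
          _ = _ := by simp only [mul_assoc]
    _ = P * ((P' * A * P) * Matrix.diagonal (fun x => Complex.I ^ (k x))) * P' := by rw [h2]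
    _ = (P * P') * A * (P * Matrix.diagonal (fun x => Complex.I ^ (k x)) * P') := by
        simp only [mul_assoc]
    _ = A * we P P' k := by rw [h', one_mul, we]

include h h' in
/-- The traces. -/
lemma spec_wt {w : ℕ} (hw : ∀ x, |k x| ≤ w) : SpecBound (wt P P' k) (w * Fintype.card R) := by
  intro e he hc
  let f := P' * e * P
  have hf : f * f = f := by
    calc f * f = P' * e * (P * P') * e * P := by simp only [f, mul_assoc]
      _ = P' * (e * e) * P := by rw [h', mul_one]; simp only [mul_assoc]
      _ = f := by rw [he]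
  have hd : Matrix.diagonal (fun x => Complex.I * (k x : ℂ)) * f =
      f * Matrix.diagonal (fun x => Complex.I * (k x : ℂ)) := by
    calc _ = (P' * P) * Matrix.diagonal (fun x => Complex.I * (k x : ℂ)) * (P' * e * P) := by
          rw [h, one_mul]
      _ = P' * (wt P P' k * e) * P := by rw [wt]; simp only [mul_assoc]
      _ = P' * (e * wt P P' k) * P := by rw [hc]
      _ = (P' * e * P) * Matrix.diagonal (fun x => Complex.I * (k x : ℂ)) * (P' * P) := by
          rw [wt]; simp only [mul_assoc]
      _ = _ := by rw [h, mul_one]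
  have hz : ∀ x y, k x ≠ k y → f x y = 0 := by
    intro x y h4
    have h3 := congrFun (congrFun hd x) y
    rw [Matrix.diagonal_mul, Matrix.mul_diagonal] at h3
    have h6 : Complex.I * ((k x : ℂ) - (k y : ℂ)) * f x y = 0 := by
      linear_combination h3
    rcases mul_eq_zero.1 h6 with h7 | h7
    · exfalso
      rcases mul_eq_zero.1 h7 with h8 | h8
      · exact Complex.I_ne_zero h8
      · rw [sub_eq_zero] at h8
        exact h4 (by exact_mod_cast h8)
    · exact h7
  have hidem : ∀ c : ℤ, (Matrix.diagonal (fun x => if k x = c then (1 : ℂ) else 0) * f) *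
      (Matrix.diagonal (fun x => if k x = c then (1 : ℂ) else 0) * f) =
      Matrix.diagonal (fun x => if k x = c then (1 : ℂ) else 0) * f := by
    intro c
    have h4 : f * Matrix.diagonal (fun x => if k x = c then (1 : ℂ) else 0) =
        Matrix.diagonal (fun x => if k x = c then (1 : ℂ) else 0) * f := by
      ext x y
      rw [Matrix.diagonal_mul, Matrix.mul_diagonal]
      by_cases h5 : k x = k y
      · rw [h5, mul_comm]
      · rw [hz x y h5, mul_zero, zero_mul]
    have h5 : Matrix.diagonal (fun x => if k x = c then (1 : ℂ) else 0) *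
        Matrix.diagonal (fun x => if k x = c then (1 : ℂ) else 0) =
        Matrix.diagonal (fun x => if k x = c then (1 : ℂ) else 0) := by
      rw [Matrix.diagonal_mul_diagonal]
      congr 1
      funext x
      split_ifs <;> simp
    calc _ = Matrix.diagonal (fun x => if k x = c then (1 : ℂ) else 0) *
          (f * Matrix.diagonal (fun x => if k x = c then (1 : ℂ) else 0)) * f := by
            simp only [mul_assoc]
      _ = (Matrix.diagonal (fun x => if k x = c then (1 : ℂ) else 0) *
          Matrix.diagonal (fun x => if k x = c then (1 : ℂ) else 0)) * (f * f) := by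
            rw [h4]
            simp only [mul_assoc]
      _ = _ := by rw [h5, hf]
  choose r hr1 hr2 using fun c : ℤ => idem_trace _ (hidem c)
  have htr : ∀ c : ℤ, ∑ x ∈ Finset.univ.filter (fun x => k x = c), f x x = (r c : ℂ) := by
    intro c
    rw [← hr2 c, Matrix.trace, Finset.sum_filter]
    refine Finset.sum_congr rfl fun x _ => ?_
    rw [Matrix.diag_apply, Matrix.diagonal_mul]
    split_ifs <;> simp
  have htot : (∑ c ∈ Finset.univ.image k, r c : ℕ) ≤ Fintype.card R := by
    obtain ⟨s, hs, hs'⟩ := idem_trace f hf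
    have h4 : ((∑ c ∈ Finset.univ.image k, r c : ℕ) : ℂ) = s := by
      rw [← hs', Nat.cast_sum, Matrix.trace]
      have h5 : ∑ x, f.diag x = ∑ c ∈ Finset.univ.image k,
          ∑ x ∈ Finset.univ.filter (fun x => k x = c), f x x :=
        (Finset.sum_fiberwise_of_maps_to (fun x _ => Finset.mem_image_of_mem k (Finset.mem_univ x))
          (fun x => f x x)).symm
      rw [h5]
      exact Finset.sum_congr rfl fun c _ => (htr c).symm
    have h5 : (∑ c ∈ Finset.univ.image k, r c : ℕ) = s := by exact_mod_cast h4
    omega
  refine ⟨∑ c ∈ Finset.univ.image k, c * r c, ?_, ?_⟩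
  · calc |∑ c ∈ Finset.univ.image k, c * (r c : ℤ)| ≤
          ∑ c ∈ Finset.univ.image k, |c * (r c : ℤ)| := Finset.abs_sum_le_sum_abs _ _
      _ ≤ ∑ c ∈ Finset.univ.image k, (w : ℤ) * (r c : ℤ) := by
          refine Finset.sum_le_sum fun c hc' => ?_
          obtain ⟨x, -, rfl⟩ := Finset.mem_image.1 hc'
          rw [abs_mul, Nat.abs_cast]
          exact mul_le_mul_of_nonneg_right (hw x) (Int.natCast_nonneg _)
      _ = (w : ℤ) * ((∑ c ∈ Finset.univ.image k, r c : ℕ) : ℤ) := by
          rw [← Finset.mul_sum, Nat.cast_sum]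
      _ ≤ (w : ℤ) * (Fintype.card R : ℤ) :=
          mul_le_mul_of_nonneg_left (by exact_mod_cast htot) (Int.natCast_nonneg _)
      _ = _ := by push_cast; ring
  · have h4 : (wt P P' k * e).trace =
        (Matrix.diagonal (fun x => Complex.I * (k x : ℂ)) * f).trace := by
      rw [wt]
      calc _ = (P * (Matrix.diagonal (fun x => Complex.I * (k x : ℂ)) * (P' * e))).trace := by
            simp only [mul_assoc]
        _ = ((Matrix.diagonal (fun x => Complex.I * (k x : ℂ)) * (P' * e)) * P).trace :=
            Matrix.trace_mul_comm _ _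
        _ = _ := by simp only [f, mul_assoc]
    rw [h4, Matrix.trace]
    have h5 : ∑ x, (Matrix.diagonal (fun x => Complex.I * (k x : ℂ)) * f).diag x =
        ∑ c ∈ Finset.univ.image k, ∑ x ∈ Finset.univ.filter (fun x => k x = c),
          (Matrix.diagonal (fun x => Complex.I * (k x : ℂ)) * f).diag x :=
      (Finset.sum_fiberwise_of_maps_to (fun x _ => Finset.mem_image_of_mem k (Finset.mem_univ x))
        _).symm
    rw [h5, Int.cast_sum, Finset.mul_sum]
    refine Finset.sum_congr rfl fun c _ => ?_
    rw [Int.cast_mul, Int.cast_natCast, ← htr c, Finset.mul_sum, Finset.mul_sum]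
    refine Finset.sum_congr rfl fun x hx => ?_
    rw [Matrix.diag_apply, Matrix.diagonal_mul, (Finset.mem_filter.1 hx).2]
    ring

end weights

end

end Pool.Agent.X259.U
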