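import Pool.Agent.X259.U.U5

/-!
# The family on `V × V`: stability under the complex structure
-/

set_option autoImplicit false
set_option linter.unusedSectionVars false
set_option linter.unusedDecidableInType false
set_option linter.unusedFintypeInType false

namespace Pool.Agent.X259.U

open Matrix Finset Module Pool.Agent.H204R3.SP Pool.Agent.H204R3.GP Pool.Agent.W516
  Pool.Agent.X259.T

noncomputable section

variable {V : Type} [AddCommGroup V] [Module ℚ V]

section eps

variable {Q : V →ₗ[ℚ] V →ₗ[ℚ] ℚ} {ι : Type} [Fintype ι] [DecidableEq ι] {γ γ' : ι → V}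
  {C : ∀ m : ℕ, Submodule ℚ (RF V m)} {ε : Module.End ℚ V}

/-- Stability under the parity in one variable. -/
lemma eps_one (hC : Closed Q γ γ' C) (hγ : ∀ v : V, v = ∑ i, Q v (γ' i) • γ i)
    (hε : ∀ x y, Q x y = Q y (ε x)) (hε2 : ∀ x, ε (ε x) = x) {m : ℕ} {ψ : RF V m} (hψ : ψ ∈ C m)
    (p : Fin m × Fin 2) (ψ' : RF V m)
    (h : ∀ v, ψ' v = ψ (Function.update v p (ε (v p)))) : ψ' ∈ C m := by
  let φ : RF V 1 := (DR.one2 Q).domDomCongr (Equiv.swap (0, 0) (0, 1))
  have hφ : φ ∈ C 1 := hC.perm 1 _ _ (hC.pol _ fun v => DR.one2_apply Q v)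
  have hφv : ∀ v, φ v = Q (v (0, 1)) (v (0, 0)) := by
    intro v
    change (DR.one2 Q) (fun i => v (Equiv.swap (0, 0) (0, 1) i)) = _
    rw [DR.one2_apply, Equiv.swap_apply_left, Equiv.swap_apply_right]
  have h1 : mprod ψ φ ∈ C (m + 1) := hC.prod m 1 ψ hψ φ hφ _ fun v => mprod_apply ψ φ v
  let σ : Equiv.Perm (Fin (m + 1) × Fin 2) := Equiv.swap (p.1.castSucc, p.2) (Fin.last m, 0)
  refine hC.contr m _ (hC.perm (m + 1) σ _ h1) ψ' fun v => ?_
  have hne : ∀ (j : Fin m) (c c' : Fin 2), ((j.castSucc, c) : Fin (m + 1) × Fin 2) ≠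
      (Fin.last m, c') := fun j c c' h => absurd (congrArg Prod.fst h) (Fin.castSucc_lt_last j).ne
  have h2 : ∀ x y, (mprod ψ φ).domDomCongr σ (ext2 v x y) =
      ψ (Function.update v p x) * Q y (v p) := by
    intro x y
    rw [MultilinearMap.domDomCongr_apply, mprod_apply, hφv]
    congr 1
    · congr 1
      funext q
      by_cases hq : q = p
      · subst hq
        rw [Function.update_self]
        change ext2 v x y (σ (q.1.castSucc, q.2)) = x
        rw [Equiv.swap_apply_left, ext2_last]
        rfl
      · rw [Function.update_of_ne hq]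
        change ext2 v x y (σ (q.1.castSucc, q.2)) = v q
        rw [Equiv.swap_apply_of_ne_of_ne, ext2_castSucc]
        · intro h3
          apply hq
          have h4 := congrArg Prod.fst h3
          have h5 := congrArg Prod.snd h3
          exact Prod.ext (Fin.castSucc_injective _ h4) h5
        · exact hne _ _ _
    · congr 1
      · change Q (ext2 v x y (σ (Fin.natAdd m 0, 1))) = Q y
        have h3 : (Fin.natAdd m (0 : Fin 1)) = Fin.last m := rfl
        rw [h3, Equiv.swap_apply_of_ne_of_ne, ext2_last]
        · rfl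
        · exact (hne _ _ _).symm
        · intro h4
          exact one_ne_zero (congrArg Prod.snd h4)
      · change ext2 v x y (σ (Fin.natAdd m 0, 0)) = v p
        have h3 : (Fin.natAdd m (0 : Fin 1)) = Fin.last m := rfl
        rw [h3, Equiv.swap_apply_right, ext2_castSucc]
  simp only [h2]
  have h3 : ε (v p) = ∑ i, Q (γ' i) (v p) • γ i := by
    conv_lhs => rw [hγ (ε (v p))]
    refine Finset.sum_congr rfl fun i _ => ?_
    rw [hε (ε (v p)) (γ' i), hε2]
  rw [h, h3, MultilinearMap.map_update_sum]
  refine Finset.sum_congr rfl fun i _ => ?_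
  rw [MultilinearMap.map_update_smul, smul_eq_mul, mul_comm]

/-- Stability under the parity in several variables. -/
lemma eps_set (hC : Closed Q γ γ' C) (hγ : ∀ v : V, v = ∑ i, Q v (γ' i) • γ i)
    (hε : ∀ x y, Q x y = Q y (ε x)) (hε2 : ∀ x, ε (ε x) = x) {m : ℕ} {ψ : RF V m} (hψ : ψ ∈ C m)
    (A : Finset (Fin m × Fin 2)) :
    ψ.compLinearMap (fun k => if k ∈ A then ε else LinearMap.id) ∈ C m := by
  induction A using Finset.induction_on with
  | empty => exact hψ
  | insert p A hp ih =>
    refine eps_one hC hγ hε hε2 ih p _ fun v => ?_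
    rw [MultilinearMap.compLinearMap_apply, MultilinearMap.compLinearMap_apply]
    congr 1
    funext k
    by_cases hk : k = p
    · subst hk
      rw [if_pos (Finset.mem_insert_self _ _), if_neg hp, Function.update_self]
      rfl
    · rw [Function.update_of_ne hk]
      by_cases hkA : k ∈ A
      · rw [if_pos hkA, if_pos (Finset.mem_insert_of_mem hkA)]
      · rw [if_neg hkA, if_neg (by simp [hk, hkA])]

/-- The rational part of the complex structure. -/
def tau (ε : Module.End ℚ V) : Module.End ℚ (V × V) :=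
  LinearMap.prod (-LinearMap.snd ℚ V V) (ε ∘ₗ LinearMap.fst ℚ V V)

lemma tau_apply (x : V × V) : tau ε x = (-x.2, ε x.1) := rfl

/-- Stability under the rational part of the complex structure. -/
lemma lift_tau (hC : Closed Q γ γ' C) (hγ : ∀ v : V, v = ∑ i, Q v (γ' i) • γ i)
    (hε : ∀ x y, Q x y = Q y (ε x)) (hε2 : ∀ x, ε (ε x) = x) {m : ℕ} {F : RF (V × V) m}
    (hF : F ∈ Lift C m) : F.compLinearMap (fun _ => tau ε) ∈ Lift C m := by
  intro t
  have h1 := eps_set hC hγ hε hε2 (hF fun k => !(t k))
    (Finset.univ.filter fun k => t k = false)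
  have h2 : cpt (F.compLinearMap (fun _ => tau ε)) t =
      (∏ k, if t k then (-1 : ℚ) else 1) • (cpt F fun k => !(t k)).compLinearMap
        (fun k => if k ∈ Finset.univ.filter (fun k => t k = false) then ε
          else LinearMap.id) := by
    ext v
    rw [cpt_apply, MultilinearMap.compLinearMap_apply, _root_.smul_apply,
      MultilinearMap.compLinearMap_apply, cpt_apply, ← MultilinearMap.map_smul_univ]
    congr 1
    funext k
    rcases h3 : t k with _ | _
    · simp only [Bool.not_false, Bool.false_eq_true, if_false, one_smul, Finset.mem_filter,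
        Finset.mem_univ, true_and, h3, if_true]
      rw [inj_false, tau_apply, inj_true]
      simp
    · simp only [Bool.not_true, if_true, Finset.mem_filter,
        Finset.mem_univ, true_and, h3, Bool.true_eq_false, if_false]
      rw [inj_true, tau_apply, inj_false]
      simp
  rw [h2]
  exact Submodule.smul_mem _ _ h1

end eps

section blocks

variable {n : ℕ} (e : Basis (Fin n) ℚ V)

/-- The basis of `V × V`. -/
abbrev e2 : Basis (Fin n ⊕ Fin n) ℚ (V × V) := e.prod e

lemma e2_inl (i : Fin n) : e2 e (Sum.inl i) = (e i, 0) := by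
  ext <;> simp [e2]

lemma e2_inr (i : Fin n) : e2 e (Sum.inr i) = (0, e i) := by
  ext <;> simp [e2]

/-- The pattern of a word. -/
def pat {κ : Type} (J : κ → Fin n ⊕ Fin n) : κ → Bool := fun k => (J k).isRight

/-- The values of a word. -/
def val {κ : Type} (J : κ → Fin n ⊕ Fin n) : κ → Fin n := fun k => Sum.elim id id (J k)

lemma gt_mix {m : ℕ} (F : RF (V × V) m) (J : Fin m × Fin 2 → Fin n ⊕ Fin n) :
    gt (e2 e) F J = gt e (cpt F (pat J)) (val J) := by
  rw [gt, gt, cpt_apply]
  congr 2
  funext k
  rw [pat, val]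
  rcases J k with i | i
  · exact e2_inl e i
  · exact e2_inr e i

/-- The block diagonal matrix. -/
abbrev bd (X : Matrix (Fin n) (Fin n) ℂ) : Matrix (Fin n ⊕ Fin n) (Fin n ⊕ Fin n) ℂ :=
  Matrix.fromBlocks X 0 0 X

lemma dk_mix {m : ℕ} (X : Matrix (Fin n) (Fin n) ℂ) (F : RF (V × V) m)
    (J : Fin m × Fin 2 → Fin n ⊕ Fin n) :
    (dk (Fin m × Fin 2) (bd X) *ᵥ gt (e2 e) F) J =
      (dk (Fin m × Fin 2) X *ᵥ gt e (cpt F (pat J))) (val J) := by
  rw [dk_mulVec, dk_mulVec]
  refine Finset.sum_congr rfl fun k _ => ?_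
  rw [Fintype.sum_sum_type]
  rcases hJ : J k with i | i
  · have h1 : ∑ y, bd X (Sum.inl i) (Sum.inr y) *
        gt (e2 e) F (Function.update J k (Sum.inr y)) = 0 := by
      refine Finset.sum_eq_zero fun y _ => ?_
      rw [show bd X (Sum.inl i) (Sum.inr y) = 0 from rfl, zero_mul]
    rw [h1, add_zero]
    refine Finset.sum_congr rfl fun y _ => ?_
    rw [show bd X (Sum.inl i) (Sum.inl y) = X i y from rfl, gt_mix]
    have h2 : pat (Function.update J k (Sum.inl y)) = pat J := by
      funext l
      by_cases hl : l = k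
      · subst hl
        rw [pat, pat, Function.update_self, hJ]
        rfl
      · rw [pat, pat, Function.update_of_ne hl]
    have h3 : val (Function.update J k (Sum.inl y)) = Function.update (val J) k y := by
      funext l
      by_cases hl : l = k
      · subst hl
        rw [val, Function.update_self, Function.update_self]
        rfl
      · rw [val, Function.update_of_ne hl, Function.update_of_ne hl]
        rfl
    rw [h2, h3]
    congr 2
    rw [val, hJ]
    rfl
  · have h1 : ∑ y, bd X (Sum.inr i) (Sum.inl y) *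
        gt (e2 e) F (Function.update J k (Sum.inl y)) = 0 := by
      refine Finset.sum_eq_zero fun y _ => ?_
      rw [show bd X (Sum.inr i) (Sum.inl y) = 0 from rfl, zero_mul]
    rw [h1, zero_add]
    refine Finset.sum_congr rfl fun y _ => ?_
    rw [show bd X (Sum.inr i) (Sum.inr y) = X i y from rfl, gt_mix]
    have h2 : pat (Function.update J k (Sum.inr y)) = pat J := by
      funext l
      by_cases hl : l = k
      · subst hl
        rw [pat, pat, Function.update_self, hJ]
        rfl
      · rw [pat, pat, Function.update_of_ne hl]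
    have h3 : val (Function.update J k (Sum.inr y)) = Function.update (val J) k y := by
      funext l
      by_cases hl : l = k
      · subst hl
        rw [val, Function.update_self, Function.update_self]
        rfl
      · rw [val, Function.update_of_ne hl, Function.update_of_ne hl]
        rfl
    rw [h2, h3]
    congr 2
    rw [val, hJ]
    rfl

/-- The forms annihilated by a matrix. -/
def Ann (e : Basis (Fin n) ℚ V) (X : Matrix (Fin n) (Fin n) ℂ) (m : ℕ) :
    Submodule ℚ (RF V m) where
  carrier := {ψ | dk (Fin m × Fin 2) X *ᵥ gt e ψ = 0}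
  add_mem' := by
    intro ψ ψ' h h'
    change dk _ X *ᵥ gt e (ψ + ψ') = 0
    rw [gt_add, Matrix.mulVec_add]
    rw [show dk _ X *ᵥ gt e ψ = 0 from h, show dk _ X *ᵥ gt e ψ' = 0 from h', add_zero]
  zero_mem' := by
    change dk _ X *ᵥ gt e (0 : RF V m) = 0
    have h1 : gt e (0 : RF V m) = 0 := by
      funext J
      simp [gt]
    rw [h1, Matrix.mulVec_zero]
  smul_mem' := by
    intro c ψ h
    change dk _ X *ᵥ gt e (c • ψ) = 0
    have h1 : gt e (c • ψ) = (c : ℂ) • gt e ψ := by
      funext J
      simp [gt]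
    rw [h1, Matrix.mulVec_smul, show dk _ X *ᵥ gt e ψ = 0 from h, smul_zero]

lemma mem_Ann {X : Matrix (Fin n) (Fin n) ℂ} {m : ℕ} {ψ : RF V m} :
    ψ ∈ Ann e X m ↔ dk (Fin m × Fin 2) X *ᵥ gt e ψ = 0 := Iff.rfl

/-- The lifted family is defined by the block diagonal matrix. -/
lemma defBy_lift (X : Matrix (Fin n) (Fin n) ℂ) : DefBy (e2 e) (Lift (Ann e X)) (bd X) := by
  intro m F
  constructor
  · intro hF
    funext J
    rw [dk_mix, (mem_Ann e).1 (hF (pat J))]
    rfl
  · intro hF t
    rw [mem_Ann]
    funext J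
    have h1 := congrFun hF (fun k => bif t k then Sum.inr (J k) else Sum.inl (J k))
    rw [dk_mix] at h1
    have h2 : pat (fun k => bif t k then Sum.inr (J k) else Sum.inl (J k)) = t := by
      funext k
      rw [pat]
      rcases t k with _ | _ <;> rfl
    have h3 : val (fun k => bif t k then Sum.inr (J k) else Sum.inl (J k)) = J := by
      funext k
      rw [val]
      rcases t k with _ | _ <;> rfl
    rw [h2, h3] at h1
    exact h1

end blocks

section comp

variable {W : Type} [AddCommGroup W] [Module ℚ W] {R : Type} [Fintype R] [DecidableEq R]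
  (b : Basis R ℚ W)

/-- The matrix of an endomorphism acts as composition. -/
lemma kr_mW {κ : Type} [Fintype κ] [DecidableEq κ] (Z : Module.End ℚ W)
    (ψ : MultilinearMap ℚ (fun _ : κ => W) ℚ) :
    kr κ (mW b Z) *ᵥ gt b ψ = gt b (ψ.compLinearMap (fun _ => Z)) := by
  funext I
  rw [kr_mulVec]
  change _ = ((ψ (fun k => Z (b (I k))) : ℚ) : ℂ)
  rw [gt_eq_sum b]
  rfl

end comp

end

end Pool.Agent.X259.U
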