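import Pool.Agent.X259.U.U6

/-!
# Polarized Hodge structures in coordinates
-/

set_option autoImplicit false
set_option linter.unusedSectionVars false
set_option linter.unusedDecidableInType false
set_option linter.unusedFintypeInType false

namespace Pool.Agent.X259.U

open Matrix Finset Module Pool.Agent.H204R3.SP Pool.Agent.H204R3.GP Pool.Agent.W516
  Pool.Agent.X259.T
open scoped ComplexOrder

noncomputable section

section weights

variable {R : Type} [Fintype R] [DecidableEq R] {P P' : Matrix R R ℂ} (h : P' * P = 1)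
  (h' : P * P' = 1) (k : R → ℤ)

/-- The action of the number `z`. -/
def pw (P P' : Matrix R R ℂ) (k : R → ℤ) (z : ℂ) : Matrix R R ℂ :=
  P * Matrix.diagonal (fun x => z ^ (k x)) * P'

include h h' in
lemma kr_of_dk' {κ : Type} [Fintype κ] [DecidableEq κ] {G : (κ → R) → ℂ} {z : ℂ} (hz : z ≠ 0)
    (hG : dk κ (wt P P' k) *ᵥ G = 0) : kr κ (pw P P' k z) *ᵥ G = G := by
  rw [wt, dk_conj_diag h h'] at hG
  have h1 := kr_inj h hG
  have h2 : kr κ (Matrix.diagonal (fun x => z ^ (k x))) *ᵥ (kr κ P' *ᵥ G) =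
      kr κ P' *ᵥ G := by
    funext I
    have h3 := congrFun h1 I
    rw [dk_diagonal_mulVec, Pi.zero_apply, ← Finset.mul_sum, mul_assoc] at h3
    rw [kr_diagonal_mulVec, prod_zpow_sum _ hz]
    rcases mul_eq_zero.1 h3 with h4 | h4
    · exact absurd h4 Complex.I_ne_zero
    · rcases mul_eq_zero.1 h4 with h5 | h5
      · have h6 : ∑ x, k (I x) = 0 := by exact_mod_cast h5
        rw [h6, zpow_zero, one_mul]
      · rw [h5, mul_zero]
  rw [pw, kr_mul, kr_mul, mul_assoc, ← Matrix.mulVec_mulVec, ← Matrix.mulVec_mulVec, h2,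
    Matrix.mulVec_mulVec, ← kr_mul, h', kr_one, Matrix.one_mulVec]

include h h' in
lemma dk_of_kr {κ : Type} [Fintype κ] [DecidableEq κ] {G : (κ → R) → ℂ}
    (hG : kr κ (pw P P' k 2) *ᵥ G = G) : dk κ (wt P P' k) *ᵥ G = 0 := by
  rw [wt, dk_conj_diag h h']
  have h1 : kr κ P' *ᵥ (kr κ (pw P P' k 2) *ᵥ G) =
      kr κ (Matrix.diagonal (fun x => (2 : ℂ) ^ (k x))) *ᵥ (kr κ P' *ᵥ G) := by
    rw [pw, kr_conj_diag h]
  rw [hG] at h1
  have h2 : dk κ (Matrix.diagonal (fun x => Complex.I * (k x : ℂ))) *ᵥ (kr κ P' *ᵥ G) = 0 := by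
    funext I
    have h3 := congrFun h1 I
    rw [kr_diagonal_mulVec, prod_zpow_sum _ two_ne_zero] at h3
    rw [dk_diagonal_mulVec, Pi.zero_apply, ← Finset.mul_sum, mul_assoc]
    by_cases h4 : (kr κ P' *ᵥ G) I = 0
    · rw [h4, mul_zero, mul_zero]
    · have h5 : (2 : ℂ) ^ (∑ x, k (I x)) = 1 := by
        have h6 : ((2 : ℂ) ^ (∑ x, k (I x)) - 1) * (kr κ P' *ᵥ G) I = 0 := by
          linear_combination -h3
        rcases mul_eq_zero.1 h6 with h7 | h7
        · exact sub_eq_zero.1 h7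
        · exact absurd h7 h4
      have h6 : ∑ x, k (I x) = 0 := by
        have h7 : (2 : ℝ) ^ (∑ x, k (I x)) = 1 := by
          apply Complex.ofReal_injective
          rw [Complex.ofReal_zpow, Complex.ofReal_ofNat, h5, Complex.ofReal_one]
        have h8 : (2 : ℝ) ^ (∑ x, k (I x)) = 2 ^ (0 : ℤ) := by rw [h7, zpow_zero]
        exact zpow_right_injective₀ (by norm_num) (by norm_num) h8
      have h7 : (∑ x, (k (I x) : ℂ)) = 0 := by exact_mod_cast h6
      rw [h7, zero_mul, mul_zero]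
  rw [h2, Matrix.mulVec_zero]

end weights

variable {V : Type} [AddCommGroup V] [Module ℚ V] {n : ℕ}

section closed

variable {e : Basis (Fin n) ℚ V} {Q : V →ₗ[ℚ] V →ₗ[ℚ] ℚ} {P P' : Matrix (Fin n) (Fin n) ℂ}
  {k : Fin n → ℤ} {ι : Type} [Fintype ι] [DecidableEq ι] {γ γ' : ι → V}

/-- The family of the forms of weight zero is closed. -/
theorem closed_ann (h : P' * P = 1) (h' : P * P' = 1)
    (hinv : wt P P' k * Om e Q = -(Om e Q * (wt P P' k)ᵀ))
    (hγ : ∀ v : V, v = ∑ i, Q v (γ' i) • γ i) : Closed Q γ γ' (Ann e (wt P P' k)) := by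
  have hq : dk (Fin 2) (wt P P' k) *ᵥ mt (Om e Q) = 0 := dk_two_zero.2 hinv
  have hq2 : pw P P' k 2 * Om e Q * (pw P P' k 2)ᵀ = Om e Q := by
    have h1 := kr_of_dk' h h' k (two_ne_zero) hq
    ext i j
    have h2 := congrFun h1 ![i, j]
    have h3 := kr_two (pw P P' k 2) (Om e Q) ![i, j]
    rw [show mt (Om e Q) = fun J => Om e Q (J 0) (J 1) from rfl, h3] at h2
    simpa using h2
  have hK := Om_Km (b := e) hγ
  have hK2 : (pw P P' k 2)ᵀ * Km e γ γ' * pw P P' k 2 = Km e γ γ' := by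
    have e1 : (Km e γ γ') * (Om e Q)ᵀ = 1 := by
      have := congrArg Matrix.transpose (mul_eq_one_comm.1 hK)
      rw [Matrix.transpose_mul, Matrix.transpose_transpose, Matrix.transpose_one] at this
      exact mul_eq_one_comm.1 this
    have e2 : pw P P' k 2 * (Om e Q)ᵀ * (pw P P' k 2)ᵀ = (Om e Q)ᵀ := by
      have := congrArg Matrix.transpose hq2
      rw [Matrix.transpose_mul, Matrix.transpose_mul, Matrix.transpose_transpose,
        ← mul_assoc] at this
      exact this
    have e3 : ((pw P P' k 2)ᵀ * Km e γ γ' * pw P P' k 2) * (Om e Q)ᵀ = 1 := by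
      have e4 : (pw P P' k 2 * (Om e Q)ᵀ) * ((pw P P' k 2)ᵀ * Km e γ γ') = 1 := by
        rw [← mul_assoc, e2]
        exact mul_eq_one_comm.1 e1
      have e5 := mul_eq_one_comm.1 e4
      rw [← e5]
      simp only [mul_assoc]
    exact left_inv_eq_right_inv (mul_eq_one_comm.1 (mul_eq_one_comm.1 e3)) (mul_eq_one_comm.1 e1)
  exact
    { one := fun ψ hψ => by
        rw [mem_Ann]
        funext J
        rw [dk_mulVec, Finset.univ_eq_empty, Finset.sum_empty]
        rfl
      pol := fun ψ hψ => by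
        rw [mem_Ann]
        let e' : Fin 1 × Fin 2 ≃ Fin 2 := Equiv.uniqueProd (Fin 2) (Fin 1)
        have h2 : ri e' (gt e ψ) = mt (Om e Q) := by
          funext J
          change gt e ψ _ = _
          rw [gt, hψ]
          rfl
        rw [← h2, dk_ri] at hq
        funext I
        have h6 := congrFun hq (fun k => I (e'.symm k))
        simp only [ri, Equiv.symm_apply_apply, Pi.zero_apply] at h6
        exact h6
      perm := fun m σ ψ hψ => by
        rw [mem_Ann] at hψ ⊢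
        rw [gt_dom, dk_ri, hψ]
        rfl
      prod := fun m m' ψ hψ ψ' hψ' ψ'' hψ'' => by
        have h1 : ψ'' = mprod ψ ψ' := MultilinearMap.ext fun v => by rw [hψ'', mprod_apply]
        rw [h1, mem_Ann]
        refine dk_of_kr h h' k ?_
        rw [gt_mprod, kr_ri, kr_tp, kr_of_dk' h h' k two_ne_zero ((mem_Ann e).1 hψ),
          kr_of_dk' h h' k two_ne_zero ((mem_Ann e).1 hψ')]
      contr := fun m ψ hψ ψ' hψ' => by
        have h1 : ψ' = mcontr γ γ' ψ := MultilinearMap.ext fun v => by rw [hψ', mcontr_apply]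
        rw [h1, mem_Ann]
        refine dk_of_kr h h' k ?_
        rw [gt_mcontr]
        have h2 := cK_kr (Km e γ γ') (pw P P' k 2) (ri (e1 m) (gt e ψ))
        rw [hK2, kr_ri, kr_of_dk' h h' k two_ne_zero ((mem_Ann e).1 hψ)] at h2
        exact h2.symm }

end closed

/-- The data of a polarized Hodge structure in coordinates. -/
structure HD (e : Basis (Fin n) ℚ V) (Q : V →ₗ[ℚ] V →ₗ[ℚ] ℚ) (ε : Module.End ℚ V)
    (P P' : Matrix (Fin n) (Fin n) ℂ) (k : Fin n → ℤ) : Prop where
  h : P' * P = 1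
  h' : P * P' = 1
  real : ∀ i j, (we P P' k i j).im = 0
  sq : we P P' k * we P P' k = mW e ε
  inv : wt P P' k * Om e Q = -(Om e Q * (wt P P' k)ᵀ)
  eps : ∀ x y, Q x y = Q y (ε x)
  pos : ∀ z : Fin n → ℂ, z ≠ 0 → 0 < (z ᵥ* (we P P' k * Om e Q)) ⬝ᵥ star z
  trace : ∑ x, k x = 0

section hd

variable {e : Basis (Fin n) ℚ V} {Q : V →ₗ[ℚ] V →ₗ[ℚ] ℚ} {ε : Module.End ℚ V}
  {P P' : Matrix (Fin n) (Fin n) ℂ} {k : Fin n → ℤ} (hd : HD e Q ε P P' k)

include hd in
lemma HD.eps2m : mW e ε * mW e ε = 1 := by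
  rw [← hd.sq, we]
  have h1 : ∀ D D' : Matrix (Fin n) (Fin n) ℂ, P * D * P' * (P * D' * P') = P * (D * D') * P' := by
    intro D D'
    calc _ = P * D * (P' * P) * D' * P' := by simp only [mul_assoc]
      _ = _ := by rw [hd.h, mul_one]; simp only [mul_assoc]
  rw [h1, h1]
  have h2 : Matrix.diagonal (fun x => Complex.I ^ k x) * Matrix.diagonal (fun x => Complex.I ^ k x) *
      (Matrix.diagonal (fun x => Complex.I ^ k x) * Matrix.diagonal (fun x => Complex.I ^ k x)) =
      (1 : Matrix (Fin n) (Fin n) ℂ) := by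
    rw [Matrix.diagonal_mul_diagonal, Matrix.diagonal_mul_diagonal, ← Matrix.diagonal_one]
    congr 1
    funext x
    rw [← zpow_add₀ Complex.I_ne_zero, ← zpow_add₀ Complex.I_ne_zero,
      show k x + k x + (k x + k x) = 4 * k x by ring, _root_.zpow_mul]
    have : (Complex.I : ℂ) ^ (4 : ℤ) = 1 := by
      rw [show (4 : ℤ) = ((4 : ℕ) : ℤ) from rfl, zpow_natCast, Complex.I_pow_four]
    rw [this, _root_.one_zpow]
  rw [h2, mul_one, hd.h']

include hd in
lemma HD.eps2 (x : V) : ε (ε x) = x := by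
  have h1 : mW e (ε * ε) = mW e 1 := by
    rw [mW_comp, hd.eps2m]
    ext i j
    rw [mW, Module.End.one_apply, Basis.repr_self, Finsupp.single_apply, Matrix.one_apply]
    split_ifs <;> simp
  have h2 := mW_inj e h1
  exact congrArg (fun f : Module.End ℚ V => f x) h2

/-- Coordinates. -/
def cv (e : Basis (Fin n) ℚ V) (u : V) : Fin n → ℂ := fun i => ((e.repr u i : ℚ) : ℂ)

lemma cv_add (u v : V) : cv e (u + v) = cv e u + cv e v := by
  funext i
  simp [cv]

lemma cv_zero : cv e 0 = 0 := by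
  funext i
  simp [cv]

lemma cv_neg (u : V) : cv e (-u) = -cv e u := by
  funext i
  simp [cv]

lemma cv_basis (i : Fin n) : cv e (e i) = Pi.single i 1 := by
  funext j
  rw [cv, Basis.repr_self, Finsupp.single_apply, Pi.single_apply]
  by_cases h : i = j
  · rw [if_pos h, if_pos h.symm, Rat.cast_one]
  · rw [if_neg h, if_neg (Ne.symm h), Rat.cast_zero]

lemma cv_mW (Z : Module.End ℚ V) (u : V) : cv e (Z u) = cv e u ᵥ* mW e Z := by
  funext j
  rw [Matrix.vecMul, dotProduct, cv]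
  conv_lhs => rw [← e.sum_repr u]
  rw [map_sum, map_sum, Finset.sum_apply', Rat.cast_sum]
  refine Finset.sum_congr rfl fun i _ => ?_
  rw [map_smul, map_smul, Finsupp.smul_apply, smul_eq_mul, Rat.cast_mul]
  rfl

lemma cv_Om (u v : V) : ((Q u v : ℚ) : ℂ) = (cv e u ᵥ* Om e Q) ⬝ᵥ cv e v := by
  rw [dotProduct]
  simp only [Matrix.vecMul, dotProduct, Finset.sum_mul]
  conv_lhs => rw [← e.sum_repr u, ← e.sum_repr v]
  rw [map_sum, Rat.cast_sum]
  refine Finset.sum_congr rfl fun j _ => ?_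
  rw [map_smul, map_sum, LinearMap.sum_apply, smul_eq_mul, Rat.cast_mul, Rat.cast_sum,
    Finset.mul_sum]
  refine Finset.sum_congr rfl fun i _ => ?_
  rw [map_smul, LinearMap.smul_apply, smul_eq_mul, Rat.cast_mul, cv, cv, Om]
  ring

/-- The period map. -/
def pr (e : Basis (Fin n) ℚ V) (P P' : Matrix (Fin n) (Fin n) ℂ) (k : Fin n → ℤ) :
    V × V →+ (Fin n → ℂ) where
  toFun x := cv e x.1 - Complex.I • (cv e x.2 ᵥ* we P P' k)
  map_zero' := by
    simp only [Prod.fst_zero, Prod.snd_zero, cv_zero, Matrix.zero_vecMul, smul_zero, sub_zero]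
  map_add' x y := by
    simp only [Prod.fst_add, Prod.snd_add, cv_add, Matrix.add_vecMul, smul_add]
    abel

lemma pr_apply (x : V × V) :
    pr e P P' k x = cv e x.1 - Complex.I • (cv e x.2 ᵥ* we P P' k) := rfl

end hd

end

end Pool.Agent.X259.U
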