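import Pool.Agent.X259.U.U7

/-!
# The frame of a polarized Hodge structure
-/

set_option autoImplicit false
set_option linter.unusedSectionVars false
set_option linter.unusedDecidableInType false
set_option linter.unusedFintypeInType false

namespace Pool.Agent.X259.U

open Matrix Finset Module Pool.Agent.H204R3.SP Pool.Agent.H204R3.GP Pool.Agent.W516
  Pool.Agent.X259.T
open scoped ComplexOrder

noncomputable section

variable {V : Type} [AddCommGroup V] [Module ℚ V] {n : ℕ}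
  {e : Basis (Fin n) ℚ V} {Q : V →ₗ[ℚ] V →ₗ[ℚ] ℚ} {ε : Module.End ℚ V}
  {P P' : Matrix (Fin n) (Fin n) ℂ} {k : Fin n → ℤ} (hd : HD e Q ε P P' k)

lemma vecMul_im {K : Matrix (Fin n) (Fin n) ℂ} (hK : ∀ i j, (K i j).im = 0) {a : Fin n → ℂ}
    (ha : ∀ i, (a i).im = 0) (j : Fin n) : ((a ᵥ* K) j).im = 0 := by
  rw [Matrix.vecMul, dotProduct, Complex.im_sum]
  refine Finset.sum_eq_zero fun i _ => ?_
  rw [Complex.mul_im, ha, hK, mul_zero, zero_mul, add_zero]

lemma dot_im {a c : Fin n → ℂ} (ha : ∀ i, (a i).im = 0) (hc : ∀ i, (c i).im = 0) :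
    (a ⬝ᵥ c).im = 0 := by
  rw [dotProduct, Complex.im_sum]
  refine Finset.sum_eq_zero fun i _ => ?_
  rw [Complex.mul_im, ha, hc, mul_zero, zero_mul, add_zero]

lemma mul_im {K L : Matrix (Fin n) (Fin n) ℂ} (hK : ∀ i j, (K i j).im = 0)
    (hL : ∀ i j, (L i j).im = 0) (i j : Fin n) : ((K * L) i j).im = 0 := by
  rw [Matrix.mul_apply, Complex.im_sum]
  refine Finset.sum_eq_zero fun l _ => ?_
  rw [Complex.mul_im, hK, hL, mul_zero, zero_mul, add_zero]

lemma cv_im (u : V) (i : Fin n) : (cv e u i).im = 0 := by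
  rw [cv]
  exact Complex.ratCast_im _

lemma mW_im (Z : Module.End ℚ V) (i j : Fin n) : (mW e Z i j).im = 0 := Complex.ratCast_im _

lemma Om_im (i j : Fin n) : (Om e Q i j).im = 0 := Complex.ratCast_im _

lemma star_of_im {a : Fin n → ℂ} (ha : ∀ i, (a i).im = 0) : star a = a := by
  funext i
  exact Complex.conj_eq_iff_im.2 (ha i)

include hd in
lemma HD.iso : we P P' k * Om e Q * (we P P' k)ᵀ = Om e Q := by
  have hq : dk (Fin 2) (wt P P' k) *ᵥ mt (Om e Q) = 0 := dk_two_zero.2 hd.inv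
  have h1 := kr_of_dk hd.h hd.h' k hq
  ext i j
  have h2 := congrFun h1 ![i, j]
  have h3 := kr_two (we P P' k) (Om e Q) ![i, j]
  rw [show mt (Om e Q) = fun J => Om e Q (J 0) (J 1) from rfl, h3] at h2
  simpa using h2

/-- The Hermitian form. -/
def hh (e : Basis (Fin n) ℚ V) (Q : V →ₗ[ℚ] V →ₗ[ℚ] ℚ) (P P' : Matrix (Fin n) (Fin n) ℂ)
    (k : Fin n → ℤ) (z w : Fin n → ℂ) : ℂ := (z ᵥ* (we P P' k * Om e Q)) ⬝ᵥ star w

lemma hh_add_left (z z' w : Fin n → ℂ) :
    hh e Q P P' k (z + z') w = hh e Q P P' k z w + hh e Q P P' k z' w := by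
  rw [hh, Matrix.add_vecMul, add_dotProduct]
  rfl

lemma hh_add_right (z w w' : Fin n → ℂ) :
    hh e Q P P' k z (w + w') = hh e Q P P' k z w + hh e Q P P' k z w' := by
  rw [hh, star_add, dotProduct_add]
  rfl

lemma hh_smul_left (c : ℂ) (z w : Fin n → ℂ) :
    hh e Q P P' k (c • z) w = c * hh e Q P P' k z w := by
  rw [hh, Matrix.smul_vecMul, smul_dotProduct]
  rfl

lemma hh_smul_right (c : ℂ) (z w : Fin n → ℂ) :
    hh e Q P P' k z (c • w) = star c * hh e Q P P' k z w := by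
  rw [hh, star_smul, dotProduct_smul]
  rfl

/-- The imaginary part. -/
def EE (e : Basis (Fin n) ℚ V) (Q : V →ₗ[ℚ] V →ₗ[ℚ] ℚ) (P P' : Matrix (Fin n) (Fin n) ℂ)
    (k : Fin n → ℤ) : (Fin n → ℂ) →ₗ[ℝ] (Fin n → ℂ) →ₗ[ℝ] ℝ :=
  LinearMap.mk₂ ℝ (fun z w => (hh e Q P P' k z w).im)
    (fun z z' w => by rw [hh_add_left, Complex.add_im])
    (fun c z w => by
      rw [show c • z = (c : ℂ) • z from rfl, hh_smul_left, Complex.im_ofReal_mul, smul_eq_mul])
    (fun z w w' => by rw [hh_add_right, Complex.add_im])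
    (fun c z w => by
      rw [show c • w = (c : ℂ) • w from rfl, hh_smul_right, Complex.star_def,
        Complex.conj_ofReal, Complex.im_ofReal_mul, smul_eq_mul])

lemma EE_apply (z w : Fin n → ℂ) : EE e Q P P' k z w = (hh e Q P P' k z w).im := rfl

include hd in
lemma EE_pr (x y : V × V) : EE e Q P P' k (pr e P P' k x) (pr e P P' k y) = dbl Q x y := by
  have hCr : ∀ i j, (we P P' k i j).im = 0 := hd.real
  have hKr : ∀ i j, ((we P P' k * Om e Q) i j).im = 0 := mul_im hCr Om_im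
  have hstar : star (pr e P P' k y) = cv e y.1 + Complex.I • (cv e y.2 ᵥ* we P P' k) := by
    rw [pr_apply, star_sub, star_smul, star_of_im (cv_im y.1),
      star_of_im (vecMul_im hCr (cv_im y.2)), Complex.star_def, Complex.conj_I, neg_smul,
      sub_neg_eq_add]
  have hT1 : (cv e x.1 ᵥ* (we P P' k * Om e Q)) ⬝ᵥ (cv e y.2 ᵥ* we P P' k) =
      ((Q x.1 y.2 : ℚ) : ℂ) := by
    rw [cv_Om (e := e), ← Matrix.mulVec_transpose (we P P' k) (cv e y.2),
      Matrix.dotProduct_mulVec, Matrix.vecMul_vecMul, hd.iso]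
  have hT2 : ((cv e x.2 ᵥ* we P P' k) ᵥ* (we P P' k * Om e Q)) ⬝ᵥ cv e y.1 =
      ((Q y.1 x.2 : ℚ) : ℂ) := by
    rw [Matrix.vecMul_vecMul, ← mul_assoc, hd.sq, ← Matrix.vecMul_vecMul, ← cv_mW,
      ← cv_Om, hd.eps (ε x.2) y.1, hd.eps2]
  have hT3 : ((cv e x.1 ᵥ* (we P P' k * Om e Q)) ⬝ᵥ cv e y.1).im = 0 :=
    dot_im (vecMul_im hKr (cv_im x.1)) (cv_im y.1)
  have hT4 : (((cv e x.2 ᵥ* we P P' k) ᵥ* (we P P' k * Om e Q)) ⬝ᵥ
      (cv e y.2 ᵥ* we P P' k)).im = 0 :=
    dot_im (vecMul_im hKr (vecMul_im hCr (cv_im x.2))) (vecMul_im hCr (cv_im y.2))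
  have h1 : hh e Q P P' k (pr e P P' k x) (pr e P P' k y) =
      (cv e x.1 ᵥ* (we P P' k * Om e Q)) ⬝ᵥ cv e y.1 +
      Complex.I * ((cv e x.1 ᵥ* (we P P' k * Om e Q)) ⬝ᵥ (cv e y.2 ᵥ* we P P' k)) -
      Complex.I * (((cv e x.2 ᵥ* we P P' k) ᵥ* (we P P' k * Om e Q)) ⬝ᵥ cv e y.1) -
      Complex.I * Complex.I * (((cv e x.2 ᵥ* we P P' k) ᵥ* (we P P' k * Om e Q)) ⬝ᵥ
        (cv e y.2 ᵥ* we P P' k)) := by
    rw [hh, hstar, pr_apply, Matrix.sub_vecMul, Matrix.smul_vecMul, sub_dotProduct,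
      dotProduct_add, dotProduct_add, dotProduct_smul, smul_dotProduct, dotProduct_smul,
      smul_dotProduct]
    simp only [smul_eq_mul]
    ring
  rw [EE_apply, h1, hT1, hT2, Complex.I_mul_I, Complex.sub_im, Complex.sub_im, Complex.add_im,
    hT3, Complex.I_mul_im, Complex.I_mul_im, neg_one_mul, Complex.neg_im, hT4, Complex.ratCast_re,
    Complex.ratCast_re, dbl_apply]
  push_cast
  ring

lemma EE_inv (z : ℂ) (hz : ‖z‖ = 1) (u v : Fin n → ℂ) :
    EE e Q P P' k (z • u) (z • v) = EE e Q P P' k u v := by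
  rw [EE_apply, EE_apply, hh_smul_left, hh_smul_right, ← mul_assoc]
  have h1 : z * star z = 1 := by
    rw [Complex.star_def, Complex.mul_conj, Complex.normSq_eq_norm_sq, hz]
    norm_num
  rw [h1, one_mul]

include hd in
lemma EE_self (u : Fin n → ℂ) : EE e Q P P' k u u = 0 := by
  rw [EE_apply]
  by_cases h : u = 0
  · rw [h, hh, Matrix.zero_vecMul, zero_dotProduct, Complex.zero_im]
  · have := (Complex.lt_def.1 (hd.pos u h)).2
    exact this.symm

include hd in
lemma EE_pos (u : Fin n → ℂ) (h : u ≠ 0) : 0 < EE e Q P P' k (Complex.I • u) u := by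
  rw [EE_apply, hh_smul_left, Complex.I_mul_im]
  exact (Complex.lt_def.1 (hd.pos u h)).1

/-- Sums of the vectors of the basis. -/
lemma sum_vv (c : Fin n ⊕ Fin n → ℝ) : ∑ i, c i • pr e P P' k (e2 e i) =
    (fun j => (c (Sum.inl j) : ℂ)) -
      Complex.I • ((fun j => (c (Sum.inr j) : ℂ)) ᵥ* we P P' k) := by
  have h1 : ∀ i, pr e P P' k (e2 e (Sum.inl i)) = Pi.single i 1 := by
    intro i
    rw [pr_apply, e2_inl, cv_basis, cv_zero, Matrix.zero_vecMul, smul_zero, sub_zero]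
  have h2 : ∀ i, pr e P P' k (e2 e (Sum.inr i)) = -(Complex.I • we P P' k i) := by
    intro i
    rw [pr_apply, e2_inr, cv_basis, cv_zero, zero_sub, Matrix.single_one_vecMul]
    rfl
  rw [Fintype.sum_sum_type, sub_eq_add_neg]
  congr 1
  · funext j
    rw [Finset.sum_apply, Finset.sum_eq_single j]
    · rw [h1, Pi.smul_apply, Pi.single_eq_same]
      simp
    · intro i _ hi
      rw [h1, Pi.smul_apply, Pi.single_eq_of_ne (Ne.symm hi), smul_zero]
    · intro h
      exact absurd (Finset.mem_univ _) h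
  · funext j
    rw [Finset.sum_apply, Pi.neg_apply, Pi.smul_apply, Matrix.vecMul, dotProduct, smul_eq_mul,
      Finset.mul_sum, ← Finset.sum_neg_distrib]
    refine Finset.sum_congr rfl fun i _ => ?_
    rw [h2, Pi.smul_apply, Pi.neg_apply, Pi.smul_apply, smul_eq_mul, Complex.real_smul]
    ring

include hd in
lemma we_inv : we P P' k * (we P P' k * mW e ε) = 1 := by
  rw [← mul_assoc, hd.sq, hd.eps2m]

include hd in
lemma vv_indep : LinearIndependent ℝ (fun i => pr e P P' k (e2 e i)) := by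
  rw [Fintype.linearIndependent_iff]
  intro c hc
  rw [sum_vv] at hc
  have hr : ∀ j, (((fun j => (c (Sum.inr j) : ℂ)) ᵥ* we P P' k) j).im = 0 :=
    vecMul_im hd.real fun i => Complex.ofReal_im _
  have h1 : ∀ j, (c (Sum.inl j) : ℂ) =
      Complex.I * ((fun j => (c (Sum.inr j) : ℂ)) ᵥ* we P P' k) j := by
    intro j
    have h2 := congrFun hc j
    rw [Pi.sub_apply, Pi.smul_apply, Pi.zero_apply, sub_eq_zero] at h2
    exact h2
  have h2 : (fun j => (c (Sum.inr j) : ℂ)) ᵥ* we P P' k = 0 := by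
    funext j
    apply Complex.ext
    · have h3 := congrArg Complex.im (h1 j)
      rw [Complex.I_mul_im, Complex.ofReal_im] at h3
      exact h3.symm
    · exact hr j
  have h3 : (fun j => (c (Sum.inr j) : ℂ)) = 0 := by
    calc (fun j => (c (Sum.inr j) : ℂ)) =
        (fun j => (c (Sum.inr j) : ℂ)) ᵥ* (1 : Matrix (Fin n) (Fin n) ℂ) :=
          (Matrix.vecMul_one _).symm
      _ = 0 := by rw [← we_inv hd, ← Matrix.vecMul_vecMul, h2, Matrix.zero_vecMul]
  rintro (j | j)
  · have h4 := h1 j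
    rw [h2, Pi.zero_apply, mul_zero] at h4
    exact_mod_cast h4
  · have h4 := congrFun h3 j
    rw [Pi.zero_apply] at h4
    exact_mod_cast h4

/-- The real basis. -/
def rb (hd : HD e Q ε P P' k) : Basis (Fin n ⊕ Fin n) ℝ (Fin n → ℂ) :=
  Basis.mk (vv_indep hd) (LinearIndependent.span_eq_top_of_card_eq_finrank' (vv_indep hd) (by
    rw [finrank_real_of_complex, Module.finrank_fin_fun, Fintype.card_sum, Fintype.card_fin]
    ring)).ge

lemma rb_apply (i : Fin n ⊕ Fin n) : rb hd i = pr e P P' k (e2 e i) := by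
  rw [rb, Basis.mk_apply]

/-- The frame. -/
theorem exists_frame_hd : ∃ (S S' : Matrix (Fin n ⊕ Fin n) (Fin n ⊕ Fin n) ℂ),
      Frame (pr e P P' k) (dbl Q) (e2 e) (rb hd) (fun _ => ()) Sum.swap
        (Sum.elim (fun _ => 1) (fun _ => -1)) S S' :=
  exists_frame_of (Module.finrank_fin_fun ℂ) _ _ _ _ (rb_apply hd) (EE e Q P P' k) (EE_pr hd)
    EE_inv (EE_self hd) (EE_pos hd)

/-- The complex structure. -/
lemma Nz_eq : Nz (rb hd) (-Complex.I) = mW (e2 e) (tau ε) * bd (we P P' k) := by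
  let N₀ : Matrix (Fin n ⊕ Fin n) (Fin n ⊕ Fin n) ℂ :=
    Matrix.fromBlocks 0 (mW e ε * we P P' k) (-we P P' k) 0
  have h1 : mW (e2 e) (tau ε) * bd (we P P' k) = N₀ := by
    have h2 : mW (e2 e) (tau ε) = Matrix.fromBlocks 0 (mW e ε) (-1) 0 := by
      ext i j
      rw [mW]
      rcases i with i | i
      · rw [e2_inl, tau_apply]
        rcases j with j | j
        · simp [e2]
        · simp [e2, mW]
      · rw [e2_inr, tau_apply]
        rcases j with j | j
        · simp [e2, Finsupp.single_apply, Matrix.one_apply]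
          by_cases h : i = j
          · simp [h]
          · simp [h]
        · simp [e2]
    rw [h2, Matrix.fromBlocks_multiply]
    simp only [Matrix.zero_mul, Matrix.mul_zero, zero_add, add_zero, neg_mul, one_mul, neg_zero,
      N₀]
  have hreal : ∀ i j, (N₀ i j).im = 0 := by
    rintro (i | i) (j | j)
    · rfl
    · exact mul_im (mW_im ε) hd.real i j
    · change (-(we P P' k) i j).im = 0
      rw [Complex.neg_im, hd.real, neg_zero]
    · rfl
  rw [h1]
  ext i j
  rw [Nz]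
  have h3 : -Complex.I • rb hd i = ∑ l, (N₀ i l).re • rb hd l := by
    simp only [rb_apply]
    rw [sum_vv]
    have h4 : ∀ l, (((N₀ i l).re : ℝ) : ℂ) = N₀ i l := fun l => by
      apply Complex.ext
      · simp
      · simp [hreal i l]
    simp only [h4]
    rcases i with i | i
    · have h5 : (fun j => N₀ (Sum.inl i) (Sum.inl j)) = 0 := rfl
      have h6 : (fun j => N₀ (Sum.inl i) (Sum.inr j)) = (mW e ε * we P P' k) i := rfl
      have h7 : (mW e ε * we P P' k) i ᵥ* we P P' k = Pi.single i 1 := by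
        have h8 : mW e ε * we P P' k * we P P' k = 1 := by
          rw [mul_assoc, hd.sq, hd.eps2m]
        rw [← Matrix.mul_apply_eq_vecMul, h8]
        funext j
        rw [Matrix.one_apply, Pi.single_apply]
        by_cases h10 : i = j
        · rw [if_pos h10, if_pos h10.symm]
        · rw [if_neg h10, if_neg (Ne.symm h10)]
      rw [h5, h6, h7, pr_apply, e2_inl, cv_basis, cv_zero, Matrix.zero_vecMul, smul_zero,
        sub_zero, zero_sub, neg_smul]
    · have h5 : (fun j => N₀ (Sum.inr i) (Sum.inr j)) = 0 := rfl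
      have h6 : (fun j => N₀ (Sum.inr i) (Sum.inl j)) = -we P P' k i := rfl
      rw [h5, h6, Matrix.zero_vecMul, smul_zero, sub_zero, pr_apply, e2_inr, cv_basis, cv_zero,
        zero_sub, Matrix.single_one_vecMul, neg_smul, smul_neg, neg_neg, smul_smul,
        Complex.I_mul_I, neg_one_smul]
      rfl
  rw [h3, Basis.repr_sum_self]
  apply Complex.ext
  · simp
  · simp [hreal i j]

end

end Pool.Agent.X259.U
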