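import Pool.Agent.X259.U.U8

/-!
# One power decides, for polarized Hodge structures in coordinates
-/

set_option autoImplicit false
set_option linter.unusedSectionVars false
set_option linter.unusedDecidableInType false
set_option linter.unusedFintypeInType false

namespace Pool.Agent.X259.U

open Matrix Finset Module Pool.Agent.H204R3.SP Pool.Agent.H204R3.GP Pool.Agent.W516
  Pool.Agent.X259.T
open scoped ComplexOrder

noncomputable section

/-- The numerical bound. -/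
lemma num_gen' {d w m : ℕ} (hd : 2 ≤ d) (hw : 1 ≤ w) (hm : (d * w) ^ (4 * d + 9) ≤ m) :
    ((m : ℝ) + 1) ^ (d * d) *
      ((d : ℝ) - 2 * (1 - Real.cos (2 * Real.pi / (4 * (d * (w * d)) ^ d * d : ℕ)))) ^ (2 * m) <
        (d : ℝ) ^ (2 * m) := by
  have hd0 : (0 : ℝ) < d := by
    have : 0 < d := by omega
    exact_mod_cast this
  have hd2 : (2 : ℝ) ≤ d := by exact_mod_cast hd
  have hw1 : (1 : ℝ) ≤ w := by exact_mod_cast hw
  obtain ⟨e, he⟩ : ∃ e : ℕ, e = d * w := ⟨_, rfl⟩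
  rw [← he] at hm
  have heR : (e : ℝ) = d * w := by rw [he]; push_cast; ring
  have hde : (d : ℝ) ≤ e := by rw [heR]; nlinarith
  have he2 : (2 : ℝ) ≤ e := hd2.trans hde
  have he0 : (0 : ℝ) < e := by linarith
  set N : ℕ := 4 * (d * (w * d)) ^ d * d with hN
  have hN4 : 4 ≤ N := by
    rw [hN]
    have h1 : 1 ≤ (d * (w * d)) ^ d * d := by
      have : 0 < d := by omega
      exact Nat.succ_le_of_lt (by positivity)
    nlinarith
  have hNR : (4 : ℝ) ≤ N := by exact_mod_cast hN4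
  have hN0 : (0 : ℝ) < N := by linarith
  have hNsq : (N : ℝ) ^ 2 ≤ 16 * (e : ℝ) ^ (4 * d + 2) := by
    have h1 : (N : ℝ) = 4 * (d * e : ℝ) ^ d * d := by
      rw [hN, heR]
      push_cast
      ring
    have h2 : (N : ℝ) ≤ 4 * (e * e : ℝ) ^ d * e := by
      rw [h1]
      have h3 : (d * e : ℝ) ^ d ≤ (e * e : ℝ) ^ d :=
        pow_le_pow_left₀ (by positivity) (mul_le_mul_of_nonneg_right hde he0.le) _
      exact mul_le_mul (mul_le_mul_of_nonneg_left h3 (by norm_num)) hde hd0.le (by positivity)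
    calc (N : ℝ) ^ 2 ≤ (4 * (e * e : ℝ) ^ d * e) ^ 2 := pow_le_pow_left₀ hN0.le h2 2
      _ = _ := by ring
  have hx0 : 0 ≤ 2 * Real.pi / N := by positivity
  have hcos1 : 8 / (N : ℝ) ^ 2 ≤ 1 - Real.cos (2 * Real.pi / N) := by
    have h1 := Real.cos_le_one_sub_mul_cos_sq (x := 2 * Real.pi / N) (by
      rw [abs_of_nonneg hx0, div_le_iff₀ hN0]
      have := Real.pi_pos
      nlinarith)
    have h2 : 2 / Real.pi ^ 2 * (2 * Real.pi / N) ^ 2 = 8 / (N : ℝ) ^ 2 := by
      have := Real.pi_ne_zero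
      field_simp
      ring
    rw [h2] at h1
    linarith
  refine num_of_log (by omega) ?_ ?_
  · have := Real.neg_one_le_cos (2 * Real.pi / N)
    have h1 : 0 ≤ Real.cos (2 * Real.pi / N) := by
      apply Real.cos_nonneg_of_neg_pi_div_two_le_of_le
      · have := Real.pi_pos
        linarith
      · rw [div_le_div_iff₀ hN0 (by norm_num)]
        have := Real.pi_pos
        nlinarith
    linarith
  have hM0 : 0 < e ^ (4 * d + 9) := by
    have : 0 < e := by exact_mod_cast he0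
    positivity
  have hlog : Real.log (((e ^ (4 * d + 9) : ℕ) : ℝ) + 1) < 2 * (e : ℝ) ^ 4 := by
    have h1 : (((e ^ (4 * d + 9) : ℕ) : ℝ) + 1) ≤ (e : ℝ) ^ (4 * d + 10) := by
      have h2 : (1 : ℝ) ≤ (e : ℝ) ^ (4 * d + 9) := one_le_pow₀ (by linarith)
      have h3 : (e : ℝ) ^ (4 * d + 10) = (e : ℝ) ^ (4 * d + 9) * e := pow_succ _ _
      rw [h3]
      push_cast
      nlinarith
    have h2 : Real.log (((e ^ (4 * d + 9) : ℕ) : ℝ) + 1) ≤ (4 * d + 10) * Real.log e := by
      have h3 := Real.log_le_log (by positivity) h1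
      rw [Real.log_pow] at h3
      push_cast at h3 ⊢
      exact h3
    have h3 : Real.log e ≤ e - 1 := Real.log_le_sub_one_of_pos he0
    have h4 : (4 * (d : ℝ) + 10) * Real.log e ≤ (4 * e + 10) * (e - 1) :=
      mul_le_mul (by linarith) h3 (Real.log_nonneg (by linarith)) (by positivity)
    have h5 : (4 * (e : ℝ) + 10) * (e - 1) < 2 * (e : ℝ) ^ 4 := by
      have h6 : (4 : ℝ) ≤ (e : ℝ) ^ 2 := by nlinarith
      nlinarith
    linarith
  have h1 : (d : ℝ) * d * Real.log (((e ^ (4 * d + 9) : ℕ) : ℝ) + 1) <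
      (32 / (d * (N : ℝ) ^ 2)) * ((e ^ (4 * d + 9) : ℕ) : ℝ) := by
    have h2 : (e : ℝ) * e * (2 * (e : ℝ) ^ 4) ≤
        (32 / (d * (N : ℝ) ^ 2)) * ((e ^ (4 * d + 9) : ℕ) : ℝ) := by
      have h3 : 32 / (e * (16 * (e : ℝ) ^ (4 * d + 2))) ≤ 32 / (d * (N : ℝ) ^ 2) := by
        refine div_le_div_of_nonneg_left (by norm_num) (by positivity) ?_
        exact mul_le_mul hde hNsq (by positivity) he0.le
      calc (e : ℝ) * e * (2 * (e : ℝ) ^ 4) =
          32 / (e * (16 * (e : ℝ) ^ (4 * d + 2))) * ((e ^ (4 * d + 9) : ℕ) : ℝ) := by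
            push_cast
            rw [div_mul_eq_mul_div, eq_div_iff (by positivity)]
            ring
        _ ≤ _ := mul_le_mul_of_nonneg_right h3 (by positivity)
    refine lt_of_lt_of_le ?_ h2
    have hlog0 : 0 ≤ Real.log (((e ^ (4 * d + 9) : ℕ) : ℝ) + 1) :=
      Real.log_nonneg (by
        have : (0 : ℝ) ≤ ((e ^ (4 * d + 9) : ℕ) : ℝ) := Nat.cast_nonneg _
        linarith)
    calc (d : ℝ) * d * Real.log (((e ^ (4 * d + 9) : ℕ) : ℝ) + 1) ≤
        (e : ℝ) * e * Real.log (((e ^ (4 * d + 9) : ℕ) : ℝ) + 1) :=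
          mul_le_mul_of_nonneg_right (mul_le_mul hde hde hd0.le he0.le) hlog0
      _ < _ := mul_lt_mul_of_pos_left hlog (by positivity)
  have h2 := log_mono hM0 (by positivity) h1 hm
  refine lt_of_lt_of_le h2 ?_
  have h3 : 2 * (m : ℝ) * (2 * (1 - Real.cos (2 * Real.pi / N)) / d) =
      (4 / d) * m * (1 - Real.cos (2 * Real.pi / N)) := by ring
  have h4 : 32 / (d * (N : ℝ) ^ 2) * m = (4 / d) * m * (8 / (N : ℝ) ^ 2) := by
    field_simp
    ring
  rw [h3, h4]
  exact mul_le_mul_of_nonneg_left hcos1 (by positivity)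

variable {V : Type} [AddCommGroup V] [Module ℚ V] {n : ℕ}
  {e : Basis (Fin n) ℚ V} {Q : V →ₗ[ℚ] V →ₗ[ℚ] ℚ} {ε : Module.End ℚ V}
  {P P' : Matrix (Fin n) (Fin n) ℂ} {k : Fin n → ℤ} (hd : HD e Q ε P P' k)

/-- The weights on `V × V`. -/
abbrev k2 (k : Fin n → ℤ) : Fin n ⊕ Fin n → ℤ := Sum.elim k k

lemma bd_mul (X Y : Matrix (Fin n) (Fin n) ℂ) : bd X * bd Y = bd (X * Y) := by
  rw [Matrix.fromBlocks_multiply]
  simp

lemma bd_one : bd (1 : Matrix (Fin n) (Fin n) ℂ) = 1 := Matrix.fromBlocks_one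

lemma bd_wt : bd (wt P P' k) = wt (bd P) (bd P') (k2 k) := by
  rw [wt, wt]
  have h1 : Matrix.diagonal (fun x => Complex.I * (k2 k x : ℂ)) =
      bd (Matrix.diagonal (fun x => Complex.I * (k x : ℂ))) := by
    rw [bd, Matrix.fromBlocks_diagonal]
    congr 1
    funext x
    rcases x with x | x <;> rfl
  rw [h1, bd_mul, bd_mul]

lemma bd_we : bd (we P P' k) = we (bd P) (bd P') (k2 k) := by
  rw [we, we]
  have h1 : Matrix.diagonal (fun x => Complex.I ^ (k2 k x)) =
      bd (Matrix.diagonal (fun x => Complex.I ^ (k x))) := by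
    rw [bd, Matrix.fromBlocks_diagonal]
    congr 1
    funext x
    rcases x with x | x <;> rfl
  rw [h1, bd_mul, bd_mul]

include hd in
lemma HD.h2 : bd P' * bd P = 1 := by rw [bd_mul, hd.h, bd_one]

include hd in
lemma HD.h2' : bd P * bd P' = 1 := by rw [bd_mul, hd.h', bd_one]

include hd in
/-- Nondegeneracy. -/
lemma HD.nd (x : V) (hx : ∀ v, Q v x = 0) : x = 0 := by
  obtain ⟨S, S', hf⟩ := exists_frame_hd hd
  have h1 : ((0, x) : V × V) = 0 := by
    refine om_nd hf fun y => ?_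
    rw [dbl_apply]
    change Q 0 y.2 - Q y.1 x = 0
    rw [map_zero, LinearMap.zero_apply, hx, sub_zero]
  exact congrArg Prod.snd h1

section family

variable {ι : Type} [Fintype ι] [DecidableEq ι] {γ γ' : ι → V}
  (hγ : ∀ v : V, v = ∑ i, Q v (γ' i) • γ i)

include hd hγ in
lemma star_lift {C : ∀ m : ℕ, Submodule ℚ (RF V m)} (hC : Closed Q γ γ' C)
    (hCB : ∀ m, C m ≤ Ann e (wt P P' k) m) : StarStable (e2 e) (rb hd) (Lift C) := by
  intro m F hF
  refine ⟨_, lift_tau hC hγ hd.eps hd.eps2 hF, ?_⟩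
  rw [Nz_eq hd, kr_mul, ← Matrix.mulVec_mulVec]
  have h1 : dk (Fin m × Fin 2) (bd (wt P P' k)) *ᵥ gt (e2 e) F = 0 :=
    (defBy_lift e (wt P P' k) m F).1 fun t => hCB m (hF t)
  rw [bd_wt] at h1
  rw [bd_we, kr_of_dk hd.h2 hd.h2' (k2 k) h1, kr_mW]

include hd hγ in
lemma ann_closed' : Closed Q γ γ' (Ann e (wt P P' k)) :=
  closed_ann hd.h hd.h' hd.inv hγ

include hd hγ in
/-- Endomorphisms whose form is in the family are in the commutant. -/
lemma incomm_of_form (Z' : Module.End ℚ (V × V))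
    (hZ' : DR.one2 ((dbl Q).comp Z') ∈ Lift (Ann e (wt P P' k)) 1) :
    InComm (Lift (Ann e (wt P P' k))) Z' := by
  obtain ⟨S, S', hf⟩ := exists_frame_hd hd
  have hcl := lift_closed (ann_closed' hd hγ)
  intro Z hZ
  have hsk := LB_skew (ω₀ := dbl Q) hcl.pol hZ
  have h1 := (DR.kills_one2 ((dbl Q).comp Z') Z).1 (hZ 1 _ hZ')
  refine LinearMap.ext fun x => ?_
  rw [← sub_eq_zero]
  refine om_nd hf fun y => ?_
  have h2 := h1 x y
  simp only [LinearMap.comp_apply] at h2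
  have h3 := hsk (Z' x) y
  rw [Module.End.mul_apply, Module.End.mul_apply, map_sub, LinearMap.sub_apply]
  linarith

include hd hγ in
lemma tau_incomm : InComm (Lift (Ann e (wt P P' k))) (tau ε) := by
  refine incomm_of_form hd hγ _ fun t => ?_
  have hQ : DR.one2 Q ∈ Ann e (wt P P' k) 1 :=
    (ann_closed' hd hγ).pol _ fun v => DR.one2_apply Q v
  have h0 : ∀ v : Fin 1 × Fin 2 → V, cpt (DR.one2 ((dbl Q).comp (tau ε))) t v =
      dbl Q (tau ε (inj (t (0, 0)) (v (0, 0)))) (inj (t (0, 1)) (v (0, 1))) := by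
    intro v
    rw [cpt_apply, DR.one2_apply, LinearMap.comp_apply]
  rcases h1 : t (0, 0) with _ | _ <;> rcases h2 : t (0, 1) with _ | _ <;> rw [h1, h2] at h0
  · have h3 : cpt (DR.one2 ((dbl Q).comp (tau ε))) t = -DR.one2 Q := by
      ext v
      rw [h0, _root_.neg_apply, DR.one2_apply, dbl_apply, tau_apply, inj_false, inj_false]
      change Q (-0) 0 - Q (v (0, 1)) (ε (v (0, 0))) = _
      rw [← hd.eps, map_zero, zero_sub]
    rw [h3]
    exact Submodule.neg_mem _ hQ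
  · have h3 : cpt (DR.one2 ((dbl Q).comp (tau ε))) t = 0 := by
      ext v
      rw [h0, dbl_apply, tau_apply, inj_false, inj_true]
      change Q (-0) (v (0, 1)) - Q 0 (ε (v (0, 0))) = 0
      rw [neg_zero, map_zero, LinearMap.zero_apply, LinearMap.zero_apply, sub_zero]
    rw [h3]
    exact Submodule.zero_mem _
  · have h3 : cpt (DR.one2 ((dbl Q).comp (tau ε))) t = 0 := by
      ext v
      rw [h0, dbl_apply, tau_apply, inj_false, inj_true]
      change Q (-(v (0, 0))) 0 - Q (v (0, 1)) (ε 0) = 0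
      rw [map_zero, map_zero, map_zero, sub_zero]
    rw [h3]
    exact Submodule.zero_mem _
  · have h3 : cpt (DR.one2 ((dbl Q).comp (tau ε))) t = -DR.one2 Q := by
      ext v
      rw [h0, _root_.neg_apply, DR.one2_apply, dbl_apply, tau_apply, inj_true, inj_true]
      change Q (-(v (0, 0))) (v (0, 1)) - Q 0 (ε 0) = _
      rw [map_neg, LinearMap.neg_apply, map_zero, LinearMap.zero_apply, sub_zero]
    rw [h3]
    exact Submodule.neg_mem _ hQ

include hd hγ in
/-- The centre commutes with the complex structure. -/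
lemma comm_Nz {X : Module.End ℚ (V × V)} (hX : InComm (Lift (Ann e (wt P P' k))) X)
    (hXz : ∀ Y, InComm (Lift (Ann e (wt P P' k))) Y → X * Y = Y * X) :
    Nz (rb hd) (-Complex.I) * mW (e2 e) X = mW (e2 e) X * Nz (rb hd) (-Complex.I) := by
  have h1 : bd (wt P P' k) * mW (e2 e) X = mW (e2 e) X * bd (wt P P' k) :=
    (comm_iff (e2 e) _ X).2 fun lam =>
      (hX _ (cmE_mem_LB (defBy_lift e (wt P P' k)) lam)).symm
  have h2 : bd (we P P' k) * mW (e2 e) X = mW (e2 e) X * bd (we P P' k) := by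
    rw [bd_wt] at h1
    rw [bd_we]
    exact we_comm hd.h2 hd.h2' (k2 k) h1
  have h3 : mW (e2 e) (tau ε) * mW (e2 e) X = mW (e2 e) X * mW (e2 e) (tau ε) := by
    rw [← mW_comp, ← mW_comp, hXz _ (tau_incomm hd hγ)]
  rw [Nz_eq hd]
  calc _ = mW (e2 e) (tau ε) * (bd (we P P' k) * mW (e2 e) X) := by simp only [mul_assoc]
    _ = (mW (e2 e) (tau ε) * mW (e2 e) X) * bd (we P P' k) := by rw [h2]; simp only [mul_assoc]
    _ = _ := by rw [h3]; simp only [mul_assoc]

/-- The form on `V × V` given by a form on `V`. -/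
lemma mem_of_lift {C : ∀ m : ℕ, Submodule ℚ (RF V m)} {m : ℕ} {ψ : RF V m}
    (h : ψ.compLinearMap (fun _ => LinearMap.fst ℚ V V) ∈ Lift C m) : ψ ∈ C m := h fun _ => false

lemma lift_fst {C : ∀ m : ℕ, Submodule ℚ (RF V m)} {m : ℕ} {ψ : RF V m} (hψ : ψ ∈ C m) :
    ψ.compLinearMap (fun _ => LinearMap.fst ℚ V V) ∈ Lift C m := by
  intro t
  by_cases ht : ∀ k, t k = false
  · have h1 : cpt (ψ.compLinearMap (fun _ => LinearMap.fst ℚ V V)) t = ψ := by
      ext v
      rw [cpt_apply, MultilinearMap.compLinearMap_apply]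
      congr 1
      funext k
      rw [ht k]
      rfl
    rw [h1]
    exact hψ
  · obtain ⟨k, hk⟩ := not_forall.1 ht
    have hk' : t k = true := by simpa using hk
    have h1 : cpt (ψ.compLinearMap (fun _ => LinearMap.fst ℚ V V)) t = 0 := by
      ext v
      rw [cpt_apply, MultilinearMap.compLinearMap_apply]
      refine ψ.map_coord_zero k ?_
      rw [hk']
      rfl
    rw [h1]
    exact Submodule.zero_mem _

include hd hγ in
/-- **One power decides**, in coordinates. -/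
theorem one_power_hd {C : ∀ m : ℕ, Submodule ℚ (RF V m)} (hC : Closed Q γ γ' C)
    (hCB : ∀ m, C m ≤ Ann e (wt P P' k) m) {N₀ : ℕ} (hN : 4 ≤ N₀)
    (hZ : ∀ X : Module.End ℚ (V × V), InComm (Lift (Ann e (wt P P' k))) X →
      (∀ Y, InComm (Lift (Ann e (wt P P' k))) Y → X * Y = Y * X) →
      (∀ u v, dbl Q (X u) v = -dbl Q u (X v)) →
      (∀ m, 2 * m ≤ N₀ → ∀ ψ ∈ Lift (Ann e (wt P P' k)) m, Kills X ψ) →
      X ∈ LB (Lift (Ann e (wt P P' k)))) {m : ℕ} (hNm : N₀ ≤ 2 * m)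
    (hnum : ((m : ℝ) + 1) ^ (2 * n * (2 * n)) *
      (((2 * n : ℕ) : ℝ) - 2 * (1 - Real.cos (2 * Real.pi / N₀))) ^ (2 * m) <
        ((2 * n : ℕ) : ℝ) ^ (2 * m))
    (heq : Ann e (wt P P' k) m ≤ C m) (m' : ℕ) : Ann e (wt P P' k) m' ≤ C m' := by
  obtain ⟨S, S', hf⟩ := exists_frame_hd hd
  have hβ := dual_dbl hγ hd.nd
  have hB := ann_closed' hd hγ
  have hC2 := lift_closed hC
  have hB2 := lift_closed hB
  have hsC := star_lift hd hγ hC hCB
  have hsB := star_lift hd hγ hB fun m => le_refl _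
  have hBN := defBy_lift e (wt P P' k)
  have hBf := fam' hf (fun _ _ => rfl) hβ hB2 hsB
  have hdet := lieDet' hf hBN hBf hN hZ
  have hcard : Fintype.card (Fin n ⊕ Fin n) = 2 * n := by
    rw [Fintype.card_sum, Fintype.card_fin]
    ring
  have h1 := one_power_frame' hf (fun _ _ => rfl) hβ hC2 hsC hB2 hsB
    (fun m F hF t => hCB m (hF t)) (by omega) hdet hNm (by rw [hcard]; exact hnum)
    (fun F hF t => heq (hF t)) m'
  intro ψ hψ
  exact mem_of_lift (h1 (lift_fst hψ))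

include hd in
lemma trace_bd : (bd (wt P P' k)).trace = 0 := by
  rw [bd_wt, wt, Matrix.trace_mul_comm, ← mul_assoc, hd.h2, one_mul, Matrix.trace_diagonal,
    Fintype.sum_sum_type]
  have h1 : ∑ x : Fin n, Complex.I * (k2 k (Sum.inl x) : ℂ) = 0 := by
    rw [← Finset.mul_sum]
    have h2 : ∑ x : Fin n, (k2 k (Sum.inl x) : ℂ) = ((∑ x, k x : ℤ) : ℂ) := by
      push_cast
      rfl
    rw [h2, hd.trace, Int.cast_zero, mul_zero]
  have h2 : ∑ x : Fin n, Complex.I * (k2 k (Sum.inr x) : ℂ) = 0 := h1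
  rw [h1, h2, add_zero]

include hd hγ in
/-- **One power decides**, with the bound. -/
theorem one_power_gen {C : ∀ m : ℕ, Submodule ℚ (RF V m)} (hC : Closed Q γ γ' C)
    (hCB : ∀ m, C m ≤ Ann e (wt P P' k) m) (hn : 1 ≤ n) {w : ℕ} (hw1 : 1 ≤ w)
    (hw : ∀ x, |k x| ≤ w) {m : ℕ} (hm : (2 * n * w) ^ (8 * n + 9) ≤ m)
    (heq : Ann e (wt P P' k) m ≤ C m) (m' : ℕ) : Ann e (wt P P' k) m' ≤ C m' := by
  obtain ⟨S, S', hf⟩ := exists_frame_hd hd
  have hβ := dual_dbl hγ hd.nd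
  have hB := ann_closed' hd hγ
  have hB2 := lift_closed hB
  have hsB := star_lift hd hγ hB fun m => le_refl _
  have hBN := defBy_lift e (wt P P' k)
  have hBf := fam' hf (fun _ _ => rfl) hβ hB2 hsB
  have hcard : Fintype.card (Fin n ⊕ Fin n) = 2 * n := by
    rw [Fintype.card_sum, Fintype.card_fin]
    ring
  have hsp : SpecBound (bd (wt P P' k)) (w * (2 * n)) := by
    rw [bd_wt, ← hcard]
    refine spec_wt hd.h2 hd.h2' (k2 k) ?_
    rintro (x | x)
    · exact hw x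
    · exact hw x
  have hN4 : 4 ≤ 4 * (2 * n * (w * (2 * n))) ^ (2 * n) * (2 * n) := by
    have h1 : 1 ≤ (2 * n * (w * (2 * n))) ^ (2 * n) * (2 * n) :=
      Nat.succ_le_of_lt (by positivity)
    nlinarith
  refine one_power_hd hd hγ hC hCB hN4 (fun X hX hXz hsk hkill => ?_) ?_
    (num_gen' (by omega) hw1 (by convert hm using 2; ring)) heq m'
  · refine center_all'' hf hBN hBf hB2.pol (fun Y hY hYz => comm_Nz hd hγ hY hYz)
      (D := w * (2 * n)) (Nat.succ_le_of_lt (by positivity)) hsp (trace_bd hd) X hX hXz hsk ?_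
    intro m hm' ψ hψ
    rw [hcard] at hm'
    exact hkill m hm' ψ hψ
  · refine le_trans ?_ (Nat.mul_le_mul_left 2 hm)
    have h1 : (2 * n * (w * (2 * n))) ^ (2 * n) * (2 * n) ≤ (2 * n * w) ^ (4 * n + 1) := by
      have h2 : 2 * n * (w * (2 * n)) ≤ (2 * n * w) * (2 * n * w) := by
        have : 2 * n * (w * (2 * n)) = (2 * n * w) * (2 * n) := by ring
        rw [this]
        exact Nat.mul_le_mul_left _ (Nat.le_mul_of_pos_right _ hw1)
      calc _ ≤ ((2 * n * w) * (2 * n * w)) ^ (2 * n) * (2 * n * w) :=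
            Nat.mul_le_mul (Nat.pow_le_pow_left h2 _) (Nat.le_mul_of_pos_right _ hw1)
        _ = _ := (fun a : ℕ => (by ring : (a * a) ^ (2 * n) * a = a ^ (4 * n + 1))) _
    have h3 : (2 * n * w) ^ (8 * n + 9) = (2 * n * w) ^ (4 * n + 1) * (2 * n * w) ^ (4 * n + 8) := by
      rw [← pow_add]
      congr 1
      ring
    have h4 : 2 ≤ (2 * n * w) ^ (4 * n + 8) := by
      have h5 : 2 ≤ 2 * n * w := by
        have : 1 ≤ n * w := Nat.succ_le_of_lt (by positivity)
        nlinarith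
      exact le_trans h5 (Nat.le_self_pow (by omega) _)
    rw [h3, mul_assoc]
    calc 4 * ((2 * n * (w * (2 * n))) ^ (2 * n) * (2 * n)) ≤ 4 * (2 * n * w) ^ (4 * n + 1) :=
          Nat.mul_le_mul_left _ h1
      _ = 2 * ((2 * n * w) ^ (4 * n + 1) * 2) := by ring
      _ ≤ _ := Nat.mul_le_mul_left _ (Nat.mul_le_mul_left _ h4)

end family

end

end Pool.Agent.X259.U
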